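import Pool.Agent.Helper240.ZU.A3

/-! # Gaussian mean values of general Dirichlet polynomials -/

set_option autoImplicit false

open Complex Filter Topology Set MeasureTheory

namespace Pool.Agent.X107.MU

open ZU.J_a3

/-- the diagonal -/
noncomputable def dia {ι : Type*} (S : Finset ι) (ν : ι → ℕ) (x : ι → ℝ) : ℝ :=
  ∑ i ∈ S, ∑ j ∈ S, if ν i = ν j then x i * x j else 0

lemma cpow_I {n : ℕ} (hn : 1 ≤ n) (t : ℝ) : (n : ℂ) ^ (-(t * I)) = cexp (-(I * Real.log n * t)) := by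
  have h := gm_cpow 0 t n hn
  simp only [gr, zero_mul, neg_zero, Real.exp_zero, Complex.ofReal_zero, Complex.ofReal_one, zero_add,
    one_mul] at h
  exact h

lemma log_gap {X m n : ℕ} (hm : 1 ≤ m) (hmL : m ≤ X) (hn : 1 ≤ n) (hnL : n ≤ X) (h : m ≠ n) :
    1 / (X : ℝ) ≤ |Real.log n - Real.log m| := by
  rcases lt_or_gt_of_ne h with h | h
  · exact (gm_log hm hmL hn hnL h).trans (le_abs_self _)
  · rw [abs_sub_comm]
    exact (gm_log hn hnL hm hmL h).trans (le_abs_self _)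

/-- **the Gaussian mean value** -/
theorem gauss_fin {ι : Type*} (S : Finset ι) (ν : ι → ℕ) (X : ℕ) (hν : ∀ i ∈ S, 1 ≤ ν i ∧ ν i ≤ X)
    (x : ι → ℂ) (T : ℝ) (hT : 0 < T) :
    Integrable (fun t : ℝ => Real.exp (-(t / T) ^ 2) * ‖∑ i ∈ S, x i * (ν i : ℂ) ^ (-(t * I))‖ ^ 2) ∧
    ∫ t : ℝ, Real.exp (-(t / T) ^ 2) * ‖∑ i ∈ S, x i * (ν i : ℂ) ^ (-(t * I))‖ ^ 2 ≤
      √Real.pi * T * (dia S ν (fun i => ‖x i‖) +
        (∑ i ∈ S, ‖x i‖) ^ 2 * Real.exp (-(T ^ 2 / (4 * (X : ℝ) ^ 2)))) := by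
  classical
  have hint : ∀ i j : ι, Integrable fun t : ℝ => (x i * (starRingEnd ℂ) (x j)) *
        cexp (((-(1 / T ^ 2) : ℝ) : ℂ) * (t : ℂ) ^ 2 +
          (I * ((Real.log (ν j) - Real.log (ν i) : ℝ) : ℂ)) * t + 0) :=
    fun m n => (gm_int T _ hT).const_mul _
  have hexp : (fun t : ℝ => ((Real.exp (-(t / T) ^ 2) *
      ‖∑ i ∈ S, x i * (ν i : ℂ) ^ (-(t * I))‖ ^ 2 : ℝ) : ℂ)) = fun t : ℝ =>
      ∑ i ∈ S, ∑ j ∈ S, (x i * (starRingEnd ℂ) (x j)) *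
        cexp (((-(1 / T ^ 2) : ℝ) : ℂ) * (t : ℂ) ^ 2 +
          (I * ((Real.log (ν j) - Real.log (ν i) : ℝ) : ℂ)) * t + 0) := by
    funext t
    have h1 : ∑ i ∈ S, x i * (ν i : ℂ) ^ (-(t * I)) = ∑ i ∈ S, x i * cexp (-(I * Real.log (ν i) * t)) :=
      Finset.sum_congr rfl fun i hi => by rw [cpow_I (hν i hi).1 t]
    rw [h1, Complex.ofReal_mul, Complex.ofReal_pow, ← Complex.mul_conj', map_sum, Finset.sum_mul_sum,
      Finset.mul_sum]
    refine Finset.sum_congr rfl fun i _ => ?_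
    rw [Finset.mul_sum]
    refine Finset.sum_congr rfl fun j _ => ?_
    rw [map_mul, ← Complex.exp_conj]
    have e1 : (starRingEnd ℂ) (-(I * Real.log (ν j) * t)) = I * Real.log (ν j) * t := by
      simp only [map_neg, map_mul, Complex.conj_I, Complex.conj_ofReal]
      ring
    rw [e1, Complex.ofReal_exp]
    have e2 : (((-(1 / T ^ 2) : ℝ) : ℂ) * (t : ℂ) ^ 2 +
        (I * ((Real.log (ν j) - Real.log (ν i) : ℝ) : ℂ)) * t + 0) =
        ((-(t / T) ^ 2 : ℝ) : ℂ) + (-(I * Real.log (ν i) * t)) + (I * Real.log (ν j) * t) := by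
      push_cast
      ring
    rw [e2, Complex.exp_add, Complex.exp_add]
    ring
  have hI : Integrable (fun t : ℝ => ((Real.exp (-(t / T) ^ 2) *
      ‖∑ i ∈ S, x i * (ν i : ℂ) ^ (-(t * I))‖ ^ 2 : ℝ) : ℂ)) := by
    rw [hexp]
    exact integrable_finsetSum _ fun m _ => integrable_finsetSum _ fun n _ => hint m n
  have hIr : Integrable (fun t : ℝ => Real.exp (-(t / T) ^ 2) *
      ‖∑ i ∈ S, x i * (ν i : ℂ) ^ (-(t * I))‖ ^ 2) := hI.re
  refine ⟨hIr, ?_⟩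
  have hval : ((∫ t : ℝ, Real.exp (-(t / T) ^ 2) *
      ‖∑ i ∈ S, x i * (ν i : ℂ) ^ (-(t * I))‖ ^ 2 : ℝ) : ℂ) =
        ∑ i ∈ S, ∑ j ∈ S, (x i * (starRingEnd ℂ) (x j)) *
        ((√Real.pi * T * Real.exp (-(T ^ 2 * (Real.log (ν j) - Real.log (ν i)) ^ 2 / 4)) : ℝ) : ℂ) := by
    rw [← integral_complex_ofReal]
    rw [hexp, integral_finsetSum _ fun m _ => integrable_finsetSum _ fun n _ => hint m n]
    refine Finset.sum_congr rfl fun m _ => ?_
    rw [integral_finsetSum _ fun n _ => hint m n]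
    refine Finset.sum_congr rfl fun n _ => ?_
    rw [integral_const_mul, gm_val T _ hT]
  have hJ0 : 0 ≤ ∫ t : ℝ, Real.exp (-(t / T) ^ 2) * ‖∑ i ∈ S, x i * (ν i : ℂ) ^ (-(t * I))‖ ^ 2 :=
    integral_nonneg fun t => by positivity
  have hnorm : ∫ t : ℝ, Real.exp (-(t / T) ^ 2) * ‖∑ i ∈ S, x i * (ν i : ℂ) ^ (-(t * I))‖ ^ 2 =
      ‖((∫ t : ℝ, Real.exp (-(t / T) ^ 2) *
      ‖∑ i ∈ S, x i * (ν i : ℂ) ^ (-(t * I))‖ ^ 2 : ℝ) : ℂ)‖ := by
    rw [Complex.norm_real, Real.norm_of_nonneg hJ0]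
  rw [hnorm, hval]
  set q : ℝ := Real.exp (-(T ^ 2 / (4 * (X : ℝ) ^ 2))) with hq
  have hq0 : 0 ≤ q := (Real.exp_pos _).le
  have hterm : ∀ i ∈ S, ∀ j ∈ S, ‖(x i * (starRingEnd ℂ) (x j)) *
        ((√Real.pi * T * Real.exp (-(T ^ 2 * (Real.log (ν j) - Real.log (ν i)) ^ 2 / 4)) : ℝ) : ℂ)‖ ≤
      √Real.pi * T * ((if ν i = ν j then ‖x i‖ * ‖x j‖ else 0) + ‖x i‖ * ‖x j‖ * q) := by
    intro i hi j hj
    have hc : 0 ≤ √Real.pi * T := by positivity
    rw [norm_mul, norm_mul, Complex.norm_conj, Complex.norm_real, Real.norm_of_nonneg (by positivity)]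
    have hxx : 0 ≤ ‖x i‖ * ‖x j‖ := by positivity
    have key : ‖x i‖ * ‖x j‖ * Real.exp (-(T ^ 2 * (Real.log (ν j) - Real.log (ν i)) ^ 2 / 4)) ≤
        (if ν i = ν j then ‖x i‖ * ‖x j‖ else 0) + ‖x i‖ * ‖x j‖ * q := by
      by_cases hmn : ν i = ν j
      · rw [if_pos hmn, hmn, sub_self]
        simp only [ne_eq, OfNat.ofNat_ne_zero, not_false_eq_true, zero_pow, mul_zero, zero_div,
          neg_zero, Real.exp_zero, mul_one]
        have : 0 ≤ ‖x i‖ * ‖x j‖ * q := by positivity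
        linarith
      · rw [if_neg hmn, zero_add]
        have hw := log_gap (hν i hi).1 (hν i hi).2 (hν j hj).1 (hν j hj).2 hmn
        have hL0 : (0 : ℝ) < X := by
          have h1 := (hν i hi).1
          have h2 := (hν i hi).2
          exact_mod_cast (by omega : 0 < X)
        have hw2 : 1 / (X : ℝ) ^ 2 ≤ (Real.log (ν j) - Real.log (ν i)) ^ 2 := by
          rw [← sq_abs (Real.log (ν j) - Real.log (ν i)), ← one_div_pow]
          exact pow_le_pow_left₀ (by positivity) hw 2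
        refine mul_le_mul_of_nonneg_left ?_ hxx
        rw [hq]
        apply Real.exp_le_exp.2
        have h3 : T ^ 2 / (4 * (X : ℝ) ^ 2) = T ^ 2 * (1 / (X : ℝ) ^ 2) / 4 := by field_simp
        rw [h3]
        have h4 : T ^ 2 * (1 / (X : ℝ) ^ 2) ≤ T ^ 2 * (Real.log (ν j) - Real.log (ν i)) ^ 2 :=
          mul_le_mul_of_nonneg_left hw2 (sq_nonneg T)
        linarith
    calc _ = √Real.pi * T * (‖x i‖ * ‖x j‖ *
          Real.exp (-(T ^ 2 * (Real.log (ν j) - Real.log (ν i)) ^ 2 / 4))) := by ring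
      _ ≤ _ := mul_le_mul_of_nonneg_left key hc
  refine (norm_sum_le _ _).trans ((Finset.sum_le_sum fun i hi => (norm_sum_le _ _).trans
    (Finset.sum_le_sum fun j hj => hterm i hi j hj)).trans (le_of_eq ?_))
  unfold dia
  simp_rw [mul_add, Finset.sum_add_distrib, ← Finset.mul_sum]
  congr 1
  rw [sq, Finset.sum_mul_sum, Finset.sum_mul]
  congr 1
  refine Finset.sum_congr rfl fun i _ => ?_
  rw [Finset.sum_mul]

end Pool.Agent.X107.MU
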