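import Pool.Agent.X107.MU.MU9
import Pool.Agent.X107.UZ.UZ2

/-! # Product structure of the limit law -/

set_option autoImplicit false

open Filter Topology MeasureTheory Finset

namespace Pool.Agent.X107.MU

open Pool.Agent.X110.NA
open Pool.Agent.X107.UZ (kN pN pN_mem pN_prime pN_inj)
open Pool.Agent.H306R2 (aF aF_pos)

/-- the torus -/
def Xt (m : ℕ) : Set (Fin m → ℂ) := {x | ∀ j, ‖x j‖ = 1}

/-- the density of one prime -/
noncomputable def wj (s : ℝ) (q : ℕ) (y : ℝ) : ℝ := Wp s q y / Lf s 0 q 0 0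

lemma wj_pos {s : ℝ} (hs : 0 < s) {q : ℕ} (hq : q.Prime) (y : ℝ) : 0 < wj s q y :=
  div_pos (Wp_pos s hq y) (Lf_pos hs le_rfl hq 0 0)

lemma wj_cont (s : ℝ) {q : ℕ} (hq : q.Prime) : Continuous (wj s q) := (Wp_cont s hq).div_const _

/-- the limit law -/
noncomputable def Lam (s : ℝ) {m : ℕ} (p : Fin m → ℕ) (F : (Fin m → ℂ) → ℝ) : ℝ :=
  aF s * ∫ x in Set.Icc (0 : Fin m → ℝ) 1, (∏ j, wj s (p j) (x j)) * F fun j => ee (x j)

theorem law_real {s : ℝ} {Z0 : ℝ → ℝ → ℝ → ℝ → ℝ → ℕ} {Z : ℝ → ℝ → ℝ} {D : ℝ → Set ℝ} {c : ℝ → ℝ}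
    (h : Sys s Z0 Z D c) {m : ℕ} (p : Fin m → ℕ) (hp : ∀ j, (p j).Prime) (hinj : Function.Injective p)
    (F : (Fin m → ℂ) → ℝ) (hF : ContinuousOn F (Xt m)) :
    Tendsto (fun T => c T * ∫ t in D T, Z T t * F fun j => ee (t * (Real.log (p j) / (2 * Real.pi)))) atTop
      (𝓝 (Lam s p F)) := by
  have h1 := h.law m p hp hinj (fun x => ((F x : ℝ) : ℂ)) (Complex.continuous_ofReal.comp_continuousOn hF)
  have h2 := (Complex.continuous_re.tendsto _).comp h1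
  have e1 : ∀ T, (c T : ℂ) * ∫ t in D T, ((Z T t : ℝ) : ℂ) * ((F fun j => ee (t * (Real.log (p j) / (2 * Real.pi))) : ℝ) : ℂ) =
      ((c T * ∫ t in D T, Z T t * F fun j => ee (t * (Real.log (p j) / (2 * Real.pi))) : ℝ) : ℂ) := by
    intro T
    rw [Complex.ofReal_mul, ← integral_complex_ofReal]
    congr 1
    refine integral_congr_ae (Eventually.of_forall fun t => ?_)
    dsimp only
    rw [Complex.ofReal_mul]
  have e2 : (∫ x in Set.Icc (0 : Fin m → ℝ) 1, ((aF s * ∏ j, (Wp s (p j) (x j) / Lf s 0 (p j) 0 0) : ℝ) : ℂ) *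
      ((F fun j => ee (x j) : ℝ) : ℂ)) = ((Lam s p F : ℝ) : ℂ) := by
    unfold Lam wj
    rw [← integral_const_mul, ← integral_complex_ofReal]
    refine integral_congr_ae (Eventually.of_forall fun x => ?_)
    dsimp only
    push_cast
    ring
  rw [e2, Complex.ofReal_re] at h2
  refine h2.congr fun T => ?_
  simp only [Function.comp]
  rw [e1, Complex.ofReal_re]

lemma block_int {m : ℕ} (P : Fin m → Prop) [DecidablePred P] (f : ({i // P i} → ℝ) → ℝ) (g : ({i // ¬P i} → ℝ) → ℝ) :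
    ∫ x in Set.Icc (0 : Fin m → ℝ) 1, f (fun i => x i) * g (fun i => x i) =
      (∫ y in Set.Icc (0 : {i // P i} → ℝ) 1, f y) * ∫ y in Set.Icc (0 : {i // ¬P i} → ℝ) 1, g y := by
  have h := volume_preserving_piEquivPiSubtypeProd (fun _ : Fin m => ℝ) P
  rw [← setIntegral_prod_mul, ← Measure.volume_eq_prod,
    ← h.setIntegral_preimage_emb (MeasurableEquiv.measurableEmbedding _)]
  have h1 : Set.Icc (0 : Fin m → ℝ) 1 = (MeasurableEquiv.piEquivPiSubtypeProd (fun _ : Fin m => ℝ) P) ⁻¹'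
      (Set.Icc (0 : {i // P i} → ℝ) 1 ×ˢ Set.Icc (0 : {i // ¬P i} → ℝ) 1) := by
    ext x
    simp only [Set.mem_Icc, Set.mem_preimage, Set.mem_prod, Pi.le_def]
    constructor
    · rintro ⟨a1, a2⟩
      exact ⟨⟨fun i => a1 i, fun i => a2 i⟩, fun i => a1 i, fun i => a2 i⟩
    · rintro ⟨⟨a1, a2⟩, a3, a4⟩
      refine ⟨fun i => ?_, fun i => ?_⟩
      · by_cases hi : P i
        · exact a1 ⟨i, hi⟩
        · exact a3 ⟨i, hi⟩
      · by_cases hi : P i
        · exact a2 ⟨i, hi⟩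
        · exact a4 ⟨i, hi⟩
  rw [h1]
  rfl

/-- independence -/
theorem indep {s : ℝ} {m : ℕ} (p : Fin m → ℕ) (P : Fin m → Prop) [DecidablePred P] (F G : (Fin m → ℂ) → ℝ)
    (hF : ∀ x y : Fin m → ℂ, (∀ j, P j → x j = y j) → F x = F y)
    (hG : ∀ x y : Fin m → ℂ, (∀ j, ¬P j → x j = y j) → G x = G y) :
    Lam s p (fun x => F x * G x) * Lam s p (fun _ => 1) = Lam s p F * Lam s p G := by
  obtain ⟨F', hF'⟩ : ∃ F' : ({i // P i} → ℝ) → ℝ, ∀ y, F' y = F fun j => if h : P j then ee (y ⟨j, h⟩) else 0 := ⟨_, fun _ => rfl⟩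
  obtain ⟨G', hG'⟩ : ∃ G' : ({i // ¬P i} → ℝ) → ℝ, ∀ y, G' y = G fun j => if h : ¬P j then ee (y ⟨j, h⟩) else 0 := ⟨_, fun _ => rfl⟩
  have eF : ∀ x : Fin m → ℝ, (F fun j => ee (x j)) = F' fun i => x i := by
    intro x
    rw [hF']
    refine hF _ _ fun j hj => ?_
    rw [dif_pos hj]
  have eG : ∀ x : Fin m → ℝ, (G fun j => ee (x j)) = G' fun i => x i := by
    intro x
    rw [hG']
    refine hG _ _ fun j hj => ?_
    rw [dif_pos hj]
  have eW : ∀ x : Fin m → ℝ, ∏ j, wj s (p j) (x j) =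
      (∏ i : {i // P i}, wj s (p i) (x i)) * ∏ i : {i // ¬P i}, wj s (p i) (x i) := fun x =>
    (Fintype.prod_subtype_mul_prod_subtype P fun j => wj s (p j) (x j)).symm
  have k1 := block_int P (fun y => (∏ i : {i // P i}, wj s (p i) (y i)) * F' y)
    (fun y => (∏ i : {i // ¬P i}, wj s (p i) (y i)) * G' y)
  have k2 := block_int P (fun y => (∏ i : {i // P i}, wj s (p i) (y i)))
    (fun y => (∏ i : {i // ¬P i}, wj s (p i) (y i)))
  have k3 := block_int P (fun y => (∏ i : {i // P i}, wj s (p i) (y i)) * F' y)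
    (fun y => (∏ i : {i // ¬P i}, wj s (p i) (y i)))
  have k4 := block_int P (fun y => (∏ i : {i // P i}, wj s (p i) (y i)))
    (fun y => (∏ i : {i // ¬P i}, wj s (p i) (y i)) * G' y)
  have l1 : Lam s p (fun x => F x * G x) = aF s * ((∫ y in Set.Icc (0 : {i // P i} → ℝ) 1, (∏ i : {i // P i}, wj s (p i) (y i)) * F' y) *
      ∫ y in Set.Icc (0 : {i // ¬P i} → ℝ) 1, (∏ i : {i // ¬P i}, wj s (p i) (y i)) * G' y) := by
    rw [← k1]
    unfold Lam
    congr 1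
    refine integral_congr_ae (Eventually.of_forall fun x => ?_)
    dsimp only
    rw [eF, eG, eW]
    ring
  have l2 : Lam s p (fun _ => 1) = aF s * ((∫ y in Set.Icc (0 : {i // P i} → ℝ) 1, (∏ i : {i // P i}, wj s (p i) (y i))) *
      ∫ y in Set.Icc (0 : {i // ¬P i} → ℝ) 1, (∏ i : {i // ¬P i}, wj s (p i) (y i))) := by
    rw [← k2]
    unfold Lam
    congr 1
    refine integral_congr_ae (Eventually.of_forall fun x => ?_)
    dsimp only
    rw [eW, mul_one]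
  have l3 : Lam s p F = aF s * ((∫ y in Set.Icc (0 : {i // P i} → ℝ) 1, (∏ i : {i // P i}, wj s (p i) (y i)) * F' y) *
      ∫ y in Set.Icc (0 : {i // ¬P i} → ℝ) 1, (∏ i : {i // ¬P i}, wj s (p i) (y i))) := by
    rw [← k3]
    unfold Lam
    congr 1
    refine integral_congr_ae (Eventually.of_forall fun x => ?_)
    dsimp only
    rw [eF, eW]
    ring
  have l4 : Lam s p G = aF s * ((∫ y in Set.Icc (0 : {i // P i} → ℝ) 1, (∏ i : {i // P i}, wj s (p i) (y i))) *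
      ∫ y in Set.Icc (0 : {i // ¬P i} → ℝ) 1, (∏ i : {i // ¬P i}, wj s (p i) (y i)) * G' y) := by
    rw [← k4]
    unfold Lam
    congr 1
    refine integral_congr_ae (Eventually.of_forall fun x => ?_)
    dsimp only
    rw [eG, eW]
    ring
  rw [l1, l2, l3, l4]
  ring

lemma pi_int_real {m : ℕ} (f : Fin m → ℝ → ℝ) :
    ∫ x in Set.Icc (0 : Fin m → ℝ) 1, ∏ j, f j (x j) = ∏ j, ∫ y in (0:ℝ)..1, f j y := by
  have h1 : (volume : Measure (Fin m → ℝ)).restrict (Set.Icc 0 1) = Measure.pi fun _ : Fin m => (volume : Measure ℝ).restrict (Set.Icc 0 1) := by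
    rw [← Measure.restrict_pi_pi, ← volume_pi, Set.pi_univ_Icc]
    rfl
  rw [h1, integral_fintype_prod_eq_prod]
  refine prod_congr rfl fun j _ => ?_
  rw [integral_Icc_eq_integral_Ioc, intervalIntegral.integral_of_le zero_le_one]

/-- the law of a product of positive bumps is positive -/
theorem Lam_prod_pos {s : ℝ} (hs : 0 < s) {m : ℕ} (p : Fin m → ℕ) (hp : ∀ j, (p j).Prime) (h : Fin m → ℂ → ℝ)
    (hc : ∀ j, Continuous (h j)) (h0 : ∀ j x, 0 ≤ h j x) (h1 : ∀ j, ∃ y ∈ Set.Icc (0 : ℝ) 1, 0 < h j (ee y)) :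
    0 < Lam s p fun x => ∏ j, h j (x j) := by
  unfold Lam
  refine mul_pos (aF_pos hs) ?_
  have e1 : ∀ x : Fin m → ℝ, (∏ j, wj s (p j) (x j)) * ∏ j, h j (ee (x j)) = ∏ j, (fun y => wj s (p j) y * h j (ee y)) (x j) := by
    intro x
    rw [← prod_mul_distrib]
  simp_rw [e1]
  rw [pi_int_real fun j y => wj s (p j) y * h j (ee y)]
  refine prod_pos fun j _ => ?_
  obtain ⟨y, hy, hy1⟩ := h1 j
  refine intervalIntegral.integral_pos zero_lt_one ?_ ?_ ⟨y, hy, mul_pos (wj_pos hs (hp j) y) hy1⟩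
  · exact ((wj_cont s (hp j)).mul ((hc j).comp ee_cont)).continuousOn
  · intro x _
    exact mul_nonneg (wj_pos hs (hp j) x).le (h0 j _)

lemma prod_pN (N : ℕ) (g : ℕ → ℝ) : ∏ j, g (pN N j) = ∏ p ∈ ZU.pr N, g p := by
  rw [← Finset.prod_coe_sort (ZU.pr N)]
  exact Equiv.prod_comp (ZU.pr N).equivFin.symm (fun p : ZU.pr N => g p)

lemma prod_pNC (N : ℕ) (g : ℕ → ℂ) : ∏ j, g (pN N j) = ∏ p ∈ ZU.pr N, g p := by
  rw [← Finset.prod_coe_sort (ZU.pr N)]
  exact Equiv.prod_comp (ZU.pr N).equivFin.symm (fun p : ZU.pr N => g p)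

lemma pr_filter {z z' : ℕ} (h : z ≤ z') : (ZU.pr z').filter (fun p => p ≤ z) = ZU.pr z := by
  ext p
  simp only [ZU.pr, mem_filter, mem_Icc]
  constructor
  · rintro ⟨⟨⟨a, b⟩, c⟩, d⟩
    exact ⟨⟨a, d⟩, c⟩
  · rintro ⟨⟨a, b⟩, c⟩
    exact ⟨⟨⟨a, b.trans h⟩, c⟩, b⟩

/-- the conjugate of the point of the torus -/
lemma ee_pow {q : ℕ} (hq : 1 ≤ q) (t : ℝ) (s : ℂ) :
    (starRingEnd ℂ) (ee (t * (Real.log q / (2 * Real.pi)))) * (q : ℂ) ^ (-s) = (q : ℂ) ^ (-(s + t * Complex.I)) := by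
  have hq0 : (q : ℂ) ≠ 0 := by exact_mod_cast (by omega : q ≠ 0)
  rw [ee_conj]
  unfold ee
  rw [← Complex.exp_neg, Complex.cpow_def_of_ne_zero hq0, Complex.cpow_def_of_ne_zero hq0, ← Complex.exp_add,
    ← Complex.natCast_log]
  congr 1
  have hpi : (Real.pi : ℂ) ≠ 0 := by exact_mod_cast Real.pi_ne_zero
  push_cast
  field_simp
  ring

end Pool.Agent.X107.MU
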