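import Pool.Agent.X107.MU.MU10
import Pool.Agent.Helper240.ZU.B5
import Pool.Agent.Helper240.ZU.E0

/-! # Universality for systems of weights -/

set_option autoImplicit false

open Filter Topology MeasureTheory

namespace Pool.Agent.X107.MU

open Pool.Agent.X110.NA
open Pool.Agent.X107.UZ (kN pN pN_mem pN_prime pN_inj)
open Pool.Agent.H306R2 (aF aF_pos)

lemma int_split {Z φ : ℝ → ℝ} {D U M : Set ℝ} (hD : MeasurableSet D) (hU : MeasurableSet U) (hM : MeasurableSet M)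
    (hZ : IntegrableOn Z D) (hZ0 : ∀ t, 0 ≤ Z t) (hφ : Measurable φ) (h0 : ∀ t, 0 ≤ φ t) (h1 : ∀ t, φ t ≤ 1)
    (h : ∀ t, t ∉ U → t ∉ M → φ t ≤ 0) :
    ∫ t in D, Z t * φ t ≤ (∫ t in D ∩ U, Z t) + ∫ t in D ∩ M, Z t := by
  rw [← setIntegral_indicator hU, ← setIntegral_indicator hM, ← integral_add (hZ.indicator hU) (hZ.indicator hM)]
  have hi : IntegrableOn (fun t => Z t * φ t) D := by
    refine hZ.mul_bdd (c := 1) hφ.aestronglyMeasurable (Eventually.of_forall fun t => ?_)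
    rw [Real.norm_of_nonneg (h0 t)]
    exact h1 t
  refine setIntegral_mono_on hi ((hZ.indicator hU).add (hZ.indicator hM)) hD fun t _ => ?_
  have hz := hZ0 t
  by_cases hu : t ∈ U
  · rw [Set.indicator_of_mem hu]
    have h2 : 0 ≤ M.indicator Z t := Set.indicator_nonneg (fun x _ => hZ0 x) t
    have h3 := mul_le_mul_of_nonneg_left (h1 t) hz
    linarith
  · rw [Set.indicator_of_notMem hu, zero_add]
    by_cases hm : t ∈ M
    · rw [Set.indicator_of_mem hm]
      have h3 := mul_le_mul_of_nonneg_left (h1 t) hz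
      linarith
    · rw [Set.indicator_of_notMem hm]
      exact mul_nonpos_of_nonneg_of_nonpos hz (h t hu hm)

/-- a block of the Euler product on the torus -/
noncomputable def BE (z0 z : ℕ) (x : Fin (kN z) → ℂ) (s : ℂ) : ℂ :=
  ∏ j : Fin (kN z), if z0 < pN z j then (1 - (starRingEnd ℂ) (x j) * (pN z j : ℂ) ^ (-s)) else 1

/-- the curve on the torus -/
noncomputable def xt (z : ℕ) (t : ℝ) (j : Fin (kN z)) : ℂ := ee (t * (Real.log (pN z j) / (2 * Real.pi)))

lemma xt_norm (z : ℕ) (t : ℝ) (j : Fin (kN z)) : ‖xt z t j‖ = 1 := ee_norm _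

lemma xt_cont (z : ℕ) : Continuous (xt z) := by
  refine continuous_pi fun j => ?_
  exact ee_cont.comp (continuous_id.mul continuous_const)

lemma BE_cont (z0 z : ℕ) : Continuous fun q : (Fin (kN z) → ℂ) × ℂ => BE z0 z q.1 q.2 := by
  unfold BE
  refine continuous_finset_prod _ fun j _ => ?_
  have hp : (pN z j : ℂ) ≠ 0 := by exact_mod_cast (pN_prime z j).ne_zero
  have h1 : Continuous fun q : (Fin (kN z) → ℂ) × ℂ => (pN z j : ℂ) ^ (-q.2) :=
    Continuous.const_cpow (by fun_prop) (Or.inl hp)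
  have h2 : Continuous fun q : (Fin (kN z) → ℂ) × ℂ => (starRingEnd ℂ) (q.1 j) :=
    Complex.continuous_conj.comp ((continuous_apply j).comp continuous_fst)
  split_ifs
  · exact continuous_const.sub (h2.mul h1)
  · exact continuous_const

lemma BE_xt (z0 z : ℕ) (t : ℝ) (s : ℂ) : BE z0 z (xt z t) s =
    ∏ p ∈ ZU.pr z, if z0 < p then (1 - (p : ℂ) ^ (-(s + t * Complex.I))) else 1 := by
  rw [← prod_pNC z fun p => if z0 < p then (1 - (p : ℂ) ^ (-(s + t * Complex.I))) else 1]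
  unfold BE
  refine Finset.prod_congr rfl fun j _ => ?_
  unfold xt
  rw [ee_pow (pN_prime z j).one_lt.le]

lemma EM_mul {z0 z : ℕ} (h : z0 ≤ z) (w : ℂ) : ZU.EM z (fun _ => 1) w = ZU.EM z0 (fun _ => 1) w *
    ∏ p ∈ ZU.pr z, if z0 < p then (1 - (p : ℂ) ^ (-w)) else 1 := by
  unfold ZU.EM
  rw [← pr_filter h, Finset.prod_filter, ← Finset.prod_mul_distrib]
  refine Finset.prod_congr rfl fun p _ => ?_
  by_cases hp : p ≤ z0
  · rw [if_pos hp, if_neg (by omega), mul_one]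
  · rw [if_neg hp, if_pos (by omega), one_mul, one_mul]

/-- the distance of a block from `1` -/
noncomputable def SB (z0 z : ℕ) (K : Set ℂ) (x : Fin (kN z) → ℂ) : ℝ := sSup ((fun s => ‖BE z0 z x s - 1‖) '' K)

lemma SB_cont (z0 z : ℕ) {K : Set ℂ} (hK : IsCompact K) : Continuous (SB z0 z K) := by
  unfold SB
  refine hK.continuous_sSup ?_
  exact ((BE_cont z0 z).sub continuous_const).norm

lemma le_SB (z0 z : ℕ) {K : Set ℂ} (hK : IsCompact K) (x : Fin (kN z) → ℂ) {s : ℂ} (hs : s ∈ K) :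
    ‖BE z0 z x s - 1‖ ≤ SB z0 z K x := by
  refine le_csSup ?_ ⟨s, hs, rfl⟩
  refine hK.bddAbove_image ?_
  have h1 : Continuous fun s : ℂ => BE z0 z x s := (BE_cont z0 z).comp (by fun_prop : Continuous fun s : ℂ => (x, s))
  exact (h1.sub continuous_const).norm.continuousOn

lemma SB_le (z0 z : ℕ) {K : Set ℂ} (x : Fin (kN z) → ℂ) {r : ℝ} (hr : 0 ≤ r) (h : ∀ s ∈ K, ‖BE z0 z x s - 1‖ ≤ r) :
    SB z0 z K x ≤ r := by
  refine Real.sSup_le ?_ hr
  rintro _ ⟨s, hs, rfl⟩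
  exact h s hs

lemma SB_dep (z0 z : ℕ) (K : Set ℂ) (x y : Fin (kN z) → ℂ) (h : ∀ j, ¬(pN z j ≤ z0) → x j = y j) :
    SB z0 z K x = SB z0 z K y := by
  have : ∀ s, BE z0 z x s = BE z0 z y s := by
    intro s
    unfold BE
    refine Finset.prod_congr rfl fun j _ => ?_
    by_cases hj : z0 < pN z j
    · rw [if_pos hj, if_pos hj, h j (by omega)]
    · rw [if_neg hj, if_neg hj]
  unfold SB
  simp_rw [this]

/-- the bump for a block -/
noncomputable def GB (ρ : ℝ) (z0 z : ℕ) (K : Set ℂ) (x : Fin (kN z) → ℂ) : ℝ := max 0 (min 1 (2 - SB z0 z K x / ρ))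

lemma GB_cont (ρ : ℝ) (z0 z : ℕ) {K : Set ℂ} (hK : IsCompact K) : Continuous (GB ρ z0 z K) := by
  unfold GB
  exact continuous_const.max (continuous_const.min (continuous_const.sub ((SB_cont z0 z hK).div_const _)))

lemma GB_nonneg (ρ : ℝ) (z0 z : ℕ) (K : Set ℂ) (x : Fin (kN z) → ℂ) : 0 ≤ GB ρ z0 z K x := le_max_left _ _

lemma GB_le_one (ρ : ℝ) (z0 z : ℕ) (K : Set ℂ) (x : Fin (kN z) → ℂ) : GB ρ z0 z K x ≤ 1 :=
  max_le zero_le_one (min_le_left _ _)

lemma GB_one {ρ : ℝ} (hρ : 0 < ρ) (z0 z : ℕ) (K : Set ℂ) (x : Fin (kN z) → ℂ) (h : SB z0 z K x ≤ ρ) :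
    GB ρ z0 z K x = 1 := by
  unfold GB
  have : SB z0 z K x / ρ ≤ 1 := (div_le_one hρ).2 h
  rw [min_eq_left (by linarith), max_eq_right zero_le_one]

lemma GB_pos {ρ : ℝ} (hρ : 0 < ρ) (z0 z : ℕ) (K : Set ℂ) (x : Fin (kN z) → ℂ) (h : 0 < GB ρ z0 z K x) :
    SB z0 z K x < 2 * ρ := by
  unfold GB at h
  rw [lt_max_iff] at h
  rcases h with h | h
  · exact absurd h (lt_irrefl _)
  · have h1 := h.trans_le (min_le_right _ _)
    have h2 : SB z0 z K x / ρ < 2 := by linarith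
    rwa [div_lt_iff₀ hρ] at h2

/-- the bump at one prime -/
noncomputable def hb (r : ℝ) (a x : ℂ) : ℝ := max 0 (1 - ‖(starRingEnd ℂ) x - a‖ / r)

lemma hb_cont (r : ℝ) (a : ℂ) : Continuous (hb r a) := by
  unfold hb
  exact continuous_const.max (continuous_const.sub (((Complex.continuous_conj.sub continuous_const).norm).div_const _))

lemma hb_nonneg (r : ℝ) (a x : ℂ) : 0 ≤ hb r a x := le_max_left _ _

lemma hb_le {r : ℝ} (hr : 0 < r) (a x : ℂ) : hb r a x ≤ 1 := by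
  unfold hb
  refine max_le zero_le_one ?_
  have : 0 ≤ ‖(starRingEnd ℂ) x - a‖ / r := by positivity
  linarith

lemma hb_pos {r : ℝ} (hr : 0 < r) (a x : ℂ) (h : 0 < hb r a x) : ‖(starRingEnd ℂ) x - a‖ < r := by
  unfold hb at h
  rw [lt_max_iff] at h
  rcases h with h | h
  · exact absurd h (lt_irrefl _)
  · have h2 : ‖(starRingEnd ℂ) x - a‖ / r < 1 := by linarith
    rwa [div_lt_one hr] at h2

lemma exists_ee {a : ℂ} (ha : ‖a‖ = 1) : ∃ y ∈ Set.Icc (0 : ℝ) 1, ee y = a := by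
  have hpi := Real.pi_pos
  obtain ⟨θ, hθ⟩ : ∃ θ, θ = Complex.arg a / (2 * Real.pi) := ⟨_, rfl⟩
  have h1 : Complex.exp (Complex.arg a * Complex.I) = a := by
    have := Complex.norm_mul_exp_arg_mul_I a
    rwa [ha, Complex.ofReal_one, one_mul] at this
  refine ⟨Int.fract θ, ⟨Int.fract_nonneg _, (Int.fract_lt_one _).le⟩, ?_⟩
  have h2 : ee (Int.fract θ) = ee θ := by
    unfold ee
    have h3 : (Int.fract θ : ℝ) = θ - ⌊θ⌋ := rfl
    rw [h3]
    push_cast
    rw [mul_sub, Complex.exp_sub]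
    have h4 : Complex.exp (2 * Real.pi * Complex.I * (⌊θ⌋ : ℂ)) = 1 := by
      rw [Complex.exp_eq_one_iff]
      exact ⟨⌊θ⌋, by ring⟩
    rw [h4, div_one]
  rw [h2, ← h1]
  unfold ee
  congr 1
  rw [hθ]
  have hpi' : (Real.pi : ℂ) ≠ 0 := by exact_mod_cast Real.pi_ne_zero
  push_cast
  field_simp

/-- the bump for the small primes -/
noncomputable def FB (r : ℝ) (α : ℕ → ℂ) (z0 z : ℕ) (x : Fin (kN z) → ℂ) : ℝ :=
  ∏ j : Fin (kN z), if pN z j ≤ z0 then hb r (α (pN z j)) (x j) else 1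

lemma FB_cont (r : ℝ) (α : ℕ → ℂ) (z0 z : ℕ) : Continuous (FB r α z0 z) := by
  unfold FB
  refine continuous_finset_prod _ fun j _ => ?_
  split_ifs
  · exact (hb_cont _ _).comp (continuous_apply j)
  · exact continuous_const

lemma FB_nonneg (r : ℝ) (α : ℕ → ℂ) (z0 z : ℕ) (x : Fin (kN z) → ℂ) : 0 ≤ FB r α z0 z x := by
  unfold FB
  refine Finset.prod_nonneg fun j _ => ?_
  split_ifs
  · exact hb_nonneg _ _ _
  · exact zero_le_one

lemma FB_le_one {r : ℝ} (hr : 0 < r) (α : ℕ → ℂ) (z0 z : ℕ) (x : Fin (kN z) → ℂ) : FB r α z0 z x ≤ 1 := by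
  unfold FB
  refine Finset.prod_le_one (fun j _ => ?_) fun j _ => ?_
  · split_ifs
    · exact hb_nonneg _ _ _
    · exact zero_le_one
  · split_ifs
    · exact hb_le hr _ _
    · exact le_rfl

lemma FB_dep (r : ℝ) (α : ℕ → ℂ) (z0 z : ℕ) (x y : Fin (kN z) → ℂ) (h : ∀ j, pN z j ≤ z0 → x j = y j) :
    FB r α z0 z x = FB r α z0 z y := by
  unfold FB
  refine Finset.prod_congr rfl fun j _ => ?_
  by_cases hj : pN z j ≤ z0
  · rw [if_pos hj, if_pos hj, h j hj]
  · rw [if_neg hj, if_neg hj]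

lemma FB_xt (r : ℝ) (α : ℕ → ℂ) {z0 z : ℕ} (hz : z0 ≤ z) (t : ℝ) : FB r α z0 z (xt z t) =
    ∏ p ∈ ZU.pr z0, hb r (α p) (ee (t * (Real.log p / (2 * Real.pi)))) := by
  rw [← pr_filter hz, Finset.prod_filter, ← prod_pN z fun p => if p ≤ z0 then hb r (α p) (ee (t * (Real.log p / (2 * Real.pi)))) else 1]
  rfl

lemma FB_pos {s : ℝ} (hs : 0 < s) {r : ℝ} (hr : 0 < r) (α : ℕ → ℂ) (hα : ∀ p, ‖α p‖ = 1) (z : ℕ) :
    0 < Lam s (pN z) (FB r α z z) := by
  have h1 := Lam_prod_pos hs (pN z) (pN_prime z) (fun j x => if pN z j ≤ z then hb r (α (pN z j)) x else 1)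
    (fun j => by
      by_cases hj : pN z j ≤ z
      · simp only [if_pos hj]; exact hb_cont _ _
      · simp only [if_neg hj]; exact continuous_const)
    (fun j x => by
      by_cases hj : pN z j ≤ z
      · simp only [if_pos hj]; exact hb_nonneg _ _ _
      · simp only [if_neg hj]; exact zero_le_one)
    (fun j => by
      obtain ⟨y, hy, hy2⟩ := exists_ee (a := (starRingEnd ℂ) (α (pN z j))) (by rw [RCLike.norm_conj]; exact hα _)
      refine ⟨y, hy, ?_⟩
      by_cases hj : pN z j ≤ z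
      · simp only [if_pos hj]
        unfold hb
        rw [hy2, Complex.conj_conj, sub_self, norm_zero, zero_div]
        simp
      · simp only [if_neg hj]; exact zero_lt_one)
  exact h1

end Pool.Agent.X107.MU
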