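import Pool.Agent.X107.MU.MU11

/-! # Universality for systems of weights: exponentials of entire functions -/

set_option autoImplicit false

open Filter Topology MeasureTheory

namespace Pool.Agent.X107.MU

open Pool.Agent.X110.NA
open Pool.Agent.X107.UZ (kN pN pN_mem pN_prime pN_inj)
open Pool.Agent.H306R2 (aF aF_pos)

/-- the total mass -/
noncomputable def L1 (s : ℝ) : ℝ := Lam s (fun j : Fin 0 => j.elim0) (fun _ => 1)

lemma L1_pos {s : ℝ} (hs : 0 < s) : 0 < L1 s := by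
  have h := Lam_prod_pos hs (fun j : Fin 0 => j.elim0) (fun j => j.elim0) (fun j _ => 1) (fun j => j.elim0)
    (fun j => j.elim0) (fun j => j.elim0)
  simpa [L1] using h

section sys

variable {s : ℝ} {Z0 : ℝ → ℝ → ℝ → ℝ → ℝ → ℕ} {Z : ℝ → ℝ → ℝ} {D : ℝ → Set ℝ} {c : ℝ → ℝ}

lemma mass (h : Sys s Z0 Z D c) : Tendsto (fun T => c T * ∫ t in D T, Z T t) atTop (𝓝 (L1 s)) := by
  have h1 := law_real h (fun j : Fin 0 => j.elim0) (fun j => j.elim0) (fun j => j.elim0) (fun _ => 1) continuousOn_const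
  simp only [mul_one] at h1
  exact h1

lemma mass_eq (h : Sys s Z0 Z D c) {m : ℕ} (p : Fin m → ℕ) (hp : ∀ j, (p j).Prime) (hinj : Function.Injective p) :
    Lam s p (fun _ => 1) = L1 s := by
  have h1 := law_real h p hp hinj (fun _ => 1) continuousOn_const
  simp only [mul_one] at h1
  exact tendsto_nhds_unique h1 (mass h)

lemma law_xt (h : Sys s Z0 Z D c) (z : ℕ) (F : (Fin (kN z) → ℂ) → ℝ) (hF : Continuous F) :
    Tendsto (fun T => c T * ∫ t in D T, Z T t * F (xt z t)) atTop (𝓝 (Lam s (pN z) F)) :=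
  law_real h (pN z) (pN_prime z) (pN_inj z) F hF.continuousOn

lemma Lam_FB (h : Sys s Z0 Z D c) (r : ℝ) (α : ℕ → ℂ) {z0 z : ℕ} (hz : z0 ≤ z) :
    Lam s (pN z) (FB r α z0 z) = Lam s (pN z0) (FB r α z0 z0) := by
  have h1 := law_xt h z (FB r α z0 z) (FB_cont r α z0 z)
  have h2 := law_xt h z0 (FB r α z0 z0) (FB_cont r α z0 z0)
  refine tendsto_nhds_unique h1 (h2.congr fun T => ?_)
  simp_rw [FB_xt r α hz, FB_xt r α (le_refl z0)]

/-- the limit law of a block is concentrated near `1` -/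
lemma Lam_GB (hs : 0 < s) (h : Sys s Z0 Z D c) {K : Set ℂ} (hK : IsCompact K)
    {a b B C ρ ρ1 ε : ℝ} (hab : a ≤ b) (hb : b < 1) (hB : 0 < B) (hC : 0 < C) (hρ : 0 < ρ) (hρ1 : 0 < ρ1)
    (hρρ : 2 * ρ / (1 - ρ) ≤ ρ1) (hρ2 : ρ < 1)
    (hbad : ∀ (N : ℕ) (η t u : ℝ), 0 ≤ η → BadG N K η t → |t - u| ≤ 1 → η ^ 2 ≤ C * JG a b B N u) {z0 z : ℕ}
    (hz : z0 ≤ z) (h1 : ∀ᶠ T in atTop, c T * ∫ t in D T ∩ {t | ρ ^ 2 / C ≤ JG a b B z0 t}, Z T t ≤ ε)
    (h2 : ∀ᶠ T in atTop, c T * ∫ t in D T ∩ {t | ρ ^ 2 / C ≤ JG a b B z t}, Z T t ≤ ε) :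
    L1 s - 2 * ε ≤ Lam s (pN z) (GB ρ1 z0 z K) := by
  have hM : ∀ z, MeasurableSet {t : ℝ | ρ ^ 2 / C ≤ JG a b B z t} := fun z =>
    (isClosed_le continuous_const (JG_cont hab hb hB z)).measurableSet
  have h3 := law_xt h z (GB ρ1 z0 z K) (GB_cont ρ1 z0 z hK)
  have h4 := (mass h).sub_const (2 * ε)
  refine le_of_tendsto_of_tendsto h4 h3 ?_
  filter_upwards [h1, h2, h.c0, h.Zi] with T t1 t2 t3 t4
  have hGc : Continuous fun t => GB ρ1 z0 z K (xt z t) := (GB_cont ρ1 z0 z hK).comp (xt_cont z)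
  have hkey := int_split (φ := fun t => 1 - GB ρ1 z0 z K (xt z t)) (h.Dm T) (hM z0) (hM z) t4 (h.Zn T)
    (continuous_const.sub hGc).measurable (fun t => by have := GB_le_one ρ1 z0 z K (xt z t); linarith)
    (fun t => by have := GB_nonneg ρ1 z0 z K (xt z t); linarith) (fun t ht1 ht2 => by
      have e : GB ρ1 z0 z K (xt z t) = 1 := by
        refine GB_one hρ1 z0 z K _ (SB_le z0 z _ hρ1.le fun w hw => ?_)
        have g1 : ‖GZ z0 (w + t * Complex.I)‖ < ρ := by
          by_contra hcon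
          push Not at hcon
          refine ht1 ?_
          show ρ ^ 2 / C ≤ JG a b B z0 t
          rw [div_le_iff₀ hC, mul_comm]
          exact hbad z0 ρ t t hρ.le ⟨w, hw, hcon⟩ (by simp)
        have g2 : ‖GZ z (w + t * Complex.I)‖ < ρ := by
          by_contra hcon
          push Not at hcon
          refine ht2 ?_
          show ρ ^ 2 / C ≤ JG a b B z t
          rw [div_le_iff₀ hC, mul_comm]
          exact hbad z ρ t t hρ.le ⟨w, hw, hcon⟩ (by simp)
        rw [BE_xt]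
        have e1 := EM_mul hz (w + t * Complex.I)
        obtain ⟨Q, hQ⟩ : ∃ Q, Q = ∏ p ∈ ZU.pr z, if z0 < p then (1 - (p : ℂ) ^ (-(w + t * Complex.I))) else 1 := ⟨_, rfl⟩
        rw [← hQ] at e1 ⊢
        unfold GZ at g1 g2
        obtain ⟨A, hA⟩ : ∃ A, A = riemannZeta (w + t * Complex.I) * ZU.EM z0 (fun _ => 1) (w + t * Complex.I) := ⟨_, rfl⟩
        have e2 : riemannZeta (w + t * Complex.I) * ZU.EM z (fun _ => 1) (w + t * Complex.I) = A * Q := by
          rw [e1, hA]; ring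
        rw [e2] at g2
        rw [← hA] at g1
        have g3 : 1 - ρ < ‖A‖ := by
          have := norm_sub_norm_le (1 : ℂ) (1 - A)
          rw [norm_one, sub_sub_cancel, norm_sub_rev] at this
          linarith
        have g4 : ‖A * (Q - 1)‖ ≤ 2 * ρ := by
          have : A * (Q - 1) = (A * Q - 1) - (A - 1) := by ring
          rw [this]
          refine (norm_sub_le _ _).trans ?_
          linarith
        rw [norm_mul] at g4
        have g5 : 0 < 1 - ρ := by linarith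
        have g6 : ‖Q - 1‖ ≤ 2 * ρ / (1 - ρ) := by
          rw [le_div_iff₀ g5]
          have := mul_le_mul_of_nonneg_right g3.le (norm_nonneg (Q - 1))
          linarith
        exact g6.trans hρρ
      rw [e]
      linarith)
  have e3 : ∫ t in D T, Z T t * (1 - GB ρ1 z0 z K (xt z t)) = (∫ t in D T, Z T t) - ∫ t in D T, Z T t * GB ρ1 z0 z K (xt z t) := by
    have i1 : IntegrableOn (fun t => Z T t * GB ρ1 z0 z K (xt z t)) (D T) := by
      refine t4.mul_bdd (c := 1) hGc.measurable.aestronglyMeasurable (Eventually.of_forall fun t => ?_)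
      rw [Real.norm_of_nonneg (GB_nonneg _ _ _ _ _)]
      exact GB_le_one _ _ _ _ _
    rw [← integral_sub t4 i1]
    refine integral_congr_ae (Eventually.of_forall fun t => ?_)
    dsimp only
    ring
  rw [e3] at hkey
  have h5 := mul_le_mul_of_nonneg_left hkey t3
  rw [mul_sub, mul_add] at h5
  linarith

end sys

/-- **universality of exponentials** -/
theorem pos_exp {s : ℝ} (hs : 0 < s) (Z0 : ℝ → ℝ → ℝ → ℝ → ℝ → ℕ) {K : Set ℂ} (hK : IsCompact K)
    (hKs : ∀ z ∈ K, 1 / 2 < z.re ∧ z.re < 1) {P : ℂ → ℂ} (hP : Differentiable ℂ P) {ε : ℝ} (hε : 0 < ε) :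
    ∃ κ > 0, ∀ (Z : ℝ → ℝ → ℝ) (D : ℝ → Set ℝ) (c : ℝ → ℝ), Sys s Z0 Z D c → ∀ᶠ T in atTop,
      κ ≤ c T * ∫ t in D T ∩ {t | ∀ w ∈ K, ‖riemannZeta (w + t * Complex.I) - Complex.exp (P w)‖ ≤ ε}, Z T t := by
  obtain ⟨a, b, B, h1, h2, h3, h4, hsub⟩ := in_rect hK hKs
  obtain ⟨a', b', B', C, k1, k2, k3, k4, hC, hbad⟩ := badG_large hK hKs
  obtain ⟨A, hA⟩ := hK.exists_bound_of_continuousOn (f := fun w => Complex.exp (P w))
    (Complex.continuous_exp.comp hP.continuous).continuousOn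
  obtain ⟨A', hA', hA0⟩ : ∃ A' : ℝ, (∀ w ∈ K, ‖Complex.exp (P w)‖ ≤ A') ∧ 0 ≤ A' :=
    ⟨max A 0, fun w hw => (hA w hw).trans (le_max_left _ _), le_max_right _ _⟩
  obtain ⟨θ, hθ⟩ : ∃ θ, θ = min (ε / (16 * (A' + ε + 1))) (1 / 16) := ⟨_, rfl⟩
  have hθ0 : 0 < θ := by rw [hθ]; positivity
  have hθ1 : θ ≤ 1 / 16 := by rw [hθ]; exact min_le_right _ _
  have hθ2 : θ * (16 * (A' + ε + 1)) ≤ ε := by
    have : θ ≤ ε / (16 * (A' + ε + 1)) := by rw [hθ]; exact min_le_left _ _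
    rwa [le_div_iff₀ (by positivity)] at this
  have hρρ : 2 * (θ / 4) / (1 - θ / 4) ≤ θ := by
    rw [div_le_iff₀ (by linarith)]
    nlinarith
  have hL := L1_pos hs
  obtain ⟨z, hz, α, hα, happ⟩ := ZU.euler_dense a b B h1 h2 h3 h4 P hP (ε / 4) (by positivity)
    (Z0 a' b' B' ((θ / 4) ^ 2 / C) (L1 s / 4))
  obtain ⟨r, hr, hcl⟩ := ZU.euler_cont a b B (by linarith) z α hα (ε / 4) (by positivity)
  obtain ⟨lam, hlam⟩ : ∃ lam, lam = Lam s (pN z) (FB r α z z) := ⟨_, rfl⟩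
  have hlam0 : 0 < lam := by rw [hlam]; exact FB_pos hs hr α hα z
  obtain ⟨z', hz', hz'2⟩ : ∃ z' : ℕ, z ≤ z' ∧ Z0 a' b' B' ((θ / 4) ^ 2 / C) (min (lam / 8) (L1 s / 4)) ≤ z' :=
    ⟨max z _, le_max_left _ _, le_max_right _ _⟩
  refine ⟨lam / 8, by positivity, fun Z D c h => ?_⟩
  have hpos2 : 0 < (θ / 4) ^ 2 / C := by positivity
  have hpos3 : 0 < min (lam / 8) (L1 s / 4) := by positivity
  have t1 := h.tail a' b' B' ((θ / 4) ^ 2 / C) (L1 s / 4) k1 k2 k3 k4 hpos2 (by positivity) z hz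
  have t2 := h.tail a' b' B' ((θ / 4) ^ 2 / C) (min (lam / 8) (L1 s / 4)) k1 k2 k3 k4 hpos2 hpos3 z' hz'2
  have t2' : ∀ᶠ T in atTop, c T * ∫ t in D T ∩ {t | (θ / 4) ^ 2 / C ≤ JG a' b' B' z' t}, Z T t ≤ L1 s / 4 :=
    t2.mono fun T hT => hT.trans (min_le_right _ _)
  have hG := Lam_GB hs h hK k2 k3 k4 hC (show 0 < θ / 4 by positivity) hθ0 hρρ (by linarith) hbad hz' t1 t2'
  have hG' : L1 s / 2 ≤ Lam s (pN z') (GB θ z z' K) := by linarith
  have hF := Lam_FB h r α hz'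
  rw [← hlam] at hF
  have hI := indep (s := s) (pN z') (fun j => pN z' j ≤ z) (FB r α z z') (GB θ z z' K)
    (fun x y hxy => FB_dep r α z z' x y hxy) (fun x y hxy => by
      unfold GB
      rw [SB_dep z z' K x y hxy])
  rw [mass_eq h (pN z') (pN_prime z') (pN_inj z'), hF] at hI
  have hFG : lam / 2 ≤ Lam s (pN z') (fun x => FB r α z z' x * GB θ z z' K x) := by
    have h5 : lam / 2 * L1 s ≤ Lam s (pN z') (fun x => FB r α z z' x * GB θ z z' K x) * L1 s := by
      rw [hI]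
      have := mul_le_mul_of_nonneg_left hG' hlam0.le
      linarith
    exact le_of_mul_le_mul_right h5 hL
  have hcont : Continuous fun x => FB r α z z' x * GB θ z z' K x := (FB_cont r α z z').mul (GB_cont θ z z' hK)
  have hlaw := law_xt h z' _ hcont
  have hM : MeasurableSet {t : ℝ | (θ / 4) ^ 2 / C ≤ JG a' b' B' z' t} :=
    (isClosed_le continuous_const (JG_cont k2 k3 k4 z')).measurableSet
  filter_upwards [hlaw.eventually (lt_mem_nhds (show lam / 4 < _ by linarith)), t2, h.c0, h.Zi] with T g1 g2 g3 g4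
  have hφc : Continuous fun t => FB r α z z' (xt z' t) * GB θ z z' K (xt z' t) := hcont.comp (xt_cont z')
  -- the good set
  obtain ⟨U, hU⟩ : ∃ U : Set ℝ, U = {t | 0 < FB r α z z' (xt z' t) * GB θ z z' K (xt z' t)} ∩
    {t : ℝ | (θ / 4) ^ 2 / C ≤ JG a' b' B' z' t}ᶜ := ⟨_, rfl⟩
  have hUm : MeasurableSet U := by
    rw [hU]
    exact (isOpen_lt continuous_const hφc).measurableSet.inter hM.compl
  have hUsub : U ⊆ {t | ∀ w ∈ K, ‖riemannZeta (w + t * Complex.I) - Complex.exp (P w)‖ ≤ ε} := by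
    intro t ht w hw
    rw [hU] at ht
    obtain ⟨ht1, ht2⟩ := ht
    have f0 := FB_nonneg r α z z' (xt z' t)
    have f1 := GB_nonneg θ z z' K (xt z' t)
    have ht1' : 0 < FB r α z z' (xt z' t) * GB θ z z' K (xt z' t) := ht1
    have f2 : 0 < FB r α z z' (xt z' t) := by
      rcases f0.lt_or_eq with h | h
      · exact h
      · rw [← h, zero_mul] at ht1'; exact absurd ht1' (lt_irrefl _)
    have f3 : 0 < GB θ z z' K (xt z' t) := by
      rcases f1.lt_or_eq with h | h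
      · exact h
      · rw [← h, mul_zero] at ht1'; exact absurd ht1' (lt_irrefl _)
    -- the Euler product of the small primes
    have hω : ∀ p ∈ ZU.pr z, ‖(starRingEnd ℂ) (ee (t * (Real.log p / (2 * Real.pi))))‖ = 1 ∧
        ‖(starRingEnd ℂ) (ee (t * (Real.log p / (2 * Real.pi)))) - α p‖ < r := by
      intro p hp
      refine ⟨by rw [RCLike.norm_conj, ee_norm], hb_pos hr _ _ ?_⟩
      rw [FB_xt r α hz'] at f2
      rcases (hb_nonneg r (α p) (ee (t * (Real.log p / (2 * Real.pi))))).lt_or_eq with h | h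
      · exact h
      · rw [Finset.prod_eq_zero hp h.symm] at f2; exact absurd f2 (lt_irrefl _)
    have hwr := hsub hw
    have c1 := hcl (fun p => (starRingEnd ℂ) (ee (t * (Real.log p / (2 * Real.pi))))) hω w hwr
    have c2 := happ w hwr
    have eEM : ZU.EM z (fun p => (starRingEnd ℂ) (ee (t * (Real.log p / (2 * Real.pi))))) w =
        ZU.EM z (fun _ => 1) (w + t * Complex.I) := by
      unfold ZU.EM
      refine Finset.prod_congr rfl fun p hp => ?_
      rw [ee_pow (Finset.mem_filter.1 hp).2.one_lt.le, one_mul]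
    rw [eEM] at c1
    -- the block
    have c3 := (le_SB z z' hK (xt z' t) hw).trans_lt (GB_pos hθ0 z z' K _ f3)
    rw [BE_xt] at c3
    -- the tail
    have c4 : ‖GZ z' (w + t * Complex.I)‖ < θ / 4 := by
      by_contra hcon
      push Not at hcon
      refine ht2 ?_
      show (θ / 4) ^ 2 / C ≤ JG a' b' B' z' t
      rw [div_le_iff₀ hC, mul_comm]
      exact hbad z' (θ / 4) t t (by positivity) ⟨w, hw, hcon⟩ (by simp)
    have e1 := EM_mul hz' (w + t * Complex.I)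
    unfold GZ at c4
    rw [e1] at c4
    generalize (∏ p ∈ ZU.pr z', if z < p then (1 - (p : ℂ) ^ (-(w + t * Complex.I))) else 1) = Q at c3 c4
    have hEne : ZU.EM z (fun _ => 1) (w + t * Complex.I) ≠ 0 := by
      intro h0
      rw [h0] at c4
      simp only [zero_mul, mul_zero, zero_sub, norm_neg, norm_one] at c4
      linarith
    generalize ZU.EM z (fun _ => 1) (w + t * Complex.I) = E at c1 c4 hEne
    generalize riemannZeta (w + t * Complex.I) = x at c4 ⊢
    have hwA := hA' w hw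
    generalize Complex.exp (P w) = y at c2 hwA ⊢
    generalize (ZU.EM z α w)⁻¹ = u at c1 c2
    -- combine
    have d1 : ‖E⁻¹ - y‖ ≤ ε / 2 := by
      have : E⁻¹ - y = (E⁻¹ - u) + (u - y) := by ring
      rw [this]
      refine (norm_add_le _ _).trans ?_
      linarith
    have d2 : ‖E⁻¹‖ ≤ A' + ε / 2 := by
      have : E⁻¹ = (E⁻¹ - y) + y := by ring
      rw [this]
      refine (norm_add_le _ _).trans ?_
      linarith
    have d3 : 1 - 2 * θ < ‖Q‖ := by
      have := norm_sub_norm_le (1 : ℂ) (1 - Q)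
      rw [norm_one, sub_sub_cancel, norm_sub_rev] at this
      linarith
    have d4 : ‖Q‖ * ‖x * E - 1‖ ≤ θ / 4 + 2 * θ := by
      rw [← norm_mul]
      have : Q * (x * E - 1) = (x * (E * Q) - 1) - (Q - 1) := by ring
      rw [this]
      refine (norm_sub_le _ _).trans ?_
      linarith
    have d5 : ‖x * E - 1‖ ≤ 5 * θ := by
      have h6 : (1 - 2 * θ) * ‖x * E - 1‖ ≤ θ / 4 + 2 * θ :=
        (mul_le_mul_of_nonneg_right d3.le (norm_nonneg _)).trans d4
      nlinarith [norm_nonneg (x * E - 1)]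
    have d6 : x - E⁻¹ = E⁻¹ * (x * E - 1) := by field_simp
    have d7 : ‖x - E⁻¹‖ ≤ ε / 2 := by
      rw [d6, norm_mul]
      have := mul_le_mul d2 d5 (norm_nonneg _) (by positivity)
      nlinarith
    have : x - y = (x - E⁻¹) + (E⁻¹ - y) := by ring
    rw [this]
    refine (norm_add_le _ _).trans ?_
    linarith
  have hkey := int_split (φ := fun t => FB r α z z' (xt z' t) * GB θ z z' K (xt z' t)) (h.Dm T) hUm hM g4 (h.Zn T)
    hφc.measurable (fun t => mul_nonneg (FB_nonneg _ _ _ _ _) (GB_nonneg _ _ _ _ _))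
    (fun t => mul_le_one₀ (FB_le_one hr _ _ _ _) (GB_nonneg _ _ _ _ _) (GB_le_one _ _ _ _ _)) (fun t ht1 ht2 => by
      by_contra hcon
      push Not at hcon
      refine ht1 ?_
      rw [hU]
      exact ⟨hcon, ht2⟩)
  have hmono : ∫ t in D T ∩ U, Z T t ≤
      ∫ t in D T ∩ {t | ∀ w ∈ K, ‖riemannZeta (w + t * Complex.I) - Complex.exp (P w)‖ ≤ ε}, Z T t :=
    setIntegral_mono_set (g4.mono_set Set.inter_subset_left) (Eventually.of_forall fun t => h.Zn T t)
      (Eventually.of_forall fun t (ht : t ∈ D T ∩ U) => ⟨ht.1, hUsub ht.2⟩)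
  have h5 := mul_le_mul_of_nonneg_left hkey g3
  rw [mul_add] at h5
  have h6 := mul_le_mul_of_nonneg_left hmono g3
  have h7 := g2.trans (min_le_left _ _)
  linarith

end Pool.Agent.X107.MU
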