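import Pool.Agent.X107.MU.MU12
import Pool.Agent.Y834.UT.Main

/-! # The targets of universality for systems of weights -/

set_option autoImplicit false

open Filter Topology MeasureTheory

namespace Pool.Agent.X107.MU

open Pool.Agent.Y834.UT

/-- targets have positive weight -/
theorem tgt_pos {s : ℝ} (hs : 0 < s) (Z0 : ℝ → ℝ → ℝ → ℝ → ℝ → ℕ) {K : Set ℂ} (hK : IsCompact K)
    (hKs : ∀ z ∈ K, 1 / 2 < z.re ∧ z.re < 1) {f : ℂ → ℂ} (hf : Tgt K f) {ε : ℝ} (hε : 0 < ε) :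
    ∃ κ > 0, ∀ (Z : ℝ → ℝ → ℝ) (D : ℝ → Set ℝ) (c : ℝ → ℝ), Sys s Z0 Z D c → ∀ᶠ T in atTop,
      κ ≤ c T * ∫ t in D T ∩ SS ε K f, Z T t := by
  obtain ⟨g, hgf, hgc, hgd, hgV⟩ := hf
  have hHc := isCompact_hull hK
  have hHo := isConnected_compl_hull hK
  obtain ⟨p, hp0, hp⟩ := approx_hull hK hgc hgd hgV (show 0 < ε / 8 by positivity)
  obtain ⟨q, hq⟩ := ZU.exp_approx hHc hHo p hp0 (ε / 8) (by positivity)
  obtain ⟨κ, hκ, hk⟩ := pos_exp hs Z0 hK hKs q.differentiable (show 0 < ε / 4 by positivity)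
  refine ⟨κ, hκ, fun Z D c h => ?_⟩
  filter_upwards [hk Z D c h, h.c0, h.Zi] with T h1 h2 h3
  refine h1.trans (mul_le_mul_of_nonneg_left ?_ h2)
  refine setIntegral_mono_set (h3.mono_set Set.inter_subset_left) (Eventually.of_forall fun t => h.Zn T t)
    (Eventually.of_forall fun t (ht : t ∈ D T ∩ _) => ⟨ht.1, ε / 2, by linarith, fun w hw => ?_⟩)
  have h4 := ht.2 w hw
  have h5 := hq w (subset_hull K hw)
  have h6 := hp w (subset_hull K hw)
  rw [hgf w hw] at h6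
  have : riemannZeta (w + t * Complex.I) - f w = (riemannZeta (w + t * Complex.I) - Complex.exp (q.eval w)) +
      ((Complex.exp (q.eval w) - p.eval w) + (p.eval w - f w)) := by ring
  rw [this]
  refine (norm_add_le _ _).trans ?_
  have h7 := norm_add_le (Complex.exp (q.eval w) - p.eval w) (p.eval w - f w)
  linarith

/-- sets of weights which do not tend to zero contain ordinates without zeros nearby -/
lemma exists_good_w {s : ℝ} {Z0 : ℝ → ℝ → ℝ → ℝ → ℝ → ℕ} {Z : ℝ → ℝ → ℝ} {D : ℝ → Set ℝ} {c : ℝ → ℝ}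
    (h : Sys s Z0 Z D c) {E : Set ℝ} (hE : ¬ Tendsto (fun T => c T * ∫ t in D T ∩ E, Z T t) atTop (𝓝 0))
    {a b B : ℝ} (h1 : 1 / 2 < a) (h3 : b < 1) :
    ∃ t ∈ E, ∀ w ∈ ZU.rect a b B, riemannZeta (w + t * Complex.I) ≠ 0 := by
  by_contra hcon
  push Not at hcon
  have hR : IsCompact (ZU.rect a b B) := ZU.J_e1b.fubini_bound_compact a b B
  obtain ⟨a', b', B', C, k1, k2, k3, k4, hC, hbad⟩ := badG_large hR
    (fun z hz => ⟨h1.trans_le hz.1, lt_of_le_of_lt hz.2.1 h3⟩)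
  refine hE (tendsto_order.2 ⟨fun x hx => ?_, fun η hη => ?_⟩)
  · filter_upwards [h.c0] with T h2
    exact lt_of_lt_of_le hx (mul_nonneg h2 (integral_nonneg fun t => h.Zn T t))
  · have t1 := h.tail a' b' B' (1 ^ 2 / C) (η / 2) k1 k2 k3 k4 (by positivity) (by positivity) _ le_rfl
    filter_upwards [t1, h.c0, h.Zi] with T h4 h5 h6
    refine lt_of_le_of_lt ((mul_le_mul_of_nonneg_left ?_ h5).trans h4) (by linarith)
    refine setIntegral_mono_set (h6.mono_set Set.inter_subset_left) (Eventually.of_forall fun t => h.Zn T t)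
      (Eventually.of_forall fun t (ht : t ∈ D T ∩ E) => ⟨ht.1, ?_⟩)
    obtain ⟨w, hw, hw0⟩ := hcon t ht.2
    show 1 ^ 2 / C ≤ JG a' b' B' _ t
    rw [div_le_iff₀ hC, mul_comm]
    refine hbad _ 1 t t zero_le_one ⟨w, hw, ?_⟩ (by simp)
    unfold GZ
    rw [hw0, zero_mul, zero_sub, norm_neg, norm_one]

/-- the converse -/
theorem of_weight {s : ℝ} {Z0 : ℝ → ℝ → ℝ → ℝ → ℝ → ℕ} {K : Set ℂ} (hK : IsCompact K)
    (hKs : ∀ z ∈ K, 1 / 2 < z.re ∧ z.re < 1) {f : ℂ → ℂ}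
    (h : ∀ ε : ℝ, 0 < ε → ∃ (Z : ℝ → ℝ → ℝ) (D : ℝ → Set ℝ) (c : ℝ → ℝ), Sys s Z0 Z D c ∧
      ¬ Tendsto (fun T => c T * ∫ t in D T ∩ SS ε K f, Z T t) atTop (𝓝 0)) : Tgt K f := by
  obtain ⟨a, b, B, h1, h2, h3, h4, hR⟩ := exists_hull_rect hK hKs
  have hex : ∀ n : ℕ, ∃ t : ℝ, (∀ z ∈ K, ‖riemannZeta (z + t * Complex.I) - f z‖ ≤ 1 / ((n : ℝ) + 1)) ∧
      ∀ w ∈ ZU.rect a b B, riemannZeta (w + t * Complex.I) ≠ 0 := by
    intro n
    obtain ⟨Z, D, c, hS, hT⟩ := h (1 / ((n : ℝ) + 1)) (by positivity)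
    obtain ⟨t, ⟨δ, hδ, ht⟩, ht0⟩ := exists_good_w hS hT (B := B) h1 h3
    exact ⟨t, fun z hz => (ht z hz).trans hδ.le, ht0⟩
  choose t htK ht0 using hex
  obtain ⟨g, g1, g2, g3, g4⟩ := limits hK (isOpen_lt Complex.continuous_re continuous_const)
    (fun z hz => (hR hz).2.1.trans_lt h3) f (fun n z => riemannZeta (z + t n * Complex.I))
    (fun n => F_diff (t n)) (fun n z hz => ht0 n z (hR hz)) htK
  exact ⟨g, g1, g2, g3, fun z hz => g4 _ isOpen_interior.connectedComponentIn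
    isPreconnected_connectedComponentIn (connectedComponentIn_subset _ _)⟩

end Pool.Agent.X107.MU
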