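import Pool.Agent.X107.MU.MU13

/-! # The law of the values for systems of weights -/

set_option autoImplicit false

open Filter Topology MeasureTheory

namespace Pool.Agent.X107.MU

open Pool.Agent.X110.NA
open Pool.Agent.X107.UZ (kN pN pN_mem pN_prime pN_inj Ev)
open Pool.Agent.H306R2 (aF aF_pos)

/-- the Euler product of the small primes on the torus -/
noncomputable def EE (z : ℕ) (x : Fin (kN z) → ℂ) (w : ℂ) : ℂ := (BE 0 z x w)⁻¹

lemma BE_ne {z : ℕ} {x : Fin (kN z) → ℂ} (hx : x ∈ Xt (kN z)) {w : ℂ} (hw : 0 < w.re) : BE 0 z x w ≠ 0 := by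
  unfold BE
  refine Finset.prod_ne_zero_iff.2 fun j _ => ?_
  split_ifs with hj
  · intro h0
    have h1 : (starRingEnd ℂ) (x j) * (pN z j : ℂ) ^ (-w) = 1 := (sub_eq_zero.1 h0).symm
    have h2 := congrArg norm h1
    have hp := pN_prime z j
    rw [norm_mul, RCLike.norm_conj, hx j, one_mul, norm_one, Complex.norm_natCast_cpow_of_pos hp.pos] at h2
    have h3 : (pN z j : ℝ) ^ (-w).re < 1 :=
      Real.rpow_lt_one_of_one_lt_of_neg (by exact_mod_cast hp.one_lt) (by rw [Complex.neg_re]; linarith)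
    linarith
  · exact one_ne_zero

lemma EE_xt (z : ℕ) (t : ℝ) (w : ℂ) : EE z (xt z t) w = (ZU.EM z (fun _ => 1) (w + t * Complex.I))⁻¹ := by
  unfold EE
  rw [BE_xt]
  unfold ZU.EM
  congr 1
  refine Finset.prod_congr rfl fun p hp => ?_
  rw [if_pos (Finset.mem_filter.1 hp).2.pos, one_mul]

lemma Xt_compact (m : ℕ) : IsCompact (Xt m) := by
  have h1 : Xt m = Set.pi Set.univ fun _ : Fin m => Metric.sphere (0 : ℂ) 1 := by
    ext x
    simp [Xt]
  rw [h1]
  exact isCompact_univ_pi fun _ => isCompact_sphere _ _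

lemma EE_uc (z : ℕ) {K : Set ℂ} (hK : IsCompact K) (hK0 : ∀ w ∈ K, 0 < w.re) {η : ℝ} (hη : 0 < η) :
    ∃ r > 0, ∀ x ∈ Xt (kN z), ∀ y ∈ Xt (kN z), dist x y < r → ∀ w ∈ K, ‖EE z x w - EE z y w‖ ≤ η := by
  have h1 : ContinuousOn (fun q : (Fin (kN z) → ℂ) × ℂ => EE z q.1 q.2) (Xt (kN z) ×ˢ K) := by
    unfold EE
    exact ((BE_cont 0 z).continuousOn).inv₀ fun q hq => BE_ne hq.1 (hK0 _ hq.2)
  have h2 := ((Xt_compact (kN z)).prod hK).uniformContinuousOn_of_continuous h1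
  rw [Metric.uniformContinuousOn_iff] at h2
  obtain ⟨r, hr, h3⟩ := h2 η hη
  refine ⟨r, hr, fun x hx y hy hxy w hw => ?_⟩
  have h4 := h3 (x, w) ⟨hx, hw⟩ (y, w) ⟨hy, hw⟩ (by
    rw [Prod.dist_eq, dist_self]
    exact max_lt hxy hr)
  rw [Complex.dist_eq] at h4
  exact h4.le

/-- a continuous function between two neighbourhoods -/
lemma urysohn (z : ℕ) {K : Set ℂ} (hK : IsCompact K) (hK0 : ∀ w ∈ K, 0 < w.re) (A : Set (ℂ → ℂ)) (δ : ℝ) {η : ℝ}
    (hη : 0 < η) : ∃ F : (Fin (kN z) → ℂ) → ℝ, Continuous F ∧ (∀ x, 0 ≤ F x) ∧ (∀ x, F x ≤ 1) ∧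
      (∀ x ∈ Xt (kN z), Ev K A δ (EE z x) → F x = 1) ∧ ∀ x ∈ Xt (kN z), 0 < F x → Ev K A (δ + η) (EE z x) := by
  obtain ⟨W, hW⟩ : ∃ W : Set (Fin (kN z) → ℂ), W = {x | x ∈ Xt (kN z) ∧ Ev K A δ (EE z x)} := ⟨_, rfl⟩
  rcases W.eq_empty_or_nonempty with he | hne
  · refine ⟨fun _ => 0, continuous_const, fun _ => le_rfl, fun _ => zero_le_one, fun x hx h => ?_, fun x _ h =>
      absurd h (lt_irrefl _)⟩
    have : x ∈ W := by rw [hW]; exact ⟨hx, h⟩
    rw [he] at this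
    exact this.elim
  · obtain ⟨r, hr, huc⟩ := EE_uc z hK hK0 hη
    refine ⟨fun x => max 0 (1 - Metric.infDist x W / r), ?_, fun _ => le_max_left _ _, fun x => ?_, fun x hx h => ?_,
      fun x hx h => ?_⟩
    · exact continuous_const.max (continuous_const.sub ((Metric.continuous_infDist_pt W).div_const r))
    · refine max_le zero_le_one ?_
      have : 0 ≤ Metric.infDist x W / r := div_nonneg Metric.infDist_nonneg hr.le
      linarith
    · have hxW : x ∈ W := by rw [hW]; exact ⟨hx, h⟩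
      show max 0 (1 - Metric.infDist x W / r) = 1
      rw [Metric.infDist_zero_of_mem hxW, zero_div, sub_zero, max_eq_right zero_le_one]
    · rw [lt_max_iff] at h
      rcases h with h | h
      · exact absurd h (lt_irrefl _)
      · have h2 : Metric.infDist x W / r < 1 := by linarith
        rw [div_lt_one hr] at h2
        obtain ⟨y, hy, hxy⟩ := (Metric.infDist_lt_iff hne).1 h2
        rw [hW] at hy
        exact hy.2.mono fun w hw => huc x hx y hy.1 hxy w hw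

/-- the additive form of the tails -/
theorem tail_add {s : ℝ} (Z0 : ℝ → ℝ → ℝ → ℝ → ℝ → ℕ) {K : Set ℂ} (hK : IsCompact K)
    (hKs : ∀ z ∈ K, 1 / 2 < z.re ∧ z.re < 1) {η ε : ℝ} (hη : 0 < η) (hε : 0 < ε) :
    ∃ z : ℕ, ∃ W : Set ℝ, MeasurableSet W ∧ (∀ t, t ∉ W → ∀ w ∈ K, ‖riemannZeta (w + t * Complex.I) - EE z (xt z t) w‖ ≤ η) ∧
      ∀ (Z : ℝ → ℝ → ℝ) (D : ℝ → Set ℝ) (c : ℝ → ℝ), Sys s Z0 Z D c → ∀ᶠ T in atTop,
        c T * ∫ t in D T ∩ W, Z T t ≤ ε := by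
  obtain ⟨a', b', B', C, k1, k2, k3, k4, hC, hbad⟩ := badG_large hK hKs
  have hK0 : ∀ w ∈ K, 0 < w.re := fun w hw => by linarith [(hKs w hw).1]
  obtain ⟨z0, hz0⟩ : ∃ z0, z0 = Z0 a' b' B' ((1 / 2) ^ 2 / C) (ε / 2) := ⟨_, rfl⟩
  -- a bound for the product of the small primes
  obtain ⟨A, hA⟩ : ∃ A : ℝ, ∀ q ∈ Xt (kN z0) ×ˢ K, ‖EE z0 q.1 q.2‖ ≤ A := by
    have h1 : ContinuousOn (fun q : (Fin (kN z0) → ℂ) × ℂ => EE z0 q.1 q.2) (Xt (kN z0) ×ˢ K) := by
      unfold EE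
      exact ((BE_cont 0 z0).continuousOn).inv₀ fun q hq => BE_ne hq.1 (hK0 _ hq.2)
    exact ((Xt_compact (kN z0)).prod hK).exists_bound_of_continuousOn h1
  obtain ⟨A', hA', hA0⟩ : ∃ A' : ℝ, (∀ q ∈ Xt (kN z0) ×ˢ K, ‖EE z0 q.1 q.2‖ ≤ A') ∧ 0 ≤ A' :=
    ⟨max A 0, fun q hq => (hA q hq).trans (le_max_left _ _), le_max_right _ _⟩
  obtain ⟨ρ, hρ⟩ : ∃ ρ, ρ = min (η / (4 * (A' + 1))) (1 / 2) := ⟨_, rfl⟩
  have hρ0 : 0 < ρ := by rw [hρ]; positivity
  have hρ1 : ρ ≤ 1 / 2 := by rw [hρ]; exact min_le_right _ _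
  have hρ2 : ρ * (4 * (A' + 1)) ≤ η := by
    have : ρ ≤ η / (4 * (A' + 1)) := by rw [hρ]; exact min_le_left _ _
    rwa [le_div_iff₀ (by positivity)] at this
  obtain ⟨z, hz⟩ : ∃ z, z = Z0 a' b' B' (ρ ^ 2 / C) (ε / 2) := ⟨_, rfl⟩
  have hM : ∀ (z : ℕ) (x : ℝ), MeasurableSet {t : ℝ | x ≤ JG a' b' B' z t} := fun z x =>
    (isClosed_le continuous_const (JG_cont k2 k3 k4 z)).measurableSet
  refine ⟨z, {t | (1 / 2) ^ 2 / C ≤ JG a' b' B' z0 t} ∪ {t | ρ ^ 2 / C ≤ JG a' b' B' z t}, (hM _ _).union (hM _ _),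
    fun t ht w hw => ?_, fun Z D c h => ?_⟩
  · rw [Set.mem_union, not_or] at ht
    obtain ⟨ht1, ht2⟩ := ht
    have g1 : ‖GZ z0 (w + t * Complex.I)‖ < 1 / 2 := by
      by_contra hcon
      push Not at hcon
      refine ht1 ?_
      show (1 / 2) ^ 2 / C ≤ JG a' b' B' z0 t
      rw [div_le_iff₀ hC, mul_comm]
      exact hbad z0 (1 / 2) t t (by norm_num) ⟨w, hw, hcon⟩ (by simp)
    have g2 : ‖GZ z (w + t * Complex.I)‖ < ρ := by
      by_contra hcon
      push Not at hcon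
      refine ht2 ?_
      show ρ ^ 2 / C ≤ JG a' b' B' z t
      rw [div_le_iff₀ hC, mul_comm]
      exact hbad z ρ t t hρ0.le ⟨w, hw, hcon⟩ (by simp)
    have g3 := hA' (xt z0 t, w) ⟨fun j => xt_norm z0 t j, hw⟩
    rw [EE_xt] at g3 ⊢
    have hn0 : ZU.EM z0 (fun _ => 1) (w + t * Complex.I) ≠ 0 := by
      intro h0
      unfold GZ at g1
      rw [h0, mul_zero, zero_sub, norm_neg, norm_one] at g1
      linarith
    have hn : ZU.EM z (fun _ => 1) (w + t * Complex.I) ≠ 0 := by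
      intro h0
      unfold GZ at g2
      rw [h0, mul_zero, zero_sub, norm_neg, norm_one] at g2
      linarith
    unfold GZ at g1 g2
    generalize ZU.EM z0 (fun _ => 1) (w + t * Complex.I) = E0 at g1 g3 hn0
    generalize ZU.EM z (fun _ => 1) (w + t * Complex.I) = E at g2 hn ⊢
    generalize riemannZeta (w + t * Complex.I) = x at g1 g2 ⊢
    -- the size of zeta
    have h1 : ‖x‖ ≤ 2 * A' := by
      have e : x = E0⁻¹ * (x * E0) := by field_simp
      have h2 : ‖x * E0‖ ≤ 2 := by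
        have := norm_add_le (x * E0 - 1) 1
        rw [sub_add_cancel, norm_one] at this
        linarith
      rw [e, norm_mul]
      calc ‖E0⁻¹‖ * ‖x * E0‖ ≤ A' * 2 := mul_le_mul g3 h2 (norm_nonneg _) hA0
        _ = 2 * A' := by ring
    have h3 : 1 / 2 ≤ ‖x * E‖ := by
      have := norm_sub_norm_le (1 : ℂ) (1 - x * E)
      rw [norm_one, sub_sub_cancel, norm_sub_rev] at this
      linarith
    have e1 : (x - E⁻¹) * (x * E) = x * (x * E - 1) := by field_simp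
    have h4 : ‖x - E⁻¹‖ * ‖x * E‖ ≤ 2 * A' * ρ := by
      rw [← norm_mul, e1, norm_mul]
      exact mul_le_mul h1 g2.le (norm_nonneg _) (by positivity)
    have h5 : ‖x - E⁻¹‖ * (1 / 2) ≤ 2 * A' * ρ := (mul_le_mul_of_nonneg_left h3 (norm_nonneg _)).trans h4
    nlinarith
  · have t1 := h.tail a' b' B' ((1 / 2) ^ 2 / C) (ε / 2) k1 k2 k3 k4 (by positivity) (by positivity) z0 hz0.ge
    have t2 := h.tail a' b' B' (ρ ^ 2 / C) (ε / 2) k1 k2 k3 k4 (by positivity) (by positivity) z hz.ge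
    filter_upwards [t1, t2, h.c0, h.Zi] with T h1 h2 h3 h4
    rw [Set.inter_union_distrib_left]
    have h5 : ∫ t in (D T ∩ {t | (1 / 2) ^ 2 / C ≤ JG a' b' B' z0 t}) ∪ (D T ∩ {t | ρ ^ 2 / C ≤ JG a' b' B' z t}), Z T t ≤
        (∫ t in D T ∩ {t | (1 / 2) ^ 2 / C ≤ JG a' b' B' z0 t}, Z T t) + ∫ t in D T ∩ {t | ρ ^ 2 / C ≤ JG a' b' B' z t}, Z T t := by
      rw [← integral_add_measure (h4.mono_set Set.inter_subset_left) (h4.mono_set Set.inter_subset_left)]
      refine integral_mono_measure (Measure.restrict_union_le _ _) (Eventually.of_forall fun t => h.Zn T t) ?_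
      exact Integrable.add_measure (h4.mono_set Set.inter_subset_left) (h4.mono_set Set.inter_subset_left)
    have h6 := mul_le_mul_of_nonneg_left h5 h3
    rw [mul_add] at h6
    linarith

/-- the ordinates -/
def Zt (K : Set ℂ) (A : Set (ℂ → ℂ)) (ε t : ℝ) : Prop := Ev K A ε fun w => riemannZeta (w + t * Complex.I)

/-- **the core theorem** -/
theorem core {s : ℝ} (Z0 : ℝ → ℝ → ℝ → ℝ → ℝ → ℕ) {K : Set ℂ} (hK : IsCompact K)
    (hKs : ∀ z ∈ K, 1 / 2 < z.re ∧ z.re < 1) (A : Set (ℂ → ℂ)) {δ ε η : ℝ} (hδε : δ < ε) (hη : 0 < η) :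
    ∃ μ : ℝ, ∀ (Z : ℝ → ℝ → ℝ) (D : ℝ → Set ℝ) (c : ℝ → ℝ), Sys s Z0 Z D c → ∀ᶠ T in atTop,
      c T * ∫ t in D T ∩ {t | Zt K A δ t}, Z T t ≤ μ + η ∧ μ - η ≤ c T * ∫ t in D T ∩ {t | Zt K A ε t}, Z T t := by
  have hK0 : ∀ w ∈ K, 0 < w.re := fun w hw => by linarith [(hKs w hw).1]
  obtain ⟨z, W, hWm, hW, hWt⟩ := tail_add Z0 hK hKs (show 0 < (ε - δ) / 3 by linarith) (half_pos hη)
  obtain ⟨F, hFc, hF0, hF1, hFa, hFb⟩ := urysohn z hK hK0 A (δ + (ε - δ) / 3) (show 0 < (ε - δ) / 3 by linarith)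
  refine ⟨Lam s (pN z) F, fun Z D c h => ?_⟩
  have hlaw := law_xt h z F hFc
  have hφc : Continuous fun t => F (xt z t) := hFc.comp (xt_cont z)
  have m1 : MeasurableSet ({t | F (xt z t) = 1} ∪ W) :=
    (isClosed_eq hφc continuous_const).measurableSet.union hWm
  have m2 : MeasurableSet ({t | 0 < F (xt z t)} ∩ Wᶜ) :=
    (isOpen_lt continuous_const hφc).measurableSet.inter hWm.compl
  have s1 : {t | Zt K A δ t} ⊆ {t | F (xt z t) = 1} ∪ W := by
    intro t ht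
    by_cases hw : t ∈ W
    · exact Or.inr hw
    · refine Or.inl (hFa _ (fun j => xt_norm z t j) ?_)
      exact ht.mono fun w hwK => by
        rw [norm_sub_rev]
        exact hW t hw w hwK
  have s2 : {t | 0 < F (xt z t)} ∩ Wᶜ ⊆ {t | Zt K A ε t} := by
    rintro t ⟨ht, hw⟩
    have h1 := (hFb _ (fun j => xt_norm z t j) ht).mono (h := fun w => riemannZeta (w + t * Complex.I))
      (ε := (ε - δ) / 3) fun w hwK => hW t hw w hwK
    exact h1.le (by linarith)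
  filter_upwards [hlaw.eventually (lt_mem_nhds (show Lam s (pN z) F - η / 2 < _ by linarith)),
    hlaw.eventually (gt_mem_nhds (show _ < Lam s (pN z) F + η / 2 by linarith)), hWt Z D c h, h.c0, h.Zi] with T g1 g2 g3 g4 g5
  have hi : IntegrableOn (fun t => Z T t * F (xt z t)) (D T) := by
    refine g5.mul_bdd (c := 1) hφc.measurable.aestronglyMeasurable (Eventually.of_forall fun t => ?_)
    rw [Real.norm_of_nonneg (hF0 _)]
    exact hF1 _
  constructor
  · have h1 : ∫ t in D T ∩ {t | Zt K A δ t}, Z T t ≤ ∫ t in D T ∩ ({t | F (xt z t) = 1} ∪ W), Z T t :=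
      setIntegral_mono_set (g5.mono_set Set.inter_subset_left) (Eventually.of_forall fun t => h.Zn T t)
        (Eventually.of_forall fun t (ht : t ∈ D T ∩ _) => ⟨ht.1, s1 ht.2⟩)
    have h2 : ∫ t in D T ∩ ({t | F (xt z t) = 1} ∪ W), Z T t ≤ (∫ t in D T, Z T t * F (xt z t)) + ∫ t in D T ∩ W, Z T t := by
      rw [← setIntegral_indicator m1, ← setIntegral_indicator hWm, ← integral_add hi (g5.indicator hWm)]
      refine setIntegral_mono_on (g5.indicator m1) (hi.add (g5.indicator hWm)) (h.Dm T) fun t _ => ?_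
      have hz := h.Zn T t
      by_cases hw : t ∈ W
      · rw [Set.indicator_of_mem hw, Set.indicator_of_mem (Set.mem_union_right _ hw)]
        have := mul_nonneg hz (hF0 (xt z t))
        linarith
      · rw [Set.indicator_of_notMem hw, add_zero]
        by_cases h1 : F (xt z t) = 1
        · have hmem : t ∈ {t | F (xt z t) = 1} ∪ W := Or.inl h1
          rw [Set.indicator_of_mem hmem, h1, mul_one]
        · rw [Set.indicator_of_notMem]
          · exact mul_nonneg hz (hF0 _)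
          · rintro (h2 | h2)
            · exact h1 h2
            · exact hw h2
    have h3 := mul_le_mul_of_nonneg_left (h1.trans h2) g4
    rw [mul_add] at h3
    linarith
  · have h1 := int_split (φ := fun t => F (xt z t)) (h.Dm T) m2 hWm g5 (h.Zn T) hφc.measurable (fun t => hF0 _) (fun t => hF1 _)
      (fun t ht1 ht2 => by
        by_contra hcon
        push Not at hcon
        exact ht1 ⟨hcon, ht2⟩)
    have h2 : ∫ t in D T ∩ ({t | 0 < F (xt z t)} ∩ Wᶜ), Z T t ≤ ∫ t in D T ∩ {t | Zt K A ε t}, Z T t :=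
      setIntegral_mono_set (g5.mono_set Set.inter_subset_left) (Eventually.of_forall fun t => h.Zn T t)
        (Eventually.of_forall fun t (ht : t ∈ D T ∩ _) => ⟨ht.1, s2 ht.2⟩)
    have h3 := mul_le_mul_of_nonneg_left h1 g4
    have h4 := mul_le_mul_of_nonneg_left h2 g4
    rw [mul_add] at h3
    linarith

end Pool.Agent.X107.MU
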