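import Pool.Agent.X107.MU.MU14
import Pool.Agent.Y753.SHR.Star
import Pool.Agent.Y901.SHR.Diag

/-! # The limit of the weights of the sets of ordinates -/

set_option autoImplicit false

open Filter Topology MeasureTheory

namespace Pool.Agent.X107.MU

open Pool.Agent.X107.UZ (kN pN pN_mem pN_prime pN_inj Ev)
open Pool.Agent.Y834.UT

/-- the lower bounds valid for all systems -/
def LS (s : ℝ) (Z0 : ℝ → ℝ → ℝ → ℝ → ℝ → ℕ) (K : Set ℂ) (A : Set (ℂ → ℂ)) (ε : ℝ) : Set ℝ :=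
  {m | m ≤ L1 s ∧ ∀ (Z : ℝ → ℝ → ℝ) (D : ℝ → Set ℝ) (c : ℝ → ℝ), Sys s Z0 Z D c → ∀ᶠ T in atTop,
    m ≤ c T * ∫ t in D T ∩ {t | Zt K A ε t}, Z T t}

/-- the limit -/
noncomputable def DL (s : ℝ) (Z0 : ℝ → ℝ → ℝ → ℝ → ℝ → ℕ) (K : Set ℂ) (A : Set (ℂ → ℂ)) (ε : ℝ) : ℝ :=
  sSup (LS s Z0 K A ε)

section

variable {s : ℝ} (hs : 0 < s) (Z0 : ℝ → ℝ → ℝ → ℝ → ℝ → ℕ) (K : Set ℂ) (A : Set (ℂ → ℂ))

include hs in
lemma LS_zero (ε : ℝ) : (0 : ℝ) ∈ LS s Z0 K A ε :=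
  ⟨(L1_pos hs).le, fun Z D c h => by
    filter_upwards [h.c0] with T hT
    exact mul_nonneg hT (integral_nonneg fun t => h.Zn T t)⟩

lemma LS_bdd (ε : ℝ) : BddAbove (LS s Z0 K A ε) := ⟨L1 s, fun _ h => h.1⟩

include hs in
lemma DL_nonneg (ε : ℝ) : 0 ≤ DL s Z0 K A ε := le_csSup (LS_bdd Z0 K A ε) (LS_zero hs Z0 K A ε)

include hs in
lemma DL_le (ε : ℝ) : DL s Z0 K A ε ≤ L1 s := csSup_le ⟨0, LS_zero hs Z0 K A ε⟩ fun _ h => h.1

lemma Zt_mono {K : Set ℂ} {A : Set (ℂ → ℂ)} {ε ε' t : ℝ} (h : ε ≤ ε') (ht : Zt K A ε t) : Zt K A ε' t := ht.le h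

include hs in
lemma DL_mono : Monotone (DL s Z0 K A) := by
  intro ε ε' h
  refine csSup_le_csSup (LS_bdd Z0 K A ε') ⟨0, LS_zero hs Z0 K A ε⟩ fun m hm => ⟨hm.1, fun Z D c hS => ?_⟩
  filter_upwards [hm.2 Z D c hS, hS.c0, hS.Zi] with T h1 h2 h3
  refine h1.trans (mul_le_mul_of_nonneg_left ?_ h2)
  exact setIntegral_mono_set (h3.mono_set Set.inter_subset_left) (Eventually.of_forall fun t => hS.Zn T t)
    (Eventually.of_forall fun t (ht : t ∈ D T ∩ _) => ⟨ht.1, Zt_mono h ht.2⟩)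

include hs in
/-- **the law** -/
theorem DL_law {K : Set ℂ} (hK : IsCompact K) (hKs : ∀ z ∈ K, 1 / 2 < z.re ∧ z.re < 1) {ε : ℝ}
    (hc : ContinuousAt (DL s Z0 K A) ε) {Z : ℝ → ℝ → ℝ} {D : ℝ → Set ℝ} {c : ℝ → ℝ} (h : Sys s Z0 Z D c) :
    Tendsto (fun T => c T * ∫ t in D T ∩ {t | Zt K A ε t}, Z T t) atTop (𝓝 (DL s Z0 K A ε)) := by
  refine tendsto_order.2 ⟨fun x hx => ?_, fun x hx => ?_⟩
  · obtain ⟨m, hm, hxm⟩ := exists_lt_of_lt_csSup ⟨0, LS_zero hs Z0 K A ε⟩ hx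
    filter_upwards [hm.2 Z D c h] with T hT
    exact hxm.trans_le hT
  · obtain ⟨η, hη⟩ : ∃ η, η = x - DL s Z0 K A ε := ⟨_, rfl⟩
    have hη0 : 0 < η := by rw [hη]; linarith
    have h1 : ∀ᶠ ε' in 𝓝 ε, DL s Z0 K A ε' < DL s Z0 K A ε + η / 4 :=
      hc.eventually (gt_mem_nhds (by linarith))
    obtain ⟨r, hr, h2⟩ := Metric.eventually_nhds_iff.1 h1
    have h3 : DL s Z0 K A (ε + r / 2) < DL s Z0 K A ε + η / 4 := h2 (by
      rw [Real.dist_eq, add_sub_cancel_left, abs_of_pos (by positivity)]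
      linarith)
    obtain ⟨μ, hμ⟩ := core Z0 hK hKs A (show ε < ε + r / 2 by linarith) (show 0 < η / 4 by positivity)
    have h4 : min (μ - η / 4) (L1 s) ≤ DL s Z0 K A (ε + r / 2) := by
      refine le_csSup (LS_bdd Z0 K A _) ⟨min_le_right _ _, fun Z D c h => ?_⟩
      filter_upwards [hμ Z D c h] with T hT
      exact (min_le_left _ _).trans hT.2
    have hm := (mass h).eventually (gt_mem_nhds (show L1 s < L1 s + η / 4 by linarith))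
    filter_upwards [hμ Z D c h, hm, h.c0, h.Zi] with T g1 g2 g3 g4
    have g5 : c T * ∫ t in D T ∩ {t | Zt K A ε t}, Z T t ≤ c T * ∫ t in D T, Z T t :=
      mul_le_mul_of_nonneg_left (setIntegral_mono_set g4 (Eventually.of_forall fun t => h.Zn T t)
        (Eventually.of_forall fun t (ht : t ∈ D T ∩ _) => ht.1)) g3
    rcases min_le_iff.1 h4 with h5 | h5
    · linarith [g1.1]
    · linarith

lemma Zt_SS {K : Set ℂ} {f : ℂ → ℂ} {ε : ℝ} : {t | Zt K {f} ε t} = SS ε K f := by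
  ext t
  unfold Zt Ev SS
  simp only [Set.mem_singleton_iff, exists_eq_left, Set.mem_ofPred_eq]

include hs in
/-- targets have positive weight -/
theorem DL_pos {K : Set ℂ} (hK : IsCompact K) (hKs : ∀ z ∈ K, 1 / 2 < z.re ∧ z.re < 1) {f : ℂ → ℂ} (hf : Tgt K f)
    {ε : ℝ} (hε : 0 < ε) : 0 < DL s Z0 K {f} ε := by
  obtain ⟨κ, hκ, hk⟩ := tgt_pos hs Z0 hK hKs hf hε
  have hL := L1_pos hs
  have h1 : min κ (L1 s) ≤ DL s Z0 K {f} ε := by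
    refine le_csSup (LS_bdd Z0 K _ _) ⟨min_le_right _ _, fun Z D c h => ?_⟩
    filter_upwards [hk Z D c h] with T hT
    rw [Zt_SS]
    exact (min_le_left _ _).trans hT
  exact lt_of_lt_of_le (lt_min hκ hL) h1

include hs in
/-- only targets have positive weight -/
theorem tgt_of_DL {K : Set ℂ} (hK : IsCompact K) (hKs : ∀ z ∈ K, 1 / 2 < z.re ∧ z.re < 1) {f : ℂ → ℂ}
    {Z : ℝ → ℝ → ℝ} {D : ℝ → Set ℝ} {c : ℝ → ℝ} (h : Sys s Z0 Z D c)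
    (hf : ∀ ε : ℝ, 0 < ε → 0 < DL s Z0 K {f} ε) : Tgt K f := by
  refine of_weight (Z0 := Z0) (s := s) hK hKs fun ε hε => ⟨Z, D, c, h, fun ht => ?_⟩
  obtain ⟨m, hm, hm0⟩ := exists_lt_of_lt_csSup ⟨0, LS_zero hs Z0 K _ _⟩ (hf ε hε)
  have h1 := hm.2 Z D c h
  rw [Zt_SS] at h1
  have h2 := ge_of_tendsto ht h1
  linarith

end

/-- the total mass is the arithmetic factor -/
lemma L1_eq (s : ℝ) : L1 s = Pool.Agent.H306R2.aF s := by
  have h := pi_int_real (fun (j : Fin 0) (_ : ℝ) => (1 : ℝ))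
  unfold L1 Lam
  simp only [Finset.univ_eq_empty, Finset.prod_empty, mul_one] at h ⊢
  rw [h, mul_one]

end Pool.Agent.X107.MU
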