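import Pool.Agent.Y693.R4.Hardy
import Pool.Agent.Y732.UP.SUBA

/-! # The Poisson inequality in a half-plane for arbitrary exponents -/

set_option autoImplicit false

namespace Pool.Agent.X107.MU

open Complex Filter Topology MeasureTheory Set Metric
open Pool.Agent.Y693.R4 (circle_line)

/-- mean value of a power on the circle -/
theorem circle_p {h : ℂ → ℂ} (hd : DiffContOnCl ℂ h (ball 0 1)) {p : ℝ} (hp : 0 < p) :
    ‖h 0‖ ^ p ≤ (1 / (2 * Real.pi)) * ∫ φ in (-Real.pi)..Real.pi, ‖h (cexp (φ * I))‖ ^ p := by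
  have hpi := Real.pi_pos
  by_cases h0 : h 0 = 0
  · rw [h0, norm_zero, Real.zero_rpow hp.ne']
    refine mul_nonneg (by positivity) (intervalIntegral.integral_nonneg (by linarith) fun φ _ => ?_)
    exact Real.rpow_nonneg (norm_nonneg _) _
  have hc : ContinuousOn h (closedBall 0 1) := by
    have := hd.2
    rwa [closure_ball _ one_ne_zero] at this
  obtain ⟨g, hg⟩ : ∃ g : ℝ → ℝ → ℝ, g = fun r θ => ‖h (circleMap 0 (max 0 (min r 1)) θ)‖ ^ p := ⟨_, rfl⟩
  have hgc : Continuous g.uncurry := by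
    rw [hg]
    refine Continuous.rpow_const (Continuous.norm ?_) fun _ => Or.inr hp.le
    refine hc.comp_continuous (f := fun q : ℝ × ℝ => circleMap 0 (max 0 (min q.1 1)) q.2) ?_ fun q => ?_
    · unfold circleMap
      fun_prop
    · rw [mem_closedBall, dist_zero_right, norm_circleMap_zero, abs_of_nonneg (le_max_left _ _)]
      exact max_le zero_le_one (min_le_right _ _)
  have hΦ : Continuous fun r => ∫ θ in (0 : ℝ)..(2 * Real.pi), g r θ :=
    intervalIntegral.continuous_parametric_intervalIntegral_of_continuous' hgc _ _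
  have key : ∀ r ∈ Ioo (0 : ℝ) 1, ‖h 0‖ ^ p ≤ (2 * Real.pi)⁻¹ * ∫ θ in (0 : ℝ)..(2 * Real.pi), g r θ := by
    intro r hr
    have han : AnalyticOnNhd ℂ h (closedBall 0 r) := by
      have h1 : DifferentiableOn ℂ h (ball 0 1) := hd.1
      exact (h1.analyticOnNhd isOpen_ball).mono (closedBall_subset_ball hr.2)
    have h2 := Pool.Agent.Y732.UP.pow_le_avg h 0 r p hr.1 hp han h0
    rw [Real.circleAverage_def, smul_eq_mul] at h2
    refine h2.trans (le_of_eq ?_)
    congr 1
    refine intervalIntegral.integral_congr fun θ _ => ?_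
    rw [hg]
    simp only
    rw [min_eq_left hr.2.le, max_eq_right hr.1.le]
  have h1 : ‖h 0‖ ^ p ≤ (2 * Real.pi)⁻¹ * ∫ θ in (0 : ℝ)..(2 * Real.pi), g 1 θ := by
    have ht : Tendsto (fun r => (2 * Real.pi)⁻¹ * ∫ θ in (0 : ℝ)..(2 * Real.pi), g r θ) (𝓝[<] 1)
        (𝓝 ((2 * Real.pi)⁻¹ * ∫ θ in (0 : ℝ)..(2 * Real.pi), g 1 θ)) :=
      ((hΦ.const_mul _).tendsto 1).mono_left nhdsWithin_le_nhds
    refine ge_of_tendsto ht ?_
    filter_upwards [Ioo_mem_nhdsLT zero_lt_one] with r hr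
    exact key r hr
  have e1 : ∀ θ, g 1 θ = ‖h (cexp (θ * I))‖ ^ p := by
    intro θ
    rw [hg]
    simp only
    rw [min_self, max_eq_right zero_le_one]
    simp [circleMap]
  simp_rw [e1] at h1
  have h8 : ∫ φ in (0 : ℝ)..(2 * Real.pi), ‖h (cexp (φ * I))‖ ^ p =
      ∫ φ in (-Real.pi)..Real.pi, ‖h (cexp (φ * I))‖ ^ p := by
    have hper : Function.Periodic (fun φ : ℝ => ‖h (cexp (φ * I))‖ ^ p) (2 * Real.pi) := by
      intro φ
      show ‖h (cexp (((φ + 2 * Real.pi : ℝ) : ℂ) * I))‖ ^ p = _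
      have : cexp (((φ + 2 * Real.pi : ℝ) : ℂ) * I) = cexp (φ * I) := by
        push_cast
        rw [add_mul, Complex.exp_add, Complex.exp_two_pi_mul_I, mul_one]
      rw [this]
    have := hper.intervalIntegral_add_eq 0 (-Real.pi)
    rw [zero_add] at this
    rw [this]
    congr 1
    ring
  rw [h8] at h1
  rw [one_div]
  exact h1

/-- the Poisson inequality in the right half-plane -/
theorem hardy_p {H : ℂ → ℂ} {A C p : ℝ} (hp : 0 < p) (hA : 0 < A) (hH : ∀ z : ℂ, 0 ≤ z.re → DifferentiableAt ℂ H z)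
    (hb : ∀ z : ℂ, 0 ≤ z.re → ‖H z‖ ≤ C / (1 + ‖z‖)) :
    ‖H A‖ ^ p ≤ (1 / Real.pi) * ∫ t : ℝ, ‖H (t * I)‖ ^ p * (A / (A ^ 2 + t ^ 2)) := by
  obtain ⟨h, hh⟩ : ∃ h : ℂ → ℂ, h = fun ζ => if ζ = -1 then 0 else H (A * ((1 - ζ) / (1 + ζ))) := ⟨_, rfl⟩
  have hAc : (A : ℂ) ≠ 0 := by exact_mod_cast hA.ne'
  have hC : 0 ≤ C := by
    have h1 := hb 0 (by simp)
    rw [norm_zero, add_zero, div_one] at h1
    exact (norm_nonneg _).trans h1
  -- the real part
  have hre : ∀ ζ : ℂ, ζ ≠ -1 → ‖ζ‖ ≤ 1 → 0 ≤ ((A : ℂ) * ((1 - ζ) / (1 + ζ))).re := by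
    intro ζ h1 h2
    rw [Complex.re_ofReal_mul]
    refine mul_nonneg hA.le ?_
    rw [Complex.div_re]
    have h3 : 0 ≤ Complex.normSq (1 + ζ) := Complex.normSq_nonneg _
    rw [← add_div]
    refine div_nonneg ?_ h3
    have h4 : ‖ζ‖ ^ 2 ≤ 1 := by nlinarith [norm_nonneg ζ]
    rw [← Complex.normSq_eq_norm_sq, Complex.normSq_apply] at h4
    simp
    nlinarith
  have hdA : ∀ ζ : ℂ, ζ ≠ -1 → ‖ζ‖ ≤ 1 → DifferentiableAt ℂ h ζ := by
    intro ζ h1 h2
    have h3 : (1 + ζ) ≠ 0 := by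
      intro h0
      apply h1
      linear_combination h0
    have h4 : DifferentiableAt ℂ (fun ζ => H (A * ((1 - ζ) / (1 + ζ)))) ζ := by
      refine DifferentiableAt.comp ζ (f := fun ζ : ℂ => (A : ℂ) * ((1 - ζ) / (1 + ζ))) (hH _ (hre ζ h1 h2)) ?_
      refine DifferentiableAt.const_mul ?_ _
      exact DifferentiableAt.div (by fun_prop) (by fun_prop) h3
    refine h4.congr_of_eventuallyEq ?_
    filter_upwards [isOpen_ne.mem_nhds h1] with x hx
    rw [hh]
    exact if_neg hx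
  have hd : DiffContOnCl ℂ h (ball 0 1) := by
    refine ⟨fun ζ hζ => ?_, ?_⟩
    · have h1 : ‖ζ‖ < 1 := by simpa using hζ
      refine (hdA ζ ?_ h1.le).differentiableWithinAt
      rintro rfl
      simp at h1
    · rw [closure_ball _ one_ne_zero]
      intro ζ hζ
      have h1 : ‖ζ‖ ≤ 1 := by simpa using hζ
      by_cases h2 : ζ = -1
      · subst h2
        -- bound near `-1`
        have hbd : ∀ x ∈ closedBall (0 : ℂ) 1, ‖h x‖ ≤ C * (1 / A + 1) * (‖1 + x‖) := by
          intro x hx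
          have h3 : ‖x‖ ≤ 1 := by simpa using hx
          by_cases h4 : x = -1
          · rw [h4, hh]
            simp
          · rw [hh]
            simp only [if_neg h4]
            have h5 : (1 + x) ≠ 0 := by
              intro h0
              apply h4
              linear_combination h0
            have h6 : 0 < ‖1 + x‖ := norm_pos_iff.2 h5
            refine (hb _ (hre x h4 h3)).trans ?_
            rw [norm_mul, norm_div, Complex.norm_real, Real.norm_of_nonneg hA.le]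
            rw [div_le_iff₀ (by positivity)]
            have h7 : 2 ≤ ‖1 + x‖ + ‖1 - x‖ := by
              have : ‖(1 + x) + (1 - x)‖ ≤ ‖1 + x‖ + ‖1 - x‖ := norm_add_le _ _
              have e : (1 + x) + (1 - x) = 2 := by ring
              rw [e] at this
              simpa using this
            have h8 : ‖1 - x‖ / ‖1 + x‖ * ‖1 + x‖ = ‖1 - x‖ := div_mul_cancel₀ _ h6.ne'
            have h9 : C * (1 / A + 1) * ‖1 + x‖ * (1 + A * (‖1 - x‖ / ‖1 + x‖)) =
                C * ((1 / A + 1) * ‖1 + x‖ + (1 + A) * ‖1 - x‖) := by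
              have : C * (1 / A + 1) * ‖1 + x‖ * (1 + A * (‖1 - x‖ / ‖1 + x‖)) =
                C * ((1 / A + 1) * ‖1 + x‖ + (1 / A * A + A) * (‖1 - x‖ / ‖1 + x‖ * ‖1 + x‖)) := by ring
              rw [this, h8, one_div_mul_cancel hA.ne']
            rw [h9]
            have h10 : 0 < 1 / A := by positivity
            have h11 := norm_nonneg (1 - x)
            have h12 : 1 ≤ (1 / A + 1) * ‖1 + x‖ + (1 + A) * ‖1 - x‖ := by nlinarith
            nlinarith
        have h3 : h (-1) = 0 := by rw [hh]; simp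
        unfold ContinuousWithinAt
        rw [h3]
        refine squeeze_zero_norm' (a := fun x => C * (1 / A + 1) * ‖1 + x‖) ?_ ?_
        · filter_upwards [self_mem_nhdsWithin] with x hx
          exact hbd x hx
        · have h4 : Continuous (fun x : ℂ => C * (1 / A + 1) * ‖1 + x‖) := by fun_prop
          have h5 := (h4.tendsto (-1)).mono_left (nhdsWithin_le_nhds (s := closedBall (0 : ℂ) 1))
          simpa using h5
      · exact (hdA ζ h2 h1).continuousAt.continuousWithinAt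
  have h1 := circle_p hd hp
  have h0 : h 0 = H A := by
    rw [hh]
    simp
  rw [h0, circle_line (fun ζ => ‖h ζ‖ ^ p)] at h1
  refine h1.trans (le_of_eq ?_)
  -- rescale
  have h2 : ∀ t : ℝ, ‖h ((1 + t * I) / (1 - t * I))‖ ^ p * (2 / (1 + t ^ 2)) =
      ‖H (((-(A * t) : ℝ) : ℂ) * I)‖ ^ p * (2 / (1 + t ^ 2)) := by
    intro t
    have h5 : (1 - t * I : ℂ) ≠ 0 := by
      intro h
      have := congrArg Complex.re h
      simp at this
    have h6 : (1 + t * I) / (1 - t * I) ≠ (-1 : ℂ) := by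
      intro h
      rw [div_eq_iff h5] at h
      have := congrArg Complex.re h
      simp at this
      norm_num at this
    have h7 : (1 + (1 + t * I) / (1 - t * I) : ℂ) ≠ 0 := by
      intro h0
      apply h6
      linear_combination h0
    have h8 : (1 - (1 + t * I) / (1 - t * I) : ℂ) / (1 + (1 + t * I) / (1 - t * I)) = -(t * I) := by
      rw [div_eq_iff h7]
      field_simp
      ring
    have h9 : h ((1 + t * I) / (1 - t * I)) = H (((-(A * t) : ℝ) : ℂ) * I) := by
      rw [hh]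
      simp only [if_neg h6]
      rw [h8]
      congr 1
      push_cast
      ring
    rw [h9]
  simp_rw [h2]
  have h3 := Measure.integral_comp_mul_left (fun t : ℝ => ‖H ((t : ℂ) * I)‖ ^ p * (2 / (1 + (t / (-A)) ^ 2))) (-A)
  have h4 : (fun t : ℝ => ‖H (((-(A * t) : ℝ) : ℂ) * I)‖ ^ p * (2 / (1 + t ^ 2))) =
      fun t : ℝ => (fun t : ℝ => ‖H ((t : ℂ) * I)‖ ^ p * (2 / (1 + (t / (-A)) ^ 2))) (-A * t) := by
    funext t
    show _ = ‖H (((-A * t : ℝ) : ℂ) * I)‖ ^ p * (2 / (1 + (-A * t / (-A)) ^ 2))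
    have e : -A * t / (-A) = t := by field_simp
    rw [e, neg_mul]
  rw [h4, h3, smul_eq_mul, abs_inv, abs_neg, abs_of_pos hA, ← integral_const_mul, ← integral_const_mul,
    ← integral_const_mul]
  refine integral_congr_ae (Filter.Eventually.of_forall fun t => ?_)
  show 1 / (2 * Real.pi) * (A⁻¹ * (‖H ((t : ℂ) * I)‖ ^ p * (2 / (1 + (t / (-A)) ^ 2)))) =
    1 / Real.pi * (‖H (t * I)‖ ^ p * (A / (A ^ 2 + t ^ 2)))
  have hpi := Real.pi_pos
  have h5 : 0 < A ^ 2 + t ^ 2 := by positivity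
  have h6 : 1 + (t / (-A)) ^ 2 = (A ^ 2 + t ^ 2) / A ^ 2 := by
    field_simp
  rw [h6]
  field_simp

end Pool.Agent.X107.MU
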