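import Pool.Agent.X107.MU.MU16
import Pool.Agent.H306R2.ZetaGrowth

/-! # A local Poisson inequality for zeta -/

set_option autoImplicit false

namespace Pool.Agent.X107.MU

open Complex Filter Topology MeasureTheory Set
open Pool.Agent.H306R2 (Zt_differentiableAt Zt_norm_le zeta_eq_pos)

/-- the auxiliary function -/
noncomputable def Hw (r : ℝ) (M : ℕ) (s0 w : ℂ) : ℂ :=
  Pool.Agent.H306R2.Zt (s0 + w) / (s0 + w + 1) * ((1 + w / r) ^ M)⁻¹

lemma one_add_ne {r : ℝ} (hr : 0 < r) {w : ℂ} (hw : 0 ≤ w.re) : 1 + w / r ≠ 0 := by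
  intro h
  have := congrArg Complex.re h
  rw [Complex.add_re, Complex.one_re, Complex.div_ofReal_re, Complex.zero_re] at this
  have h2 : 0 ≤ w.re / r := div_nonneg hw hr.le
  linarith

lemma norm_one_add {r : ℝ} (hr : 0 < r) (hr1 : r ≤ 1) {w : ℂ} (hw : 0 ≤ w.re) : (1 + ‖w‖) / 2 ≤ ‖1 + w / r‖ := by
  have h1 : (1 : ℝ) ≤ ‖1 + w / r‖ := by
    have := Complex.re_le_norm (1 + w / r)
    rw [Complex.add_re, Complex.one_re, Complex.div_ofReal_re] at this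
    have h2 : 0 ≤ w.re / r := div_nonneg hw hr.le
    linarith
  have h2 : ‖w‖ ≤ ‖1 + w / r‖ := by
    have h3 : ‖w‖ ^ 2 ≤ ‖1 + w / r‖ ^ 2 := by
      rw [← Complex.normSq_eq_norm_sq, ← Complex.normSq_eq_norm_sq, Complex.normSq_apply, Complex.normSq_apply]
      rw [Complex.add_re, Complex.add_im, Complex.one_re, Complex.one_im, Complex.div_ofReal_re, Complex.div_ofReal_im,
        zero_add]
      have h4 : w.re ≤ w.re / r := by
        rw [le_div_iff₀ hr]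
        nlinarith
      have h5 : w.im * w.im ≤ (w.im / r) * (w.im / r) := by
        rw [div_mul_div_comm, le_div_iff₀ (by positivity)]
        have : r * r ≤ 1 := by nlinarith
        nlinarith [mul_self_nonneg w.im]
      nlinarith
    exact le_of_sq_le_sq h3 (norm_nonneg _)
  linarith
where
  le_of_sq_le_sq {a b : ℝ} (h : a ^ 2 ≤ b ^ 2) (hb : 0 ≤ b) : a ≤ b := by
    exact abs_le_of_sq_le_sq' h hb |>.2

lemma Hw_diff {r : ℝ} (hr : 0 < r) (M : ℕ) {s0 : ℂ} (hs0 : 1 / 2 ≤ s0.re) {w : ℂ} (hw : 0 ≤ w.re) :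
    DifferentiableAt ℂ (Hw r M s0) w := by
  unfold Hw
  have h1 : 0 < (s0 + w).re := by rw [Complex.add_re]; linarith
  have h2 : s0 + w + 1 ≠ 0 := by
    intro h
    have := congrArg Complex.re h
    rw [Complex.add_re, Complex.one_re, Complex.zero_re] at this
    linarith
  have h3 : (1 + w / r) ^ M ≠ 0 := pow_ne_zero _ (one_add_ne hr hw)
  have h4 : DifferentiableAt ℂ (fun w => Pool.Agent.H306R2.Zt (s0 + w)) w :=
    DifferentiableAt.comp w (f := fun w : ℂ => s0 + w) (Zt_differentiableAt h1) (by fun_prop)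
  refine (h4.div (by fun_prop) h2).mul (DifferentiableAt.inv (by fun_prop) h3)

lemma one_le_norm_add {s : ℂ} (hs : 0 ≤ s.re) : 1 ≤ ‖s + 1‖ := by
  have := Complex.re_le_norm (s + 1)
  rw [Complex.add_re, Complex.one_re] at this
  linarith

lemma Hw_bound {r : ℝ} (hr : 0 < r) (hr1 : r ≤ 1) {M : ℕ} (hM : 3 ≤ M) {s0 : ℂ} (hs0 : 1 / 2 ≤ s0.re) :
    ∃ C : ℝ, ∀ w : ℂ, 0 ≤ w.re → ‖Hw r M s0 w‖ ≤ C / (1 + ‖w‖) := by
  refine ⟨3 * (‖s0‖ + 1) ^ 2 * 2 ^ M, fun w hw => ?_⟩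
  unfold Hw
  have h1 : 1 / 2 ≤ (s0 + w).re := by rw [Complex.add_re]; linarith
  have h2 := Zt_norm_le h1
  have h3 := one_le_norm_add (s := s0 + w) (by linarith)
  have h4 := norm_one_add hr hr1 hw
  have hw0 := norm_nonneg w
  have h5 : ‖s0 + w‖ + 1 ≤ (‖s0‖ + 1) * (1 + ‖w‖) := by
    have := norm_add_le s0 w
    nlinarith [norm_nonneg s0]
  have h6 : ((1 + ‖w‖) / 2) ^ M ≤ ‖1 + w / r‖ ^ M := pow_le_pow_left₀ (by positivity) h4 M
  rw [norm_mul, norm_div, norm_inv, norm_pow]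
  have h7 : ‖Pool.Agent.H306R2.Zt (s0 + w)‖ / ‖s0 + w + 1‖ ≤ 3 * ((‖s0‖ + 1) * (1 + ‖w‖)) ^ 2 := by
    refine (div_le_self (norm_nonneg _) h3).trans (h2.trans ?_)
    gcongr
  have h8 : (‖1 + w / r‖ ^ M)⁻¹ ≤ (((1 + ‖w‖) / 2) ^ M)⁻¹ := inv_anti₀ (by positivity) h6
  calc _ ≤ 3 * ((‖s0‖ + 1) * (1 + ‖w‖)) ^ 2 * (((1 + ‖w‖) / 2) ^ M)⁻¹ :=
        mul_le_mul h7 h8 (by positivity) (by positivity)
    _ = 3 * (‖s0‖ + 1) ^ 2 * 2 ^ M * ((1 + ‖w‖) ^ 2 / (1 + ‖w‖) ^ M) := by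
        rw [div_pow, inv_div]
        ring
    _ ≤ 3 * (‖s0‖ + 1) ^ 2 * 2 ^ M * (1 / (1 + ‖w‖)) := by
        refine mul_le_mul_of_nonneg_left ?_ (by positivity)
        rw [div_le_div_iff₀ (by positivity) (by positivity), one_mul, ← pow_succ]
        exact pow_le_pow_right₀ (by linarith) hM
    _ = _ := by ring

/-- on the boundary -/
lemma Hw_bd {r : ℝ} (hr : 0 < r) (M : ℕ) {σ : ℝ} (h1 : 1 / 2 ≤ σ) (h2 : σ < 1) (t u : ℝ) :
    ‖Hw r M ((σ : ℂ) + t * I) (u * I)‖ ≤ ‖riemannZeta ((σ : ℂ) + ((t + u : ℝ) : ℂ) * I)‖ := by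
  have e : (σ : ℂ) + t * I + u * I = (σ : ℂ) + ((t + u : ℝ) : ℂ) * I := by push_cast; ring
  unfold Hw
  rw [e]
  have hre : ((σ : ℂ) + ((t + u : ℝ) : ℂ) * I).re = σ := by simp
  obtain ⟨s, hs⟩ : ∃ s, s = (σ : ℂ) + ((t + u : ℝ) : ℂ) * I := ⟨_, rfl⟩
  rw [← hs] at hre ⊢
  have hs1 : s ≠ 1 := by
    rintro h
    rw [h, Complex.one_re] at hre
    linarith
  rw [← zeta_eq_pos (by rw [hre]; linarith) hs1]
  have h3 : ‖s - 1‖ ≤ ‖s + 1‖ := by
    have h4 : ‖s - 1‖ ^ 2 ≤ ‖s + 1‖ ^ 2 := by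
      rw [← Complex.normSq_eq_norm_sq, ← Complex.normSq_eq_norm_sq, Complex.normSq_apply, Complex.normSq_apply]
      simp only [Complex.sub_re, Complex.sub_im, Complex.add_re, Complex.add_im, Complex.one_re, Complex.one_im]
      nlinarith
    exact norm_one_add.le_of_sq_le_sq h4 (norm_nonneg _)
  have h5 := one_le_norm_add (s := s) (by rw [hre]; linarith)
  have h6 : 1 ≤ ‖1 + ((u : ℂ) * I) / r‖ := by
    have := Complex.re_le_norm (1 + ((u : ℂ) * I) / r)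
    rw [Complex.add_re, Complex.one_re, Complex.div_ofReal_re] at this
    simp at this
    exact this
  rw [norm_mul, norm_div, norm_mul, norm_inv, norm_pow]
  have h7 : (‖1 + ((u : ℂ) * I) / r‖ ^ M)⁻¹ ≤ 1 := inv_le_one_of_one_le₀ (one_le_pow₀ h6)
  have h8 : ‖s - 1‖ * ‖riemannZeta s‖ / ‖s + 1‖ ≤ ‖riemannZeta s‖ := by
    rw [div_le_iff₀ (by linarith), mul_comm]
    exact mul_le_mul_of_nonneg_left h3 (norm_nonneg _)
  calc _ ≤ ‖riemannZeta s‖ * 1 := mul_le_mul h8 h7 (by positivity) (norm_nonneg _)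
    _ = _ := mul_one _

/-- far away on the boundary -/
lemma Hw_far {r : ℝ} (hr : 0 < r) (hr1 : r ≤ 1) {M : ℕ} (hM : 4 ≤ M) {σ : ℝ} (h1 : 1 / 2 ≤ σ) (h2 : σ < 1) {t u : ℝ}
    (ht : 0 ≤ t) (hu : r ≤ |u|) : ‖Hw r M ((σ : ℂ) + t * I) (u * I)‖ ≤ 192 * (2 + t) ^ 2 * (√2 ^ M)⁻¹ := by
  unfold Hw
  have h3 : 1 / 2 ≤ ((σ : ℂ) + t * I + u * I).re := by simpa using h1
  have h4 := Zt_norm_le h3
  have h5 := one_le_norm_add (s := (σ : ℂ) + t * I + u * I) (by linarith)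
  have hu0 := abs_nonneg u
  have h6 : ‖(σ : ℂ) + t * I + u * I‖ + 1 ≤ (2 + t) * (1 + |u|) := by
    have k1 : ‖(σ : ℂ) + t * I + u * I‖ ≤ ‖(σ : ℂ)‖ + ‖(t : ℂ) * I‖ + ‖(u : ℂ) * I‖ := norm_add₃_le
    rw [norm_mul, norm_mul, Complex.norm_I, mul_one, mul_one, Complex.norm_real, Complex.norm_real, Complex.norm_real,
      Real.norm_of_nonneg (by linarith), Real.norm_of_nonneg ht, Real.norm_eq_abs] at k1
    nlinarith
  -- the decay
  have hn : ‖1 + ((u : ℂ) * I) / r‖ ^ 2 = 1 + (u / r) ^ 2 := by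
    rw [← Complex.normSq_eq_norm_sq, Complex.normSq_apply]
    rw [Complex.add_re, Complex.add_im, Complex.one_re, Complex.one_im, Complex.div_ofReal_re, Complex.div_ofReal_im]
    simp
    ring
  have hq1 : 1 ≤ (u / r) ^ 2 := by
    rw [div_pow, le_div_iff₀ (by positivity), one_mul, ← sq_abs u]
    exact pow_le_pow_left₀ hr.le hu 2
  have k2 : √2 ≤ ‖1 + ((u : ℂ) * I) / r‖ := by
    refine Real.sqrt_le_iff.2 ⟨norm_nonneg _, ?_⟩
    rw [hn]
    linarith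
  have k3 : (1 + |u|) / 2 ≤ ‖1 + ((u : ℂ) * I) / r‖ := by
    have := norm_one_add hr hr1 (w := (u : ℂ) * I) (by simp)
    rw [norm_mul, Complex.norm_I, mul_one, Complex.norm_real, Real.norm_eq_abs] at this
    exact this
  have hs2 : (0 : ℝ) < √2 := by positivity
  have k4 : √2 ^ (M - 2) * ((1 + |u|) / 2) ^ 2 ≤ ‖1 + ((u : ℂ) * I) / r‖ ^ M := by
    have e : ‖1 + ((u : ℂ) * I) / r‖ ^ M = ‖1 + ((u : ℂ) * I) / r‖ ^ (M - 2) * ‖1 + ((u : ℂ) * I) / r‖ ^ 2 := by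
      rw [← pow_add]
      congr 1
      omega
    rw [e]
    exact mul_le_mul (pow_le_pow_left₀ hs2.le k2 _) (pow_le_pow_left₀ (by positivity) k3 2) (by positivity) (by positivity)
  rw [norm_mul, norm_div, norm_inv, norm_pow]
  have h7 : ‖Pool.Agent.H306R2.Zt ((σ : ℂ) + t * I + u * I)‖ / ‖(σ : ℂ) + t * I + u * I + 1‖ ≤ 3 * ((2 + t) * (1 + |u|)) ^ 2 := by
    refine (div_le_self (norm_nonneg _) h5).trans (h4.trans ?_)
    gcongr
  have h8 : (‖1 + ((u : ℂ) * I) / r‖ ^ M)⁻¹ ≤ (√2 ^ (M - 2) * ((1 + |u|) / 2) ^ 2)⁻¹ := inv_anti₀ (by positivity) k4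
  have e2 : √2 ^ M = √2 ^ (M - 2) * 2 := by
    have : √2 ^ M = √2 ^ (M - 2) * √2 ^ 2 := by
      rw [← pow_add]
      congr 1
      omega
    rw [this, Real.sq_sqrt (by norm_num)]
  calc _ ≤ 3 * ((2 + t) * (1 + |u|)) ^ 2 * (√2 ^ (M - 2) * ((1 + |u|) / 2) ^ 2)⁻¹ :=
        mul_le_mul h7 h8 (by positivity) (by positivity)
    _ = 24 * (2 + t) ^ 2 * (√2 ^ M)⁻¹ := by
        rw [e2]
        field_simp
        ring
    _ ≤ 192 * (2 + t) ^ 2 * (√2 ^ M)⁻¹ := by gcongr; norm_num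

/-- in the interior -/
lemma Hw_in {r : ℝ} (hr : 0 < r) (M : ℕ) {σ d : ℝ} (h1 : 1 / 2 ≤ σ) (hd : 0 < d) (h2 : σ + d < 1) {t : ℝ} (ht : 2 ≤ t) :
    ‖riemannZeta (((σ + d : ℝ) : ℂ) + t * I)‖ ≤ 2 * Real.exp (d * M / r) * ‖Hw r M ((σ : ℂ) + t * I) d‖ := by
  have e : (σ : ℂ) + t * I + d = ((σ + d : ℝ) : ℂ) + t * I := by push_cast; ring
  unfold Hw
  rw [e]
  have hre : (((σ + d : ℝ) : ℂ) + t * I).re = σ + d := by simp
  have him : (((σ + d : ℝ) : ℂ) + t * I).im = t := by simp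
  obtain ⟨s, hs⟩ : ∃ s, s = ((σ + d : ℝ) : ℂ) + t * I := ⟨_, rfl⟩
  rw [← hs] at hre him ⊢
  have hs1 : s ≠ 1 := by
    rintro h
    rw [h, Complex.one_re] at hre
    linarith
  rw [← zeta_eq_pos (by rw [hre]; linarith) hs1]
  have h3 : t ≤ ‖s - 1‖ := by
    have := Complex.abs_im_le_norm (s - 1)
    rw [Complex.sub_im, Complex.one_im, sub_zero, him, abs_of_nonneg (by linarith)] at this
    exact this
  have h4 : ‖s + 1‖ ≤ 2 * t := by
    have k1 : ‖s + 1‖ ≤ |(s + 1).re| + |(s + 1).im| := Complex.norm_le_abs_re_add_abs_im _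
    rw [Complex.add_re, Complex.add_im, Complex.one_re, Complex.one_im, hre, him, add_zero, abs_of_nonneg (by linarith),
      abs_of_nonneg (by linarith)] at k1
    linarith
  have h5 := one_le_norm_add (s := s) (by rw [hre]; linarith)
  have h6 : ‖(1 + (d : ℂ) / r)‖ = 1 + d / r := by
    have : (1 + (d : ℂ) / r) = ((1 + d / r : ℝ) : ℂ) := by push_cast; ring
    rw [this, Complex.norm_real, Real.norm_of_nonneg (by positivity)]
  have h7 : (1 + d / r) ^ M ≤ Real.exp (d * M / r) := by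
    have k1 : 1 + d / r ≤ Real.exp (d / r) := by
      have := Real.add_one_le_exp (d / r)
      linarith
    calc (1 + d / r) ^ M ≤ Real.exp (d / r) ^ M := pow_le_pow_left₀ (by positivity) k1 M
      _ = Real.exp (d * M / r) := by
          rw [← Real.exp_nat_mul]
          congr 1
          ring
  rw [norm_mul, norm_div, norm_mul, norm_inv, norm_pow, h6]
  have h8 : 1 / 2 ≤ ‖s - 1‖ / ‖s + 1‖ := by
    rw [div_le_div_iff₀ (by norm_num) (by linarith)]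
    linarith
  have h9 : (Real.exp (d * M / r))⁻¹ ≤ ((1 + d / r) ^ M)⁻¹ := inv_anti₀ (by positivity) h7
  have hE := Real.exp_pos (d * M / r)
  calc ‖riemannZeta s‖ = 2 * Real.exp (d * M / r) * ((1 / 2) * ‖riemannZeta s‖ * (Real.exp (d * M / r))⁻¹) := by
        field_simp
    _ ≤ 2 * Real.exp (d * M / r) * ((‖s - 1‖ / ‖s + 1‖) * ‖riemannZeta s‖ * ((1 + d / r) ^ M)⁻¹) := by
        gcongr
    _ = _ := by ring

end Pool.Agent.X107.MU
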