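import Pool.Agent.X107.MU.MU17

/-! # A local Poisson inequality for powers of zeta -/

set_option autoImplicit false

namespace Pool.Agent.X107.MU

open Complex Filter Topology MeasureTheory Set

/-- the Poisson kernel -/
noncomputable def Pk (d u : ℝ) : ℝ := d / (d ^ 2 + u ^ 2)

lemma Pk_nonneg {d : ℝ} (hd : 0 < d) (u : ℝ) : 0 ≤ Pk d u := by unfold Pk; positivity

lemma Pk_cont {d : ℝ} (hd : 0 < d) : Continuous (Pk d) := by
  unfold Pk
  refine continuous_const.div (by fun_prop) fun u => ?_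
  have : 0 < d ^ 2 + u ^ 2 := by positivity
  exact this.ne'

lemma Pk_eq {d : ℝ} (hd : 0 < d) : Pk d = fun u => (1 / d) * (1 + (u * d⁻¹) ^ 2)⁻¹ := by
  funext u
  unfold Pk
  have : 0 < d ^ 2 + u ^ 2 := by positivity
  field_simp

lemma Pk_integrable {d : ℝ} (hd : 0 < d) : Integrable (Pk d) := by
  rw [Pk_eq hd]
  exact (integrable_inv_one_add_sq.comp_mul_right' (inv_ne_zero hd.ne')).const_mul _

lemma Pk_integral {d : ℝ} (hd : 0 < d) : ∫ u, Pk d u = Real.pi := by
  rw [Pk_eq hd, integral_const_mul]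
  have := Measure.integral_comp_mul_right (fun u : ℝ => (1 + u ^ 2)⁻¹) d⁻¹
  rw [this, inv_inv, abs_of_pos hd, integral_univ_inv_one_add_sq, smul_eq_mul]
  field_simp

lemma line_ne {σ : ℝ} (h2 : σ < 1) (v : ℝ) : (σ : ℂ) + (v : ℂ) * I ≠ 1 := by
  intro h
  have := congrArg Complex.re h
  simp at this
  linarith

lemma line_cont {σ : ℝ} (h2 : σ < 1) {p : ℝ} (hp : 0 < p) :
    Continuous fun v : ℝ => ‖riemannZeta ((σ : ℂ) + (v : ℂ) * I)‖ ^ p := by
  refine Continuous.rpow_const (Continuous.norm ?_) fun _ => Or.inr hp.le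
  rw [continuous_iff_continuousAt]
  intro v
  exact ContinuousAt.comp (f := fun v : ℝ => (σ : ℂ) + (v : ℂ) * I)
    (differentiableAt_riemannZeta (line_ne h2 v)).continuousAt (by fun_prop)

theorem local_p {p n r : ℝ} (hp : 0 < p) (hn : 0 < n) (hr : 0 < r) (hr1 : r ≤ 1) :
    ∃ C > 0, ∀ T ≥ Real.exp 1, ∀ σ d t : ℝ, 1 / 2 ≤ σ → 0 < d → σ + d < 1 → d ≤ n / Real.log T → 2 ≤ t → t ≤ T →
      ‖riemannZeta (((σ + d : ℝ) : ℂ) + t * I)‖ ^ p ≤
        C * (1 + ∫ u in Icc (-r) r, Pk d u * ‖riemannZeta ((σ : ℂ) + ((t + u : ℝ) : ℂ) * I)‖ ^ p) := by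
  refine ⟨(2 * Real.exp (13 * n / r)) ^ p * (1 + 768 ^ p), by positivity, ?_⟩
  intro T hT σ d t hσ hd hσd hdn ht htT
  have hT2 : 2 < T := by
    have := Real.exp_one_gt_d9
    linarith
  have hL : 1 ≤ Real.log T := by
    rw [Real.le_log_iff_exp_le (by linarith)]
    exact hT
  obtain ⟨M, hM⟩ : ∃ M : ℕ, M = ⌈12 * Real.log T⌉₊ := ⟨_, rfl⟩
  have hM1 : 12 * Real.log T ≤ M := by rw [hM]; exact Nat.le_ceil _
  have hM2 : (M : ℝ) ≤ 13 * Real.log T := by
    have := Nat.ceil_lt_add_one (show 0 ≤ 12 * Real.log T by linarith)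
    rw [← hM] at this
    linarith
  have hM4 : 4 ≤ M := by
    have : (4 : ℝ) ≤ M := by linarith
    exact_mod_cast this
  have hσ1 : σ < 1 := by linarith
  have hs0 : 1 / 2 ≤ ((σ : ℂ) + t * I).re := by simpa using hσ
  obtain ⟨C, hC⟩ := Hw_bound hr hr1 (show 3 ≤ M by omega) hs0
  have h1 := Hw_in hr M hσ hd hσd ht
  have h2 := hardy_p hp hd (H := Hw r M ((σ : ℂ) + t * I)) (fun z hz => Hw_diff hr M hs0 hz) hC
  have hpi := Real.pi_pos
  -- the exponential
  have h3 : Real.exp (d * M / r) ≤ Real.exp (13 * n / r) := by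
    apply Real.exp_le_exp.2
    refine div_le_div_of_nonneg_right ?_ hr.le
    have h4 : d * M ≤ n / Real.log T * (13 * Real.log T) := mul_le_mul hdn hM2 (by positivity) (by positivity)
    have h5 : n / Real.log T * (13 * Real.log T) = 13 * n := by field_simp
    linarith
  have h4 : ‖riemannZeta (((σ + d : ℝ) : ℂ) + t * I)‖ ^ p ≤
      (2 * Real.exp (13 * n / r)) ^ p * ‖Hw r M ((σ : ℂ) + t * I) d‖ ^ p := by
    rw [← Real.mul_rpow (by positivity) (norm_nonneg _)]
    refine Real.rpow_le_rpow (norm_nonneg _) (h1.trans ?_) hp.le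
    exact mul_le_mul_of_nonneg_right (by linarith) (norm_nonneg _)
  -- the far part
  have h5 : 192 * (2 + t) ^ 2 * (√2 ^ M)⁻¹ ≤ 768 := by
    have k1 : T ^ 2 ≤ √2 ^ M := by
      have e1 : √2 ^ M = Real.exp (M * (Real.log 2 / 2)) := by
        rw [Real.exp_nat_mul]
        congr 1
        rw [← Real.log_sqrt (by norm_num), Real.exp_log (by positivity)]
      have e2 : T ^ 2 = Real.exp (2 * Real.log T) := by
        have : (2 : ℝ) * Real.log T = ((2 : ℕ) : ℝ) * Real.log T := by norm_num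
        rw [this, Real.exp_nat_mul, Real.exp_log (by linarith)]
      rw [e1, e2]
      apply Real.exp_le_exp.2
      have hl2 := Real.log_two_gt_d9
      have : 12 * Real.log T * (Real.log 2 / 2) ≤ M * (Real.log 2 / 2) :=
        mul_le_mul_of_nonneg_right hM1 (by positivity)
      nlinarith
    have k2 : (2 + t) ^ 2 ≤ 4 * T ^ 2 := by nlinarith
    have k3 : 0 < √2 ^ M := by positivity
    rw [← div_eq_mul_inv, div_le_iff₀ k3]
    nlinarith
  -- the integral
  obtain ⟨F, hF⟩ : ∃ F : ℝ → ℝ, F = fun u => Pk d u * ‖riemannZeta ((σ : ℂ) + ((t + u : ℝ) : ℂ) * I)‖ ^ p := ⟨_, rfl⟩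
  have hFc : Continuous F := by
    rw [hF]
    refine (Pk_cont hd).mul ?_
    exact (line_cont hσ1 hp).comp (by fun_prop : Continuous fun u : ℝ => t + u)
  have hF0 : ∀ u, 0 ≤ F u := fun u => by
    rw [hF]
    exact mul_nonneg (Pk_nonneg hd u) (by positivity)
  have h6 : ∫ u : ℝ, ‖Hw r M ((σ : ℂ) + t * I) (u * I)‖ ^ p * (d / (d ^ 2 + u ^ 2)) ≤
      (∫ u in Icc (-r) r, F u) + 768 ^ p * Real.pi := by
    have i1 : Integrable ((Icc (-r) r).indicator F) :=
      (hFc.continuousOn.integrableOn_compact isCompact_Icc).integrable_indicator measurableSet_Icc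
    have i2 : Integrable fun u => (768 : ℝ) ^ p * Pk d u := (Pk_integrable hd).const_mul _
    have e1 : (∫ u in Icc (-r) r, F u) + 768 ^ p * Real.pi = ∫ u, ((Icc (-r) r).indicator F u + 768 ^ p * Pk d u) := by
      rw [integral_add i1 i2, integral_indicator measurableSet_Icc, integral_const_mul, Pk_integral hd]
    rw [e1]
    refine integral_mono_of_nonneg (Eventually.of_forall fun u => ?_) (i1.add i2) (Eventually.of_forall fun u => ?_)
    · exact mul_nonneg (by positivity) (by positivity)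
    · show ‖Hw r M ((σ : ℂ) + t * I) (u * I)‖ ^ p * (d / (d ^ 2 + u ^ 2)) ≤ (Icc (-r) r).indicator F u + 768 ^ p * Pk d u
      have e2 : d / (d ^ 2 + u ^ 2) = Pk d u := rfl
      rw [e2]
      have hk := Pk_nonneg hd u
      by_cases hu : u ∈ Icc (-r) r
      · rw [indicator_of_mem hu, hF]
        have h7 : ‖Hw r M ((σ : ℂ) + t * I) (u * I)‖ ^ p ≤ ‖riemannZeta ((σ : ℂ) + ((t + u : ℝ) : ℂ) * I)‖ ^ p :=
          Real.rpow_le_rpow (norm_nonneg _) (Hw_bd hr M hσ hσ1 t u) hp.le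
        have h8 := mul_le_mul_of_nonneg_right h7 hk
        have h9 : 0 ≤ (768 : ℝ) ^ p * Pk d u := by positivity
        linarith
      · rw [indicator_of_notMem hu, zero_add]
        have hu' : r ≤ |u| := by
          by_contra hcon
          push Not at hcon
          exact hu (abs_le.1 hcon.le)
        have h7 : ‖Hw r M ((σ : ℂ) + t * I) (u * I)‖ ^ p ≤ 768 ^ p :=
          Real.rpow_le_rpow (norm_nonneg _) ((Hw_far hr hr1 hM4 hσ hσ1 (by linarith) hu').trans h5) hp.le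
        exact mul_le_mul_of_nonneg_right h7 hk
  have h7 : 0 ≤ ∫ u in Icc (-r) r, F u := integral_nonneg hF0
  have h8 : ‖Hw r M ((σ : ℂ) + t * I) d‖ ^ p ≤ (1 + 768 ^ p) * (1 + ∫ u in Icc (-r) r, F u) := by
    refine h2.trans ?_
    have h9 : (1 / Real.pi) * ∫ u : ℝ, ‖Hw r M ((σ : ℂ) + t * I) (u * I)‖ ^ p * (d / (d ^ 2 + u ^ 2)) ≤
        (1 / Real.pi) * ((∫ u in Icc (-r) r, F u) + 768 ^ p * Real.pi) :=
      mul_le_mul_of_nonneg_left h6 (by positivity)
    refine h9.trans ?_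
    have h10 : (1 / Real.pi) * ((∫ u in Icc (-r) r, F u) + 768 ^ p * Real.pi) =
        (1 / Real.pi) * (∫ u in Icc (-r) r, F u) + 768 ^ p := by field_simp
    have h11 : 1 / Real.pi ≤ 1 := by
      rw [div_le_one hpi]
      linarith [Real.pi_gt_three]
    have h12 := mul_le_mul_of_nonneg_right h11 h7
    have h13 : (0 : ℝ) ≤ 768 ^ p := by positivity
    rw [h10]
    nlinarith
  refine h4.trans ?_
  rw [mul_assoc]
  rw [hF] at h8
  exact mul_le_mul_of_nonneg_left h8 (by positivity)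

end Pool.Agent.X107.MU
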