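import Pool.Agent.X107.MU.MU18

/-! # The integrated form of the local Poisson inequality -/

set_option autoImplicit false

namespace Pool.Agent.X107.MU

open Complex Filter Topology MeasureTheory Set

theorem shift_p {p n r : ℝ} (hp : 0 < p) (hn : 0 < n) (hr : 0 < r) (hr1 : r ≤ 1) :
    ∃ C > 0, ∀ T ≥ Real.exp 1, ∀ σ d : ℝ, 1 / 2 ≤ σ → 0 < d → σ + d < 1 → d ≤ n / Real.log T →
      ∀ S U : Set ℝ, MeasurableSet S → MeasurableSet U → (∀ t ∈ S, ∀ u ∈ Icc (-r) r, t + u ∈ U) →
        ∫ t in Icc 2 T ∩ S, ‖riemannZeta (((σ + d : ℝ) : ℂ) + t * I)‖ ^ p ≤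
          C * (T + ∫ t in Icc 0 (T + 1) ∩ U, ‖riemannZeta ((σ : ℂ) + (t : ℂ) * I)‖ ^ p) := by
  obtain ⟨C, hC, hloc⟩ := local_p hp hn hr hr1
  refine ⟨4 * C, by positivity, ?_⟩
  intro T hT σ d hσ hd hσd hdn S U hS hU hSU
  have hT2 : 2 < T := by
    have := Real.exp_one_gt_d9
    linarith
  have hσ1 : σ < 1 := by linarith
  obtain ⟨F, hF⟩ : ∃ F : ℝ → ℝ, F = fun v : ℝ => ‖riemannZeta ((σ : ℂ) + (v : ℂ) * I)‖ ^ p := ⟨_, rfl⟩
  have hFc : Continuous F := by rw [hF]; exact line_cont hσ1 hp
  have hF0 : ∀ v, 0 ≤ F v := fun v => by rw [hF]; dsimp only; positivity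
  obtain ⟨A, hA⟩ : ∃ A, A = Icc 2 T ∩ S := ⟨_, rfl⟩
  have hAm : MeasurableSet A := by rw [hA]; exact measurableSet_Icc.inter hS
  have hAsub : A ⊆ Icc 2 T := by rw [hA]; exact inter_subset_left
  obtain ⟨V, hV⟩ : ∃ V, V = Icc 0 (T + 1) ∩ U := ⟨_, rfl⟩
  have hVm : MeasurableSet V := by rw [hV]; exact measurableSet_Icc.inter hU
  -- joint continuity
  have hf2 : Continuous (fun q : ℝ × ℝ => Pk d q.2 * F (q.1 + q.2)) :=
    ((Pk_cont hd).comp continuous_snd).mul (hFc.comp (continuous_fst.add continuous_snd))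
  have hG : Continuous fun t : ℝ => ∫ u in Icc (-r) r, Pk d u * F (t + u) :=
    continuous_parametric_integral_of_continuous (f := fun t u => Pk d u * F (t + u)) hf2 isCompact_Icc
  obtain ⟨J, hJ⟩ : ∃ J, J = ∫ t in V, F t := ⟨_, rfl⟩
  have hJ0 : 0 ≤ J := by rw [hJ]; exact integral_nonneg hF0
  have hFV : IntegrableOn F V :=
    (hFc.continuousOn.integrableOn_compact (isCompact_Icc (a := (0:ℝ)) (b := T + 1))).mono_set (by
      rw [hV]; exact inter_subset_left)
  -- step one
  have h1 : ∫ t in A, ‖riemannZeta (((σ + d : ℝ) : ℂ) + t * I)‖ ^ p ≤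
      ∫ t in A, C * (1 + ∫ u in Icc (-r) r, Pk d u * F (t + u)) := by
    refine setIntegral_mono_on ?_ ?_ hAm fun t ht => ?_
    · exact ((line_cont hσd hp).continuousOn.integrableOn_compact isCompact_Icc).mono_set hAsub
    · exact ((continuous_const.mul (continuous_const.add hG)).continuousOn.integrableOn_compact isCompact_Icc).mono_set hAsub
    · have h2 := hAsub ht
      have h3 := hloc T hT σ d t hσ hd hσd hdn h2.1 h2.2
      rw [hF]
      exact h3
  have hGi : IntegrableOn (fun t : ℝ => ∫ u in Icc (-r) r, Pk d u * F (t + u)) A :=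
    (hG.continuousOn.integrableOn_compact isCompact_Icc).mono_set hAsub
  have hvA : (volume A).toReal ≤ T := by
    have h2 : volume A ≤ volume (Icc 2 T) := measure_mono hAsub
    have h3 : (volume (Icc 2 T)).toReal = T - 2 := by
      rw [Real.volume_Icc, ENNReal.toReal_ofReal (by linarith)]
    have h4 : (volume A).toReal ≤ (volume (Icc 2 T)).toReal := ENNReal.toReal_mono (by simp [Real.volume_Icc]) h2
    linarith
  have hAfin : volume A ≠ ⊤ := by
    have h2 : volume A ≤ volume (Icc 2 T) := measure_mono hAsub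
    exact ne_top_of_le_ne_top (by simp [Real.volume_Icc]) h2
  have h2 : ∫ t in A, C * (1 + ∫ u in Icc (-r) r, Pk d u * F (t + u)) =
      C * ((volume A).toReal + ∫ t in A, ∫ u in Icc (-r) r, Pk d u * F (t + u)) := by
    have i1 : IntegrableOn (fun _ : ℝ => (1:ℝ)) A := by
      refine integrableOn_const hAfin
    rw [integral_const_mul, integral_add i1 hGi, setIntegral_const, smul_eq_mul, mul_one]
    rfl
  -- the swap
  have hprod : Integrable (Function.uncurry fun t u => Pk d u * F (t + u)) ((volume.restrict A).prod (volume.restrict (Icc (-r) r))) := by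
    rw [Measure.prod_restrict]
    have : IntegrableOn (fun q : ℝ × ℝ => Pk d q.2 * F (q.1 + q.2)) (Icc 2 T ×ˢ Icc (-r) r) (volume.prod volume) :=
      hf2.continuousOn.integrableOn_compact (isCompact_Icc.prod isCompact_Icc)
    exact this.mono_set (prod_mono hAsub subset_rfl)
  have h3 : ∫ t in A, ∫ u in Icc (-r) r, Pk d u * F (t + u) = ∫ u in Icc (-r) r, ∫ t in A, Pk d u * F (t + u) :=
    integral_integral_swap hprod
  have h4 : ∀ u ∈ Icc (-r) r, ∫ t in A, Pk d u * F (t + u) ≤ Pk d u * J := by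
    intro u hu
    rw [integral_const_mul]
    refine mul_le_mul_of_nonneg_left ?_ (Pk_nonneg hd u)
    have h5 : ∫ t, V.indicator F (t + u) = J := by
      rw [integral_add_right_eq_self (V.indicator F) u, integral_indicator hVm, hJ]
    rw [← h5, ← integral_indicator hAm]
    refine integral_mono_of_nonneg (Eventually.of_forall fun t => indicator_nonneg (fun x _ => hF0 _) t)
      ((hFV.integrable_indicator hVm).comp_add_right u) (Eventually.of_forall fun t => ?_)
    show A.indicator (fun t => F (t + u)) t ≤ V.indicator F (t + u)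
    by_cases ht : t ∈ A
    · have h6 : t + u ∈ V := by
        have h7 := hAsub ht
        rw [hA] at ht
        rw [hV]
        exact ⟨⟨by linarith [h7.1, hu.1], by linarith [h7.2, hu.2]⟩, hSU t ht.2 u hu⟩
      rw [indicator_of_mem ht, indicator_of_mem h6]
    · rw [indicator_of_notMem ht]
      exact indicator_nonneg (fun x _ => hF0 _) _
  have h5 : ∫ u in Icc (-r) r, ∫ t in A, Pk d u * F (t + u) ≤ Real.pi * J := by
    have e1 : Real.pi * J = ∫ u, Pk d u * J := by rw [integral_mul_const, Pk_integral hd]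
    have i1 : Integrable fun u => Pk d u * J := (Pk_integrable hd).mul_const J
    have h6 : ∫ u in Icc (-r) r, ∫ t in A, Pk d u * F (t + u) ≤ ∫ u in Icc (-r) r, Pk d u * J := by
      refine integral_mono_of_nonneg ?_ i1.integrableOn ?_
      · exact Eventually.of_forall fun u => integral_nonneg fun t => mul_nonneg (Pk_nonneg hd u) (hF0 _)
      · exact (ae_restrict_iff' measurableSet_Icc).2 (Eventually.of_forall h4)
    refine h6.trans ?_
    rw [e1]
    exact setIntegral_le_integral i1 (Eventually.of_forall fun u => mul_nonneg (Pk_nonneg hd u) hJ0)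
  rw [h2, h3] at h1
  have hpi : Real.pi ≤ 4 := Real.pi_le_four
  have h6 : Real.pi * J ≤ 4 * J := mul_le_mul_of_nonneg_right hpi hJ0
  have h7 : ∫ t in Icc 2 T ∩ S, ‖riemannZeta (((σ + d : ℝ) : ℂ) + t * I)‖ ^ p ≤ C * (T + 4 * J) := by
    rw [← hA]
    refine h1.trans (mul_le_mul_of_nonneg_left ?_ hC.le)
    linarith
  rw [← hV]
  have h8 : (∫ t in V, ‖riemannZeta ((σ : ℂ) + (t : ℂ) * I)‖ ^ p) = J := by rw [hJ, hF]
  rw [h8]
  nlinarith

end Pool.Agent.X107.MU
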