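import Pool.Agent.X107.MU.MU1
import Pool.Agent.X110.NA4

/-! # The diagonal of the mean value of a product -/

set_option autoImplicit false

open Finset

namespace Pool.Agent.X107.MU

open Pool.Agent.Y755
open Pool.Agent.H306R2 (dv dv_nonneg dv_one lc lc_succ lc_nonneg lc_zero lc_mono)

lemma sum_inj_le {ι κ : Type*} [DecidableEq κ] (S : Finset ι) (U : Finset κ) (φ : ι → κ) (hφ : ∀ i ∈ S, φ i ∈ U)
    (hinj : Set.InjOn φ S) (f : κ → ℝ) (h0 : ∀ u ∈ U, 0 ≤ f u) : ∑ i ∈ S, f (φ i) ≤ ∑ u ∈ U, f u := by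
  rw [← Finset.sum_image hinj]
  exact Finset.sum_le_sum_of_subset_of_nonneg (Finset.image_subset_iff.2 hφ) fun u hu _ => h0 u hu

/-- the sum of the powers of the divisors -/
noncomputable def Dl (l : ℝ) (n : ℕ) : ℝ := ∑ d ∈ n.divisors, (d : ℝ) ^ (-l)

lemma Dl_nonneg (l : ℝ) (n : ℕ) : 0 ≤ Dl l n := sum_nonneg fun d _ => Real.rpow_nonneg (Nat.cast_nonneg d) _

lemma Dl_mul_le (l : ℝ) {a b : ℕ} (ha : a ≠ 0) (hb : b ≠ 0) : Dl l (a * b) ≤ Dl l a * Dl l b := by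
  unfold Dl
  rw [Finset.sum_mul_sum, ← Finset.sum_product']
  have h1 : ∑ d ∈ (a * b).divisors, (d : ℝ) ^ (-l) =
      ∑ d ∈ (a * b).divisors, (fun q : ℕ × ℕ => (q.1 : ℝ) ^ (-l) * (q.2 : ℝ) ^ (-l)) (d.gcd a, d / d.gcd a) := by
    refine sum_congr rfl fun d _ => ?_
    show _ = ((d.gcd a : ℕ) : ℝ) ^ (-l) * ((d / d.gcd a : ℕ) : ℝ) ^ (-l)
    rw [← Real.mul_rpow (Nat.cast_nonneg _) (Nat.cast_nonneg _), ← Nat.cast_mul,
      Nat.mul_div_cancel' (Nat.gcd_dvd_left d a)]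
  rw [h1]
  refine sum_inj_le (a * b).divisors (a.divisors ×ˢ b.divisors) (fun d : ℕ => (d.gcd a, d / d.gcd a)) ?_ ?_
    (fun q : ℕ × ℕ => (q.1 : ℝ) ^ (-l) * (q.2 : ℝ) ^ (-l)) ?_
  · intro d hd
    have hd1 := (Nat.mem_divisors.1 hd).1
    rw [mem_product, Nat.mem_divisors, Nat.mem_divisors]
    refine ⟨⟨Nat.gcd_dvd_right d a, ha⟩, ?_, hb⟩
    have hg : 0 < d.gcd a := Nat.gcd_pos_of_pos_right _ (Nat.pos_of_ne_zero ha)
    have h2 : (d / d.gcd a).Coprime (a / d.gcd a) := Nat.coprime_div_gcd_div_gcd hg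
    have h3 : d / d.gcd a ∣ (a / d.gcd a) * b := by
      have h4 : d.gcd a * (d / d.gcd a) ∣ d.gcd a * ((a / d.gcd a) * b) := by
        rw [Nat.mul_div_cancel' (Nat.gcd_dvd_left d a), ← mul_assoc, Nat.mul_div_cancel' (Nat.gcd_dvd_right d a)]
        exact hd1
      exact Nat.dvd_of_mul_dvd_mul_left hg h4
    exact h2.dvd_of_dvd_mul_left h3
  · intro d hd d' hd' h
    simp only [Prod.mk.injEq] at h
    rw [← Nat.mul_div_cancel' (Nat.gcd_dvd_left d a), ← Nat.mul_div_cancel' (Nat.gcd_dvd_left d' a), h.2, h.1]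
  · intro q _
    positivity

lemma div_sum_le (N : ℕ) (F : ℕ → ℕ → ℝ) (hF : ∀ d m, 0 ≤ F d m) :
    ∑ a ∈ Icc 1 N, ∑ d ∈ a.divisors, F d (a / d) ≤ ∑ d ∈ Icc 1 N, ∑ m ∈ Icc 1 N, F d m := by
  rw [Finset.sum_sigma', ← Finset.sum_product']
  refine sum_inj_le _ _ (fun q : (_ : ℕ) × ℕ => (q.2, q.1 / q.2)) ?_ ?_ (fun q => F q.1 q.2) fun q _ => hF _ _
  · rintro ⟨a, d⟩ h
    rw [mem_sigma, mem_Icc] at h
    obtain ⟨⟨h1, h2⟩, h3⟩ := h
    have h4 := Nat.mem_divisors.1 h3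
    simp only at h1 h2 h4 ⊢
    have h5 : 0 < d := Nat.pos_of_dvd_of_pos h4.1 (by omega)
    have h6 : d ≤ a := Nat.le_of_dvd (by omega) h4.1
    have h7 : 0 < a / d := Nat.div_pos h6 h5
    have h8 : a / d ≤ a := Nat.div_le_self a d
    rw [mem_product, mem_Icc, mem_Icc]
    exact ⟨⟨h5, by omega⟩, h7, by omega⟩
  · rintro ⟨a, d⟩ h ⟨a', d'⟩ h' e
    simp only [Prod.mk.injEq] at e
    rw [mem_coe, mem_sigma] at h h'
    have h4 := (Nat.mem_divisors.1 h.2).1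
    have h4' := (Nat.mem_divisors.1 h'.2).1
    simp only at h4 h4'
    obtain ⟨e1, e2⟩ := e
    subst e1
    have : a = a' := by
      rw [← Nat.mul_div_cancel' h4, ← Nat.mul_div_cancel' h4', e2]
    subst this
    rfl

/-- the coefficients at multiples -/
lemma lc_add_le {κ : ℝ} (hκ : 0 < κ) {J : ℕ} (hJ : κ ≤ J) (hJ1 : 1 ≤ J) (a b : ℕ) :
    lc κ (a + b) ≤ lc κ a * lc J b := by
  induction b with
  | zero => rw [add_zero, lc_zero, mul_one]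
  | succ b ih =>
    rw [← add_assoc, lc_succ, lc_succ]
    have hJ1' : (1 : ℝ) ≤ J := by exact_mod_cast hJ1
    have h1 : (κ + ((a + b : ℕ) : ℝ)) / (((a + b : ℕ) : ℝ) + 1) ≤ ((J : ℝ) + b) / ((b : ℝ) + 1) := by
      rw [div_le_div_iff₀ (by positivity) (by positivity)]
      push_cast
      have ha : (0 : ℝ) ≤ a := Nat.cast_nonneg a
      have hb : (0 : ℝ) ≤ b := Nat.cast_nonneg b
      nlinarith [mul_nonneg ha (by linarith : (0 : ℝ) ≤ J - 1)]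
    calc lc κ (a + b) * ((κ + ((a + b : ℕ) : ℝ)) / (((a + b : ℕ) : ℝ) + 1)) ≤
        (lc κ a * lc J b) * (((J : ℝ) + b) / ((b : ℝ) + 1)) :=
          mul_le_mul ih h1 (by positivity) (mul_nonneg (lc_nonneg hκ.le a) (lc_nonneg (by positivity) b))
      _ = _ := by ring

lemma dv_mul_le {κ : ℝ} (hκ : 0 < κ) {J : ℕ} (hJ : κ ≤ J) (hJ1 : 1 ≤ J) {a b : ℕ} (ha : a ≠ 0) (hb : b ≠ 0) :
    dv κ (a * b) ≤ dv κ a * dv J b := by
  have hab : a * b ≠ 0 := mul_ne_zero ha hb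
  rw [Pool.Agent.X110.NA.dv_eq_prod κ hab (S := (a * b).primeFactors) subset_rfl,
    Pool.Agent.X110.NA.dv_eq_prod κ ha (S := (a * b).primeFactors)
      (Nat.primeFactors_mono (Dvd.intro b rfl) hab),
    Pool.Agent.X110.NA.dv_eq_prod (J : ℝ) hb (S := (a * b).primeFactors)
      (Nat.primeFactors_mono (Dvd.intro_left a rfl) hab), ← prod_mul_distrib]
  refine prod_le_prod (fun p _ => lc_nonneg hκ.le _) fun p _ => ?_
  rw [Nat.factorization_mul ha hb, Finsupp.add_apply]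
  exact lc_add_le hκ hJ hJ1 _ _

/-- **the diagonal of a product** -/
theorem dia_prod (N : ℕ) (Bs : Finset ℕ) (hB : ∀ b ∈ Bs, 1 ≤ b) (g y : ℕ → ℝ) (hg : ∀ a, 0 ≤ g a)
    (hy : ∀ b, 0 ≤ y b) {K l : ℝ}
    (hyb : ∀ b ∈ Bs, y b ≤ K * (b : ℝ) ^ (-(1 / 2 + l))) :
    dia (Icc 1 N ×ˢ Bs) (fun q => q.1 * q.2) (fun q => g q.1 * y q.2) ≤
      K ^ 2 * ((∑ a ∈ Icc 1 N, g a ^ 2 * Dl l a) * ∑ b ∈ Bs, (b : ℝ) ^ (-(1 + l)) * Dl l b) := by
  obtain ⟨P, hP⟩ : ∃ P : Finset (ℕ × ℕ), P = Icc 1 N ×ˢ Bs := ⟨_, rfl⟩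
  have hP1 : ∀ q ∈ P, q.1 ∈ Icc 1 N ∧ q.2 ∈ Bs := fun q hq => by rw [hP, mem_product] at hq; exact hq
  obtain ⟨V, hV⟩ : ∃ V : ℕ × ℕ → ℕ × ℕ → ℝ, ∀ q r, V q r = g q.1 ^ 2 * (q.2 : ℝ) ^ (-(1 + l)) * (r.2 : ℝ) ^ (-l) :=
    ⟨_, fun _ _ => rfl⟩
  have hV0 : ∀ q r, 0 ≤ V q r := fun q r => by rw [hV]; positivity
  rw [← hP]
  have key : ∀ q ∈ P, ∀ r ∈ P, (g q.1 * y q.2) * (g r.1 * y r.2) ≤ K ^ 2 / 2 * (V q r + V r q) := by
    intro q hq r hr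
    have hb : (0 : ℝ) < q.2 := by exact_mod_cast hB _ (hP1 q hq).2
    have hb' : (0 : ℝ) < r.2 := by exact_mod_cast hB _ (hP1 r hr).2
    have hq1 := hyb _ (hP1 q hq).2
    have hr1 := hyb _ (hP1 r hr).2
    have e1 : ∀ x : ℝ, 0 < x → x ^ (-(1 / 2 + l)) = x ^ (-((1 + l) / 2)) * x ^ (-(l / 2)) := by
      intro x hx
      rw [← Real.rpow_add hx]
      congr 1
      ring
    have e2 : ∀ x : ℝ, 0 < x → x ^ (-(1 + l)) = (x ^ (-((1 + l) / 2))) ^ 2 := by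
      intro x hx
      rw [← Real.rpow_natCast, ← Real.rpow_mul hx.le]
      congr 1
      push_cast
      ring
    have e3 : ∀ x : ℝ, 0 < x → x ^ (-l) = (x ^ (-(l / 2))) ^ 2 := by
      intro x hx
      rw [← Real.rpow_natCast, ← Real.rpow_mul hx.le]
      congr 1
      push_cast
      ring
    rw [e1 _ hb] at hq1
    rw [e1 _ hb'] at hr1
    rw [hV, hV, e2 _ hb, e3 _ hb', e2 _ hb', e3 _ hb]
    set u := (q.2 : ℝ) ^ (-((1 + l) / 2)) with hu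
    set v := (q.2 : ℝ) ^ (-(l / 2)) with hv
    set u' := (r.2 : ℝ) ^ (-((1 + l) / 2)) with hu'
    set v' := (r.2 : ℝ) ^ (-(l / 2)) with hv'
    have h1 : y q.2 * y r.2 ≤ (K * (u * v)) * (K * (u' * v')) :=
      mul_le_mul hq1 hr1 (hy _) ((hy _).trans hq1)
    have h2 := mul_le_mul_of_nonneg_left h1 (mul_nonneg (hg q.1) (hg r.1))
    have h3 : 0 ≤ (g q.1 * u * v' - g r.1 * u' * v) ^ 2 := sq_nonneg _
    have h4 := mul_nonneg (sq_nonneg K) h3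
    nlinarith [h2, h4]
  have hdia : dia P (fun q => q.1 * q.2) (fun q => g q.1 * y q.2) ≤
      ∑ q ∈ P, ∑ r ∈ P, if q.1 * q.2 = r.1 * r.2 then K ^ 2 / 2 * (V q r + V r q) else 0 := by
    unfold dia
    refine sum_le_sum fun q hq => sum_le_sum fun r hr => ?_
    simp only
    split_ifs with h
    · exact key q hq r hr
    · exact le_rfl
  refine hdia.trans ?_
  have hsym : ∑ q ∈ P, ∑ r ∈ P, (if q.1 * q.2 = r.1 * r.2 then K ^ 2 / 2 * (V q r + V r q) else 0) =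
      K ^ 2 * ∑ q ∈ P, ∑ r ∈ P, if q.1 * q.2 = r.1 * r.2 then V q r else 0 := by
    have h1 : ∑ q ∈ P, ∑ r ∈ P, (if q.1 * q.2 = r.1 * r.2 then K ^ 2 / 2 * (V q r + V r q) else 0) =
        K ^ 2 / 2 * (∑ q ∈ P, ∑ r ∈ P, if q.1 * q.2 = r.1 * r.2 then V q r else 0) +
        K ^ 2 / 2 * (∑ q ∈ P, ∑ r ∈ P, if q.1 * q.2 = r.1 * r.2 then V r q else 0) := by
      rw [← mul_add, ← sum_add_distrib, mul_sum]
      refine sum_congr rfl fun q _ => ?_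
      rw [← sum_add_distrib, mul_sum]
      refine sum_congr rfl fun r _ => ?_
      split_ifs <;> ring
    have h2 : (∑ q ∈ P, ∑ r ∈ P, if q.1 * q.2 = r.1 * r.2 then V r q else 0) =
        ∑ q ∈ P, ∑ r ∈ P, if q.1 * q.2 = r.1 * r.2 then V q r else 0 := by
      rw [sum_comm]
      refine sum_congr rfl fun q _ => sum_congr rfl fun r _ => ?_
      simp only [eq_comm]
    rw [h1, h2]
    ring
  rw [hsym]
  refine mul_le_mul_of_nonneg_left ?_ (sq_nonneg K)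
  have hfib : ∀ q ∈ P, ∑ r ∈ P, (if q.1 * q.2 = r.1 * r.2 then V q r else 0) ≤
      (g q.1 ^ 2 * Dl l q.1) * ((q.2 : ℝ) ^ (-(1 + l)) * Dl l q.2) := by
    intro q hq
    obtain ⟨q1, q2⟩ := hP1 q hq
    have ha : q.1 ≠ 0 := by have := (mem_Icc.1 q1).1; omega
    have hb : q.2 ≠ 0 := by have := hB _ q2; omega
    rw [← sum_filter]
    have h1 : ∑ r ∈ P.filter (fun r => q.1 * q.2 = r.1 * r.2), V q r =
        (g q.1 ^ 2 * (q.2 : ℝ) ^ (-(1 + l))) * ∑ r ∈ P.filter (fun r => q.1 * q.2 = r.1 * r.2), (r.2 : ℝ) ^ (-l) := by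
      rw [mul_sum]
      exact sum_congr rfl fun r _ => by rw [hV]
    have h2 : ∑ r ∈ P.filter (fun r => q.1 * q.2 = r.1 * r.2), (r.2 : ℝ) ^ (-l) ≤ Dl l (q.1 * q.2) := by
      unfold Dl
      refine sum_inj_le _ _ (fun r : ℕ × ℕ => r.2) ?_ ?_ (fun d => (d : ℝ) ^ (-l)) fun d _ => by positivity
      · intro r hr
        rw [mem_filter] at hr
        rw [Nat.mem_divisors]
        exact ⟨⟨r.1, by rw [hr.2, mul_comm]⟩, mul_ne_zero ha hb⟩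
      · intro r hr r' hr' h
        rw [mem_coe, mem_filter] at hr hr'
        have hr2 : 1 ≤ r.2 := hB _ (hP1 r hr.1).2
        simp only at h
        have h3 : r.1 * r.2 = r'.1 * r.2 := by rw [← hr.2, hr'.2, h]
        have h4 : r.1 = r'.1 := Nat.eq_of_mul_eq_mul_right (by omega) h3
        exact Prod.ext h4 h
    rw [h1]
    calc _ ≤ (g q.1 ^ 2 * (q.2 : ℝ) ^ (-(1 + l))) * (Dl l q.1 * Dl l q.2) :=
          mul_le_mul_of_nonneg_left (h2.trans (Dl_mul_le l ha hb)) (by positivity)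
      _ = _ := by ring
  refine (sum_le_sum hfib).trans (le_of_eq ?_)
  rw [hP, Finset.sum_mul_sum, ← Finset.sum_product']

end Pool.Agent.X107.MU
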