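import Pool.Agent.X107.MU.MU19
import Pool.Agent.X107.MU.MU13

/-! # From paths to regions, and the stability under small shifts -/

set_option autoImplicit false

namespace Pool.Agent.X107.MU

open Filter Topology MeasureTheory Set

/-- **uniformity**: what holds along all paths holds in a region -/
theorem unif {P : ℝ → ℝ → Prop}
    (h : ∀ δ : ℝ → ℝ, Tendsto δ atTop (𝓝 0) → Tendsto (fun T : ℝ => δ T * Real.log T) atTop atTop →
      ∀ᶠ T in atTop, P (δ T) T) :
    ∃ n : ℕ, 0 < n ∧ ∀ᶠ T : ℝ in atTop, ∀ d : ℝ, (n : ℝ) / Real.log T ≤ d → d ≤ 1 / n → P d T := by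
  by_contra hcon
  push Not at hcon
  have h1 : ∀ n : ℕ, ∃ T d : ℝ, (n : ℝ) + 3 ≤ T ∧ ((n : ℝ) + 1) / Real.log T ≤ d ∧ d ≤ 1 / ((n : ℝ) + 1) ∧ ¬ P d T := by
    intro n
    have h2 := hcon (n + 1) (Nat.succ_pos n)
    rw [Filter.frequently_atTop] at h2
    obtain ⟨T, hT, d, hd1, hd2, hd3⟩ := h2 ((n : ℝ) + 3)
    push_cast at hd1 hd2
    exact ⟨T, d, hT, hd1, hd2, hd3⟩
  choose T d hT hd1 hd2 hd3 using h1
  have hTt : Tendsto T atTop atTop := by
    refine tendsto_atTop_mono (fun n => (?_ : (n : ℝ) ≤ T n)) tendsto_natCast_atTop_atTop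
    linarith [hT n]
  obtain ⟨φ, hφ, hTφ⟩ := strictMono_subseq_of_tendsto_atTop hTt
  have hφn : ∀ n, n ≤ φ n := fun n => hφ.id_le n
  classical
  obtain ⟨δ, hδ⟩ : ∃ δ : ℝ → ℝ, δ = fun x => if h : ∃ n, T (φ n) = x then d (φ h.choose) else (√(Real.log x))⁻¹ := ⟨_, rfl⟩
  have hval : ∀ n, δ (T (φ n)) = d (φ n) := by
    intro n
    have hex : ∃ m, T (φ m) = T (φ n) := ⟨n, rfl⟩
    rw [hδ]
    simp only
    rw [dif_pos hex]
    have h2 : hex.choose = n := hTφ.injective hex.choose_spec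
    rw [h2]
  have hL : Tendsto (fun x : ℝ => √(Real.log x)) atTop atTop := Real.tendsto_sqrt_atTop.comp Real.tendsto_log_atTop
  have hidx : ∀ N n : ℕ, ∀ x : ℝ, T (φ N) < x → T (φ n) = x → N < n := by
    intro N n x h2 h3
    rw [← h3] at h2
    exact hTφ.lt_iff_lt.1 h2
  have hδ0 : Tendsto δ atTop (𝓝 0) := by
    rw [Metric.tendsto_nhds]
    intro e he
    obtain ⟨N, hN⟩ := exists_nat_one_div_lt he
    filter_upwards [eventually_gt_atTop (T (φ N)), hL.inv_tendsto_atTop.eventually (gt_mem_nhds he),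
      eventually_gt_atTop (1 : ℝ)] with x h2 h3 h4
    have h5 : 0 ≤ (√(Real.log x))⁻¹ := by positivity
    by_cases hex : ∃ n, T (φ n) = x
    · obtain ⟨n, hn⟩ := hex
      have h6 := hidx N n x h2 hn
      rw [← hn, hval, Real.dist_eq, sub_zero]
      have h7 := hd1 (φ n)
      have h8 := hd2 (φ n)
      have h9 : 0 < Real.log (T (φ n)) := by
        apply Real.log_pos
        have := hT (φ n)
        have : (0:ℝ) ≤ φ n := by positivity
        linarith
      have h10 : 0 ≤ d (φ n) := le_trans (by positivity) h7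
      rw [abs_of_nonneg h10]
      refine lt_of_le_of_lt (h8.trans ?_) hN
      apply one_div_le_one_div_of_le (by positivity)
      have h11 : (N : ℝ) ≤ n := by exact_mod_cast h6.le
      have h12 : (n : ℝ) ≤ φ n := by exact_mod_cast hφn n
      linarith
    · rw [hδ, Real.dist_eq, sub_zero]
      simp only
      rw [dif_neg hex, abs_of_nonneg h5]
      exact h3
  have hδL : Tendsto (fun x : ℝ => δ x * Real.log x) atTop atTop := by
    rw [tendsto_atTop]
    intro b
    obtain ⟨N, hN⟩ := exists_nat_ge b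
    filter_upwards [eventually_gt_atTop (T (φ N)), hL.eventually_ge_atTop b, eventually_gt_atTop (1 : ℝ)] with x h2 h3 h4
    have hlx := Real.log_pos h4
    by_cases hex : ∃ n, T (φ n) = x
    · obtain ⟨n, hn⟩ := hex
      have h6 := hidx N n x h2 hn
      have h7 := hd1 (φ n)
      rw [← hn, hval]
      rw [← hn] at hlx
      rw [div_le_iff₀ hlx] at h7
      refine le_trans ?_ h7
      have h11 : (N : ℝ) ≤ n := by exact_mod_cast h6.le
      have h12 : (n : ℝ) ≤ φ n := by exact_mod_cast hφn n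
      linarith
    · rw [hδ]
      simp only
      rw [dif_neg hex]
      have h8 : √(Real.log x) ≠ 0 := (Real.sqrt_pos.2 hlx).ne'
      have h9 : (√(Real.log x))⁻¹ * Real.log x = √(Real.log x) := by
        rw [inv_mul_eq_div, div_eq_iff h8, Real.mul_self_sqrt hlx.le]
      rw [h9]
      exact h3
  have h2 := h δ hδ0 hδL
  have h3 : Tendsto (fun n => T (φ n)) atTop atTop := hTt.comp hφ.tendsto_atTop
  obtain ⟨n, hn⟩ := (h3.eventually h2).exists
  rw [hval] at hn
  exact hd3 _ hn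

/-- shifts of a compact set -/
lemma shifts {K : Set ℂ} (hK : IsCompact K) (hKs : ∀ z ∈ K, 1 / 2 < z.re ∧ z.re < 1) {P : ℂ → ℂ} (hP : Continuous P)
    {ε : ℝ} (hε : 0 < ε) : ∃ r : ℝ, 0 < r ∧ r ≤ 1 ∧ ∃ K' : Set ℂ, IsCompact K' ∧ (∀ z ∈ K', 1 / 2 < z.re ∧ z.re < 1) ∧
      ∀ w ∈ K, ∀ u ∈ Icc (-r) r, w + u * Complex.I ∈ K' ∧ ‖P (w + u * Complex.I) - P w‖ ≤ ε := by
  obtain ⟨G, hG⟩ : ∃ G : ℂ × ℝ → ℂ, G = fun q => P (q.1 + q.2 * Complex.I) := ⟨_, rfl⟩
  have hGc : Continuous G := by rw [hG]; fun_prop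
  have hcomp : IsCompact (K ×ˢ Icc (-1 : ℝ) 1) := hK.prod isCompact_Icc
  have huc := hcomp.uniformContinuousOn_of_continuous hGc.continuousOn
  rw [Metric.uniformContinuousOn_iff] at huc
  obtain ⟨ρ, hρ, hu⟩ := huc ε hε
  refine ⟨min 1 (ρ / 2), by positivity, min_le_left _ _, (fun q : ℂ × ℝ => q.1 + q.2 * Complex.I) '' (K ×ˢ Icc (-1 : ℝ) 1),
    hcomp.image (by fun_prop), ?_, ?_⟩
  · rintro z ⟨⟨w, u⟩, ⟨hw, hu⟩, rfl⟩
    have := hKs w hw
    simpa using this
  · intro w hw u hu'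
    have h1 : u ∈ Icc (-1 : ℝ) 1 := ⟨by linarith [hu'.1, min_le_left 1 (ρ / 2)], hu'.2.trans (min_le_left _ _)⟩
    refine ⟨⟨(w, u), ⟨hw, h1⟩, rfl⟩, ?_⟩
    have h2 := hu (w, u) ⟨hw, h1⟩ (w, 0) ⟨hw, by simp⟩ (by
      rw [Prod.dist_eq]
      simp only [dist_self, Real.dist_eq, sub_zero]
      rw [max_eq_right (abs_nonneg u)]
      have h3 : |u| ≤ ρ / 2 := (abs_le.2 hu').trans (min_le_right _ _)
      linarith)
    rw [dist_eq_norm, hG] at h2
    simp only [Complex.ofReal_zero, zero_mul, add_zero] at h2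
    exact h2.le

/-- the ordinates where zeta is near an entire function -/
def UT (K : Set ℂ) (g : ℂ → ℂ) (ε : ℝ) : Set ℝ := {t | ∀ w ∈ K, ‖riemannZeta (w + t * Complex.I) - g w‖ ≤ ε}

lemma UT_meas {K : Set ℂ} (hKs : ∀ z ∈ K, 1 / 2 < z.re ∧ z.re < 1) (g : ℂ → ℂ) (ε : ℝ) : MeasurableSet (UT K g ε) := by
  have : IsClosed (UT K g ε) := by
    have e : UT K g ε = ⋂ w ∈ K, {t : ℝ | ‖riemannZeta (w + t * Complex.I) - g w‖ ≤ ε} := by
      ext t
      simp [UT]
    rw [e]
    refine isClosed_biInter fun w hw => ?_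
    refine isClosed_le (Continuous.norm (Continuous.sub ?_ continuous_const)) continuous_const
    rw [continuous_iff_continuousAt]
    intro v
    have hne : w + (v : ℂ) * Complex.I ≠ 1 := by
      intro h
      have h1 := congrArg Complex.re h
      have h2 := hKs w hw
      simp at h1
      linarith
    exact ContinuousAt.comp (f := fun v : ℝ => w + (v : ℂ) * Complex.I)
      (differentiableAt_riemannZeta hne).continuousAt (by fun_prop)
  exact this.measurableSet

end Pool.Agent.X107.MU
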