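import Pool.Agent.X107.MU.MU8

/-! # The real moments near the line as a system of weights: the main passage -/

set_option autoImplicit false

open Filter Topology MeasureTheory

namespace Pool.Agent.X107.MU

open Pool.Agent.X110.NA
open Pool.Agent.Y755 (DD DD_ge_one DD_asym)
open Pool.Agent.Y753.SH (S_DIAGR S_STARR L0)
open Pool.Agent.Y753.SHR
open Pool.Agent.H306R2 (dv dv_nonneg dv_one aF aF_pos)

lemma Pd_pr (s δ : ℝ) (N : ℕ) (t : ℝ) : pr δ (fun _ : Fin 1 => s) (fun _ => 0) N t = Pd s δ N t := pr_one δ s N t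

/-- the systems of weights given by real moments near the line -/
theorem sys_path (hDG : S_DIAGR) (hST : S_STARR) : ∃ Z0 : ℝ → ℝ → ℝ → ℝ → ℝ → ℝ → ℕ,
    ∀ (δ : ℝ → ℝ), Tendsto δ atTop (𝓝 0) → Tendsto (fun T : ℝ => δ T * Real.log T) atTop atTop →
    ∀ (c : ℝ), 0 ≤ c → ∀ (R : Set ℝ), R.Countable → (∀ r ∈ R, 0 < r) →
    ∃ E : ℝ → Set ℝ, (∀ T, MeasurableSet (E T) ∧ E T ⊆ Set.Icc 0 T ∧
        ∀ t ∈ E T, (δ T) ^ (-(2 + c)) < ‖riemannZeta (1 / 2 + δ T + (t : ℂ) * Complex.I)‖) ∧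
      Tendsto (fun T => (volume (E T)).toReal / (T * (δ T) ^ (4 + 4 * c))) atTop (𝓝 0) ∧
      ∀ s ∈ R,
        ((s ≤ 2 ∨ 4 + 4 * c ≤ 2 * s) → Sys s (Z0 s)
          (fun T t => ‖riemannZeta (1 / 2 + δ T + (t : ℂ) * Complex.I)‖ ^ (2 * s)) (fun T => Set.Icc 0 T \ E T)
          (fun T => (2 * δ T) ^ (s ^ 2) / T)) ∧
        (s ≤ 2 → Sys s (Z0 s)
          (fun T t => ‖riemannZeta (1 / 2 + δ T + (t : ℂ) * Complex.I)‖ ^ (2 * s)) (fun T => Set.Icc 0 T)
          (fun T => (2 * δ T) ^ (s ^ 2) / T)) := by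
  obtain ⟨Z0, hZ0⟩ := exists_Z0
  refine ⟨fun s a b B lam ε => Z0 s a b B lam (ε / 2), fun δ hδ hδL c hc R hR hR0 => ?_⟩
  obtain ⟨E, w, hE, hvol, hw, hm⟩ := approx_small hDG hST hδ hδL hc (S := {0}) (Set.countable_singleton 0) hR hR0
  have hpos := pos_path hδL
  have hlt : ∀ᶠ T in atTop, δ T < 1 / 2 := hδ.eventually (gt_mem_nhds (by norm_num))
  refine ⟨E, fun T => ⟨(hE T).1, (hE T).2.1, fun t ht => ?_⟩, hvol, ?_⟩
  · obtain ⟨a, ha, h1⟩ := (hE T).2.2.2 t ht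
    rw [Set.mem_singleton_iff] at ha
    subst ha
    unfold za at h1
    simpa using h1
  intro s hs
  have hs0 := hR0 s hs
  obtain ⟨A1, A2, A3⟩ := hm 1 (fun _ => s) (fun _ => 0) s L0 le_rfl (by simp) (fun _ => hs) (fun _ => Set.mem_singleton 0)
    L0_le (L0_log hpos hδL)
  obtain ⟨B1, B2, -⟩ := hm 1 (fun _ => s) (fun _ => 0) s (N1 δ) le_rfl (by simp) (fun _ => hs) (fun _ => Set.mem_singleton 0)
    (N1_le hδL) (N1_log hδL hδ)
  obtain ⟨B, hB⟩ := pr_bound hδ hpos hs0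
  obtain ⟨Bn, hBn⟩ := pr_bound' hδ hpos hs0 (N1_le hδL)
  obtain ⟨x, hx⟩ : ∃ x : ℝ → ℝ → ℂ, ∀ T t, x T t = zr (w T) (δ T) (fun _ : Fin 1 => s) (fun _ => 0) t := ⟨_, fun _ _ => rfl⟩
  obtain ⟨y, hy⟩ : ∃ y : ℝ → ℝ → ℂ, ∀ T t, y T t = pr (δ T) (fun _ : Fin 1 => s) (fun _ => 0) (L0 T) t := ⟨_, fun _ _ => rfl⟩
  obtain ⟨v, hv⟩ : ∃ v : ℝ → ℝ → ℂ, ∀ T t, v T t = pr (δ T) (fun _ : Fin 1 => s) (fun _ => 0) (N1 δ T) t := ⟨_, fun _ _ => rfl⟩
  simp_rw [← hx, ← hy] at A1 A2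
  simp_rw [← hx, ← hv] at B1 B2
  simp_rw [← hy] at A3 hB
  simp_rw [← hv] at hBn
  have hc0 : ∀ᶠ T in atTop, 0 ≤ (2 * δ T) ^ (s ^ 2) / T := by
    filter_upwards [hpos, eventually_gt_atTop 0] with T t1 t2
    positivity
  have hyc : ∀ T, Continuous (y T) := fun T => by
    have e : y T = pr (δ T) (fun _ : Fin 1 => s) (fun _ => 0) (L0 T) := funext (hy T)
    rw [e]
    exact pr_cont (δ T) (fun _ => hs0.le) _ (L0 T)
  have hvc : ∀ T, Continuous (v T) := fun T => by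
    have e : v T = pr (δ T) (fun _ : Fin 1 => s) (fun _ => 0) (N1 δ T) := funext (hv T)
    rw [e]
    exact pr_cont (δ T) (fun _ => hs0.le) _ (N1 δ T)
  have hxm : ∀ T, Measurable (x T) := fun T => by
    have e : x T = zr (w T) (δ T) (fun _ : Fin 1 => s) (fun _ => 0) := funext (hx T)
    rw [e]
    exact zr_meas (hE T).2.2.1 (δ T) _ _
  -- modulus
  have hmod : ∀ᶠ T in atTop, ∀ᵐ t : ℝ, ‖x T t‖ ^ 2 = ‖riemannZeta (1 / 2 + δ T + (t : ℂ) * Complex.I)‖ ^ (2 * s) := by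
    filter_upwards [hw] with T hT
    filter_upwards [zeros_ae (δ T) ((0:ℝ) * δ T)] with t ht
    have n1 := zr_norm (w := w T) (δ := δ T) (κ := fun _ : Fin 1 => s) (a := fun _ => 0) (t := t) fun _ => hT _ ht
    rw [Fin.prod_univ_one] at n1
    rw [hx, n1]
    unfold za
    simp
  have hzi : ∀ᶠ T in atTop, IntegrableOn (fun t : ℝ => ‖riemannZeta (1 / 2 + δ T + (t : ℂ) * Complex.I)‖ ^ (2 * s)) (Set.Icc 0 T) := by
    filter_upwards [hlt] with T hT
    have := ic hT (0:ℝ) (r := 2 * s) (by positivity) (T := T)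
    unfold za at this
    simpa using this
  have hyi : ∀ T, IntegrableOn (fun t => ‖y T t‖ ^ 2) (Set.Icc 0 T) := fun T =>
    ((hyc T).norm.pow 2).continuousOn.integrableOn_compact isCompact_Icc
  have hvi : ∀ T, IntegrableOn (fun t => ‖v T t‖ ^ 2) (Set.Icc 0 T) := fun T =>
    ((hvc T).norm.pow 2).continuousOn.integrableOn_compact isCompact_Icc
  have hxi : ∀ᶠ T in atTop, IntegrableOn (fun t => ‖x T t - y T t‖ ^ 2) (Set.Icc 0 T) := by
    filter_upwards [hzi, hmod] with T h1 h2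
    refine Integrable.mono' ((h1.const_mul 2).add ((hyi T).const_mul 2))
      (((hxm T).sub (hyc T).measurable).norm.pow_const 2).aestronglyMeasurable ?_
    filter_upwards [ae_restrict_of_ae h2] with t ht
    rw [Real.norm_of_nonneg (by positivity)]
    show _ ≤ 2 * ‖riemannZeta (1 / 2 + δ T + (t : ℂ) * Complex.I)‖ ^ (2 * s) + 2 * ‖y T t‖ ^ 2
    rw [← ht]
    exact sq_sub_le _ _
  have hxvi : ∀ᶠ T in atTop, IntegrableOn (fun t => ‖x T t - v T t‖ ^ 2) (Set.Icc 0 T) := by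
    filter_upwards [hzi, hmod] with T h1 h2
    refine Integrable.mono' ((h1.const_mul 2).add ((hvi T).const_mul 2))
      (((hxm T).sub (hvc T).measurable).norm.pow_const 2).aestronglyMeasurable ?_
    filter_upwards [ae_restrict_of_ae h2] with t ht
    rw [Real.norm_of_nonneg (by positivity)]
    show _ ≤ 2 * ‖riemannZeta (1 / 2 + δ T + (t : ℂ) * Complex.I)‖ ^ (2 * s) + 2 * ‖v T t‖ ^ 2
    rw [← ht]
    exact sq_sub_le _ _
  -- the twisted means
  have hmain : ∀ {D : ℝ → Set ℝ}, (∀ T, MeasurableSet (D T) ∧ D T ⊆ Set.Icc 0 T) →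
      Tendsto (fun T : ℝ => (2 * δ T) ^ (s ^ 2) / T * ∫ t in D T, ‖x T t - y T t‖ ^ 2) atTop (𝓝 0) →
      Tendsto (fun T : ℝ => (2 * δ T) ^ (s ^ 2) / T * ∫ t in Set.Icc 0 T \ D T, ‖y T t‖ ^ 2) atTop (𝓝 0) →
      ∀ m n : ℕ, m ≠ 0 → n ≠ 0 → m.Coprime n →
      Tendsto (fun T : ℝ => ((2 * δ T) ^ (s ^ 2) / T) •
          ∫ t in D T, (((‖riemannZeta (1 / 2 + δ T + (t : ℂ) * Complex.I)‖ ^ (2 * s) : ℝ) : ℂ)) * tws m n t) atTop
        (𝓝 ((((m:ℝ) * n) ^ (-(1 / 2 : ℝ)) * (aF s * ∏ p ∈ (m * n).primeFactors,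
            (Lf s 0 p (m.factorization p) (n.factorization p) / Lf s 0 p 0 0)) : ℝ) : ℂ)) := by
    intro D hD h1 h2 m n hm0 hn0 hmn
    have htw := pr_twist hδ hpos hδL hs0 hm0 hn0 hmn
    simp_rw [← hy] at htw
    obtain ⟨L, hL⟩ : ∃ L : ℂ, L = ((((m:ℝ) * n) ^ (-(1 / 2 : ℝ)) * (aF s * ∏ p ∈ (m * n).primeFactors,
            (Lf s 0 p (m.factorization p) (n.factorization p) / Lf s 0 p 0 0)) : ℝ) : ℂ) := ⟨_, rfl⟩
    rw [← hL] at htw ⊢
    have h3 := close_sq hc0 (hxi.mono fun T hT => hT.mono_set (hD T).2)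
      (Eventually.of_forall fun T => (hyi T).mono_set (hD T).2) h1 (B := B) (by
        filter_upwards [hB, hc0] with T t1 t2
        refine le_trans (mul_le_mul_of_nonneg_left ?_ t2) t1
        exact setIntegral_mono_set (hyi T) (Eventually.of_forall fun t => by positivity) (Eventually.of_forall (hD T).2))
    have h4 := h3.add h2
    rw [add_zero] at h4
    have h5 : Tendsto (fun T : ℝ => ((2 * δ T) ^ (s ^ 2) / T) •
          (∫ t in D T, (((‖riemannZeta (1 / 2 + δ T + (t : ℂ) * Complex.I)‖ ^ (2 * s) : ℝ) : ℂ)) * tws m n t) -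
        ((2 * δ T) ^ (s ^ 2) / T) • ∫ t in Set.Icc 0 T, (((‖y T t‖ ^ 2 : ℝ) : ℂ)) * tws m n t) atTop (𝓝 0) := by
      rw [tendsto_zero_iff_norm_tendsto_zero]
      refine squeeze_zero' (Eventually.of_forall fun T => norm_nonneg _) ?_ h4
      filter_upwards [hc0, hzi, hmod, hxi] with T t1 t2 t3 t4
      have i1 : IntegrableOn (fun t : ℝ => (((‖riemannZeta (1 / 2 + δ T + (t : ℂ) * Complex.I)‖ ^ (2 * s) : ℝ) : ℂ)) * tws m n t) (Set.Icc 0 T) :=
        (t2.ofReal).mul_bdd (c := 1) (tws_cont m n).aestronglyMeasurable (Eventually.of_forall fun t => (tws_norm m n t).le)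
      have i2 : IntegrableOn (fun t : ℝ => (((‖y T t‖ ^ 2 : ℝ) : ℂ)) * tws m n t) (Set.Icc 0 T) :=
        ((hyi T).ofReal).mul_bdd (c := 1) (tws_cont m n).aestronglyMeasurable (Eventually.of_forall fun t => (tws_norm m n t).le)
      have hu : Set.Icc 0 T = D T ∪ (Set.Icc 0 T \ D T) := by
        rw [Set.union_sdiff_self, Set.union_eq_right.mpr (hD T).2]
      have e1 : ∫ t in Set.Icc 0 T, (((‖y T t‖ ^ 2 : ℝ) : ℂ)) * tws m n t =
          (∫ t in D T, (((‖y T t‖ ^ 2 : ℝ) : ℂ)) * tws m n t) + ∫ t in Set.Icc 0 T \ D T, (((‖y T t‖ ^ 2 : ℝ) : ℂ)) * tws m n t := by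
        conv_lhs => rw [hu]
        rw [setIntegral_union Set.disjoint_sdiff_right (measurableSet_Icc.diff (hD T).1) (i2.mono_set (hD T).2)
          (i2.mono_set Set.sdiff_subset)]
      rw [e1, ← smul_sub, norm_smul, Real.norm_of_nonneg t1, ← sub_sub, ← integral_sub (i1.mono_set (hD T).2) (i2.mono_set (hD T).2),
        ← mul_add]
      refine mul_le_mul_of_nonneg_left ?_ t1
      refine (norm_sub_le _ _).trans (add_le_add ?_ ?_)
      · refine norm_integral_le_of_norm_le ?_ ?_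
        · have : Integrable (fun t : ℝ => |‖riemannZeta (1 / 2 + δ T + (t : ℂ) * Complex.I)‖ ^ (2 * s) - ‖y T t‖ ^ 2|) (volume.restrict (D T)) :=
            ((t2.mono_set (hD T).2).sub ((hyi T).mono_set (hD T).2)).abs
          refine this.congr ?_
          filter_upwards [ae_restrict_of_ae t3] with t ht
          rw [ht]
        · filter_upwards [ae_restrict_of_ae t3] with t ht
          rw [← sub_mul, norm_mul, tws_norm, mul_one, ← Complex.ofReal_sub, Complex.norm_real, Real.norm_eq_abs, ht]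
      · refine norm_integral_le_of_norm_le ((hyi T).mono_set Set.sdiff_subset) (Eventually.of_forall fun t => ?_)
        rw [norm_mul, tws_norm, mul_one, Complex.norm_real, Real.norm_of_nonneg (by positivity)]
    have h6 := h5.add htw
    rw [zero_add] at h6
    refine h6.congr fun T => ?_
    rw [sub_add_cancel]
  -- the tails
  have htail : ∀ {D : ℝ → Set ℝ}, (∀ T, MeasurableSet (D T) ∧ D T ⊆ Set.Icc 0 T) →
      Tendsto (fun T : ℝ => (2 * δ T) ^ (s ^ 2) / T * ∫ t in D T, ‖x T t - v T t‖ ^ 2) atTop (𝓝 0) →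
      ∀ a b B lam ε : ℝ, 1 / 2 < a → a ≤ b → b < 1 → 0 < B → 0 < lam → 0 < ε → ∀ z ≥ Z0 s a b B lam (ε / 2),
        ∀ᶠ T in atTop, (2 * δ T) ^ (s ^ 2) / T * ∫ t in D T ∩ {t | lam ≤ JG a b B z t},
          ‖riemannZeta (1 / 2 + δ T + (t : ℂ) * Complex.I)‖ ^ (2 * s) ≤ ε := by
    intro D hD h1 a b B lam ε g1 g2 g3 g4 g5 g6 z hz
    have h3 := close_sq hc0 (hxvi.mono fun T hT => hT.mono_set (hD T).2)
      (Eventually.of_forall fun T => (hvi T).mono_set (hD T).2) h1 (B := Bn) (by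
        filter_upwards [hBn, hc0] with T t1 t2
        refine le_trans (mul_le_mul_of_nonneg_left ?_ t2) t1
        exact setIntegral_mono_set (hvi T) (Eventually.of_forall fun t => by positivity) (Eventually.of_forall (hD T).2))
    have haF := aF_pos hs0
    have hJ := hZ0 s a b B lam (ε / 2) hs0 g1 g2 g3 g4 g5 (half_pos g6) z hz (N1 δ) δ
      (fun η hη => N1_pow hδL hη) hpos
    have hDD := (DD_asym hs0 hpos hδ).eventually (gt_mem_nhds (lt_add_one (aF s)))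
    have hMm : MeasurableSet {t : ℝ | lam ≤ JG a b B z t} :=
      (isClosed_le continuous_const (JG_cont g2 g3 g4 z)).measurableSet
    filter_upwards [h3.eventually (gt_mem_nhds (show 0 < ε / 2 by positivity)), hJ, hDD, hpos, hzi, hmod,
      eventually_ge_atTop (1 : ℝ), hc0] with T t1 t2 t3 t4 t5 t6 t7 t8
    have hT0 : 0 < T := by linarith
    have hzD := t5.mono_set (hD T).2
    have hvD := (hvi T).mono_set (hD T).2
    -- pointwise
    have e1 : ∫ t in D T ∩ {t | lam ≤ JG a b B z t}, ‖riemannZeta (1 / 2 + δ T + (t : ℂ) * Complex.I)‖ ^ (2 * s) ≤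
        (∫ t in D T, |‖x T t‖ ^ 2 - ‖v T t‖ ^ 2|) + ∫ t in D T ∩ {t | lam ≤ JG a b B z t}, ‖v T t‖ ^ 2 := by
      have i0 : IntegrableOn (fun t => |‖x T t‖ ^ 2 - ‖v T t‖ ^ 2|) (D T) := by
        have : Integrable (fun t : ℝ => |‖riemannZeta (1 / 2 + δ T + (t : ℂ) * Complex.I)‖ ^ (2 * s) - ‖v T t‖ ^ 2|) (volume.restrict (D T)) :=
          (hzD.sub hvD).abs
        refine this.congr ?_
        filter_upwards [ae_restrict_of_ae t6] with t ht
        rw [ht]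
      have i1 : IntegrableOn (fun t => |‖x T t‖ ^ 2 - ‖v T t‖ ^ 2|) (D T ∩ {t | lam ≤ JG a b B z t}) :=
        i0.mono_set Set.inter_subset_left
      have i2 : IntegrableOn (fun t => ‖v T t‖ ^ 2) (D T ∩ {t | lam ≤ JG a b B z t}) :=
        hvD.mono_set Set.inter_subset_left
      have h5 : ∫ t in D T ∩ {t | lam ≤ JG a b B z t}, ‖riemannZeta (1 / 2 + δ T + (t : ℂ) * Complex.I)‖ ^ (2 * s) ≤
          ∫ t in D T ∩ {t | lam ≤ JG a b B z t}, (|‖x T t‖ ^ 2 - ‖v T t‖ ^ 2| + ‖v T t‖ ^ 2) := by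
        refine integral_mono_ae (hzD.mono_set Set.inter_subset_left) (i1.add i2) ?_
        filter_upwards [ae_restrict_of_ae t6] with t ht
        rw [← ht]
        have := le_abs_self (‖x T t‖ ^ 2 - ‖v T t‖ ^ 2)
        linarith
      refine h5.trans ?_
      rw [integral_add i1 i2]
      exact add_le_add_left (setIntegral_mono_set i0 (Eventually.of_forall fun t => abs_nonneg _)
        (Eventually.of_forall fun t (ht : t ∈ D T ∩ {t | lam ≤ JG a b B z t}) => ht.1)) _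
    have hJc := JG_cont g2 g3 g4 z
    have ic1 : Continuous fun t : ℝ => ‖v T t‖ ^ 2 * JG a b B z t := ((hvc T).norm.pow 2).mul hJc
    have e2 : lam * ∫ t in D T ∩ {t | lam ≤ JG a b B z t}, ‖v T t‖ ^ 2 ≤
        ∫ t in (0:ℝ)..T, ‖Pd s (δ T) (N1 δ T) t‖ ^ 2 * JG a b B z t := by
      have h6 : ∀ t, ‖Pd s (δ T) (N1 δ T) t‖ ^ 2 * JG a b B z t = ‖v T t‖ ^ 2 * JG a b B z t := by
        intro t
        rw [hv, Pd_pr]
      simp_rw [h6]
      rw [intervalIntegral.integral_of_le hT0.le, ← integral_Icc_eq_integral_Ioc, ← integral_const_mul]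
      have i3 : IntegrableOn (fun t : ℝ => ‖v T t‖ ^ 2 * JG a b B z t) (Set.Icc 0 T) :=
        ic1.continuousOn.integrableOn_compact isCompact_Icc
      have hsub : D T ∩ {t | lam ≤ JG a b B z t} ⊆ Set.Icc 0 T := fun t ht => (hD T).2 ht.1
      refine le_trans ?_ (setIntegral_mono_set i3
        (Eventually.of_forall fun t => mul_nonneg (by positivity) (JG_nonneg a b B z t)) (Eventually.of_forall hsub))
      refine setIntegral_mono_on ((hvD.mono_set Set.inter_subset_left).const_mul _) (i3.mono_set hsub)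
        ((hD T).1.inter hMm) fun t ht => ?_
      rw [mul_comm]
      exact mul_le_mul_of_nonneg_left ht.2 (by positivity)
    have hcT : 0 < (2 * δ T) ^ (s ^ 2) / T := by positivity
    have e3 : (2 * δ T) ^ (s ^ 2) / T * ∫ t in D T ∩ {t | lam ≤ JG a b B z t}, ‖v T t‖ ^ 2 ≤ ε / 2 := by
      have h7 := mul_le_mul_of_nonneg_left (e2.trans t2) hcT.le
      have h8 : (2 * δ T) ^ (s ^ 2) / T * ((lam * (ε / 2) / (2 * (aF s + 1))) * T * DD s (δ T)) =
          (lam * (ε / 2) / (2 * (aF s + 1))) * ((2 * δ T) ^ (s ^ 2) * DD s (δ T)) := by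
        field_simp
      rw [h8] at h7
      have h9 : (lam * (ε / 2) / (2 * (aF s + 1))) * ((2 * δ T) ^ (s ^ 2) * DD s (δ T)) ≤
          (lam * (ε / 2) / (2 * (aF s + 1))) * (aF s + 1) := mul_le_mul_of_nonneg_left t3.le (by positivity)
      have h10 : (lam * (ε / 2) / (2 * (aF s + 1))) * (aF s + 1) = lam * (ε / 4) := by
        field_simp
        ring
      rw [h10] at h9
      have h11 : lam * ((2 * δ T) ^ (s ^ 2) / T * ∫ t in D T ∩ {t | lam ≤ JG a b B z t}, ‖v T t‖ ^ 2) ≤ lam * (ε / 4) := by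
        refine le_trans (le_of_eq ?_) (h7.trans h9)
        ring
      have h12 := le_of_mul_le_mul_left h11 g5
      linarith
    have h13 := mul_le_mul_of_nonneg_left e1 hcT.le
    rw [mul_add] at h13
    linarith
  -- the system
  have hsys : ∀ {D : ℝ → Set ℝ}, (∀ T, MeasurableSet (D T) ∧ D T ⊆ Set.Icc 0 T) →
      Tendsto (fun T : ℝ => (2 * δ T) ^ (s ^ 2) / T * ∫ t in D T, ‖x T t - y T t‖ ^ 2) atTop (𝓝 0) →
      Tendsto (fun T : ℝ => (2 * δ T) ^ (s ^ 2) / T * ∫ t in D T, ‖x T t - v T t‖ ^ 2) atTop (𝓝 0) →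
      Tendsto (fun T : ℝ => (2 * δ T) ^ (s ^ 2) / T * ∫ t in Set.Icc 0 T \ D T, ‖y T t‖ ^ 2) atTop (𝓝 0) →
      Sys s (fun a b B lam ε => Z0 s a b B lam (ε / 2))
          (fun T t => ‖riemannZeta (1 / 2 + δ T + (t : ℂ) * Complex.I)‖ ^ (2 * s)) D
          (fun T => (2 * δ T) ^ (s ^ 2) / T) := by
    intro D hD h1 h2 h3
    refine ⟨hc0, fun T t => by positivity, hzi.mono fun T hT => hT.mono_set (hD T).2, fun T => (hD T).1, ?_,
      fun a b B lam ε g1 g2 g3 g4 g5 g6 z hz => htail hD h2 a b B lam ε g1 g2 g3 g4 g5 g6 z hz⟩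
    intro m p hp hinj F hF
    refine tilt_of_twist hs0 (aF_pos hs0).le p hp hinj _ D (fun T => (2 * δ T) ^ (s ^ 2) / T) hc0
      (fun T t => by positivity) (hzi.mono fun T hT => hT.mono_set (hD T).2) ?_ F hF
    intro m n hm hn hmn
    refine (hmain hD h1 h3 m n hm hn hmn).congr fun T => ?_
    unfold tws
    rw [Complex.real_smul]
  refine ⟨fun hcase => ?_, fun hs2 => ?_⟩
  · refine hsys (fun T => ⟨measurableSet_Icc.diff (hE T).1, Set.sdiff_subset⟩) (A1 hcase) (B1 hcase) ?_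
    refine A3.congr fun T => ?_
    rw [Set.sdiff_sdiff_right_self, Set.inter_eq_right.mpr (hE T).2.1]
  · refine hsys (D := fun T => Set.Icc 0 T) (fun T => ⟨measurableSet_Icc, subset_rfl⟩) (A2 hs2) (B2 hs2) ?_
    simp

end Pool.Agent.X107.MU
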