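import Pool.Agent.X107.MU.MU20
import Pool.Agent.X107.MU.MU9
import Pool.Agent.Y753.SHR.Star
import Pool.Agent.Y901.SHR.Diag

/-! # Universality on the critical line for moments of any real order -/

set_option autoImplicit false

namespace Pool.Agent.X107.MU

open Filter Topology MeasureTheory Set

/-- bound near the real axis -/
lemma near_real {p : ℝ} (hp : 0 < p) : ∃ B : ℝ, 0 ≤ B ∧ ∀ σ : ℝ, 1 / 2 ≤ σ → σ ≤ 3 / 4 →
    ∫ t in Icc (0 : ℝ) 2, ‖riemannZeta ((σ : ℂ) + (t : ℂ) * Complex.I)‖ ^ p ≤ B := by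
  have hc : IsCompact (Icc (1 / 2 : ℝ) (3 / 4) ×ˢ Icc (0 : ℝ) 2) := isCompact_Icc.prod isCompact_Icc
  have hcont : ContinuousOn (fun q : ℝ × ℝ => riemannZeta ((q.1 : ℂ) + (q.2 : ℂ) * Complex.I))
      (Icc (1 / 2 : ℝ) (3 / 4) ×ˢ Icc (0 : ℝ) 2) := by
    intro q hq
    have hne : (q.1 : ℂ) + (q.2 : ℂ) * Complex.I ≠ 1 := by
      have := hq.1.2
      exact line_ne (by linarith) q.2
    exact (ContinuousAt.comp (f := fun q : ℝ × ℝ => (q.1 : ℂ) + (q.2 : ℂ) * Complex.I)
      (differentiableAt_riemannZeta hne).continuousAt (by fun_prop)).continuousWithinAt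
  obtain ⟨B, hB⟩ := hc.exists_bound_of_continuousOn hcont
  refine ⟨2 * (max B 0) ^ p, by positivity, fun σ h1 h2 => ?_⟩
  have hi : IntegrableOn (fun t : ℝ => ‖riemannZeta ((σ : ℂ) + (t : ℂ) * Complex.I)‖ ^ p) (Icc (0 : ℝ) 2) :=
    (line_cont (by linarith) hp).continuousOn.integrableOn_compact isCompact_Icc
  have h3 : ∫ t in Icc (0 : ℝ) 2, ‖riemannZeta ((σ : ℂ) + (t : ℂ) * Complex.I)‖ ^ p ≤ ∫ _t in Icc (0 : ℝ) 2, (max B 0) ^ p := by
    refine setIntegral_mono_on hi (by simp) measurableSet_Icc fun t ht => ?_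
    exact Real.rpow_le_rpow (norm_nonneg _) ((hB (σ, t) ⟨⟨h1, h2⟩, ht⟩).trans (le_max_left _ _)) hp.le
  refine h3.trans (le_of_eq ?_)
  rw [setIntegral_const, smul_eq_mul]
  congr 1
  rw [Measure.real, Real.volume_Icc, ENNReal.toReal_ofReal (by norm_num)]
  norm_num

/-- **universality on the critical line and to the right of it, with moments of any real order as weights** -/
theorem on_line {k : ℝ} (hk : 0 < k) {K : Set ℂ} (hK : IsCompact K) (hKs : ∀ z ∈ K, 1 / 2 < z.re ∧ z.re < 1)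
    {P : ℂ → ℂ} (hP : Differentiable ℂ P) {ε : ℝ} (hε : 0 < ε) :
    ∃ c : ℝ, 0 < c ∧ ∃ η : ℝ, 0 < η ∧ ∀ᶠ T : ℝ in atTop, ∀ σ : ℝ, 1 / 2 ≤ σ → σ ≤ 1 / 2 + η →
      c * T * (σ - 1 / 2 + 1 / Real.log T) ^ (-(k ^ 2)) ≤
        ∫ t in Icc 0 T ∩ UT K (fun w => Complex.exp (P w)) ε, ‖riemannZeta ((σ : ℂ) + (t : ℂ) * Complex.I)‖ ^ (2 * k) := by
  obtain ⟨Z0, hZ0⟩ := sys_path Pool.Agent.Y901.SHR.done Pool.Agent.Y753.SHR.star
  have hp : 0 < 2 * k := by positivity
  have hPc : Continuous fun w => Complex.exp (P w) := Complex.continuous_exp.comp hP.continuous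
  obtain ⟨r, hr, hr1, K', hK', hK's, hsh⟩ := shifts hK hKs hPc (show 0 < ε / 2 by positivity)
  obtain ⟨κ, hκ, hpos⟩ := pos_exp hk (Z0 k) hK' hK's hP (show 0 < ε / 2 by positivity)
  have hKm : (∀ z ∈ K, 1 / 2 < z.re ∧ z.re < 1) := hKs
  -- the region
  obtain ⟨U', hU'⟩ : ∃ U', U' = UT K' (fun w => Complex.exp (P w)) (ε / 2) := ⟨_, rfl⟩
  obtain ⟨U, hU⟩ : ∃ U, U = UT K (fun w => Complex.exp (P w)) ε := ⟨_, rfl⟩
  have hU'm : MeasurableSet U' := by rw [hU']; exact UT_meas hK's _ _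
  have hUm : MeasurableSet U := by rw [hU]; exact UT_meas hKs _ _
  have hshift : ∀ t ∈ U', ∀ u ∈ Icc (-r) r, t + u ∈ U := by
    intro t ht u hu
    rw [hU]
    intro w hw
    rw [hU'] at ht
    obtain ⟨h1, h2⟩ := hsh w hw u hu
    have h3 := ht _ h1
    have e : w + u * Complex.I + t * Complex.I = w + ((t + u : ℝ) : ℂ) * Complex.I := by push_cast; ring
    rw [e] at h3
    have e2 : riemannZeta (w + ((t + u : ℝ) : ℂ) * Complex.I) - Complex.exp (P w) =
        (riemannZeta (w + ((t + u : ℝ) : ℂ) * Complex.I) - Complex.exp (P (w + u * Complex.I))) +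
          (Complex.exp (P (w + u * Complex.I)) - Complex.exp (P w)) := by ring
    rw [e2]
    refine (norm_add_le _ _).trans ?_
    linarith
  have hU'U : U' ⊆ U := fun t ht => by
    have := hshift t ht 0 ⟨by linarith, hr.le⟩
    rwa [add_zero] at this
  obtain ⟨n0, hn0, hreg⟩ := unif (P := fun d T => κ ≤ (2 * d) ^ (k ^ 2) / T *
      ∫ t in Icc 0 T ∩ U', ‖riemannZeta (1 / 2 + d + (t : ℂ) * Complex.I)‖ ^ (2 * k)) (by
    intro δ hδ hδL
    obtain ⟨c, hc, hck⟩ : ∃ c : ℝ, 0 ≤ c ∧ (k ≤ 2 ∨ 4 + 4 * c ≤ 2 * k) := by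
      by_cases h : k ≤ 2
      · exact ⟨0, le_rfl, Or.inl h⟩
      · exact ⟨(k - 2) / 2, by linarith, Or.inr (by linarith)⟩
    obtain ⟨E, hE, hvol, hsys⟩ := hZ0 δ hδ hδL c hc {k} (countable_singleton k) (fun r hr => by
      rw [mem_singleton_iff] at hr
      rw [hr]
      exact hk)
    have hs := (hsys k (mem_singleton k)).1 hck
    filter_upwards [hpos _ _ _ hs, hs.c0, hδ.eventually (gt_mem_nhds (show (0 : ℝ) < 1 / 2 by norm_num))] with T h1 h2 h3
    refine h1.trans (mul_le_mul_of_nonneg_left ?_ h2)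
    have hcont : Continuous fun t : ℝ => ‖riemannZeta (1 / 2 + δ T + (t : ℂ) * Complex.I)‖ ^ (2 * k) := by
      have := line_cont (σ := 1 / 2 + δ T) (by linarith) hp
      push_cast at this
      exact this
    refine setIntegral_mono_set ((hcont.continuousOn.integrableOn_compact isCompact_Icc).mono_set inter_subset_left)
      (Eventually.of_forall fun t => by positivity) (Eventually.of_forall fun t (ht : t ∈ (Icc 0 T \ E T) ∩ _) => ⟨ht.1.1, ?_⟩)
    rw [hU']
    exact ht.2)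
  -- a larger bound
  obtain ⟨n, hn⟩ : ∃ n : ℝ, n = (n0 : ℝ) + 8 := ⟨_, rfl⟩
  have hn0' : (1 : ℝ) ≤ n0 := by exact_mod_cast hn0
  have hn8 : 8 ≤ n := by rw [hn]; linarith
  have hn00 : 0 < n := by linarith
  have hreg' : ∀ᶠ T : ℝ in atTop, ∀ d : ℝ, n / Real.log T ≤ d → d ≤ 1 / n →
      κ * T * (2 * d) ^ (-(k ^ 2)) ≤ ∫ t in Icc 0 T ∩ U', ‖riemannZeta (((1 / 2 + d : ℝ) : ℂ) + (t : ℂ) * Complex.I)‖ ^ (2 * k) := by
    filter_upwards [hreg, eventually_gt_atTop (1 : ℝ)] with T h1 h2 d hd1 hd2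
    have hL := Real.log_pos h2
    have h3 : (n0 : ℝ) / Real.log T ≤ d := le_trans (div_le_div_of_nonneg_right (by rw [hn]; linarith) hL.le) hd1
    have h4 : d ≤ 1 / n0 := hd2.trans (one_div_le_one_div_of_le (by linarith) (by rw [hn]; linarith))
    have h5 := h1 d h3 h4
    have hd0 : 0 < d := lt_of_lt_of_le (by positivity) hd1
    have e : (∫ t in Icc 0 T ∩ U', ‖riemannZeta (((1 / 2 + d : ℝ) : ℂ) + (t : ℂ) * Complex.I)‖ ^ (2 * k)) =
        ∫ t in Icc 0 T ∩ U', ‖riemannZeta (1 / 2 + d + (t : ℂ) * Complex.I)‖ ^ (2 * k) := by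
      push_cast
      rfl
    rw [e]
    have hpw : 0 < (2 * d) ^ (k ^ 2) := by positivity
    have hT0 : 0 < T := by linarith
    rw [Real.rpow_neg (by positivity)]
    generalize (∫ t in Icc 0 T ∩ U', ‖riemannZeta (1 / 2 + d + (t : ℂ) * Complex.I)‖ ^ (2 * k)) = J' at h5 ⊢
    have h6 := mul_le_mul_of_nonneg_left h5 (show 0 ≤ T * ((2 * d) ^ (k ^ 2))⁻¹ by positivity)
    refine le_trans (le_of_eq (by ring)) (h6.trans (le_of_eq ?_))
    field_simp
  obtain ⟨C, hC, hshp⟩ := shift_p hp (show 0 < 4 * n by positivity) hr hr1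
  obtain ⟨B, hB0, hB⟩ := near_real hp
  -- the constants
  obtain ⟨c1, hc1⟩ : ∃ c1, c1 = κ * 2 ^ (-(k ^ 2)) := ⟨_, rfl⟩
  obtain ⟨c2, hc2⟩ : ∃ c2, c2 = κ / (16 * C) * (8 * n) ^ (-(k ^ 2)) := ⟨_, rfl⟩
  have hc10 : 0 < c1 := by rw [hc1]; positivity
  have hc20 : 0 < c2 := by rw [hc2]; positivity
  refine ⟨min c1 c2, lt_min hc10 hc20, 1 / (2 * n), by positivity, ?_⟩
  have hlog := Real.tendsto_log_atTop
  have hT1 : Tendsto (fun T : ℝ => T - 1) atTop atTop := tendsto_atTop_add_const_right _ _ tendsto_id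
  have hk2 : 0 < k ^ 2 := by positivity
  have hbig : ∀ᶠ T : ℝ in atTop, 8 * C / κ ≤ (Real.log T / (8 * n)) ^ (k ^ 2) := by
    have h1 : Tendsto (fun T : ℝ => (Real.log T / (8 * n)) ^ (k ^ 2)) atTop atTop :=
      (tendsto_rpow_atTop hk2).comp (hlog.atTop_div_const (by positivity))
    exact h1.eventually_ge_atTop _
  filter_upwards [hreg', hT1.eventually hreg', hlog.eventually_ge_atTop (8 * n * n), hbig,
    eventually_ge_atTop (16 * (1 + 2 * B / κ))] with T h1 h2 h3 h4 h5 σ hσ hση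
  have hn2 : 64 ≤ n * n := by nlinarith
  have hlogT : 512 ≤ Real.log T := by nlinarith
  have hBk : 0 ≤ 2 * B / κ := by positivity
  have hT16 : 16 ≤ T := by linarith
  have hTpos : 0 < T := by linarith
  have hLpos : 0 < Real.log T := by linarith
  have hcontσ : ∀ σ : ℝ, σ < 1 → Continuous fun t : ℝ => ‖riemannZeta ((σ : ℂ) + (t : ℂ) * Complex.I)‖ ^ (2 * k) :=
    fun σ hσ => line_cont hσ hp
  have hη1 : 1 / (2 * n) ≤ 1 / 16 := by
    apply one_div_le_one_div_of_le (by norm_num)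
    linarith
  have hσ1 : σ < 1 := by linarith
  rw [← hU]
  obtain ⟨J, hJ⟩ : ∃ J, J = ∫ t in Icc 0 T ∩ U, ‖riemannZeta ((σ : ℂ) + (t : ℂ) * Complex.I)‖ ^ (2 * k) := ⟨_, rfl⟩
  rw [← hJ]
  have hσL : 0 < σ - 1 / 2 + 1 / Real.log T := by
    have : 0 < 1 / Real.log T := by positivity
    linarith
  obtain ⟨X, hX⟩ : ∃ X, X = (σ - 1 / 2 + 1 / Real.log T) ^ (-(k ^ 2)) := ⟨_, rfl⟩
  rw [← hX]
  have hX0 : 0 < X := by rw [hX]; positivity
  by_cases hcase : n / Real.log T ≤ σ - 1 / 2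
  · -- away from the line
    have hd0 : 0 < σ - 1 / 2 := lt_of_lt_of_le (by positivity) hcase
    have h6 := h1 (σ - 1 / 2) hcase (by
      have : 1 / (2 * n) ≤ 1 / n := one_div_le_one_div_of_le hn00 (by linarith)
      linarith)
    have e : 1 / 2 + (σ - 1 / 2) = σ := by ring
    rw [e] at h6
    have h7 : κ * T * (2 * (σ - 1 / 2)) ^ (-(k ^ 2)) ≤ J := by
      rw [hJ]
      refine h6.trans ?_
      refine setIntegral_mono_set (((hcontσ σ hσ1).continuousOn.integrableOn_compact isCompact_Icc).mono_set inter_subset_left)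
        (Eventually.of_forall fun t => by positivity) (Eventually.of_forall fun t (ht : t ∈ Icc 0 T ∩ _) => ⟨ht.1, hU'U ht.2⟩)
    have h8 : X ≤ (σ - 1 / 2) ^ (-(k ^ 2)) := by
      rw [hX]
      refine Real.rpow_le_rpow_of_nonpos hd0 ?_ (by linarith)
      have : 0 < 1 / Real.log T := by positivity
      linarith
    have h9 : c1 * T * X ≤ κ * T * (2 * (σ - 1 / 2)) ^ (-(k ^ 2)) := by
      rw [Real.mul_rpow (by norm_num) hd0.le, hc1]
      have h10 : 0 ≤ κ * 2 ^ (-(k ^ 2)) * T := by positivity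
      refine (mul_le_mul_of_nonneg_left h8 h10).trans (le_of_eq (by ring))
    have h10 : min c1 c2 * T * X ≤ c1 * T * X := by
      have := min_le_left c1 c2
      gcongr
    linarith
  · -- near the line
    push Not at hcase
    obtain ⟨d, hd⟩ : ∃ d, d = 1 / 2 + 4 * n / Real.log T - σ := ⟨_, rfl⟩
    obtain ⟨x, hx⟩ : ∃ x, x = n / Real.log T := ⟨_, rfl⟩
    have hx0 : 0 < x := by rw [hx]; positivity
    have e4 : 4 * n / Real.log T = 4 * x := by rw [hx]; ring
    have hxn : 8 * x ≤ 1 / n := by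
      rw [hx, le_div_iff₀ hn00]
      have : 8 * (n / Real.log T) * n = 8 * n * n / Real.log T := by ring
      rw [this, div_le_one hLpos]
      exact h3
    have hn18 : 1 / n ≤ 1 / 8 := one_div_le_one_div_of_le (by norm_num) hn8
    rw [← hx] at hcase
    rw [e4] at hd
    have hd0 : 0 < d := by rw [hd]; linarith
    have hσd : σ + d = 1 / 2 + 4 * x := by rw [hd]; ring
    -- at T - 1
    have hT' : T - 1 ≤ T := by linarith
    have hT'0 : 0 < T - 1 := by linarith
    have hTh : T / 2 ≤ T - 1 := by linarith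
    have hlogT' : Real.log T / 2 ≤ Real.log (T - 1) := by
      have k1 : Real.log (T / 2) ≤ Real.log (T - 1) := Real.log_le_log (by positivity) hTh
      rw [Real.log_div hTpos.ne' (by norm_num)] at k1
      have k2 := Real.log_two_lt_d9
      linarith
    have hlogT'' : Real.log (T - 1) ≤ Real.log T := Real.log_le_log hT'0 hT'
    have hLp' : 0 < Real.log (T - 1) := by linarith
    have h6 := h2 (4 * x) (by
      rw [hx, div_le_iff₀ hLp']
      have : 4 * (n / Real.log T) * (Real.log T / 2) = 2 * n := by field_simp; ring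
      have h7 : 4 * (n / Real.log T) * (Real.log T / 2) ≤ 4 * (n / Real.log T) * Real.log (T - 1) :=
        mul_le_mul_of_nonneg_left hlogT' (by positivity)
      linarith) (by linarith)
    -- remove the part near the real axis
    have hσ4 : 1 / 2 + 4 * x < 1 := by linarith
    have h7 : (∫ t in Icc 0 (T - 1) ∩ U', ‖riemannZeta (((1 / 2 + 4 * x : ℝ) : ℂ) + (t : ℂ) * Complex.I)‖ ^ (2 * k)) ≤
        B + ∫ t in Icc 2 (T - 1) ∩ U', ‖riemannZeta (((1 / 2 + 4 * x : ℝ) : ℂ) + (t : ℂ) * Complex.I)‖ ^ (2 * k) := by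
      obtain ⟨F, hF⟩ : ∃ F : ℝ → ℝ, F = fun t : ℝ => ‖riemannZeta (((1 / 2 + 4 * x : ℝ) : ℂ) + (t : ℂ) * Complex.I)‖ ^ (2 * k) := ⟨_, rfl⟩
      have hFc : Continuous F := by rw [hF]; exact hcontσ _ hσ4
      have hF0 : ∀ t, 0 ≤ F t := fun t => by rw [hF]; dsimp only; positivity
      have hB' : ∫ t in Icc (0:ℝ) 2, F t ≤ B := by
        rw [hF]
        exact hB (1 / 2 + 4 * x) (by linarith) (by linarith)
      have e1 : (∫ t in Icc 0 (T - 1) ∩ U', F t) ≤ ∫ t in (Icc (0:ℝ) 2) ∪ (Icc 2 (T - 1) ∩ U'), F t := by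
        refine setIntegral_mono_set ?_ (Eventually.of_forall hF0) (Eventually.of_forall fun t ht => ?_)
        · exact (hFc.continuousOn.integrableOn_compact isCompact_Icc).union
            ((hFc.continuousOn.integrableOn_compact isCompact_Icc).mono_set inter_subset_left)
        · have ht' : t ∈ Icc 0 (T - 1) ∩ U' := ht
          by_cases h8 : t ≤ 2
          · exact Or.inl ⟨ht'.1.1, h8⟩
          · exact Or.inr ⟨⟨by linarith, ht'.1.2⟩, ht'.2⟩
      have e2 : (∫ t in (Icc (0:ℝ) 2) ∪ (Icc 2 (T - 1) ∩ U'), F t) ≤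
          (∫ t in Icc (0:ℝ) 2, F t) + ∫ t in Icc 2 (T - 1) ∩ U', F t := by
        have i1 : IntegrableOn F (Icc (0:ℝ) 2) := hFc.continuousOn.integrableOn_compact isCompact_Icc
        have i2 : IntegrableOn F (Icc 2 (T - 1) ∩ U') :=
          (hFc.continuousOn.integrableOn_compact isCompact_Icc).mono_set inter_subset_left
        rw [← integral_add_measure i1 i2]
        refine integral_mono_measure (Measure.restrict_union_le _ _) (Eventually.of_forall hF0) ?_
        exact integrable_add_measure.2 ⟨i1, i2⟩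
      rw [hF] at e1 e2 hB'
      refine e1.trans (e2.trans ?_)
      linarith
    -- the Poisson inequality
    have h8 := hshp (T - 1) (by
      have := Real.exp_one_lt_d9
      linarith) σ d hσ hd0 (by rw [hσd]; exact hσ4) (by
      have k1 : d ≤ 4 * x := by rw [hd]; linarith
      refine k1.trans ?_
      rw [hx, mul_div_assoc]
      refine mul_le_mul_of_nonneg_left ?_ (by norm_num)
      exact div_le_div_of_nonneg_left hn00.le hLp' hlogT'') U' U hU'm hUm hshift
    rw [hσd, sub_add_cancel, ← hJ] at h8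
    -- combine
    obtain ⟨Y, hY⟩ : ∃ Y, Y = (2 * (4 * x)) ^ (-(k ^ 2)) := ⟨_, rfl⟩
    rw [← hY] at h6
    have hYeq : Y = (Real.log T / (8 * n)) ^ (k ^ 2) := by
      rw [hY, hx, Real.rpow_neg (by positivity), ← Real.inv_rpow (by positivity)]
      congr 1
      field_simp
      ring
    have hY1 : 8 * C / κ ≤ Y := by rw [hYeq]; exact h4
    have hY0 : 1 ≤ Y := by
      rw [hYeq]
      apply Real.one_le_rpow _ hk2.le
      rw [le_div_iff₀ (by positivity)]
      nlinarith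
    have hXY : X * (8 * n) ^ (-(k ^ 2)) ≤ Y := by
      rw [hX, ← Real.mul_rpow hσL.le (by positivity), hY]
      refine Real.rpow_le_rpow_of_nonpos (by positivity) ?_ (by linarith)
      rw [hx]
      have k1 : (σ - 1 / 2 + 1 / Real.log T) * (8 * n) = (σ - 1 / 2) * (8 * n) + 2 * (4 * (n / Real.log T)) := by ring
      rw [k1]
      have k2 : 0 ≤ (σ - 1 / 2) * (8 * n) := mul_nonneg (by linarith) (by positivity)
      linarith
    have h9 : κ * (T - 1) * Y ≤ B + C * (T - 1 + J) := h6.trans (h7.trans (by linarith))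
    -- κ (T-1) Y / 2 absorbs B and C T
    have h10 : B ≤ κ * (T - 1) * Y / 4 := by
      have k1 : 16 * (1 + 2 * B / κ) * κ = 16 * κ + 32 * B := by field_simp; ring
      have k2 : 16 * (1 + 2 * B / κ) * κ ≤ T * κ := mul_le_mul_of_nonneg_right h5 hκ.le
      have k3 : κ * (T - 1) ≤ κ * (T - 1) * Y := le_mul_of_one_le_right (by positivity) hY0
      nlinarith
    have h11 : C * (T - 1) ≤ κ * (T - 1) * Y / 4 := by
      rw [div_le_iff₀ hκ] at hY1
      have k1 := mul_le_mul_of_nonneg_right hY1 hT'0.le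
      nlinarith
    have h12 : κ * (T - 1) * Y / 2 ≤ C * J := by nlinarith
    have h13 : c2 * T * X ≤ J := by
      have k1 : c2 * T * X = κ / (16 * C) * T * (X * (8 * n) ^ (-(k ^ 2))) := by rw [hc2]; ring
      rw [k1]
      have k2 : κ / (16 * C) * T * (X * (8 * n) ^ (-(k ^ 2))) ≤ κ / (16 * C) * T * Y :=
        mul_le_mul_of_nonneg_left hXY (by positivity)
      refine k2.trans ?_
      have k3 : κ / (16 * C) * T * Y = (κ * T * Y / 16) / C := by field_simp
      rw [k3, div_le_iff₀ hC, mul_comm J C]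
      refine le_trans ?_ h12
      have k4 : 0 ≤ κ * Y := by positivity
      have k5 : κ * T * Y / 16 = (κ * Y) * (T / 16) := by ring
      have k6 : κ * (T - 1) * Y / 2 = (κ * Y) * ((T - 1) / 2) := by ring
      rw [k5, k6]
      exact mul_le_mul_of_nonneg_left (by linarith) k4
    have h14 : min c1 c2 * T * X ≤ c2 * T * X := by
      have := min_le_right c1 c2
      gcongr
    linarith

/-- the form for targets -/
theorem on_line_tgt {k : ℝ} (hk : 0 < k) {K : Set ℂ} (hK : IsCompact K) (hKs : ∀ z ∈ K, 1 / 2 < z.re ∧ z.re < 1)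
    {f : ℂ → ℂ} (hf : Pool.Agent.Y834.UT.Tgt K f) {ε : ℝ} (hε : 0 < ε) :
    ∃ c : ℝ, 0 < c ∧ ∃ η : ℝ, 0 < η ∧ ∀ᶠ T : ℝ in atTop, ∀ σ : ℝ, 1 / 2 ≤ σ → σ ≤ 1 / 2 + η →
      c * T * (σ - 1 / 2 + 1 / Real.log T) ^ (-(k ^ 2)) ≤
        ∫ t in Icc 0 T ∩ {t : ℝ | ∀ z ∈ K, ‖riemannZeta (z + t * Complex.I) - f z‖ ≤ ε},
          ‖riemannZeta ((σ : ℂ) + (t : ℂ) * Complex.I)‖ ^ (2 * k) := by
  obtain ⟨g, hgf, hgc, hgd, hgV⟩ := hf
  have hHc := Pool.Agent.Y834.UT.isCompact_hull hK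
  have hHo := Pool.Agent.Y834.UT.isConnected_compl_hull hK
  obtain ⟨p, hp0, hp⟩ := Pool.Agent.Y834.UT.approx_hull hK hgc hgd hgV (show 0 < ε / 4 by positivity)
  obtain ⟨q, hq⟩ := ZU.exp_approx hHc hHo p hp0 (ε / 4) (by positivity)
  obtain ⟨c, hc, η, hη, h⟩ := on_line hk hK hKs q.differentiable (show 0 < ε / 2 by positivity)
  refine ⟨c, hc, min η (1 / 4), by positivity, ?_⟩
  filter_upwards [h] with T hT σ h1 h2
  refine (hT σ h1 (h2.trans (by linarith [min_le_left η (1 / 4 : ℝ)]))).trans ?_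
  have hσ1 : σ < 1 := by linarith [min_le_right η (1 / 4 : ℝ)]
  refine setIntegral_mono_set (((line_cont hσ1 (show 0 < 2 * k by positivity)).continuousOn.integrableOn_compact
    isCompact_Icc).mono_set inter_subset_left)
    (Eventually.of_forall fun t => by positivity) (Eventually.of_forall fun t (ht : t ∈ Icc 0 T ∩ _) => ⟨ht.1, fun w hw => ?_⟩)
  have h4 := ht.2 w hw
  have h5 := hq w (Pool.Agent.Y834.UT.subset_hull K hw)
  have h6 := hp w (Pool.Agent.Y834.UT.subset_hull K hw)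
  rw [hgf w hw] at h6
  have : riemannZeta (w + t * Complex.I) - f w = (riemannZeta (w + t * Complex.I) - Complex.exp (q.eval w)) +
      ((Complex.exp (q.eval w) - p.eval w) + (p.eval w - f w)) := by ring
  rw [this]
  refine (norm_add_le _ _).trans ?_
  have h7 := norm_add_le (Complex.exp (q.eval w) - p.eval w) (p.eval w - f w)
  linarith

end Pool.Agent.X107.MU
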