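import Pool.Agent.X107.MU.MU21

/-! # Large values near the line over sets of ordinates -/

set_option autoImplicit false

namespace Pool.Agent.X107.MU

open Filter Topology MeasureTheory Set

lemma zc_cont {d : ℝ} (hd : d < 1 / 2) {p : ℝ} (hp : 0 < p) :
    Continuous fun t : ℝ => ‖riemannZeta (1 / 2 + d + (t : ℂ) * Complex.I)‖ ^ p := by
  have := line_cont (σ := 1 / 2 + d) (by linarith) hp
  push_cast at this
  exact this

/-- from moments to large values, along a path -/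
theorem large_path {k η : ℝ} (hη : 0 < η) (hηk : η < k) {U' : Set ℝ} (hU' : MeasurableSet U') {κ0 : ℝ} (hκ0 : 0 < κ0)
    {δ : ℝ → ℝ} (hδ : Tendsto δ atTop (𝓝 0)) (hpos : ∀ᶠ T in atTop, 0 < δ T) {D : ℝ → Set ℝ}
    (hD : ∀ T, MeasurableSet (D T) ∧ D T ⊆ Icc 0 T)
    (h1 : ∀ᶠ T in atTop, κ0 ≤ (2 * δ T) ^ (k ^ 2) / T *
      ∫ t in D T ∩ U', ‖riemannZeta (1 / 2 + δ T + (t : ℂ) * Complex.I)‖ ^ (2 * k)) {L : ℝ}
    (h2 : ∀ᶠ T in atTop, (2 * δ T) ^ ((k - η) ^ 2) / T *
      ∫ t in D T, ‖riemannZeta (1 / 2 + δ T + (t : ℂ) * Complex.I)‖ ^ (2 * (k - η)) ≤ L)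
    (h3 : ∀ᶠ T in atTop, (2 * δ T) ^ ((k + η) ^ 2) / T *
      ∫ t in D T, ‖riemannZeta (1 / 2 + δ T + (t : ℂ) * Complex.I)‖ ^ (2 * (k + η)) ≤ L) :
    ∀ᶠ T in atTop, T * (2 * δ T) ^ (k ^ 2 + 3 * k * η) ≤ volume.real (Icc 0 T ∩ U' ∩
      {t : ℝ | (2 * δ T) ^ (-(k - η)) ≤ ‖riemannZeta (1 / 2 + δ T + (t : ℂ) * Complex.I)‖}) := by
  have hk : 0 < k := hη.trans hηk
  have h2δ : Tendsto (fun T => 2 * δ T) atTop (𝓝 0) := by simpa using hδ.const_mul 2
  have hrp : ∀ a : ℝ, 0 < a → Tendsto (fun T => (2 * δ T) ^ a) atTop (𝓝 0) := by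
    intro a ha
    have := h2δ.rpow_const (p := a) (Or.inr ha.le)
    rwa [Real.zero_rpow ha.ne'] at this
  have e1 := ((hrp (η ^ 2) (by positivity)).const_mul (2 * L))
  rw [mul_zero] at e1
  have e2 := hrp (k * η) (by positivity)
  filter_upwards [h1, h2, h3, hpos, e1.eventually (gt_mem_nhds (show 0 < κ0 / 2 by positivity)),
    e2.eventually (gt_mem_nhds (show 0 < κ0 / 2 by positivity)), hδ.eventually (gt_mem_nhds (show (0:ℝ) < 1 / 2 by norm_num)),
    eventually_gt_atTop (0 : ℝ)] with T t1 t2 t3 t4 t5 t6 t7 t8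
  obtain ⟨X, hX⟩ : ∃ X, X = 2 * δ T := ⟨_, rfl⟩
  rw [← hX] at t1 t2 t3 t5 t6 ⊢
  have hX0 : 0 < X := by rw [hX]; positivity
  have hX1 : X < 1 := by rw [hX]; linarith
  obtain ⟨z, hz⟩ : ∃ z : ℝ → ℝ, z = fun t : ℝ => ‖riemannZeta (1 / 2 + δ T + (t : ℂ) * Complex.I)‖ := ⟨_, rfl⟩
  have hz0 : ∀ t, 0 ≤ z t := fun t => by rw [hz]; exact norm_nonneg _
  have hzc : Continuous z := by
    have := zc_cont t7 one_pos
    simp only [Real.rpow_one] at this
    rw [hz]
    exact this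
  have hzpc : ∀ p : ℝ, 0 < p → Continuous fun t => z t ^ p := fun p hp => hzc.rpow_const fun _ => Or.inr hp.le
  have ez : ∀ t : ℝ, ‖riemannZeta (1 / 2 + δ T + (t : ℂ) * Complex.I)‖ = z t := fun t => by rw [hz]
  simp_rw [ez] at t1 t2 t3 ⊢
  obtain ⟨G, hG⟩ : ∃ G : Set ℝ, G = {t | X ^ (-(k - η)) ≤ z t ∧ z t ≤ X ^ (-(k + η))} := ⟨_, rfl⟩
  have hGm : MeasurableSet G := by
    rw [hG]
    exact ((isClosed_le continuous_const hzc).inter (isClosed_le hzc continuous_const)).measurableSet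
  have hDm := (hD T).1
  have hDU : MeasurableSet (D T ∩ U') := hDm.inter hU'
  have hDi : ∀ p : ℝ, 0 < p → IntegrableOn (fun t => z t ^ p) (D T) := fun p hp =>
    ((hzpc p hp).continuousOn.integrableOn_compact isCompact_Icc).mono_set (hD T).2
  have hfin : volume (D T ∩ U') ≠ ⊤ := by
    have : volume (D T ∩ U') ≤ volume (Icc 0 T) := measure_mono (inter_subset_left.trans (hD T).2)
    exact ne_top_of_le_ne_top (by simp [Real.volume_Icc]) this
  have hkη : 0 < 2 * (k - η) := by linarith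
  have hkη2 : 0 < 2 * (k + η) := by linarith
  obtain ⟨Y, hY⟩ : ∃ Y, Y = X ^ (-(2 * k * (k + η))) := ⟨_, rfl⟩
  obtain ⟨a, ha⟩ : ∃ a, a = X ^ (-(2 * η * (k - η))) := ⟨_, rfl⟩
  obtain ⟨b, hb⟩ : ∃ b, b = X ^ (2 * η * (k + η)) := ⟨_, rfl⟩
  have hY0 : 0 < Y := by rw [hY]; positivity
  have ha0 : 0 < a := by rw [ha]; positivity
  have hb0 : 0 < b := by rw [hb]; positivity
  -- pointwise
  have hpt : ∀ t, z t ^ (2 * k) ≤ G.indicator (fun _ => Y) t + (a * z t ^ (2 * (k - η)) + b * z t ^ (2 * (k + η))) := by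
    intro t
    have g1 : 0 ≤ a * z t ^ (2 * (k - η)) := mul_nonneg ha0.le (Real.rpow_nonneg (hz0 t) _)
    have g2 : 0 ≤ b * z t ^ (2 * (k + η)) := mul_nonneg hb0.le (Real.rpow_nonneg (hz0 t) _)
    have g3 : 0 ≤ G.indicator (fun _ => Y) t := indicator_nonneg (fun _ _ => hY0.le) _
    by_cases c1 : z t < X ^ (-(k - η))
    · have : z t ^ (2 * k) ≤ a * z t ^ (2 * (k - η)) := by
        have e : 2 * k = 2 * η + 2 * (k - η) := by ring
        rw [e, Real.rpow_add_of_nonneg (hz0 t) (by positivity) hkη.le]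
        refine mul_le_mul_of_nonneg_right ?_ (Real.rpow_nonneg (hz0 t) _)
        have := Real.rpow_le_rpow (hz0 t) c1.le (show 0 ≤ 2 * η by positivity)
        rw [← Real.rpow_mul hX0.le] at this
        rw [ha]
        refine this.trans (le_of_eq ?_)
        congr 1
        ring
      linarith
    · push Not at c1
      by_cases c2 : z t ≤ X ^ (-(k + η))
      · have hm : t ∈ G := by rw [hG]; exact ⟨c1, c2⟩
        rw [indicator_of_mem hm]
        have : z t ^ (2 * k) ≤ Y := by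
          have := Real.rpow_le_rpow (hz0 t) c2 (show 0 ≤ 2 * k by positivity)
          rw [← Real.rpow_mul hX0.le] at this
          rw [hY]
          refine this.trans (le_of_eq ?_)
          congr 1
          ring
        linarith
      · push Not at c2
        have hzp : 0 < z t := lt_trans (by positivity) c2
        have : z t ^ (2 * k) ≤ b * z t ^ (2 * (k + η)) := by
          have e : 2 * k = -(2 * η) + 2 * (k + η) := by ring
          rw [e, Real.rpow_add hzp]
          refine mul_le_mul_of_nonneg_right ?_ (Real.rpow_nonneg (hz0 t) _)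
          have := Real.rpow_le_rpow_of_nonpos (show 0 < X ^ (-(k + η)) by positivity) c2.le (show -(2 * η) ≤ 0 by linarith)
          rw [← Real.rpow_mul hX0.le] at this
          rw [hb]
          refine this.trans (le_of_eq ?_)
          congr 1
          ring
        linarith
  -- integrate
  have i1 : IntegrableOn (G.indicator fun _ => Y) (D T ∩ U') := (integrableOn_const hfin).indicator hGm
  have i2 : IntegrableOn (fun t => a * z t ^ (2 * (k - η))) (D T ∩ U') := ((hDi _ hkη).mono_set inter_subset_left).const_mul _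
  have i3 : IntegrableOn (fun t => b * z t ^ (2 * (k + η))) (D T ∩ U') := ((hDi _ hkη2).mono_set inter_subset_left).const_mul _
  have h4 : ∫ t in D T ∩ U', z t ^ (2 * k) ≤ Y * volume.real (D T ∩ U' ∩ G) +
      (a * ∫ t in D T, z t ^ (2 * (k - η))) + b * ∫ t in D T, z t ^ (2 * (k + η)) := by
    have h5 : ∫ t in D T ∩ U', z t ^ (2 * k) ≤ ∫ t in D T ∩ U', (G.indicator (fun _ => Y) t +
        (a * z t ^ (2 * (k - η)) + b * z t ^ (2 * (k + η)))) :=
      integral_mono ((hDi _ (by positivity)).mono_set inter_subset_left) (i1.add (i2.add i3)) hpt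
    have h6 : ∫ t in D T ∩ U', (G.indicator (fun _ => Y) t + (a * z t ^ (2 * (k - η)) + b * z t ^ (2 * (k + η)))) =
        (∫ t in D T ∩ U', G.indicator (fun _ => Y) t) + ((∫ t in D T ∩ U', a * z t ^ (2 * (k - η))) +
          ∫ t in D T ∩ U', b * z t ^ (2 * (k + η))) := by
      rw [← integral_add i2 i3]
      exact integral_add i1 (i2.add i3)
    have h7 : (∫ t in D T ∩ U', G.indicator (fun _ => Y) t) = Y * volume.real (D T ∩ U' ∩ G) := by
      rw [setIntegral_indicator hGm, setIntegral_const, smul_eq_mul, mul_comm]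
    have h8 : (∫ t in D T ∩ U', a * z t ^ (2 * (k - η))) ≤ a * ∫ t in D T, z t ^ (2 * (k - η)) := by
      rw [integral_const_mul]
      refine mul_le_mul_of_nonneg_left ?_ ha0.le
      exact setIntegral_mono_set (hDi _ hkη) (Eventually.of_forall fun t => Real.rpow_nonneg (hz0 t) _)
        (Eventually.of_forall fun t (ht : t ∈ D T ∩ U') => ht.1)
    have h9 : (∫ t in D T ∩ U', b * z t ^ (2 * (k + η))) ≤ b * ∫ t in D T, z t ^ (2 * (k + η)) := by
      rw [integral_const_mul]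
      refine mul_le_mul_of_nonneg_left ?_ hb0.le
      exact setIntegral_mono_set (hDi _ hkη2) (Eventually.of_forall fun t => Real.rpow_nonneg (hz0 t) _)
        (Eventually.of_forall fun t (ht : t ∈ D T ∩ U') => ht.1)
    rw [h6, h7] at h5
    linarith
  obtain ⟨m, hm⟩ : ∃ m, m = volume.real (D T ∩ U' ∩ G) := ⟨_, rfl⟩
  rw [← hm] at h4
  have hcX : 0 < X ^ (k ^ 2) / T := by positivity
  have h5 := t1.trans (mul_le_mul_of_nonneg_left h4 hcX.le)
  -- the two small terms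
  generalize (∫ t in D T, z t ^ (2 * (k - η))) = I1 at t2 h5
  generalize (∫ t in D T, z t ^ (2 * (k + η))) = I2 at t3 h5
  have h6 : X ^ (k ^ 2) / T * (a * I1) = X ^ (η ^ 2) * (X ^ ((k - η) ^ 2) / T * I1) := by
    have : X ^ (k ^ 2) * a = X ^ (η ^ 2) * X ^ ((k - η) ^ 2) := by
      rw [ha, ← Real.rpow_add hX0, ← Real.rpow_add hX0]
      congr 1
      ring
    calc X ^ (k ^ 2) / T * (a * I1) = (X ^ (k ^ 2) * a) / T * I1 := by ring
      _ = _ := by rw [this]; ring
  have h7 : X ^ (k ^ 2) / T * (b * I2) = X ^ (η ^ 2) * (X ^ ((k + η) ^ 2) / T * I2) := by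
    have : X ^ (k ^ 2) * b = X ^ (η ^ 2) * X ^ ((k + η) ^ 2) := by
      rw [hb, ← Real.rpow_add hX0, ← Real.rpow_add hX0]
      congr 1
      ring
    calc X ^ (k ^ 2) / T * (b * I2) = (X ^ (k ^ 2) * b) / T * I2 := by ring
      _ = _ := by rw [this]; ring
  have h8 : X ^ (k ^ 2) / T * (Y * m) = X ^ (-(k ^ 2 + 2 * k * η)) * (m / T) := by
    have : X ^ (k ^ 2) * Y = X ^ (-(k ^ 2 + 2 * k * η)) := by
      rw [hY, ← Real.rpow_add hX0]
      congr 1
      ring
    calc X ^ (k ^ 2) / T * (Y * m) = (X ^ (k ^ 2) * Y) * (m / T) := by ring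
      _ = _ := by rw [this]
  rw [mul_add, mul_add, h6, h7, h8] at h5
  have hXη : 0 < X ^ (η ^ 2) := by positivity
  have h9 := mul_le_mul_of_nonneg_left t2 hXη.le
  have h10 := mul_le_mul_of_nonneg_left t3 hXη.le
  have h11 : κ0 / 2 ≤ X ^ (-(k ^ 2 + 2 * k * η)) * (m / T) := by linarith
  -- the measure
  have h12 : X ^ (k ^ 2 + 3 * k * η) * X ^ (-(k ^ 2 + 2 * k * η)) = X ^ (k * η) := by
    rw [← Real.rpow_add hX0]
    congr 1
    ring
  have hmT : T * X ^ (k ^ 2 + 3 * k * η) ≤ m := by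
    have hA : 0 < X ^ (-(k ^ 2 + 2 * k * η)) := by positivity
    have h13 : X ^ (k ^ 2 + 3 * k * η) * X ^ (-(k ^ 2 + 2 * k * η)) ≤ (m / T) * X ^ (-(k ^ 2 + 2 * k * η)) := by
      rw [h12]
      linarith
    have h14 := le_of_mul_le_mul_right h13 hA
    rw [le_div_iff₀ t8] at h14
    linarith
  refine hmT.trans ?_
  rw [hm]
  refine measureReal_mono ?_ ?_
  · intro t ht
    have h15 := ht.2
    rw [hG] at h15
    exact ⟨⟨(hD T).2 ht.1.1, ht.1.2⟩, h15.1⟩
  · have : volume (Icc 0 T ∩ U' ∩ {t : ℝ | X ^ (-(k - η)) ≤ z t}) ≤ volume (Icc 0 T) :=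
      measure_mono (inter_subset_left.trans inter_subset_left)
    exact ne_top_of_le_ne_top (by simp [Real.volume_Icc]) this

end Pool.Agent.X107.MU
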