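import Pool.Agent.X107.MU.MU22
import Pool.Agent.Y745.UP.All
import Pool.Agent.Y568.UP.STRIP

/-! # From large values near the line to large values on the line -/

set_option autoImplicit false

namespace Pool.Agent.X107.MU

open Filter Topology MeasureTheory Set

lemma Pk_local {d r : ℝ} (hd : 0 < d) {F : ℝ → ℝ} (hF : Continuous F) (hF0 : ∀ v, 0 ≤ F v) {A : Set ℝ}
    (hA : MeasurableSet A) {W : ℝ} (hW : 0 ≤ W) (hAW : ∀ v ∉ A, F v ≤ W) (t : ℝ) :
    ∫ u in Icc (-r) r, Pk d u * F (t + u) ≤ (∫ u in Icc (-r) r, Pk d u * A.indicator F (t + u)) + W * Real.pi := by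
  have hFt : Continuous fun u : ℝ => F (t + u) := hF.comp (by fun_prop)
  have i0 : IntegrableOn (fun u => Pk d u * F (t + u)) (Icc (-r) r) :=
    ((Pk_cont hd).mul hFt).continuousOn.integrableOn_compact isCompact_Icc
  have hmeas : Measurable fun u : ℝ => A.indicator F (t + u) :=
    (hF.measurable.indicator hA).comp (by fun_prop : Measurable fun u : ℝ => t + u)
  have i1 : IntegrableOn (fun u => Pk d u * A.indicator F (t + u)) (Icc (-r) r) := by
    refine Integrable.mono i0 (((Pk_cont hd).measurable.mul hmeas).aestronglyMeasurable) (Eventually.of_forall fun u => ?_)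
    rw [Real.norm_of_nonneg (mul_nonneg (Pk_nonneg hd u) (indicator_nonneg (fun x _ => hF0 x) _)),
      Real.norm_of_nonneg (mul_nonneg (Pk_nonneg hd u) (hF0 _))]
    exact mul_le_mul_of_nonneg_left (indicator_le_self' (fun _ _ => hF0 _) _) (Pk_nonneg hd u)
  have i2 : IntegrableOn (fun u => W * Pk d u) (Icc (-r) r) := ((Pk_integrable hd).const_mul W).integrableOn
  have h1 : ∫ u in Icc (-r) r, Pk d u * F (t + u) ≤ ∫ u in Icc (-r) r, (Pk d u * A.indicator F (t + u) + W * Pk d u) := by
    refine integral_mono i0 (i1.add i2) fun u => ?_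
    show Pk d u * F (t + u) ≤ Pk d u * A.indicator F (t + u) + W * Pk d u
    have hk := Pk_nonneg hd u
    by_cases hu : t + u ∈ A
    · rw [indicator_of_mem hu]
      have : 0 ≤ W * Pk d u := by positivity
      linarith
    · rw [indicator_of_notMem hu]
      have := mul_le_mul_of_nonneg_left (hAW _ hu) hk
      linarith
  have h2 : ∫ u in Icc (-r) r, W * Pk d u ≤ W * Real.pi := by
    rw [integral_const_mul, ← Pk_integral hd]
    refine mul_le_mul_of_nonneg_left ?_ hW
    exact setIntegral_le_integral (Pk_integrable hd) (Eventually.of_forall fun u => Pk_nonneg hd u)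
  have h3 : ∫ u in Icc (-r) r, (Pk d u * A.indicator F (t + u) + W * Pk d u) =
      (∫ u in Icc (-r) r, Pk d u * A.indicator F (t + u)) + ∫ u in Icc (-r) r, W * Pk d u := integral_add i1 i2
  rw [h3] at h1
  linarith

/-- the swap, for functions cut off -/
lemma swap_cut {d r : ℝ} (hd : 0 < d) {F : ℝ → ℝ} (hF : Continuous F) (hF0 : ∀ v, 0 ≤ F v) {A : Set ℝ}
    (hA : MeasurableSet A) {G V : Set ℝ} {a b : ℝ} (hG : MeasurableSet G) (hGs : G ⊆ Icc a b) (hV : MeasurableSet V)
    (hVi : IntegrableOn F V) (hGV : ∀ t ∈ G, ∀ u ∈ Icc (-r) r, t + u ∈ V) :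
    IntegrableOn (fun t => ∫ u in Icc (-r) r, Pk d u * A.indicator F (t + u)) G ∧
    ∫ t in G, ∫ u in Icc (-r) r, Pk d u * A.indicator F (t + u) ≤ Real.pi * ∫ v in V ∩ A, F v := by
  have hf2 : Continuous (fun q : ℝ × ℝ => Pk d q.2 * F (q.1 + q.2)) :=
    ((Pk_cont hd).comp continuous_snd).mul (hF.comp (continuous_fst.add continuous_snd))
  have hI := hF.measurable.indicator hA
  have hprod : Integrable (Function.uncurry fun t u => Pk d u * A.indicator F (t + u))
      ((volume.restrict G).prod (volume.restrict (Icc (-r) r))) := by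
    rw [Measure.prod_restrict]
    have h1 : IntegrableOn (fun q : ℝ × ℝ => Pk d q.2 * F (q.1 + q.2)) (Icc a b ×ˢ Icc (-r) r) (volume.prod volume) :=
      hf2.continuousOn.integrableOn_compact (isCompact_Icc.prod isCompact_Icc)
    have h2 := h1.mono_set (prod_mono hGs (subset_refl (Icc (-r) r)))
    refine Integrable.mono h2 ?_ (Eventually.of_forall fun q => ?_)
    · refine Measurable.aestronglyMeasurable ?_
      exact ((Pk_cont hd).measurable.comp measurable_snd).mul (hI.comp (measurable_fst.add measurable_snd))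
    · show ‖Pk d q.2 * A.indicator F (q.1 + q.2)‖ ≤ ‖Pk d q.2 * F (q.1 + q.2)‖
      rw [Real.norm_of_nonneg (mul_nonneg (Pk_nonneg hd _) (indicator_nonneg (fun x _ => hF0 x) _)),
        Real.norm_of_nonneg (mul_nonneg (Pk_nonneg hd _) (hF0 _))]
      exact mul_le_mul_of_nonneg_left (indicator_le_self' (fun _ _ => hF0 _) _) (Pk_nonneg hd _)
  refine ⟨hprod.integral_prod_left, ?_⟩
  have h3 : ∫ t in G, ∫ u in Icc (-r) r, Pk d u * A.indicator F (t + u) =
      ∫ u in Icc (-r) r, ∫ t in G, Pk d u * A.indicator F (t + u) := integral_integral_swap hprod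
  rw [h3]
  obtain ⟨J, hJ⟩ : ∃ J, J = ∫ v in V ∩ A, F v := ⟨_, rfl⟩
  rw [← hJ]
  have hJ0 : 0 ≤ J := by rw [hJ]; exact integral_nonneg hF0
  have h4 : ∀ u ∈ Icc (-r) r, ∫ t in G, Pk d u * A.indicator F (t + u) ≤ Pk d u * J := by
    intro u hu
    rw [integral_const_mul]
    refine mul_le_mul_of_nonneg_left ?_ (Pk_nonneg hd u)
    have h5 : ∫ t, (V ∩ A).indicator F (t + u) = J := by
      rw [integral_add_right_eq_self ((V ∩ A).indicator F) u, integral_indicator (hV.inter hA), hJ]
    rw [← h5, ← integral_indicator hG]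
    refine integral_mono_of_nonneg (Eventually.of_forall fun t => indicator_nonneg
      (fun x _ => indicator_nonneg (fun x _ => hF0 _) _) t)
      (((hVi.mono_set inter_subset_left).integrable_indicator (hV.inter hA)).comp_add_right u) (Eventually.of_forall fun t => ?_)
    show G.indicator (fun t => A.indicator F (t + u)) t ≤ (V ∩ A).indicator F (t + u)
    by_cases ht : t ∈ G
    · rw [indicator_of_mem ht]
      by_cases hA' : t + u ∈ A
      · rw [indicator_of_mem hA', indicator_of_mem (show t + u ∈ V ∩ A from ⟨hGV t ht u hu, hA'⟩)]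
      · rw [indicator_of_notMem hA']
        exact indicator_nonneg (fun x _ => hF0 _) _
    · rw [indicator_of_notMem ht]
      exact indicator_nonneg (fun x _ => hF0 _) _
  have e1 : Real.pi * J = ∫ u, Pk d u * J := by rw [integral_mul_const, Pk_integral hd]
  have i1 : Integrable fun u => Pk d u * J := (Pk_integrable hd).mul_const J
  have h6 : ∫ u in Icc (-r) r, ∫ t in G, Pk d u * A.indicator F (t + u) ≤ ∫ u in Icc (-r) r, Pk d u * J := by
    refine integral_mono_of_nonneg ?_ i1.integrableOn ?_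
    · exact Eventually.of_forall fun u => integral_nonneg fun t =>
        mul_nonneg (Pk_nonneg hd u) (indicator_nonneg (fun x _ => hF0 _) _)
    · exact (ae_restrict_iff' measurableSet_Icc).2 (Eventually.of_forall h4)
  refine h6.trans ?_
  rw [e1]
  exact setIntegral_le_integral i1 (Eventually.of_forall fun u => mul_nonneg (Pk_nonneg hd u) hJ0)

/-- sums over dyadic blocks -/
lemma dyadic_le {φ g : ℝ → ℝ} {T0 B : ℝ} (hT0 : 0 < T0) (hB : ∀ T ≤ 2 * T0, φ T ≤ B)
    (hg0 : ∀ T ≥ T0, 0 ≤ g T) (hg : ∀ T ≥ T0, 2 * g T ≤ g (2 * T)) (h : ∀ T ≥ T0, φ (2 * T) ≤ φ T + g (2 * T)) :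
    ∀ T ≥ T0, φ T ≤ B + 2 * g T := by
  have key : ∀ n : ℕ, ∀ T, T0 ≤ T → T ≤ 2 ^ (n + 1) * T0 → φ T ≤ B + 2 * g T := by
    intro n
    induction n with
    | zero =>
      intro T h1 h2
      have := hB T (by simpa using h2)
      have := hg0 T h1
      linarith
    | succ n ih =>
      intro T h1 h2
      by_cases h3 : T ≤ 2 * T0
      · have := hB T h3
        have := hg0 T h1
        linarith
      · push Not at h3
        have h4 : T0 ≤ T / 2 := by linarith
        have h5 := ih (T / 2) h4 (by rw [pow_succ] at h2; linarith)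
        have h6 := h (T / 2) h4
        have h7 := hg (T / 2) h4
        rw [show 2 * (T / 2) = T by ring] at h6 h7
        linarith
  intro T h1
  obtain ⟨n, hn⟩ := pow_unbounded_of_one_lt (T / T0) (one_lt_two (α := ℝ))
  refine key n T h1 ?_
  rw [div_lt_iff₀ hT0] at hn
  have : (2:ℝ) ^ n * T0 ≤ 2 ^ (n + 1) * T0 := by
    refine mul_le_mul_of_nonneg_right ?_ hT0.le
    exact pow_le_pow_right₀ (by norm_num) (Nat.le_succ n)
  linarith

/-- **the moments of order at most four on the critical line** -/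
theorem upper_line {k : ℝ} (hk : 0 < k) (hk2 : k ≤ 2) : ∃ C : ℝ, 0 < C ∧ ∀ᶠ T : ℝ in atTop,
    ∫ t in Icc 0 T, ‖riemannZeta (((1 / 2 : ℝ) : ℂ) + (t : ℂ) * Complex.I)‖ ^ (2 * k) ≤ C * T * Real.log T ^ (k ^ 2) := by
  obtain ⟨C, hC, h⟩ := Pool.Agent.Y568.UP.t_STRIP Pool.Agent.Y732.UP.t_SUBA Pool.Agent.Y745.UP.a_OUT
    k 1 hk hk2 one_pos
  have hC0 : 0 < C := by linarith
  obtain ⟨F, hF⟩ : ∃ F : ℝ → ℝ, F = fun t : ℝ => ‖riemannZeta (((1 / 2 : ℝ) : ℂ) + (t : ℂ) * Complex.I)‖ ^ (2 * k) := ⟨_, rfl⟩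
  have hFc : Continuous F := by rw [hF]; exact line_cont (by norm_num) (by positivity)
  have hF0 : ∀ t, 0 ≤ F t := fun t => by rw [hF]; dsimp only; positivity
  have hiF : ∀ a b : ℝ, IntegrableOn F (Icc a b) := fun a b => hFc.continuousOn.integrableOn_compact isCompact_Icc
  obtain ⟨T0, hT0⟩ := eventually_atTop.1 (h.and (eventually_ge_atTop (3 : ℝ)))
  have hT03 : 3 ≤ T0 := (hT0 T0 le_rfl).2
  obtain ⟨φ, hφ⟩ : ∃ φ : ℝ → ℝ, φ = fun T => ∫ t in Icc 0 T, F t := ⟨_, rfl⟩
  have hφm : Monotone φ := by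
    intro x y hxy
    rw [hφ]
    exact setIntegral_mono_set (hiF 0 y) (Eventually.of_forall hF0)
      (Eventually.of_forall fun t (ht : t ∈ Icc 0 x) => (⟨ht.1, ht.2.trans hxy⟩ : t ∈ Icc 0 y))
  have hmain := dyadic_le (φ := φ) (g := fun T => C * (T * Real.log T ^ (k ^ 2))) (T0 := T0) (B := φ (2 * T0))
    (by linarith) (fun T hT => hφm hT) (fun T hT => by
      have : 0 ≤ Real.log T := Real.log_nonneg (by linarith)
      have hT0' : 0 < T := by linarith
      positivity) (fun T hT => by
      have hT0' : 0 < T := by linarith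
      have h1 : 0 ≤ Real.log T := Real.log_nonneg (by linarith)
      have h2 : Real.log T ≤ Real.log (2 * T) := Real.log_le_log (by linarith) (by linarith)
      have h3 : Real.log T ^ (k ^ 2) ≤ Real.log (2 * T) ^ (k ^ 2) := Real.rpow_le_rpow h1 h2 (by positivity)
      have : 0 ≤ C * T := by positivity
      calc 2 * (C * (T * Real.log T ^ (k ^ 2))) = 2 * (C * T) * Real.log T ^ (k ^ 2) := by ring
        _ ≤ 2 * (C * T) * Real.log (2 * T) ^ (k ^ 2) := mul_le_mul_of_nonneg_left h3 (by positivity)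
        _ = _ := by ring) (fun T hT => by
      have h1 := (hT0 (2 * T) (by linarith)).1 0 (by
        rw [abs_zero]
        have : 0 ≤ Real.log (2 * T) := Real.log_nonneg (by linarith)
        positivity)
      have e1 : ∀ t : ℝ, ‖riemannZeta (((1 / 2 + 0 : ℝ) : ℂ) + t * Complex.I)‖ ^ (2 * k) = F t := by
        intro t
        rw [hF, add_zero]
      simp_rw [e1] at h1
      rw [intervalIntegral.integral_of_le (by linarith), ← integral_Icc_eq_integral_Ioc] at h1
      have h2 : φ (2 * T) ≤ φ T + ∫ t in Icc (2 * T / 2) (3 * (2 * T)), F t := by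
        rw [hφ]
        have h3 : ∫ t in Icc 0 (2 * T), F t ≤ ∫ t in (Icc 0 T ∪ Icc (2 * T / 2) (3 * (2 * T))), F t := by
          refine setIntegral_mono_set ((hiF _ _).union (hiF _ _)) (Eventually.of_forall hF0)
            (Eventually.of_forall fun t (ht : t ∈ Icc 0 (2 * T)) => ?_)
          by_cases h4 : t ≤ T
          · exact Or.inl ⟨ht.1, h4⟩
          · exact Or.inr ⟨by linarith, by linarith [ht.2]⟩
        refine h3.trans ?_
        rw [← integral_add_measure (hiF _ _) (hiF _ _)]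
        refine integral_mono_measure (Measure.restrict_union_le _ _) (Eventually.of_forall hF0) ?_
        exact integrable_add_measure.2 ⟨hiF _ _, hiF _ _⟩
      linarith)
  refine ⟨C * 3, by positivity, ?_⟩
  have hlog := Real.tendsto_log_atTop
  filter_upwards [eventually_ge_atTop T0, eventually_ge_atTop (φ (2 * T0)), hlog.eventually_ge_atTop 1] with T h1 h2 h3
  have h4 := hmain T h1
  have h5 : (1 : ℝ) ≤ Real.log T ^ (k ^ 2) := Real.one_le_rpow h3 (by positivity)
  have h6 : φ T = ∫ t in Icc 0 T, ‖riemannZeta (((1 / 2 : ℝ) : ℂ) + (t : ℂ) * Complex.I)‖ ^ (2 * k) := by rw [hφ, hF]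
  rw [← h6]
  have hT : 0 < T := by linarith
  have h7 : T ≤ C * (T * Real.log T ^ (k ^ 2)) := by
    have : T * 1 ≤ T * Real.log T ^ (k ^ 2) := mul_le_mul_of_nonneg_left h5 hT.le
    nlinarith [mul_pos hT (show (0:ℝ) < Real.log T ^ (k ^ 2) by positivity)]
  linarith

end Pool.Agent.X107.MU
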