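import Pool.Agent.X107.MU.MU23

/-! # Large values on the critical line over sets of ordinates -/

set_option autoImplicit false

namespace Pool.Agent.X107.MU

open Filter Topology MeasureTheory Set

/-- **the transfer to the critical line** -/
theorem transfer {U U' : Set ℝ} (hU' : MeasurableSet U') (hU : MeasurableSet U) {r : ℝ} (hr : 0 < r) (hr1 : r ≤ 1)
    (hshift : ∀ t ∈ U', ∀ u ∈ Icc (-r) r, t + u ∈ U) {k η n : ℝ} (hη : 0 < η) (hηk : 2 * η < k) (hn : 8 ≤ n)
    (h : ∀ᶠ T : ℝ in atTop, ∀ d : ℝ, n / Real.log T ≤ d → d ≤ 1 / n → T * (2 * d) ^ (k ^ 2 + 3 * k * η) ≤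
      volume.real (Icc 0 T ∩ U' ∩ {t : ℝ | (2 * d) ^ (-(k - η)) ≤ ‖riemannZeta (1 / 2 + d + (t : ℂ) * Complex.I)‖})) :
    ∀ᶠ T : ℝ in atTop, T * Real.log T ^ (-(k ^ 2 + 3 * k * η + 2 * η)) ≤ volume.real (Icc 0 T ∩ U ∩
      {t : ℝ | Real.log T ^ (k - 2 * η) ≤ ‖riemannZeta (((1 / 2 : ℝ) : ℂ) + (t : ℂ) * Complex.I)‖}) := by
  have hk : 0 < k := by linarith
  obtain ⟨q, hq⟩ : ∃ q, q = k ^ 2 + 3 * k * η := ⟨_, rfl⟩
  have hq0 : 0 < q := by rw [hq]; positivity
  obtain ⟨m, hm⟩ : ∃ m, m = q + 2 := ⟨_, rfl⟩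
  have hm0 : 0 < m := by rw [hm]; linarith
  obtain ⟨p, hp⟩ : ∃ p, p = min 1 (η / m) := ⟨_, rfl⟩
  have hp0 : 0 < p := by rw [hp]; positivity
  have hp1 : p ≤ 1 := by rw [hp]; exact min_le_left _ _
  have hpm : m * p ≤ η := by
    have : p ≤ η / m := by rw [hp]; exact min_le_right _ _
    rw [le_div_iff₀ hm0] at this
    linarith
  have hn0 : 0 < n := by linarith
  obtain ⟨C, hC, hloc⟩ := local_p hp0 (show 0 < 2 * n by positivity) hr hr1
  obtain ⟨C2, hC2, hup⟩ := upper_line one_pos (by norm_num : (1:ℝ) ≤ 2)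
  obtain ⟨c1, hc1⟩ : ∃ c1, c1 = (4 * n) ^ q / 4 := ⟨_, rfl⟩
  have hc10 : 0 < c1 := by rw [hc1]; positivity
  -- limits in L
  have hlog := Real.tendsto_log_atTop
  have hT1 : Tendsto (fun T : ℝ => T - 1) atTop atTop := tendsto_atTop_add_const_right _ _ tendsto_id
  have hLpow : ∀ a : ℝ, 0 < a → Tendsto (fun T : ℝ => Real.log T ^ a) atTop atTop := fun a ha =>
    (tendsto_rpow_atTop ha).comp hlog
  have hTL : Tendsto (fun T : ℝ => T * Real.log T ^ (-q)) atTop atTop := by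
    have h1 : Tendsto (fun L : ℝ => Real.exp L * L ^ (-q)) atTop atTop := by
      have := tendsto_exp_div_rpow_atTop q
      refine this.congr' ?_
      filter_upwards [eventually_gt_atTop (0:ℝ)] with L hL
      rw [Real.rpow_neg hL.le, div_eq_mul_inv]
    refine (h1.comp hlog).congr' ?_
    filter_upwards [eventually_gt_atTop (0:ℝ)] with T hT
    simp only [Function.comp]
    rw [Real.exp_log hT]
  filter_upwards [hT1.eventually h, hup, hlog.eventually_ge_atTop (2 * n * n), hlog.eventually_ge_atTop (4 * n),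
    (hLpow (η / 2) (by positivity)).eventually_ge_atTop ((4 * n) ^ (k - η)),
    (hLpow (η / 2 * p) (by positivity)).eventually_ge_atTop (16 * C),
    (hLpow ((k - 3 / 2 * η) * p) (mul_pos (by linarith) hp0)).eventually_ge_atTop (8 * C),
    hTL.eventually_ge_atTop (2 / c1), (hlog.eventually_ge_atTop (2 * C2 / c1)),
    (hLpow η hη).eventually_ge_atTop (2 / c1), eventually_ge_atTop (8 : ℝ), hlog.eventually_ge_atTop 2]
    with T t1 t2 t3 t4 t5 t6 t7 t8 t9 t10 t11 t12
  obtain ⟨L, hL⟩ : ∃ L, L = Real.log T := ⟨_, rfl⟩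
  rw [← hL] at t2 t3 t4 t5 t6 t7 t8 t9 t10 t12 ⊢
  have hL0 : 0 < L := by linarith
  have hL1 : 1 ≤ L := by linarith
  have hTpos : 0 < T := by linarith
  have hT'0 : 0 < T - 1 := by linarith
  have hTh : T / 2 ≤ T - 1 := by linarith
  have hlogT' : L / 2 ≤ Real.log (T - 1) := by
    have k1 : Real.log (T / 2) ≤ Real.log (T - 1) := Real.log_le_log (by positivity) hTh
    rw [Real.log_div hTpos.ne' (by norm_num)] at k1
    have k2 := Real.log_two_lt_d9
    rw [← hL] at k1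
    linarith
  have hlogT'' : Real.log (T - 1) ≤ L := by rw [hL]; exact Real.log_le_log hT'0 (by linarith)
  have hLp' : 0 < Real.log (T - 1) := by linarith
  obtain ⟨d, hd⟩ : ∃ d, d = 2 * n / L := ⟨_, rfl⟩
  have hd0 : 0 < d := by rw [hd]; positivity
  have hdn : d ≤ 1 / n := by
    rw [hd, div_le_div_iff₀ hL0 hn0]
    linarith
  have hn18 : 1 / n ≤ 1 / 8 := one_div_le_one_div_of_le (by norm_num) hn
  have h1 := t1 d (by
    rw [hd, div_le_div_iff₀ hLp' hL0]
    nlinarith) hdn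
  have hd2 : 2 * d = 4 * n / L := by rw [hd]; ring
  rw [← hq] at h1
  -- the large values near the line
  obtain ⟨V, hV⟩ : ∃ V, V = (2 * d) ^ (-(k - η)) := ⟨_, rfl⟩
  rw [← hV] at h1
  have hV0 : 0 < V := by rw [hV]; positivity
  have hVL : L ^ (k - 3 / 2 * η) ≤ V := by
    have e : V = L ^ (k - η) / (4 * n) ^ (k - η) := by
      rw [hV, hd2, Real.rpow_neg (by positivity), ← Real.inv_rpow (by positivity), inv_div, Real.div_rpow hL0.le (by positivity)]
    rw [e, le_div_iff₀ (by positivity)]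
    have e2 : L ^ (k - η) = L ^ (k - 3 / 2 * η) * L ^ (η / 2) := by
      rw [← Real.rpow_add hL0]
      congr 1
      ring
    rw [e2]
    exact mul_le_mul_of_nonneg_left t5 (by positivity)
  have hVp : L ^ ((k - 3 / 2 * η) * p) ≤ V ^ p := by
    have := Real.rpow_le_rpow (by positivity) hVL hp0.le
    rwa [← Real.rpow_mul hL0.le] at this
  obtain ⟨z1, hz1⟩ : ∃ z1 : ℝ → ℝ, z1 = fun t : ℝ => ‖riemannZeta (1 / 2 + d + (t : ℂ) * Complex.I)‖ := ⟨_, rfl⟩
  have hz1c : Continuous z1 := by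
    have := zc_cont (d := d) (by linarith) one_pos
    simp only [Real.rpow_one] at this
    rw [hz1]
    exact this
  obtain ⟨z, hz⟩ : ∃ z : ℝ → ℝ, z = fun t : ℝ => ‖riemannZeta (((1 / 2 : ℝ) : ℂ) + (t : ℂ) * Complex.I)‖ := ⟨_, rfl⟩
  have hz0 : ∀ t, 0 ≤ z t := fun t => by rw [hz]; exact norm_nonneg _
  have hzc : Continuous z := by
    have := line_cont (σ := 1 / 2) (by norm_num) one_pos
    simp only [Real.rpow_one] at this
    rw [hz]
    exact this
  have ez1 : ∀ t : ℝ, ‖riemannZeta (1 / 2 + d + (t : ℂ) * Complex.I)‖ = z1 t := fun t => by rw [hz1]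
  have ez : ∀ t : ℝ, ‖riemannZeta (((1 / 2 : ℝ) : ℂ) + (t : ℂ) * Complex.I)‖ = z t := fun t => by rw [hz]
  simp_rw [ez1] at h1
  simp_rw [ez] at t2 ⊢
  obtain ⟨F, hF⟩ : ∃ F : ℝ → ℝ, F = fun v => z v ^ p := ⟨_, rfl⟩
  have hFc : Continuous F := by rw [hF]; exact hzc.rpow_const fun _ => Or.inr hp0.le
  have hF0 : ∀ v, 0 ≤ F v := fun v => by rw [hF]; exact Real.rpow_nonneg (hz0 v) _
  obtain ⟨G, hG⟩ : ∃ G : Set ℝ, G = Icc 2 (T - 1) ∩ U' ∩ {t | V ≤ z1 t} := ⟨_, rfl⟩
  have hGm : MeasurableSet G := by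
    rw [hG]
    exact (measurableSet_Icc.inter hU').inter (isClosed_le continuous_const hz1c).measurableSet
  have hGs : G ⊆ Icc 2 (T - 1) := by rw [hG]; exact inter_subset_left.trans inter_subset_left
  have hGfin : volume G ≠ ⊤ := by
    have : volume G ≤ volume (Icc 2 (T - 1)) := measure_mono hGs
    exact ne_top_of_le_ne_top (by simp [Real.volume_Icc]) this
  have hGv : c1 * (T * L ^ (-q)) ≤ volume.real G := by
    have k1 : volume.real (Icc 0 (T - 1) ∩ U' ∩ {t | V ≤ z1 t}) ≤ volume.real (Icc (0:ℝ) 2 ∪ G) := by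
      refine measureReal_mono ?_ ?_
      · intro t ht
        by_cases h2 : t ≤ 2
        · exact Or.inl ⟨ht.1.1.1, h2⟩
        · refine Or.inr ?_
          rw [hG]
          exact ⟨⟨⟨by linarith, ht.1.1.2⟩, ht.1.2⟩, ht.2⟩
      · exact measure_union_ne_top (by simp [Real.volume_Icc]) hGfin
    have k2 : volume.real (Icc (0:ℝ) 2 ∪ G) ≤ 2 + volume.real G := by
      refine (measureReal_union_le _ _).trans ?_
      have : volume.real (Icc (0:ℝ) 2) = 2 := by
        rw [Measure.real, Real.volume_Icc, ENNReal.toReal_ofReal (by norm_num)]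
        norm_num
      linarith
    have k3 : (2 * d) ^ q = (4 * n) ^ q * L ^ (-q) := by
      rw [hd2, Real.div_rpow (by positivity) hL0.le, Real.rpow_neg hL0.le, div_eq_mul_inv]
    rw [k3] at h1
    have k4 : T / 2 * ((4 * n) ^ q * L ^ (-q)) ≤ (T - 1) * ((4 * n) ^ q * L ^ (-q)) :=
      mul_le_mul_of_nonneg_right hTh (by positivity)
    rw [div_le_iff₀ hc10] at t8
    have k5 : T / 2 * ((4 * n) ^ q * L ^ (-q)) = 2 * (c1 * (T * L ^ (-q))) := by rw [hc1]; ring
    linarith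
  -- the cut
  obtain ⟨W, hW⟩ : ∃ W, W = V ^ p / (16 * C) := ⟨_, rfl⟩
  have hW0 : 0 < W := by rw [hW]; positivity
  obtain ⟨A, hA⟩ : ∃ A : Set ℝ, A = {v | W < F v} := ⟨_, rfl⟩
  have hAm : MeasurableSet A := by rw [hA]; exact (isOpen_lt continuous_const hFc).measurableSet
  have hAW : ∀ v ∉ A, F v ≤ W := fun v hv => by
    rw [hA] at hv
    exact not_lt.1 hv
  obtain ⟨I1, hI1⟩ : ∃ I1 : ℝ → ℝ, I1 = fun t => ∫ u in Icc (-r) r, Pk d u * A.indicator F (t + u) := ⟨_, rfl⟩
  have hpt : ∀ t ∈ G, V ^ p / 2 ≤ C * I1 t := by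
    intro t ht
    have g1 := hGs ht
    rw [hG] at ht
    have g2 : V ≤ z1 t := ht.2
    have g3 := hloc (T - 1) (by
      have := Real.exp_one_lt_d9
      linarith) (1 / 2) d t le_rfl hd0 (by linarith) (by
      rw [hd]
      exact div_le_div_of_nonneg_left (by positivity) hLp' hlogT'') g1.1 g1.2
    have g4 : V ^ p ≤ z1 t ^ p := Real.rpow_le_rpow hV0.le g2 hp0.le
    have e1 : ‖riemannZeta (((1 / 2 + d : ℝ) : ℂ) + t * Complex.I)‖ = z1 t := by
      rw [← ez1]
      push_cast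
      rfl
    have e2 : ∀ u : ℝ, ‖riemannZeta (((1 / 2 : ℝ) : ℂ) + ((t + u : ℝ) : ℂ) * Complex.I)‖ ^ p = F (t + u) := by
      intro u
      rw [hF, ez]
    rw [e1] at g3
    simp_rw [e2] at g3
    have g5 := Pk_local (r := r) hd0 hFc hF0 hAm hW0.le hAW t
    have g6 : I1 t = ∫ u in Icc (-r) r, Pk d u * A.indicator F (t + u) := by rw [hI1]
    rw [← g6] at g5
    have hpi : W * Real.pi ≤ W * 4 := mul_le_mul_of_nonneg_left Real.pi_le_four hW0.le
    have g7 : C * (1 + ∫ u in Icc (-r) r, Pk d u * F (t + u)) ≤ C * (1 + (I1 t + W * 4)) :=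
      mul_le_mul_of_nonneg_left (by linarith) hC.le
    have g8 : C * (W * 4) = V ^ p / 4 := by rw [hW]; field_simp; ring
    have g9 : 8 * C ≤ V ^ p := t7.trans hVp
    nlinarith
  -- integrate
  have hVi : IntegrableOn F (Icc 0 T ∩ U) :=
    (hFc.continuousOn.integrableOn_compact (isCompact_Icc (a := (0:ℝ)) (b := T))).mono_set inter_subset_left
  obtain ⟨hI1i, hsw⟩ := swap_cut (r := r) hd0 hFc hF0 hAm hGm hGs (measurableSet_Icc.inter hU) hVi (fun t ht u hu => by
    have g1 := hGs ht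
    rw [hG] at ht
    exact ⟨⟨by linarith [g1.1, hu.1], by linarith [g1.2, hu.2]⟩, hshift t ht.1.2 u hu⟩)
  have hI1e : ∫ t in G, I1 t ≤ Real.pi * ∫ v in (Icc 0 T ∩ U) ∩ A, F v := by rw [hI1]; exact hsw
  have hI1i' : IntegrableOn I1 G := by rw [hI1]; exact hI1i
  have h2 : V ^ p / 2 * volume.real G ≤ C * ∫ t in G, I1 t := by
    have g1 : ∫ _t in G, V ^ p / 2 ≤ ∫ t in G, C * I1 t :=
      setIntegral_mono_on (integrableOn_const hGfin) (hI1i'.const_mul C) hGm hpt
    rw [setIntegral_const, smul_eq_mul, integral_const_mul] at g1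
    linarith
  obtain ⟨B, hB⟩ : ∃ B : Set ℝ, B = (Icc 0 T ∩ U) ∩ A := ⟨_, rfl⟩
  rw [← hB] at hI1e
  have hBm : MeasurableSet B := by rw [hB]; exact (measurableSet_Icc.inter hU).inter hAm
  have hBs : B ⊆ Icc 0 T := by rw [hB]; exact inter_subset_left.trans inter_subset_left
  have hBfin : volume B ≠ ⊤ := by
    have : volume B ≤ volume (Icc 0 T) := measure_mono hBs
    exact ne_top_of_le_ne_top (by simp [Real.volume_Icc]) this
  obtain ⟨J, hJ⟩ : ∃ J, J = ∫ v in B, F v := ⟨_, rfl⟩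
  rw [← hJ] at hI1e
  have hJ0 : 0 ≤ J := by rw [hJ]; exact integral_nonneg hF0
  have h3 : volume.real G ≤ J := by
    have g1 : C * ∫ t in G, I1 t ≤ C * (4 * J) := by
      refine mul_le_mul_of_nonneg_left (hI1e.trans ?_) hC.le
      exact mul_le_mul_of_nonneg_right Real.pi_le_four hJ0
    have g2 : 8 * C ≤ V ^ p := t7.trans hVp
    have g3 : 4 * C * volume.real G ≤ V ^ p / 2 * volume.real G :=
      mul_le_mul_of_nonneg_right (by linarith) measureReal_nonneg
    have g4 : 4 * C * volume.real G ≤ 4 * C * J := by linarith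
    exact le_of_mul_le_mul_left g4 (by positivity)
  -- the bound for `J`
  obtain ⟨Mx, hMx⟩ : ∃ Mx, Mx = L ^ m := ⟨_, rfl⟩
  have hMx0 : 0 < Mx := by rw [hMx]; positivity
  have hJle : J ≤ Mx ^ p * volume.real B + Mx ^ (p - 2) * (C2 * T * L) := by
    have hz2c : Continuous fun t => z t ^ (2 * (1:ℝ)) := hzc.rpow_const fun _ => Or.inr (by norm_num)
    have i1 : IntegrableOn (fun _ : ℝ => Mx ^ p) B := integrableOn_const hBfin
    have i2 : IntegrableOn (fun t => Mx ^ (p - 2) * z t ^ (2 * (1:ℝ))) B :=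
      ((hz2c.continuousOn.integrableOn_compact isCompact_Icc).mono_set hBs).const_mul _
    have g1 : J ≤ ∫ t in B, (Mx ^ p + Mx ^ (p - 2) * z t ^ (2 * (1:ℝ))) := by
      rw [hJ]
      refine integral_mono ((hFc.continuousOn.integrableOn_compact isCompact_Icc).mono_set hBs) (i1.add i2) fun t => ?_
      show F t ≤ Mx ^ p + Mx ^ (p - 2) * z t ^ (2 * (1:ℝ))
      rw [hF]
      show z t ^ p ≤ _
      by_cases c : z t ≤ Mx
      · have g2 := Real.rpow_le_rpow (hz0 t) c hp0.le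
        have g3 : 0 ≤ Mx ^ (p - 2) * z t ^ (2 * (1:ℝ)) := mul_nonneg (by positivity) (Real.rpow_nonneg (hz0 t) _)
        linarith
      · push Not at c
        have hzt : 0 < z t := hMx0.trans c
        have g2 : z t ^ (p - 2) ≤ Mx ^ (p - 2) := Real.rpow_le_rpow_of_nonpos hMx0 c.le (by linarith)
        have g3 : z t ^ p = z t ^ (p - 2) * z t ^ (2 * (1:ℝ)) := by
          rw [← Real.rpow_add hzt]
          congr 1
          ring
        rw [g3]
        have g4 := mul_le_mul_of_nonneg_right g2 (Real.rpow_nonneg (hz0 t) (2 * (1:ℝ)))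
        have g5 : 0 ≤ Mx ^ p := by positivity
        linarith
    refine g1.trans ?_
    have g2 : ∫ t in B, (Mx ^ p + Mx ^ (p - 2) * z t ^ (2 * (1:ℝ))) =
        (∫ _t in B, Mx ^ p) + ∫ t in B, Mx ^ (p - 2) * z t ^ (2 * (1:ℝ)) := integral_add i1 i2
    rw [g2, setIntegral_const, smul_eq_mul, integral_const_mul, mul_comm (volume.real B)]
    refine add_le_add le_rfl (mul_le_mul_of_nonneg_left ?_ (by positivity))
    have g3 : ∫ t in B, z t ^ (2 * (1:ℝ)) ≤ ∫ t in Icc 0 T, z t ^ (2 * (1:ℝ)) :=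
      setIntegral_mono_set (hz2c.continuousOn.integrableOn_compact isCompact_Icc)
        (Eventually.of_forall fun t => Real.rpow_nonneg (hz0 t) _) (Eventually.of_forall hBs)
    refine g3.trans (t2.trans (le_of_eq ?_))
    rw [one_pow, Real.rpow_one]
  -- absorb the second term
  have h4 : Mx ^ (p - 2) * (C2 * T * L) ≤ c1 / 2 * (T * L ^ (-q)) := by
    have g1 : Mx ^ (p - 2) ≤ L ^ (-m) := by
      rw [hMx, ← Real.rpow_mul hL0.le]
      apply Real.rpow_le_rpow_of_exponent_le hL1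
      nlinarith
    have g2 : L ^ (-m) * L = L ^ (-q) * L⁻¹ := by
      rw [← Real.rpow_neg_one L, ← Real.rpow_add hL0]
      nth_rewrite 2 [← Real.rpow_one L]
      rw [← Real.rpow_add hL0]
      congr 1
      rw [hm]
      ring
    have g3 : Mx ^ (p - 2) * (C2 * T * L) ≤ L ^ (-m) * (C2 * T * L) :=
      mul_le_mul_of_nonneg_right g1 (by positivity)
    refine g3.trans ?_
    have g4 : L ^ (-m) * (C2 * T * L) = C2 * L⁻¹ * (T * L ^ (-q)) := by
      calc L ^ (-m) * (C2 * T * L) = C2 * T * (L ^ (-m) * L) := by ring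
        _ = _ := by rw [g2]; ring
    rw [g4]
    refine mul_le_mul_of_nonneg_right ?_ (by positivity)
    rw [div_le_iff₀ hc10] at t9
    rw [← div_eq_mul_inv, div_le_iff₀ hL0]
    linarith
  have h5 : c1 / 2 * (T * L ^ (-q)) ≤ Mx ^ p * volume.real B := by linarith
  have h6 : Mx ^ p ≤ L ^ η := by
    rw [hMx, ← Real.rpow_mul hL0.le]
    exact Real.rpow_le_rpow_of_exponent_le hL1 hpm
  have h7 : c1 / 2 * (T * L ^ (-q)) ≤ L ^ η * volume.real B :=
    h5.trans (mul_le_mul_of_nonneg_right h6 measureReal_nonneg)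
  have h8 : T * L ^ (-(q + 2 * η)) ≤ volume.real B := by
    have g1 : L ^ η * (T * L ^ (-(q + 2 * η))) = (L ^ η)⁻¹ * (T * L ^ (-q)) := by
      have e : L ^ η * L ^ (-(q + 2 * η)) = (L ^ η)⁻¹ * L ^ (-q) := by
        rw [← Real.rpow_neg hL0.le, ← Real.rpow_add hL0, ← Real.rpow_add hL0]
        congr 1
        ring
      calc L ^ η * (T * L ^ (-(q + 2 * η))) = T * (L ^ η * L ^ (-(q + 2 * η))) := by ring
        _ = _ := by rw [e]; ring
    have g2 : (L ^ η)⁻¹ ≤ c1 / 2 := by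
      rw [inv_le_comm₀ (by positivity) (by positivity), inv_div]
      exact t10
    have g3 : L ^ η * (T * L ^ (-(q + 2 * η))) ≤ L ^ η * volume.real B := by
      rw [g1]
      exact (mul_le_mul_of_nonneg_right g2 (by positivity)).trans h7
    exact le_of_mul_le_mul_left g3 (by positivity)
  have e9 : k ^ 2 + 3 * k * η + 2 * η = q + 2 * η := by rw [hq]
  rw [e9]
  refine h8.trans (measureReal_mono ?_ ?_)
  · intro t ht
    rw [hB] at ht
    refine ⟨ht.1, ?_⟩
    have g1 := ht.2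
    rw [hA] at g1
    have g1' : W < F t := g1
    have g2 : (L ^ (k - 2 * η)) ^ p ≤ z t ^ p := by
      have g3 : (L ^ (k - 2 * η)) ^ p ≤ W := by
        rw [hW, le_div_iff₀ (by positivity), ← Real.rpow_mul hL0.le]
        refine le_trans ?_ hVp
        have e : (k - 3 / 2 * η) * p = (k - 2 * η) * p + η / 2 * p := by ring
        rw [e, Real.rpow_add hL0]
        exact mul_le_mul_of_nonneg_left t6 (by positivity)
      refine g3.trans (g1'.le.trans (le_of_eq ?_))
      rw [hF]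
    by_contra hcon
    have hcon' : z t < L ^ (k - 2 * η) := not_le.1 hcon
    have := Real.rpow_lt_rpow (hz0 t) hcon' hp0
    linarith
  · have : volume (Icc 0 T ∩ U ∩ {t : ℝ | L ^ (k - 2 * η) ≤ z t}) ≤ volume (Icc 0 T) :=
      measure_mono (inter_subset_left.trans inter_subset_left)
    exact ne_top_of_le_ne_top (by simp [Real.volume_Icc]) this

end Pool.Agent.X107.MU
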