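import Pool.Agent.X107.MU.MU24

/-! # Large values on the critical line and universality to the right of it -/

set_option autoImplicit false

namespace Pool.Agent.X107.MU

open Filter Topology MeasureTheory Set

/-- large values on the line over the ordinates where zeta is near an exponential -/
theorem large_exp {K : Set ℂ} (hK : IsCompact K) (hKs : ∀ z ∈ K, 1 / 2 < z.re ∧ z.re < 1)
    {P : ℂ → ℂ} (hP : Differentiable ℂ P) {ε : ℝ} (hε : 0 < ε) {k η : ℝ} (hη : 0 < η) (hηk : 2 * η < k) :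
    ∀ᶠ T : ℝ in atTop, T * Real.log T ^ (-(k ^ 2 + 3 * k * η + 2 * η)) ≤
      volume.real (Icc 0 T ∩ UT K (fun w => Complex.exp (P w)) ε ∩
        {t : ℝ | Real.log T ^ (k - 2 * η) ≤ ‖riemannZeta (((1 / 2 : ℝ) : ℂ) + (t : ℂ) * Complex.I)‖}) := by
  obtain ⟨Z0, hZ0⟩ := sys_path Pool.Agent.Y901.SHR.done Pool.Agent.Y753.SHR.star
  have hk : 0 < k := by linarith
  have hPc : Continuous fun w => Complex.exp (P w) := Complex.continuous_exp.comp hP.continuous
  obtain ⟨r, hr, hr1, K', hK', hK's, hsh⟩ := shifts hK hKs hPc (show 0 < ε / 2 by positivity)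
  obtain ⟨κ, hκ, hpos⟩ := pos_exp hk (Z0 k) hK' hK's hP (show 0 < ε / 2 by positivity)
  obtain ⟨U', hU'⟩ : ∃ U', U' = UT K' (fun w => Complex.exp (P w)) (ε / 2) := ⟨_, rfl⟩
  obtain ⟨U, hU⟩ : ∃ U, U = UT K (fun w => Complex.exp (P w)) ε := ⟨_, rfl⟩
  have hU'm : MeasurableSet U' := by rw [hU']; exact UT_meas hK's _ _
  have hUm : MeasurableSet U := by rw [hU]; exact UT_meas hKs _ _
  have hshift : ∀ t ∈ U', ∀ u ∈ Icc (-r) r, t + u ∈ U := by
    intro t ht u hu
    rw [hU]
    intro w hw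
    rw [hU'] at ht
    obtain ⟨h1, h2⟩ := hsh w hw u hu
    have h3 := ht _ h1
    have e : w + u * Complex.I + t * Complex.I = w + ((t + u : ℝ) : ℂ) * Complex.I := by push_cast; ring
    rw [e] at h3
    have e2 : riemannZeta (w + ((t + u : ℝ) : ℂ) * Complex.I) - Complex.exp (P w) =
        (riemannZeta (w + ((t + u : ℝ) : ℂ) * Complex.I) - Complex.exp (P (w + u * Complex.I))) +
          (Complex.exp (P (w + u * Complex.I)) - Complex.exp (P w)) := by ring
    rw [e2]
    refine (norm_add_le _ _).trans ?_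
    linarith
  obtain ⟨n0, hn0, hreg⟩ := unif (P := fun d T => T * (2 * d) ^ (k ^ 2 + 3 * k * η) ≤ volume.real (Icc 0 T ∩ U' ∩
      {t : ℝ | (2 * d) ^ (-(k - η)) ≤ ‖riemannZeta (1 / 2 + d + (t : ℂ) * Complex.I)‖})) (by
    intro δ hδ hδL
    obtain ⟨E, hE, hvol, hsys⟩ := hZ0 δ hδ hδL 0 le_rfl {k, k - η, k + η} (by simp) (fun r hr => by
      simp only [mem_insert_iff, mem_singleton_iff] at hr
      rcases hr with rfl | rfl | rfl <;> linarith)
    have hall : ∀ s : ℝ, s ≤ 2 ∨ 4 + 4 * (0:ℝ) ≤ 2 * s := by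
      intro s
      by_cases h : s ≤ 2
      · exact Or.inl h
      · exact Or.inr (by linarith)
    have hs1 := (hsys k (by simp)).1 (hall k)
    have hs2 := (hsys (k - η) (by simp)).1 (hall _)
    have hs3 := (hsys (k + η) (by simp)).1 (hall _)
    have m2 := (mass hs2).eventually (gt_mem_nhds (lt_add_one _))
    have m3 := (mass hs3).eventually (gt_mem_nhds (lt_add_one _))
    have hposδ : ∀ᶠ T in atTop, 0 < δ T := by
      filter_upwards [hδL.eventually_gt_atTop 0, eventually_gt_atTop 1] with T hT hT1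
      exact (pos_iff_pos_of_mul_pos hT).mpr (Real.log_pos hT1)
    refine large_path (D := fun T => Icc 0 T \ E T) hη (by linarith) hU'm hκ hδ hposδ
      (fun T => ⟨measurableSet_Icc.diff (hE T).1, sdiff_subset⟩) ?_
      (L := max (L1 (k - η) + 1) (L1 (k + η) + 1)) ?_ ?_
    · have h1 := hpos _ _ _ hs1
      rw [hU']
      exact h1
    · filter_upwards [m2] with T hT
      exact hT.le.trans (le_max_left _ _)
    · filter_upwards [m3] with T hT
      exact hT.le.trans (le_max_right _ _))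
  rw [← hU]
  have hn0' : (1 : ℝ) ≤ n0 := by exact_mod_cast hn0
  refine transfer hU'm hUm hr hr1 hshift hη hηk (n := (n0 : ℝ) + 8) (by linarith) ?_
  filter_upwards [hreg, eventually_gt_atTop (1 : ℝ)] with T h1 h2 d hd1 hd2
  have hL := Real.log_pos h2
  refine h1 d (le_trans (div_le_div_of_nonneg_right (by linarith) hL.le) hd1)
    (hd2.trans (one_div_le_one_div_of_le (by linarith) (by linarith)))

/-- **large values on the critical line over universality sets** -/
theorem large_tgt {K : Set ℂ} (hK : IsCompact K) (hKs : ∀ z ∈ K, 1 / 2 < z.re ∧ z.re < 1)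
    {f : ℂ → ℂ} (hf : Pool.Agent.Y834.UT.Tgt K f) {ε : ℝ} (hε : 0 < ε) {κ η : ℝ} (hκ : 0 ≤ κ) (hη : 0 < η) :
    ∀ᶠ T : ℝ in atTop, T * Real.log T ^ (-(κ ^ 2) - η) ≤
      volume.real (Icc 0 T ∩ {t : ℝ | ∀ z ∈ K, ‖riemannZeta (z + t * Complex.I) - f z‖ ≤ ε} ∩
        {t : ℝ | Real.log T ^ κ ≤ ‖riemannZeta (((1 / 2 : ℝ) : ℂ) + (t : ℂ) * Complex.I)‖}) := by
  obtain ⟨g, hgf, hgc, hgd, hgV⟩ := hf
  have hHc := Pool.Agent.Y834.UT.isCompact_hull hK
  have hHo := Pool.Agent.Y834.UT.isConnected_compl_hull hK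
  obtain ⟨p, hp0, hp⟩ := Pool.Agent.Y834.UT.approx_hull hK hgc hgd hgV (show 0 < ε / 4 by positivity)
  obtain ⟨q, hq⟩ := ZU.exp_approx hHc hHo p hp0 (ε / 4) (by positivity)
  -- the parameters
  obtain ⟨a, ha⟩ : ∃ a, a = min 1 (η / (11 * κ + 33)) := ⟨_, rfl⟩
  have ha0 : 0 < a := by rw [ha]; positivity
  have ha1 : a ≤ 1 := by rw [ha]; exact min_le_left _ _
  have ha2 : a * (11 * κ + 33) ≤ η := by
    have : a ≤ η / (11 * κ + 33) := by rw [ha]; exact min_le_right _ _
    rwa [le_div_iff₀ (by positivity)] at this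
  have h := large_exp (k := κ + 3 * a) hK hKs q.differentiable (show 0 < ε / 2 by positivity) ha0 (by linarith)
  filter_upwards [h, Real.tendsto_log_atTop.eventually_ge_atTop 1, eventually_gt_atTop (0:ℝ)] with T hT hL hT0
  have hL0 : 0 < Real.log T := by linarith
  have h1 : T * Real.log T ^ (-(κ ^ 2) - η) ≤ T * Real.log T ^ (-((κ + 3 * a) ^ 2 + 3 * (κ + 3 * a) * a + 2 * a)) := by
    refine mul_le_mul_of_nonneg_left (Real.rpow_le_rpow_of_exponent_le hL ?_) hT0.le
    have : a ^ 2 ≤ a := by nlinarith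
    nlinarith [mul_nonneg hκ ha0.le]
  refine h1.trans (hT.trans (measureReal_mono ?_ ?_))
  · intro t ht
    refine ⟨⟨ht.1.1, fun w hw => ?_⟩, ?_⟩
    · have h4 := ht.1.2 w hw
      have h5 := hq w (Pool.Agent.Y834.UT.subset_hull K hw)
      have h6 := hp w (Pool.Agent.Y834.UT.subset_hull K hw)
      rw [hgf w hw] at h6
      have : riemannZeta (w + t * Complex.I) - f w = (riemannZeta (w + t * Complex.I) - Complex.exp (q.eval w)) +
          ((Complex.exp (q.eval w) - p.eval w) + (p.eval w - f w)) := by ring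
      rw [this]
      refine (norm_add_le _ _).trans ?_
      have h7 := norm_add_le (Complex.exp (q.eval w) - p.eval w) (p.eval w - f w)
      linarith
    · have h2 : Real.log T ^ (κ + 3 * a - 2 * a) ≤ ‖riemannZeta (((1 / 2 : ℝ) : ℂ) + (t : ℂ) * Complex.I)‖ := ht.2
      refine le_trans (Real.rpow_le_rpow_of_exponent_le hL ?_) h2
      linarith
  · refine ne_top_of_le_ne_top ?_ (measure_mono (inter_subset_left.trans inter_subset_left) :
      _ ≤ volume (Icc 0 T))
    simp [Real.volume_Icc]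

end Pool.Agent.X107.MU
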