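import Pool.Agent.X107.MU.MU15

/-! # Bounded factors in the systems of weights -/

set_option autoImplicit false

open Filter Topology MeasureTheory

namespace Pool.Agent.X107.MU

open Pool.Agent.X110.NA
open Pool.Agent.Y834.UT (SS Tgt)
open Pool.Agent.H306R2 (aF aF_pos)

section

variable {s : ℝ} {Z0 Z0' : ℝ → ℝ → ℝ → ℝ → ℝ → ℕ} {Z : ℝ → ℝ → ℝ} {D : ℝ → Set ℝ} {c : ℝ → ℝ}

/-- a larger number of primes -/
lemma Sys.weaken (h : Sys s Z0 Z D c) {M : ℝ} (hM : 1 ≤ M) :
    Sys s (fun a b B lam ε => Z0 a b B lam (ε / M)) Z D c := by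
  refine ⟨h.c0, h.Zn, h.Zi, h.Dm, h.law, fun a b B lam ε h1 h2 h3 h4 h5 h6 z hz => ?_⟩
  have h7 : 0 < ε / M := by positivity
  filter_upwards [h.tail a b B lam (ε / M) h1 h2 h3 h4 h5 h7 z hz] with T hT
  refine hT.trans ?_
  rw [div_le_iff₀ (by linarith)]
  nlinarith

/-- the limit does not depend on the number of primes -/
theorem DL_eq (hs : 0 < s) {K : Set ℂ} (hK : IsCompact K) (hKs : ∀ z ∈ K, 1 / 2 < z.re ∧ z.re < 1) (A : Set (ℂ → ℂ))
    (h : Sys s Z0 Z D c) (h' : Sys s Z0' Z D c) {ε : ℝ} (hc : ContinuousAt (DL s Z0 K A) ε) :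
    ContinuousAt (DL s Z0' K A) ε ∧ DL s Z0' K A ε = DL s Z0 K A ε := by
  have m1 := DL_mono hs Z0 K A
  have m2 := DL_mono hs Z0' K A
  obtain ⟨C, hC⟩ : ∃ C : Set ℝ, C = ({x | ¬ ContinuousAt (DL s Z0 K A) x} ∪ {x | ¬ ContinuousAt (DL s Z0' K A) x})ᶜ := ⟨_, rfl⟩
  have hCd : Dense C := by
    rw [hC]
    exact (m1.countable_not_continuousAt.union m2.countable_not_continuousAt).dense_compl ℝ
  have heq : ∀ x ∈ C, DL s Z0 K A x = DL s Z0' K A x := by
    intro x hx
    rw [hC, Set.mem_compl_iff, Set.mem_union, not_or] at hx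
    have h1 : ContinuousAt (DL s Z0 K A) x := not_not.1 hx.1
    have h2 : ContinuousAt (DL s Z0' K A) x := not_not.1 hx.2
    exact tendsto_nhds_unique (DL_law hs Z0 A hK hKs h1 h) (DL_law hs Z0' A hK hKs h2 h')
  have ht : Tendsto (DL s Z0' K A) (𝓝 ε) (𝓝 (DL s Z0 K A ε)) := by
    rw [Metric.tendsto_nhds_nhds]
    intro η hη
    obtain ⟨r, hr, h1⟩ := Metric.continuousAt_iff.1 hc η hη
    obtain ⟨x1, hx1, h2, h3⟩ := hCd.exists_between (show ε - r < ε by linarith)
    obtain ⟨x2, hx2, h4, h5⟩ := hCd.exists_between (show ε < ε + r by linarith)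
    have k1 := h1 (show dist x1 ε < r by rw [Real.dist_eq, abs_lt]; constructor <;> linarith)
    have k2 := h1 (show dist x2 ε < r by rw [Real.dist_eq, abs_lt]; constructor <;> linarith)
    rw [Real.dist_eq, abs_lt] at k1 k2
    refine ⟨min (ε - x1) (x2 - ε), lt_min (by linarith) (by linarith), fun y hy => ?_⟩
    rw [Real.dist_eq, abs_lt] at hy
    have hy1 : x1 ≤ y := by have := min_le_left (ε - x1) (x2 - ε); linarith [hy.1]
    have hy2 : y ≤ x2 := by have := min_le_right (ε - x1) (x2 - ε); linarith [hy.2]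
    have k3 := m2 hy1
    have k4 := m2 hy2
    rw [← heq x1 hx1] at k3
    rw [← heq x2 hx2] at k4
    rw [Real.dist_eq, abs_lt]
    constructor <;> linarith [k1.1, k2.2]
  exact ⟨continuousAt_of_tendsto_nhds ht, eq_of_tendsto_nhds ht⟩

/-- the twisted means of a system -/
noncomputable def TwL (s : ℝ) (m n : ℕ) : ℝ := ((m:ℝ) * n) ^ (-(1 / 2 : ℝ)) * (aF s * ∏ p ∈ (m * n).primeFactors,
            (Lf s 0 p (m.factorization p) (n.factorization p) / Lf s 0 p 0 0))

/-- a bounded nonnegative factor with the right twisted means gives a system -/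
theorem Sys.factor (hs : 0 < s) (h : Sys s Z0 Z D c) {G : ℝ → ℝ → ℝ} {M m : ℝ} (hM : 0 ≤ M) (hm : 0 < m)
    (hG0 : ∀ T t, 0 ≤ G T t) (hGM : ∀ T t, G T t ≤ M) (hGm : ∀ᶠ T in atTop, AEStronglyMeasurable (G T) (volume.restrict (D T)))
    (htw : ∀ a b : ℕ, a ≠ 0 → b ≠ 0 → a.Coprime b → Tendsto (fun T => (c T : ℂ) * ∫ t in D T, ((Z T t * G T t : ℝ) : ℂ) *
      tws a b t) atTop (𝓝 ((m * TwL s a b : ℝ) : ℂ))) :
    Sys s (fun a b B lam ε => Z0 a b B lam (ε / (M / m + 1))) (fun T t => Z T t * G T t) D (fun T => c T / m) := by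
  have hZi : ∀ᶠ T in atTop, IntegrableOn (fun t => Z T t * G T t) (D T) := by
    filter_upwards [h.Zi, hGm] with T h1 h2
    refine h1.mul_bdd (c := M) h2 (Eventually.of_forall fun t => ?_)
    rw [Real.norm_of_nonneg (hG0 T t)]
    exact hGM T t
  have hc0 : ∀ᶠ T in atTop, 0 ≤ c T / m := h.c0.mono fun T hT => div_nonneg hT hm.le
  refine ⟨hc0, fun T t => mul_nonneg (h.Zn T t) (hG0 T t), hZi, h.Dm, ?_, ?_⟩
  · intro k p hp hinj F hF
    refine tilt_of_twist hs (aF_pos hs).le p hp hinj _ D (fun T => c T / m) hc0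
      (fun T t => mul_nonneg (h.Zn T t) (hG0 T t)) hZi ?_ F hF
    intro a b ha hb hab
    have h1 := (htw a b ha hb hab).const_mul (((m⁻¹ : ℝ) : ℂ))
    have e1 : (((m⁻¹ : ℝ) : ℂ)) * ((m * TwL s a b : ℝ) : ℂ) = ((TwL s a b : ℝ) : ℂ) := by
      rw [← Complex.ofReal_mul]
      congr 1
      field_simp
    rw [e1] at h1
    refine h1.congr fun T => ?_
    unfold tws
    rw [div_eq_mul_inv (c T) m]
    push_cast
    ring
  · intro a b B lam ε h1 h2 h3 h4 h5 h6 z hz
    have h7 : 0 < ε / (M / m + 1) := by positivity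
    filter_upwards [h.tail a b B lam _ h1 h2 h3 h4 h5 h7 z hz, h.c0, h.Zi, hZi] with T t1 t2 t3 t4
    have h8 : ∫ t in D T ∩ {t | lam ≤ JG a b B z t}, Z T t * G T t ≤
        ∫ t in D T ∩ {t | lam ≤ JG a b B z t}, M * Z T t := by
      refine integral_mono (t4.mono_set Set.inter_subset_left) ((t3.mono_set Set.inter_subset_left).const_mul _) fun t => ?_
      show Z T t * G T t ≤ M * Z T t
      rw [mul_comm]
      exact mul_le_mul_of_nonneg_right (hGM T t) (h.Zn T t)
    rw [integral_const_mul] at h8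
    have h9 := mul_le_mul_of_nonneg_left h8 (div_nonneg t2 hm.le)
    have h10 : c T / m * (M * ∫ t in D T ∩ {t | lam ≤ JG a b B z t}, Z T t) =
        (M / m) * (c T * ∫ t in D T ∩ {t | lam ≤ JG a b B z t}, Z T t) := by
      field_simp
    rw [h10] at h9
    have h11 : (M / m) * (c T * ∫ t in D T ∩ {t | lam ≤ JG a b B z t}, Z T t) ≤ (M / m) * (ε / (M / m + 1)) :=
      mul_le_mul_of_nonneg_left t1 (by positivity)
    refine h9.trans (h11.trans ?_)
    rw [mul_div_assoc', div_le_iff₀ (by positivity)]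
    nlinarith [div_nonneg hM hm.le]

/-- bounded factors and the values right of the line -/
theorem factor_law (hs : 0 < s) {K : Set ℂ} (hK : IsCompact K) (hKs : ∀ z ∈ K, 1 / 2 < z.re ∧ z.re < 1) (A : Set (ℂ → ℂ))
    (h : Sys s Z0 Z D c) {G : ℝ → ℝ → ℝ} {M m : ℝ} (hGM : ∀ T t, |G T t| ≤ M) (hm : |m| ≤ M)
    (hGm : ∀ᶠ T in atTop, AEStronglyMeasurable (G T) (volume.restrict (D T)))
    (h1 : ∀ a b : ℕ, a ≠ 0 → b ≠ 0 → a.Coprime b → Tendsto (fun T => (c T : ℂ) * ∫ t in D T, ((Z T t : ℝ) : ℂ) *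
      tws a b t) atTop (𝓝 ((TwL s a b : ℝ) : ℂ)))
    (htw : ∀ a b : ℕ, a ≠ 0 → b ≠ 0 → a.Coprime b → Tendsto (fun T => (c T : ℂ) * ∫ t in D T, ((Z T t * G T t : ℝ) : ℂ) *
      tws a b t) atTop (𝓝 ((m * TwL s a b : ℝ) : ℂ)))
    {ε : ℝ} (hc : ContinuousAt (DL s Z0 K A) ε) :
    Tendsto (fun T => c T * ∫ t in D T ∩ {t | Zt K A ε t}, Z T t * G T t) atTop (𝓝 (m * DL s Z0 K A ε)) := by
  have hM : 0 ≤ M := (abs_nonneg m).trans hm
  have hZG : ∀ᶠ T in atTop, IntegrableOn (fun t => Z T t * G T t) (D T) := by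
    filter_upwards [h.Zi, hGm] with T h2 h3
    exact h2.mul_bdd (c := M) h3 (Eventually.of_forall fun t => by rw [Real.norm_eq_abs]; exact hGM T t)
  obtain ⟨G', hG'⟩ : ∃ G' : ℝ → ℝ → ℝ, ∀ T t, G' T t = G T t + (M + 1) := ⟨_, fun _ _ => rfl⟩
  have hm' : 0 < m + (M + 1) := by
    have := (abs_le.1 hm).1
    linarith
  have hS : Sys s (fun a b B lam ε => Z0 a b B lam (ε / ((2 * M + 1) / (m + (M + 1)) + 1))) (fun T t => Z T t * G' T t) D
      (fun T => c T / (m + (M + 1))) := by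
    refine Sys.factor hs h (by linarith) hm' (fun T t => ?_) (fun T t => ?_) ?_ ?_
    · rw [hG']
      have := (abs_le.1 (hGM T t)).1
      linarith
    · rw [hG']
      have := (abs_le.1 (hGM T t)).2
      linarith
    · filter_upwards [hGm] with T hT
      have e : G' T = fun t => G T t + (M + 1) := funext (hG' T)
      rw [e]
      exact hT.add aestronglyMeasurable_const
    · intro a b ha hb hab
      have h2 := (htw a b ha hb hab).add ((h1 a b ha hb hab).const_mul (((M + 1 : ℝ) : ℂ)))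
      have e1 : ((m * TwL s a b : ℝ) : ℂ) + (((M + 1 : ℝ) : ℂ)) * ((TwL s a b : ℝ) : ℂ) =
          (((m + (M + 1)) * TwL s a b : ℝ) : ℂ) := by push_cast; ring
      rw [e1] at h2
      refine h2.congr' ?_
      filter_upwards [h.Zi, hZG] with T t1 t2
      have i1 : IntegrableOn (fun t : ℝ => (((Z T t * G T t : ℝ)) : ℂ) * tws a b t) (D T) :=
        (t2.ofReal).mul_bdd (c := 1) (tws_cont a b).aestronglyMeasurable (Eventually.of_forall fun t => (tws_norm a b t).le)
      have i2 : IntegrableOn (fun t : ℝ => ((Z T t : ℝ) : ℂ) * tws a b t) (D T) :=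
        (t1.ofReal).mul_bdd (c := 1) (tws_cont a b).aestronglyMeasurable (Eventually.of_forall fun t => (tws_norm a b t).le)
      have e2 : ∫ t in D T, ((Z T t * G' T t : ℝ) : ℂ) * tws a b t =
          (∫ t in D T, ((Z T t * G T t : ℝ) : ℂ) * tws a b t) + ((M + 1 : ℝ) : ℂ) * ∫ t in D T, ((Z T t : ℝ) : ℂ) * tws a b t := by
        rw [← integral_const_mul, ← integral_add i1 (i2.const_mul _)]
        refine integral_congr_ae (Eventually.of_forall fun t => ?_)
        show ((Z T t * G' T t : ℝ) : ℂ) * tws a b t = _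
        rw [hG']
        push_cast
        ring
      rw [e2]
      ring
  have hM' : (1 : ℝ) ≤ (2 * M + 1) / (m + (M + 1)) + 1 := by
    have : 0 ≤ (2 * M + 1) / (m + (M + 1)) := div_nonneg (by linarith) hm'.le
    linarith
  obtain ⟨hc', he⟩ := DL_eq hs hK hKs A h (h.weaken hM') hc
  have l1 := (DL_law hs _ A hK hKs hc' hS).const_mul (m + (M + 1))
  have l2 := (DL_law hs Z0 A hK hKs hc h).const_mul (M + 1)
  rw [he] at l1
  have l3 := l1.sub l2
  have e3 : (m + (M + 1)) * DL s Z0 K A ε - (M + 1) * DL s Z0 K A ε = m * DL s Z0 K A ε := by ring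
  rw [e3] at l3
  refine l3.congr' ?_
  filter_upwards [h.Zi, hZG] with T t1 t2
  have e4 : ∫ t in D T ∩ {t | Zt K A ε t}, Z T t * G' T t =
      (∫ t in D T ∩ {t | Zt K A ε t}, Z T t * G T t) + (M + 1) * ∫ t in D T ∩ {t | Zt K A ε t}, Z T t := by
    rw [← integral_const_mul, ← integral_add (t2.mono_set Set.inter_subset_left)
      ((t1.mono_set Set.inter_subset_left).const_mul _)]
    refine integral_congr_ae (Eventually.of_forall fun t => ?_)
    show Z T t * G' T t = Z T t * G T t + (M + 1) * Z T t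
    rw [hG']
    ring
  rw [e4]
  field_simp
  ring

end

end Pool.Agent.X107.MU
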