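import Pool.Agent.X107.MU.MU26
import Pool.Agent.Y753.SHR.R18

/-! # The normal law under the moment measures, for the whole interval and with twists -/

set_option autoImplicit false

open Filter Topology MeasureTheory Finset

namespace Pool.Agent.X107.MU

open Pool.Agent.Y753.NL Pool.Agent.Y753.SHR
open Pool.Agent.W184 (zn)
open Pool.Agent.Y755 (rp)
open Pool.Agent.X110.NA (Lf tws)
open Pool.Agent.H306R2 (aF aF_pos lc)

/-- the normal law on the whole interval -/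
theorem tilt_whole {δ : ℝ → ℝ} (hδ : Tendsto δ atTop (𝓝 0)) (hδL : Tendsto (fun T => δ T * Real.log T) atTop atTop)
    {k : ℝ} (hk0 : 0 < k) (hk2 : k ≤ 2) {m n : ℕ} (hm0 : m ≠ 0) (hn0 : n ≠ 0) (hmn : m.Coprime n)
    (F : BoundedContinuousFunction ℝ ℝ) :
    Tendsto (fun T => (((2 * δ T) ^ (k ^ 2) / T : ℝ) : ℂ) * ∫ t in Set.Icc 0 T, ((zn (1 / 2 + δ T) t ^ (2 * k) *
          F ((Real.log (zn (1 / 2 + δ T) t) - k * ell (δ T)) / sg (δ T)) : ℝ) : ℂ) * tw n m t) atTop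
          (𝓝 ((aF k * (Nu k n m * ∫ x, F x ∂(ProbabilityTheory.gaussianReal 0 1)) : ℝ) : ℂ)) := by
  obtain ⟨E, hE, -, hm⟩ := tilt_small hδ hδL (κ := 0) le_rfl
  have h1 := hm k hk0 (Or.inl hk2) n m hn0 hm0 hmn.symm F
  have h2 := hm k hk0 (Or.inl hk2) 1 1 one_ne_zero one_ne_zero (Nat.coprime_one_left 1) (BoundedContinuousFunction.const ℝ 1)
  have hone : Tendsto (fun T : ℝ => (2 * δ T) ^ (k ^ 2) / T * ∫ t in Set.Icc 0 T \ E T, za (δ T) 0 t ^ (2 * k)) atTop
      (𝓝 (aF k)) := by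
    have h3 := Complex.continuous_re.continuousAt.tendsto.comp h2
    have e1 : (((aF k * (Nu k 1 1 * ∫ x, (BoundedContinuousFunction.const ℝ (1:ℝ)) x
        ∂(ProbabilityTheory.gaussianReal 0 1)) : ℝ) : ℂ)).re = aF k := by
      rw [Complex.ofReal_re, Nu_one]
      simp
    rw [e1] at h3
    refine h3.congr fun T => ?_
    show ((((2 * δ T) ^ (k ^ 2) / T : ℝ) : ℂ) * ∫ t in Set.Icc 0 T \ E T, ((zn (1 / 2 + δ T) t ^ (2 * k) *
        (BoundedContinuousFunction.const ℝ (1:ℝ)) ((Real.log (zn (1 / 2 + δ T) t) - k * ell (δ T)) / sg (δ T)) : ℝ) : ℂ) * tw 1 1 t).re = _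
    rw [Complex.re_ofReal_mul]
    congr 1
    have e2 : ∀ t : ℝ, ((zn (1 / 2 + δ T) t ^ (2 * k) *
        (BoundedContinuousFunction.const ℝ (1:ℝ)) ((Real.log (zn (1 / 2 + δ T) t) - k * ell (δ T)) / sg (δ T)) : ℝ) : ℂ) * tw 1 1 t =
        ((za (δ T) 0 t ^ (2 * k) : ℝ) : ℂ) := by
      intro t
      rw [tw_one, mul_one, BoundedContinuousFunction.const_apply, mul_one, zn_za]
    simp_rw [e2]
    rw [integral_complex_ofReal, Complex.ofReal_re]
  have h4 := small_E hk0 hk2 hδ hδL (fun T => ⟨(hE T).1, (hE T).2.1⟩) 0 hone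
  have h5 := Pool.Agent.Y753.SHR.transfer (c := fun T => (2 * δ T) ^ (k ^ 2) / T)
    (f := fun T t => ((zn (1 / 2 + δ T) t ^ (2 * k) *
        F ((Real.log (zn (1 / 2 + δ T) t) - k * ell (δ T)) / sg (δ T)) : ℝ) : ℂ) * tw n m t)
    (g := fun T t => ‖F‖ * za (δ T) 0 t ^ (2 * k)) (E := E) (E' := fun _ => ∅)
    (L := ((aF k * (Nu k n m * ∫ x, F x ∂(ProbabilityTheory.gaussianReal 0 1)) : ℝ) : ℂ)) ?_
    (fun T => ⟨(hE T).1, (hE T).2.1⟩) (fun T => ⟨MeasurableSet.empty, Set.empty_subset _⟩) ?_ ?_ ?_ ?_ ?_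
  · refine h5.congr fun T => ?_
    rw [Complex.real_smul, Set.sdiff_empty]
  · filter_upwards [pos_path hδL, eventually_gt_atTop 0] with T t1 t2
    positivity
  · filter_upwards [hδ.eventually (gt_mem_nhds (show (0:ℝ) < 1 / 2 by norm_num))] with T hT
    have h6 := FY_U (δ := δ T) (α0 := k) (l := ell (δ T)) (σ := sg (δ T)) (T := T) subset_rfl (by linarith) hk0.le F
    exact (h6.ofReal (𝕜 := ℂ)).mul_bdd (c := 1) (tw_cont n m).aestronglyMeasurable (Eventually.of_forall fun t => by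
      rw [tw_norm])
  · filter_upwards [hδ.eventually (gt_mem_nhds (show (0:ℝ) < 1 / 2 by norm_num))] with T hT
    exact (((za_cont hT 0).rpow_const fun t => Or.inr (by positivity)).continuousOn.integrableOn_compact isCompact_Icc).const_mul _
  · refine Eventually.of_forall fun T t => ?_
    rw [norm_mul, tw_norm, mul_one, Complex.norm_real, norm_mul,
      Real.norm_of_nonneg (Real.rpow_nonneg (Pool.Agent.W184.zn_nonneg _ _) _), zn_za, mul_comm]
    exact mul_le_mul_of_nonneg_right (F.norm_coe_le_norm _) (Real.rpow_nonneg (za_nonneg _ _ _) _)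
  · refine h1.congr fun T => ?_
    rw [Complex.real_smul]
  · have h6 := h4.const_mul ‖F‖
    rw [mul_zero] at h6
    refine h6.congr fun T => ?_
    rw [Set.sdiff_empty, integral_const_mul]
    ring

lemma nu_Lf {s : ℝ} {p a b : ℕ} (hp : p.Prime) (hab : a = 0 ∨ b = 0) :
    nu s p (a + b) = (((p:ℝ) ^ (a + b)) ^ (-(1 / 2 : ℝ))) * (Lf s 0 p a b / Lf s 0 p 0 0) := by
  have hp0 : (0:ℝ) < p := by exact_mod_cast hp.pos
  have hrp : rp 0 p ^ 2 = 1 / (p:ℝ) := by
    unfold rp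
    have h : -(1 / 2 : ℝ) * ((2:ℕ):ℝ) = -1 := by norm_num
    rw [add_zero, ← Real.rpow_natCast, ← Real.rpow_mul hp0.le, h, Real.rpow_neg_one, one_div]
  have h0 : Lf s 0 p 0 0 = ∑' i : ℕ, lc s i ^ 2 * (1 / (p:ℝ)) ^ i := by
    unfold Lf
    rw [hrp]
    refine tsum_congr fun i => ?_
    rw [zero_add, sq]
  have h1 : Lf s 0 p a b = ∑' i : ℕ, lc s i * lc s (i + (a + b)) * (1 / (p:ℝ)) ^ i := by
    unfold Lf
    rw [hrp]
    refine tsum_congr fun i => ?_
    rcases hab with h | h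
    · subst h
      rw [zero_add, zero_add, add_comm b i]
    · subst h
      rw [zero_add, add_zero, add_comm a i, mul_comm (lc s (i + a))]
  have h2 : ∑' i : ℕ, lc s i * lc s (i + (a + b)) * (1 / (p:ℝ)) ^ (i + (a + b)) =
      (1 / (p:ℝ)) ^ (a + b) * ∑' i : ℕ, lc s i * lc s (i + (a + b)) * (1 / (p:ℝ)) ^ i := by
    rw [← tsum_mul_left]
    refine tsum_congr fun i => ?_
    rw [pow_add]
    ring
  unfold nu
  rw [h0, h1, h2]
  have h3 : Real.sqrt p ^ (a + b) * (1 / (p:ℝ)) ^ (a + b) = ((p:ℝ) ^ (a + b)) ^ (-(1 / 2 : ℝ)) := by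
    rw [← mul_pow, ← Real.rpow_natCast (p:ℝ) (a + b), ← Real.rpow_mul hp0.le, mul_comm ((a + b : ℕ) : ℝ),
      Real.rpow_mul hp0.le, Real.rpow_natCast]
    congr 1
    rw [Real.rpow_neg hp0.le, Real.sqrt_eq_rpow]
    have h4 : (p:ℝ) = (p:ℝ) ^ (1 / 2 : ℝ) * (p:ℝ) ^ (1 / 2 : ℝ) := by
      rw [← Real.rpow_add hp0]
      norm_num
    have h5 : 0 < (p:ℝ) ^ (1 / 2 : ℝ) := Real.rpow_pos_of_pos hp0 _
    nth_rewrite 2 [h4]
    field_simp
  rw [← h3]
  ring

/-- the two forms of the twisted means -/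
lemma Nu_TwL {s : ℝ} {m n : ℕ} (hm : m ≠ 0) (hn : n ≠ 0) (hmn : m.Coprime n) : aF s * Nu s n m = TwL s m n := by
  have e1 : ((m:ℝ) * n) ^ (-(1 / 2 : ℝ)) = ∏ p ∈ (m * n).primeFactors, ((p:ℝ) ^ ((m * n).factorization p)) ^ (-(1 / 2 : ℝ)) := by
    rw [Real.finsetProd_rpow _ _ fun p _ => by positivity]
    congr 1
    have h := Nat.prod_factorization_pow_eq_self (mul_ne_zero hm hn)
    have h2 : ((m * n : ℕ) : ℝ) = ∏ p ∈ (m * n).primeFactors, (p:ℝ) ^ ((m * n).factorization p) := by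
      conv_lhs => rw [← h]
      rw [Finsupp.prod, Nat.support_factorization]
      push_cast
      rfl
    rw [← h2]
    push_cast
    rfl
  unfold TwL Nu
  rw [e1, mul_comm n m, mul_left_comm, ← prod_mul_distrib]
  congr 1
  refine prod_congr rfl fun p hp => ?_
  have hp' := Nat.prime_of_mem_primeFactors hp
  have h3 : (m * n).factorization p = m.factorization p + n.factorization p := by
    rw [Nat.factorization_mul hm hn]
    rfl
  rw [h3]
  refine nu_Lf hp' ?_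
  by_cases h : p ∣ m
  · right
    refine Nat.factorization_eq_zero_of_not_dvd fun h2 => ?_
    have := Nat.dvd_gcd h h2
    rw [hmn.gcd_eq_one] at this
    exact hp'.one_lt.ne' (Nat.dvd_one.1 this)
  · left
    exact Nat.factorization_eq_zero_of_not_dvd h

lemma tw_tws {m n : ℕ} (hm : m ≠ 0) (hn : n ≠ 0) (t : ℝ) : tw n m t = tws m n t := by
  unfold tw tws
  have hm' : (m:ℝ) ≠ 0 := by exact_mod_cast hm
  have hn' : (n:ℝ) ≠ 0 := by exact_mod_cast hn
  rw [Real.log_div hm' hn']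
  congr 1
  push_cast
  ring

end Pool.Agent.X107.MU
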