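import Pool.Agent.X107.MU.MU28
import Pool.Agent.X110.NB9

/-! # Twisted mixed moments from the approximation by Dirichlet polynomials -/

set_option autoImplicit false

open Finset Filter MeasureTheory Topology

namespace Pool.Agent.X107.MU

open Pool.Agent.X110.NA
open Pool.Agent.Y755 (DD DD_ge_one DD_asym)
open Pool.Agent.Y753.SH (S_DIAGR S_STARR L0)
open Pool.Agent.Y753.SHR
open Pool.Agent.Y753.NL
open Pool.Agent.Y901.SHR (Hy Fr Ef dk_mult dk_norm)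
open Pool.Agent.H306R2 (dv dv_nonneg dv_one aF aF_pos)

/-- **twisted mixed moments** -/
theorem ap_mixed {δ : ℝ → ℝ} (hδ : Tendsto δ atTop (𝓝 0)) (hδL : Tendsto (fun T : ℝ => δ T * Real.log T) atTop atTop)
    {c : ℝ} {S R : Set ℝ} (hR0 : ∀ r ∈ R, 0 < r) {E : ℝ → Set ℝ} {w : ℝ → ℝ → ℂ} (hAP : AP δ c S R E w) :
      ∀ (s : ℝ), 0 < s → ∀ D : ℝ → Set ℝ,
        (((s ≤ 2 ∨ 4 + 4 * c ≤ 2 * s) ∧ ∀ T, D T = Set.Icc 0 T \ E T) ∨ (s ≤ 2 ∧ ∀ T, D T = Set.Icc 0 T)) →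
        ∀ (k l : ℕ) (κ a : Fin k → ℝ) (ρ b : Fin l → ℝ), (∀ j, κ j ∈ R) → (∀ j, ρ j ∈ R) → (∀ j, a j ∈ S) → (∀ j, b j ∈ S) →
          ∑ j, κ j = s → ∑ j, ρ j = s →
          (∃ B : ℝ, ∀ᶠ T in atTop, IntegrableOn (fun t => zr (w T) (δ T) κ a t * (starRingEnd ℂ) (zr (w T) (δ T) ρ b t)) (D T) ∧
            (2 * δ T) ^ (s ^ 2) / T * ∫ t in D T, ‖zr (w T) (δ T) κ a t * (starRingEnd ℂ) (zr (w T) (δ T) ρ b t)‖ ≤ B) ∧
          ∀ m n : ℕ, m ≠ 0 → n ≠ 0 → m.Coprime n →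
          Tendsto (fun T : ℝ => (((2 * δ T) ^ (s ^ 2) / T : ℝ) : ℂ) * ∫ t in D T,
            (zr (w T) (δ T) κ a t * (starRingEnd ℂ) (zr (w T) (δ T) ρ b t)) * tws m n t) atTop
            (𝓝 (((((m:ℝ) * n) ^ (-(1 / 2 : ℝ)) : ℝ) : ℂ) * ((aF s : ℂ) * Mx κ a ρ b * ((Tf s m n : ℝ) : ℂ)))) := by
  obtain ⟨hE, hw, hm⟩ := hAP
  have hpos := pos_path hδL
  have hlt : ∀ᶠ T in atTop, δ T < 1 / 2 := hδ.eventually (gt_mem_nhds (by norm_num))
  intro s hs0 D hD k l κ a ρ b hκ hρ ha hb hκs hρs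
  have hk : 1 ≤ k := by
    rcases Nat.eq_zero_or_pos k with h | h
    · subst h; rw [univ_eq_empty, sum_empty] at hκs; linarith
    · exact h
  have hl : 1 ≤ l := by
    rcases Nat.eq_zero_or_pos l with h | h
    · subst h; rw [univ_eq_empty, sum_empty] at hρs; linarith
    · exact h
  have hκ0 : ∀ j, 0 < κ j := fun j => hR0 _ (hκ j)
  have hρ0 : ∀ j, 0 < ρ j := fun j => hR0 _ (hρ j)
  have H : Hy κ ρ s := ⟨hs0, fun j => (hκ0 j).le, fun j => (hρ0 j).le, hκs, hρs⟩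
  obtain ⟨A1, A2, A3⟩ := hm k κ a s L0 hk hκs hκ ha L0_le (L0_log hpos hδL)
  obtain ⟨B1, B2, B3⟩ := hm l ρ b s L0 hl hρs hρ hb L0_le (L0_log hpos hδL)
  obtain ⟨Ba, hBa⟩ := pr_bound_gen hδ hpos (fun j => (hκ0 j).le) hs0 hκs a
  obtain ⟨Bb, hBb⟩ := pr_bound_gen hδ hpos (fun j => (hρ0 j).le) hs0 hρs b
  obtain ⟨x1, hx1⟩ : ∃ x1 : ℝ → ℝ → ℂ, ∀ T t, x1 T t = zr (w T) (δ T) κ a t := ⟨_, fun _ _ => rfl⟩
  obtain ⟨y1, hy1⟩ : ∃ y1 : ℝ → ℝ → ℂ, ∀ T t, y1 T t = pr (δ T) κ a (L0 T) t := ⟨_, fun _ _ => rfl⟩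
  obtain ⟨x2, hx2⟩ : ∃ x2 : ℝ → ℝ → ℂ, ∀ T t, x2 T t = zr (w T) (δ T) ρ b t := ⟨_, fun _ _ => rfl⟩
  obtain ⟨y2, hy2⟩ : ∃ y2 : ℝ → ℝ → ℂ, ∀ T t, y2 T t = pr (δ T) ρ b (L0 T) t := ⟨_, fun _ _ => rfl⟩
  simp_rw [← hx1, ← hy1] at A1 A2
  simp_rw [← hx2, ← hy2] at B1 B2
  simp_rw [← hy1] at A3 hBa
  simp_rw [← hy2] at B3 hBb
  simp_rw [← hx1, ← hx2]
  have hDm : ∀ T, MeasurableSet (D T) := fun T => by
    rcases hD with h | h
    · rw [h.2 T]; exact measurableSet_Icc.diff (hE T).1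
    · rw [h.2 T]; exact measurableSet_Icc
  have hDs : ∀ T, D T ⊆ Set.Icc 0 T := fun T => by
    rcases hD with h | h
    · rw [h.2 T]; exact Set.sdiff_subset
    · rw [h.2 T]
  have hc0 : ∀ᶠ T in atTop, 0 ≤ (2 * δ T) ^ (s ^ 2) / T := by
    filter_upwards [hpos, eventually_gt_atTop 0] with T t1 t2
    positivity
  have hy1c : ∀ T, Continuous (y1 T) := fun T => by
    have e : y1 T = pr (δ T) κ a (L0 T) := funext (hy1 T)
    rw [e]; exact pr_cont (δ T) (fun j => (hκ0 j).le) a (L0 T)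
  have hy2c : ∀ T, Continuous (y2 T) := fun T => by
    have e : y2 T = pr (δ T) ρ b (L0 T) := funext (hy2 T)
    rw [e]; exact pr_cont (δ T) (fun j => (hρ0 j).le) b (L0 T)
  have hx1m : ∀ T, Measurable (x1 T) := fun T => by
    have e : x1 T = zr (w T) (δ T) κ a := funext (hx1 T)
    rw [e]; exact zr_meas (hE T).2.2.1 (δ T) _ _
  have hx2m : ∀ T, Measurable (x2 T) := fun T => by
    have e : x2 T = zr (w T) (δ T) ρ b := funext (hx2 T)
    rw [e]; exact zr_meas (hE T).2.2.1 (δ T) _ _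
  have hx1i : ∀ᶠ T in atTop, IntegrableOn (fun t => ‖x1 T t‖ ^ 2) (Set.Icc 0 T) := by
    filter_upwards [hlt, hw] with T h1 h2
    simp_rw [hx1]
    exact zr_sq_int h1 (hE T).2.2.1 h2 hκ0 hs0 hκs a
  have hx2i : ∀ᶠ T in atTop, IntegrableOn (fun t => ‖x2 T t‖ ^ 2) (Set.Icc 0 T) := by
    filter_upwards [hlt, hw] with T h1 h2
    simp_rw [hx2]
    exact zr_sq_int h1 (hE T).2.2.1 h2 hρ0 hs0 hρs b
  have hy1i : ∀ T, IntegrableOn (fun t => ‖y1 T t‖ ^ 2) (Set.Icc 0 T) := fun T =>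
    ((hy1c T).norm.pow 2).continuousOn.integrableOn_compact isCompact_Icc
  have hy2i : ∀ T, IntegrableOn (fun t => ‖y2 T t‖ ^ 2) (Set.Icc 0 T) := fun T =>
    ((hy2c T).norm.pow 2).continuousOn.integrableOn_compact isCompact_Icc
  have hsub : ∀ {x y : ℝ → ℂ} {T : ℝ}, Measurable x → Continuous y → IntegrableOn (fun t => ‖x t‖ ^ 2) (Set.Icc 0 T) →
      IntegrableOn (fun t => ‖y t‖ ^ 2) (Set.Icc 0 T) → IntegrableOn (fun t => ‖x t - y t‖ ^ 2) (Set.Icc 0 T) := by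
    intro x y T h1 h2 h3 h4
    refine Integrable.mono' ((h3.const_mul 2).add (h4.const_mul 2)) ((h1.sub h2.measurable).norm.pow_const 2).aestronglyMeasurable
      (Eventually.of_forall fun t => ?_)
    rw [Real.norm_of_nonneg (by positivity)]
    exact sq_sub_le _ _
  have hprod : ∀ {x y : ℝ → ℂ} {T : ℝ}, Measurable x → Measurable y → IntegrableOn (fun t => ‖x t‖ ^ 2) (Set.Icc 0 T) →
      IntegrableOn (fun t => ‖y t‖ ^ 2) (Set.Icc 0 T) → IntegrableOn (fun t => x t * (starRingEnd ℂ) (y t)) (Set.Icc 0 T) := by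
    intro x y T h1 h2 h3 h4
    refine Integrable.mono' (h3.add h4) (h1.mul (Complex.continuous_conj.measurable.comp h2)).aestronglyMeasurable
      (Eventually.of_forall fun t => ?_)
    rw [norm_mul, RCLike.norm_conj]
    show _ ≤ ‖x t‖ ^ 2 + ‖y t‖ ^ 2
    nlinarith [sq_nonneg (‖x t‖ - ‖y t‖), sq_nonneg ‖x t‖, sq_nonneg ‖y t‖]
  have hd1 : Tendsto (fun T : ℝ => (2 * δ T) ^ (s ^ 2) / T * ∫ t in D T, ‖x1 T t - y1 T t‖ ^ 2) atTop (𝓝 0) := by
    rcases hD with h | h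
    · simp_rw [h.2]; exact A1 h.1
    · simp_rw [h.2]; exact A2 h.1
  have hd2 : Tendsto (fun T : ℝ => (2 * δ T) ^ (s ^ 2) / T * ∫ t in D T, ‖x2 T t - y2 T t‖ ^ 2) atTop (𝓝 0) := by
    rcases hD with h | h
    · simp_rw [h.2]; exact B1 h.1
    · simp_rw [h.2]; exact B2 h.1
  have hcomp : ∀ {y : ℝ → ℝ → ℂ}, Tendsto (fun T : ℝ => (2 * δ T) ^ (s ^ 2) / T * ∫ t in E T, ‖y T t‖ ^ 2) atTop (𝓝 0) →
      Tendsto (fun T : ℝ => (2 * δ T) ^ (s ^ 2) / T * ∫ t in Set.Icc 0 T \ D T, ‖y T t‖ ^ 2) atTop (𝓝 0) := by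
    intro y hy
    rcases hD with h | h
    · refine hy.congr fun T => ?_
      rw [h.2, Set.sdiff_sdiff_right_self, Set.inter_eq_right.mpr (hE T).2.1]
    · simp_rw [h.2]; simp
  have hB1 : ∀ᶠ T in atTop, (2 * δ T) ^ (s ^ 2) / T * ∫ t in D T, ‖y1 T t‖ ^ 2 ≤ max Ba Bb := by
    filter_upwards [hBa, hc0] with T t1 t2
    refine le_trans (mul_le_mul_of_nonneg_left ?_ t2) (t1.trans (le_max_left _ _))
    exact setIntegral_mono_set (hy1i T) (Eventually.of_forall fun t => by positivity) (Eventually.of_forall (hDs T))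
  have hB2 : ∀ᶠ T in atTop, (2 * δ T) ^ (s ^ 2) / T * ∫ t in D T, ‖y2 T t‖ ^ 2 ≤ max Ba Bb := by
    filter_upwards [hBb, hc0] with T t1 t2
    refine le_trans (mul_le_mul_of_nonneg_left ?_ t2) (t1.trans (le_max_right _ _))
    exact setIntegral_mono_set (hy2i T) (Eventually.of_forall fun t => by positivity) (Eventually.of_forall (hDs T))
  have hcl := close_bil hc0
    (by filter_upwards [hx1i] with T h; exact (hsub (hx1m T) (hy1c T) h (hy1i T)).mono_set (hDs T))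
    (Eventually.of_forall fun T => (hy1i T).mono_set (hDs T))
    (by filter_upwards [hx2i] with T h; exact (hsub (hx2m T) (hy2c T) h (hy2i T)).mono_set (hDs T))
    (Eventually.of_forall fun T => (hy2i T).mono_set (hDs T)) hd1 hd2 hB1 hB2
  refine ⟨⟨2 * max Ba Bb + 1, ?_⟩, fun m n hm0 hn0 hmn => ?_⟩
  · filter_upwards [hx1i, hx2i, hB1, hB2, hc0, hcl.eventually (gt_mem_nhds one_pos)] with T t1 t2 t3 t4 t5 t6
    refine ⟨(hprod (hx1m T) (hx2m T) t1 t2).mono_set (hDs T), ?_⟩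
    have i1 : IntegrableOn (fun t => x1 T t * (starRingEnd ℂ) (x2 T t)) (D T) := (hprod (hx1m T) (hx2m T) t1 t2).mono_set (hDs T)
    have i2 : IntegrableOn (fun t => y1 T t * (starRingEnd ℂ) (y2 T t)) (D T) :=
      (hprod (hy1c T).measurable (hy2c T).measurable (hy1i T) (hy2i T)).mono_set (hDs T)
    have i3 : IntegrableOn (fun t => ‖x1 T t * (starRingEnd ℂ) (x2 T t) - y1 T t * (starRingEnd ℂ) (y2 T t)‖) (D T) := (i1.sub i2).norm
    have i4 : IntegrableOn (fun t => ‖y1 T t‖ ^ 2) (D T) := (hy1i T).mono_set (hDs T)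
    have i5 : IntegrableOn (fun t => ‖y2 T t‖ ^ 2) (D T) := (hy2i T).mono_set (hDs T)
    have h1 : ∫ t in D T, ‖x1 T t * (starRingEnd ℂ) (x2 T t)‖ ≤
        (∫ t in D T, ‖x1 T t * (starRingEnd ℂ) (x2 T t) - y1 T t * (starRingEnd ℂ) (y2 T t)‖) +
        ((∫ t in D T, ‖y1 T t‖ ^ 2) + ∫ t in D T, ‖y2 T t‖ ^ 2) := by
      have i45 : IntegrableOn (fun t => ‖y1 T t‖ ^ 2 + ‖y2 T t‖ ^ 2) (D T) := i4.add i5
      rw [← integral_add i4 i5, ← integral_add i3 i45]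
      refine integral_mono i1.norm (i3.add i45) fun t => ?_
      show ‖x1 T t * (starRingEnd ℂ) (x2 T t)‖ ≤ ‖x1 T t * (starRingEnd ℂ) (x2 T t) - y1 T t * (starRingEnd ℂ) (y2 T t)‖ +
        (‖y1 T t‖ ^ 2 + ‖y2 T t‖ ^ 2)
      have h2 : ‖x1 T t * (starRingEnd ℂ) (x2 T t)‖ ≤ ‖x1 T t * (starRingEnd ℂ) (x2 T t) - y1 T t * (starRingEnd ℂ) (y2 T t)‖ +
          ‖y1 T t * (starRingEnd ℂ) (y2 T t)‖ := by
        have := norm_add_le (x1 T t * (starRingEnd ℂ) (x2 T t) - y1 T t * (starRingEnd ℂ) (y2 T t)) (y1 T t * (starRingEnd ℂ) (y2 T t))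
        rwa [sub_add_cancel] at this
      rw [norm_mul (y1 T t), RCLike.norm_conj] at h2
      nlinarith [sq_nonneg (‖y1 T t‖ - ‖y2 T t‖), sq_nonneg ‖y1 T t‖, sq_nonneg ‖y2 T t‖]
    have h2 := mul_le_mul_of_nonneg_left h1 t5
    rw [mul_add, mul_add] at h2
    linarith
  · have htw := pr_twist_c H a b hδ hpos hδL hm0 hn0 hmn
    simp_rw [← hy1, ← hy2] at htw
    have h4 := hcl.add ((hcomp A3).add (hcomp B3))
    simp only [add_zero] at h4
    have h5 : Tendsto (fun T : ℝ => (((2 * δ T) ^ (s ^ 2) / T : ℝ) : ℂ) * (∫ t in D T, (x1 T t * (starRingEnd ℂ) (x2 T t)) * tws m n t) -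
        (((2 * δ T) ^ (s ^ 2) / T : ℝ) : ℂ) * ∫ t in Set.Icc 0 T, (y1 T t * (starRingEnd ℂ) (y2 T t)) * tws m n t) atTop (𝓝 0) := by
      rw [tendsto_zero_iff_norm_tendsto_zero]
      refine squeeze_zero' (Eventually.of_forall fun T => norm_nonneg _) ?_ h4
      filter_upwards [hx1i, hx2i, hc0] with T t1 t2 t5
      have hbdd : ∀ {f : ℝ → ℂ} {X : Set ℝ}, IntegrableOn f X → IntegrableOn (fun t => f t * tws m n t) X := fun hf =>
        hf.mul_bdd (c := 1) (tws_cont m n).aestronglyMeasurable (Eventually.of_forall fun t => (tws_norm m n t).le)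
      have i1 : IntegrableOn (fun t => x1 T t * (starRingEnd ℂ) (x2 T t)) (D T) := (hprod (hx1m T) (hx2m T) t1 t2).mono_set (hDs T)
      have i2 : IntegrableOn (fun t => y1 T t * (starRingEnd ℂ) (y2 T t)) (Set.Icc 0 T) :=
        hprod (hy1c T).measurable (hy2c T).measurable (hy1i T) (hy2i T)
      have hu : Set.Icc 0 T = D T ∪ (Set.Icc 0 T \ D T) := by
        rw [Set.union_sdiff_self, Set.union_eq_right.mpr (hDs T)]
      have e1 : ∫ t in Set.Icc 0 T, (y1 T t * (starRingEnd ℂ) (y2 T t)) * tws m n t =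
          (∫ t in D T, (y1 T t * (starRingEnd ℂ) (y2 T t)) * tws m n t) +
          ∫ t in Set.Icc 0 T \ D T, (y1 T t * (starRingEnd ℂ) (y2 T t)) * tws m n t := by
        conv_lhs => rw [hu]
        rw [setIntegral_union Set.disjoint_sdiff_right (measurableSet_Icc.diff (hDm T)) ((hbdd i2).mono_set (hDs T))
          ((hbdd i2).mono_set Set.sdiff_subset)]
      rw [e1, ← mul_sub, norm_mul, Complex.norm_real, Real.norm_of_nonneg t5, ← sub_sub, ← integral_sub (hbdd i1) ((hbdd i2).mono_set (hDs T)),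
        ← mul_add, ← mul_add]
      refine mul_le_mul_of_nonneg_left ?_ t5
      refine (norm_sub_le _ _).trans (add_le_add ?_ ?_)
      · refine norm_integral_le_of_norm_le ((i1.sub (i2.mono_set (hDs T))).norm) (Eventually.of_forall fun t => ?_)
        rw [← sub_mul, norm_mul, tws_norm, mul_one]
      · have i4 : IntegrableOn (fun t => ‖y1 T t‖ ^ 2) (Set.Icc 0 T \ D T) := (hy1i T).mono_set Set.sdiff_subset
        have i5 : IntegrableOn (fun t => ‖y2 T t‖ ^ 2) (Set.Icc 0 T \ D T) := (hy2i T).mono_set Set.sdiff_subset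
        have i45 : IntegrableOn (fun t => ‖y1 T t‖ ^ 2 + ‖y2 T t‖ ^ 2) (Set.Icc 0 T \ D T) := i4.add i5
        rw [← integral_add i4 i5]
        refine norm_integral_le_of_norm_le i45 (Eventually.of_forall fun t => ?_)
        rw [norm_mul, tws_norm, mul_one, norm_mul, RCLike.norm_conj]
        show _ ≤ ‖y1 T t‖ ^ 2 + ‖y2 T t‖ ^ 2
        nlinarith [sq_nonneg (‖y1 T t‖ - ‖y2 T t‖), sq_nonneg ‖y1 T t‖, sq_nonneg ‖y2 T t‖]
    have h6 := h5.add htw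
    rw [zero_add] at h6
    refine h6.congr fun T => ?_
    rw [sub_add_cancel]

end Pool.Agent.X107.MU
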