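import Pool.Agent.X107.MU.MU2

/-! # The diagonal is small when the second factor is supported on large integers -/

set_option autoImplicit false

open Finset

namespace Pool.Agent.X107.MU

open Pool.Agent.Y755
open Pool.Agent.H306R2 (dv dv_nonneg dv_one lc lc_succ lc_nonneg lc_zero lc_mono)

/-- the size of the coefficients -/
noncomputable def gg (s δ : ℝ) (a : ℕ) : ℝ := dv s a * (a : ℝ) ^ (-(1 / 2 + δ))

lemma gg_nonneg {s : ℝ} (hs : 0 ≤ s) (δ : ℝ) (a : ℕ) : 0 ≤ gg s δ a :=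
  mul_nonneg (dv_nonneg hs a) (Real.rpow_nonneg (Nat.cast_nonneg a) _)

lemma wd_eq {δ : ℝ} {a : ℕ} (ha : 1 ≤ a) : wδ δ a = (a : ℝ) ^ (-(1 + 2 * δ)) := by
  have h : (0 : ℝ) < a := by exact_mod_cast ha
  unfold wδ
  rw [one_div, ← Real.rpow_neg_one (a : ℝ), ← Real.rpow_add h]
  congr 1
  ring

lemma gg_sq (s δ : ℝ) {a : ℕ} (ha : 1 ≤ a) : gg s δ a ^ 2 = g2 s δ a := by
  have h : (0 : ℝ) < a := by exact_mod_cast ha
  unfold gg g2
  rw [mul_pow, wd_eq ha, ← Real.rpow_natCast ((a : ℝ) ^ (-(1 / 2 + δ))), ← Real.rpow_mul h.le]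
  congr 2
  push_cast
  ring

lemma g2_mul_le {s : ℝ} (hs : 0 < s) {J : ℕ} (hJ : s ≤ J) (hJ1 : 1 ≤ J) {δ : ℝ} (hδ : 0 < δ) {d m : ℕ} (hd : 1 ≤ d)
    (hm : 1 ≤ m) : g2 s δ (d * m) ≤ g2 s δ m * (dv J d ^ 2 * (1 / (d : ℝ))) := by
  unfold g2
  rw [wδ_mul]
  have h1 := dv_mul_le hs hJ hJ1 (a := m) (b := d) (by omega) (by omega)
  have h2 : dv s (d * m) ^ 2 ≤ (dv s m * dv J d) ^ 2 := by
    rw [mul_comm d m]
    exact pow_le_pow_left₀ (dv_nonneg hs.le _) h1 2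
  have h3 : wδ δ d ≤ 1 / (d : ℝ) := by
    unfold wδ
    have hd1 : (1 : ℝ) ≤ d := by exact_mod_cast hd
    have : (d : ℝ) ^ (-(2 * δ)) ≤ 1 := Real.rpow_le_one_of_one_le_of_nonpos hd1 (by linarith)
    exact mul_le_of_le_one_left (by positivity) this
  calc dv s (d * m) ^ 2 * (wδ δ d * wδ δ m) ≤ (dv s m * dv J d) ^ 2 * ((1 / (d : ℝ)) * wδ δ m) := by
        refine mul_le_mul h2 (mul_le_mul_of_nonneg_right h3 (wδ_nonneg _ _))
          (mul_nonneg (wδ_nonneg _ _) (wδ_nonneg _ _)) (sq_nonneg _)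
    _ = _ := by ring

/-- the first factor -/
theorem first_factor {s : ℝ} (hs : 0 < s) {J : ℕ} (hJ : s ≤ J) (hJ1 : 1 ≤ J) {l : ℝ} (hl : 0 < l) {δ : ℝ} (hδ : 0 < δ)
    (N : ℕ) : ∑ a ∈ Icc 1 N, gg s δ a ^ 2 * Dl l a ≤ DD s δ * DD J (l / 2) := by
  have hJ0 : (0 : ℝ) < J := by exact_mod_cast hJ1
  have hs2 : Summable (g2 s δ) := g2_summable hs hδ
  have hsJ : Summable (g2 (J : ℝ) (l / 2)) := g2_summable hJ0 (by positivity)
  have h1 : ∑ a ∈ Icc 1 N, gg s δ a ^ 2 * Dl l a =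
      ∑ a ∈ Icc 1 N, ∑ d ∈ a.divisors, (fun d m : ℕ => g2 s δ (d * m) * (d : ℝ) ^ (-l)) d (a / d) := by
    refine sum_congr rfl fun a ha => ?_
    rw [gg_sq s δ (mem_Icc.1 ha).1]
    unfold Dl
    rw [mul_sum]
    refine sum_congr rfl fun d hd => ?_
    show _ = g2 s δ (d * (a / d)) * (d : ℝ) ^ (-l)
    rw [Nat.mul_div_cancel' (Nat.mem_divisors.1 hd).1]
  rw [h1]
  refine (div_sum_le N _ fun d m => mul_nonneg (g2_nonneg _ _ _) (Real.rpow_nonneg (Nat.cast_nonneg d) _)).trans ?_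
  have h2 : ∑ d ∈ Icc 1 N, ∑ m ∈ Icc 1 N, (fun d m : ℕ => g2 s δ (d * m) * (d : ℝ) ^ (-l)) d m ≤
      ∑ d ∈ Icc 1 N, ∑ m ∈ Icc 1 N, g2 (J : ℝ) (l / 2) d * g2 s δ m := by
    refine sum_le_sum fun d hd => sum_le_sum fun m hm => ?_
    have hd1 := (mem_Icc.1 hd).1
    have hm1 := (mem_Icc.1 hm).1
    have h3 := mul_le_mul_of_nonneg_right (g2_mul_le hs hJ hJ1 hδ hd1 hm1)
      (Real.rpow_nonneg (Nat.cast_nonneg d) (-l))
    refine h3.trans (le_of_eq ?_)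
    have h4 : g2 (J : ℝ) (l / 2) d = dv J d ^ 2 * ((d : ℝ) ^ (-l) * (1 / (d : ℝ))) := by
      unfold g2 wδ
      congr 3
      ring
    rw [h4]
    ring
  refine h2.trans ?_
  rw [← Finset.sum_mul_sum, mul_comm]
  unfold DD
  exact mul_le_mul (hs2.sum_le_tsum _ fun n _ => g2_nonneg _ _ _) (hsJ.sum_le_tsum _ fun n _ => g2_nonneg _ _ _)
    (sum_nonneg fun n _ => g2_nonneg _ _ _) (tsum_nonneg fun n => g2_nonneg _ _ _)

lemma sec_summable {l : ℝ} (hl : 0 < l) : Summable fun b : ℕ => (b : ℝ) ^ (-(1 + l)) * Dl l b := by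
  have s1 : Summable fun n : ℕ => (n : ℝ) ^ (-(1 + 2 * l)) := Real.summable_nat_rpow.2 (by linarith)
  have s2 : Summable fun n : ℕ => (n : ℝ) ^ (-(1 + l)) := Real.summable_nat_rpow.2 (by linarith)
  have hnn : ∀ b : ℕ, 0 ≤ (b : ℝ) ^ (-(1 + l)) * Dl l b := fun b =>
    mul_nonneg (Real.rpow_nonneg (Nat.cast_nonneg b) _) (Dl_nonneg l b)
  refine summable_of_sum_le (c := (∑' n : ℕ, (n : ℝ) ^ (-(1 + 2 * l))) * ∑' n : ℕ, (n : ℝ) ^ (-(1 + l))) hnn fun u => ?_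
  obtain ⟨N, hN⟩ : ∃ N, u ⊆ range (N + 1) := ⟨u.sup id, fun n hn => by
    rw [mem_range]
    have : id n ≤ u.sup id := Finset.le_sup hn
    simp only [id] at this
    omega⟩
  have h1 : ∑ b ∈ u, (b : ℝ) ^ (-(1 + l)) * Dl l b ≤ ∑ b ∈ Icc 1 N, (b : ℝ) ^ (-(1 + l)) * Dl l b := by
    refine (sum_le_sum_of_subset_of_nonneg hN fun b _ _ => hnn b).trans (le_of_eq ?_)
    rw [Finset.sum_range_succ']
    have h0 : ((0 : ℕ) : ℝ) ^ (-(1 + l)) * Dl l 0 = 0 := by unfold Dl; simp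
    rw [h0, add_zero]
    have : Icc 1 N = (range N).map ⟨fun n => n + 1, fun a b h => by simpa using h⟩ := by
      ext n
      simp only [mem_Icc, mem_map, mem_range, Function.Embedding.coeFn_mk]
      constructor
      · rintro ⟨h1, h2⟩
        exact ⟨n - 1, by omega, by omega⟩
      · rintro ⟨k, h1, h2⟩
        omega
    rw [this, sum_map]
    rfl
  refine h1.trans ?_
  have h2 : ∑ b ∈ Icc 1 N, (b : ℝ) ^ (-(1 + l)) * Dl l b =
      ∑ b ∈ Icc 1 N, ∑ d ∈ b.divisors, (fun d m : ℕ => ((d : ℝ) ^ (-(1 + 2 * l))) * (m : ℝ) ^ (-(1 + l))) d (b / d) := by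
    refine sum_congr rfl fun b hb => ?_
    unfold Dl
    rw [mul_sum]
    refine sum_congr rfl fun d hd => ?_
    show _ = ((d : ℝ) ^ (-(1 + 2 * l))) * ((b / d : ℕ) : ℝ) ^ (-(1 + l))
    have hdb := (Nat.mem_divisors.1 hd).1
    have hb1 := (mem_Icc.1 hb).1
    have hd0 : 0 < d := Nat.pos_of_dvd_of_pos hdb (by omega)
    have hd0' : (0 : ℝ) < d := by exact_mod_cast hd0
    have e1 : (b : ℝ) = (d : ℝ) * ((b / d : ℕ) : ℝ) := by
      rw [← Nat.cast_mul, Nat.mul_div_cancel' hdb]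
    have e2 : (d : ℝ) ^ (-(1 + 2 * l)) = (d : ℝ) ^ (-(1 + l)) * (d : ℝ) ^ (-l) := by
      rw [← Real.rpow_add hd0']
      congr 1
      ring
    rw [e2]
    conv_lhs => rw [e1]
    rw [Real.mul_rpow hd0'.le (Nat.cast_nonneg _)]
    ring
  rw [h2]
  refine (div_sum_le N _ fun d m => mul_nonneg (Real.rpow_nonneg (Nat.cast_nonneg d) _)
    (Real.rpow_nonneg (Nat.cast_nonneg m) _)).trans ?_
  rw [← Finset.sum_mul_sum]
  exact mul_le_mul (s1.sum_le_tsum _ fun n _ => Real.rpow_nonneg (Nat.cast_nonneg n) _)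
    (s2.sum_le_tsum _ fun n _ => Real.rpow_nonneg (Nat.cast_nonneg n) _)
    (sum_nonneg fun n _ => Real.rpow_nonneg (Nat.cast_nonneg n) _)
    (tsum_nonneg fun n => Real.rpow_nonneg (Nat.cast_nonneg n) _)

/-- **the diagonal is small** -/
theorem dia_main {s : ℝ} (hs : 0 < s) {l : ℝ} (hl : 0 < l) {ε : ℝ} (hε : 0 < ε) :
    ∃ z0 : ℕ, ∀ δ : ℝ, 0 < δ → ∀ (N : ℕ) (Bs : Finset ℕ), (∀ b ∈ Bs, z0 < b) → ∀ (y : ℕ → ℝ) (K : ℝ),
      (∀ b, 0 ≤ y b) → (∀ b ∈ Bs, y b ≤ K * (b : ℝ) ^ (-(1 / 2 + l))) →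
      dia (Icc 1 N ×ˢ Bs) (fun q => q.1 * q.2) (fun q => gg s δ q.1 * y q.2) ≤ K ^ 2 * (ε * DD s δ) := by
  obtain ⟨J, hJ⟩ := exists_nat_ge (max s 1)
  have hJs : s ≤ J := (le_max_left _ _).trans hJ
  have hJ1 : 1 ≤ J := by exact_mod_cast (le_max_right s 1).trans hJ
  have hJ0 : (0 : ℝ) < J := by exact_mod_cast hJ1
  have hDJ : 1 ≤ DD (J : ℝ) (l / 2) := DD_ge_one hJ0 (by positivity)
  have hDJ0 : 0 < DD (J : ℝ) (l / 2) := by linarith
  obtain ⟨u, hu⟩ := summable_iff_vanishing_norm.1 (sec_summable hl) (ε / DD (J : ℝ) (l / 2)) (by positivity)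
  refine ⟨u.sup id, fun δ hδ N Bs hB y K hy hyb => ?_⟩
  have hdisj : Disjoint Bs u := by
    rw [Finset.disjoint_left]
    intro b hb hbu
    have h1 : id b ≤ u.sup id := Finset.le_sup hbu
    have h2 := hB b hb
    simp only [id] at h1
    omega
  have h1 := hu Bs hdisj
  have hs0 : 0 ≤ ∑ b ∈ Bs, (b : ℝ) ^ (-(1 + l)) * Dl l b := sum_nonneg fun b _ =>
    mul_nonneg (Real.rpow_nonneg (Nat.cast_nonneg b) _) (Dl_nonneg l b)
  rw [Real.norm_of_nonneg hs0] at h1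
  have h2 := dia_prod N Bs (fun b hb => by have := hB b hb; omega) (gg s δ) y (gg_nonneg hs.le δ) hy hyb
  refine h2.trans (mul_le_mul_of_nonneg_left ?_ (sq_nonneg K))
  have h3 := first_factor hs hJs hJ1 hl hδ N
  have hD0 : 0 ≤ DD s δ := by have := DD_ge_one hs hδ; linarith
  calc _ ≤ (DD s δ * DD J (l / 2)) * (ε / DD (J : ℝ) (l / 2)) :=
        mul_le_mul h3 h1.le hs0 (by positivity)
    _ = ε * DD s δ := by field_simp

end Pool.Agent.X107.MU
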