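import Pool.Agent.X107.MU.MU30
import Pool.Agent.X107.MU.MU26

/-! # The twisted law of the ratios under the moment measures -/

set_option autoImplicit false
set_option linter.unusedSectionVars false

namespace Pool.Agent.X107.MU

open MeasureTheory ProbabilityTheory Filter Topology
open Pool.Agent.X110.NA (Lf Lf_pos Tf Mx tws tws_norm tws_cont)
open Pool.Agent.Y753.SHR
open Pool.Agent.H306R2 (aF aF_pos)
open Pool.Agent.X111.JD (zc zc_norm zc_cont dens_cont)
open Pool.Agent.X111.FL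
open Pool.Agent.X111.HO

/-- the admissible domains -/
def Adm (c k : ℝ) (E : ℝ → Set ℝ) (D : ℝ → Set ℝ) : Prop :=
  ((k ≤ 2 ∨ 4 + 4 * c ≤ 2 * k) ∧ ∀ T, D T = Set.Icc 0 T \ E T) ∨ (k ≤ 2 ∧ ∀ T, D T = Set.Icc 0 T)

lemma TwL_one (s : ℝ) : TwL s 1 1 = aF s := by
  unfold TwL
  simp

lemma TwL_symm (s : ℝ) (m n : ℕ) : TwL s n m = TwL s m n := by
  unfold TwL
  rw [mul_comm (n : ℝ) m, mul_comm n m]
  congr 2
  refine Finset.prod_congr rfl fun p _ => ?_
  congr 1
  unfold Lf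
  refine tsum_congr fun j => ?_
  ring

lemma TwL_pos {s : ℝ} (hs : 0 < s) {m n : ℕ} (hm : m ≠ 0) (hn : n ≠ 0) : 0 < TwL s m n := by
  unfold TwL
  have h1 : (0:ℝ) < m := by exact_mod_cast Nat.pos_of_ne_zero hm
  have h2 : (0:ℝ) < n := by exact_mod_cast Nat.pos_of_ne_zero hn
  refine mul_pos (Real.rpow_pos_of_pos (mul_pos h1 h2) _) (mul_pos (aF_pos hs) (Finset.prod_pos fun p hp => ?_))
  have hp' := Nat.prime_of_mem_primeFactors hp
  exact div_pos (Lf_pos hs le_rfl hp' _ _) (Lf_pos hs le_rfl hp' _ _)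

lemma tws_conj (m n : ℕ) (hm : m ≠ 0) (hn : n ≠ 0) (t : ℝ) : (starRingEnd ℂ) (tws m n t) = tws n m t := by
  have hm' : (m:ℝ) ≠ 0 := by exact_mod_cast hm
  have hn' : (n:ℝ) ≠ 0 := by exact_mod_cast hn
  unfold tws
  rw [← Complex.exp_conj, map_mul, Complex.conj_I, Complex.conj_ofReal, Real.log_div hm' hn', Real.log_div hn' hm']
  congr 1
  push_cast
  ring

/-- the densities -/
noncomputable def Ph (u : ℂ) (m n : ℕ) (t : ℝ) : ℝ := 2 + (u * tws m n t).re

lemma Ph_cont (u : ℂ) (m n : ℕ) : Continuous (Ph u m n) := by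
  unfold Ph
  exact continuous_const.add (Complex.continuous_re.comp (continuous_const.mul (tws_cont m n)))

lemma Ph_bd {u : ℂ} (hu : ‖u‖ ≤ 1) (m n : ℕ) (t : ℝ) : 0 ≤ Ph u m n t ∧ Ph u m n t ≤ 3 := by
  have h1 := Complex.abs_re_le_norm (u * tws m n t)
  rw [norm_mul, tws_norm, mul_one] at h1
  have h2 := abs_le.1 (h1.trans hu)
  unfold Ph
  constructor <;> linarith [h2.1, h2.2]

lemma Ph_c (u : ℂ) {m n : ℕ} (hm : m ≠ 0) (hn : n ≠ 0) (t : ℝ) :
    ((Ph u m n t : ℝ) : ℂ) = 2 * tws 1 1 t + (u / 2 * tws m n t + (starRingEnd ℂ) u / 2 * tws n m t) := by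
  have h1 : tws 1 1 t = 1 := by unfold tws; simp
  have h2 : (((u * tws m n t).re : ℝ) : ℂ) = (u * tws m n t + (starRingEnd ℂ) (u * tws m n t)) / 2 := by
    rw [Complex.add_conj]
    push_cast
    ring
  unfold Ph
  rw [Complex.ofReal_add, h2, h1, map_mul, tws_conj m n hm hn]
  push_cast
  ring

/-- means with the densities -/
lemma mix_phi {s : ℝ} {Z : ℝ → ℝ → ℂ} {D : ℝ → Set ℝ} {c : ℝ → ℝ} {μ : ℂ} (hZi : ∀ᶠ T in atTop, IntegrableOn (Z T) (D T))
    (htw : ∀ m n : ℕ, m ≠ 0 → n ≠ 0 → m.Coprime n → Tendsto (fun T => (c T : ℂ) * ∫ t in D T, Z T t * tws m n t) atTop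
      (𝓝 (μ * ((TwL s m n : ℝ) : ℂ)))) (u : ℂ) {m n : ℕ} (hm : m ≠ 0) (hn : n ≠ 0) (hmn : m.Coprime n) :
    Tendsto (fun T => (c T : ℂ) * ∫ t in D T, Z T t * ((Ph u m n t : ℝ) : ℂ)) atTop
      (𝓝 (((2 * aF s + u.re * TwL s m n : ℝ) : ℂ) * μ)) := by
  have h1 := (htw 1 1 one_ne_zero one_ne_zero (Nat.coprime_one_left 1)).const_mul 2
  have h2 := (htw m n hm hn hmn).const_mul (u / 2)
  have h3 := (htw n m hn hm hmn.symm).const_mul ((starRingEnd ℂ) u / 2)
  have h4 := h1.add (h2.add h3)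
  have e1 : 2 * (μ * ((TwL s 1 1 : ℝ) : ℂ)) + (u / 2 * (μ * ((TwL s m n : ℝ) : ℂ)) + (starRingEnd ℂ) u / 2 * (μ * ((TwL s n m : ℝ) : ℂ))) =
      ((2 * aF s + u.re * TwL s m n : ℝ) : ℂ) * μ := by
    rw [TwL_one, TwL_symm]
    have h5 : ((u.re : ℝ) : ℂ) = (u + (starRingEnd ℂ) u) / 2 := by
      rw [Complex.add_conj]
      push_cast
      ring
    push_cast
    rw [h5]
    ring
  rw [e1] at h4
  refine h4.congr' ?_
  filter_upwards [hZi] with T hT
  have hb : ∀ m n, IntegrableOn (fun t => Z T t * tws m n t) (D T) := fun m n =>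
    hT.mul_bdd (c := 1) (tws_cont m n).aestronglyMeasurable (Eventually.of_forall fun t => (tws_norm m n t).le)
  have e2 : ∫ t in D T, Z T t * ((Ph u m n t : ℝ) : ℂ) = 2 * (∫ t in D T, Z T t * tws 1 1 t) +
      (u / 2 * (∫ t in D T, Z T t * tws m n t) + (starRingEnd ℂ) u / 2 * ∫ t in D T, Z T t * tws n m t) := by
    have i12 : IntegrableOn (fun t => u / 2 * (Z T t * tws m n t) + (starRingEnd ℂ) u / 2 * (Z T t * tws n m t)) (D T) :=
      ((hb m n).const_mul _).add ((hb n m).const_mul _)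
    rw [← integral_const_mul, ← integral_const_mul, ← integral_const_mul, ← integral_add ((hb m n).const_mul _) ((hb n m).const_mul _),
      ← integral_add ((hb 1 1).const_mul _) i12]
    refine integral_congr_ae (Eventually.of_forall fun t => ?_)
    show Z T t * ((Ph u m n t : ℝ) : ℂ) = _
    rw [Ph_c u hm hn]
    ring
  rw [e2]
  ring

section main

variable {δ : ℝ → ℝ} (hδ : Tendsto δ atTop (𝓝 0)) (hδL : Tendsto (fun T : ℝ => δ T * Real.log T) atTop atTop)
  (hn : ∀ T, 0 < δ T ∧ δ T < 1 / 2) {c : ℝ} {S R : Set ℝ} (hR0 : ∀ r ∈ R, 0 < r) {E : ℝ → Set ℝ} {w : ℝ → ℝ → ℂ}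
  (hAP : AP δ c S R E w) {k : ℝ} (hk : 0 < k) {D : ℝ → Set ℝ} (hD : Adm c k E D)
  (hRk : ∀ (n N : ℕ) (p : Fin n → ℕ) (i : Fin (n + 1)), 0 < kv k N p i → kv k N p i ∈ R)

include hAP hD in
lemma adm_D (T : ℝ) : MeasurableSet (D T) ∧ D T ⊆ Set.Icc 0 T := by
  rcases hD with h | h
  · rw [h.2 T]; exact ⟨measurableSet_Icc.diff (hAP.1 T).1, Set.sdiff_subset⟩
  · rw [h.2 T]; exact ⟨measurableSet_Icc, subset_rfl⟩

include hδ hδL hR0 hAP hk hD hRk in
/-- the twisted mixed moments -/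
lemma mixed_all {b : ℝ} (hb : b ∈ S) {n : ℕ} {h : Fin n → ℝ} (hh : ∀ j, b + h j ∈ S) {N : ℕ} {p q : Fin n → ℕ} (hN : 0 < N)
    (hp : ((∑ j, p j : ℕ) : ℝ) < k * N) (hq : ((∑ j, q j : ℕ) : ℝ) < k * N) :
    (∀ᶠ T in atTop, IntegrableOn (fun t => zr (w T) (δ T) (kv k N p) (fun i => b + pv h p i) t *
      (starRingEnd ℂ) (zr (w T) (δ T) (kv k N q) (fun i => b + pv h q i) t)) (D T)) ∧
    ∀ m n' : ℕ, m ≠ 0 → n' ≠ 0 → m.Coprime n' → Tendsto (fun T : ℝ => (((2 * δ T) ^ (k ^ 2) / T : ℝ) : ℂ) *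
      ∫ t in D T, (zr (w T) (δ T) (kv k N p) (fun i => b + pv h p i) t *
        (starRingEnd ℂ) (zr (w T) (δ T) (kv k N q) (fun i => b + pv h q i) t)) * tws m n' t) atTop
      (𝓝 ((∏ j, ∏ i, (1 + Complex.I * ((pv h p j - pv h q i : ℝ) : ℂ) / 2) ^ (-((kv k N p j * kv k N q i : ℝ) : ℂ))) *
        ((TwL k m n' : ℝ) : ℂ))) := by
  have hR : ∀ p : Fin n → ℕ, ((∑ j, p j : ℕ) : ℝ) < k * N → ∀ i, kv k N p i ∈ R := fun p hp i => hRk n N p i (kv_pos hN hp i)
  have hP : ∀ p : Fin n → ℕ, ∀ i, b + pv h p i ∈ S := by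
    intro p i
    unfold pv
    refine Fin.cases ?_ (fun j => ?_) i
    · rw [Fin.cons_zero, add_zero]
      exact hb
    · rw [Fin.cons_succ]
      split_ifs
      · rw [add_zero]; exact hb
      · exact hh j
  obtain ⟨⟨B, hB⟩, h2⟩ := ap_mixed hδ hδL hR0 hAP k hk D hD (n + 1) (n + 1) (kv k N p) (fun i => b + pv h p i) (kv k N q)
    (fun i => b + pv h q i) (hR p hp) (hR q hq) (hP p) (hP q) (kv_total k N p) (kv_total k N q)
  refine ⟨hB.mono fun T hT => hT.1, fun m n' hm hn' hmn => ?_⟩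
  have h3 := h2 m n' hm hn' hmn
  have e1 : (((((m:ℝ) * n') ^ (-(1 / 2 : ℝ)) : ℝ) : ℂ) * ((aF k : ℂ) * Mx (kv k N p) (fun i => b + pv h p i) (kv k N q)
      (fun i => b + pv h q i) * ((Tf k m n' : ℝ) : ℂ))) =
      (∏ j, ∏ i, (1 + Complex.I * ((pv h p j - pv h q i : ℝ) : ℂ) / 2) ^ (-((kv k N p j * kv k N q i : ℝ) : ℂ))) *
        ((TwL k m n' : ℝ) : ℂ) := by
    unfold Mx TwL Tf
    simp_rw [add_sub_add_left_eq_sub]
    push_cast
    ring
  rw [e1] at h3
  exact h3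

include hδ hδL hn hR0 hAP hk hD hRk in
/-- the law of the ratios for all base points -/
theorem ap_MH : MH k δ D S := by
  intro b hb n h hh G
  have h1 := lawPhi hk hn (adm_D hAP hD) (fun T => (hAP.1 T).2.2.1) hAP.2.1 b h (Φ := fun _ => 1) continuous_const
    (fun _ => zero_le_one) (C := 1) (fun _ => le_rfl) (aF_pos hk) (fun N p q hN hp hq => ?_) G
  · refine h1.congr fun T => ?_
    simp_rw [one_mul]
  · have h2 := (mixed_all hδ hδL hR0 hAP hk hD hRk hb hh hN hp hq).2 1 1 one_ne_zero one_ne_zero (Nat.coprime_one_left 1)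
    rw [TwL_one, mul_comm] at h2
    refine h2.congr fun T => ?_
    congr 1
    refine integral_congr_ae (Eventually.of_forall fun t => ?_)
    have h3 : tws 1 1 t = 1 := by unfold tws; simp
    beta_reduce
    rw [h3]
    push_cast
    ring

include hδ hδL hn hR0 hAP hk hD hRk in
/-- the law of the ratios with the densities -/
theorem ap_phi (h0 : (0:ℝ) ∈ S) {n : ℕ} (h : Fin n → ℝ) (hh : ∀ j, h j ∈ S) (G : BoundedContinuousFunction (Fin n → ℂ) ℝ)
    {u : ℂ} (hu : ‖u‖ ≤ 1) (hu0 : 0 ≤ u.re) {m n' : ℕ} (hm : m ≠ 0) (hn' : n' ≠ 0) (hmn : m.Coprime n') :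
    Tendsto (fun T => (2 * δ T) ^ (k ^ 2) / T * ∫ t in D T, za (δ T) 0 t ^ (2 * k) *
      (Ph u m n' t * G (fun j => zc (δ T) (h j) t / zc (δ T) 0 t))) atTop
      (𝓝 ((2 * aF k + u.re * TwL k m n') * ∫ ω, G (fun j => Complex.exp (lgv k h ω j)) ∂PG)) := by
  have ha : 0 < 2 * aF k + u.re * TwL k m n' := by
    have h1 := aF_pos hk
    have h2 := mul_nonneg hu0 (TwL_pos hk hm hn').le
    linarith
  have h1 := lawPhi hk hn (adm_D hAP hD) (fun T => (hAP.1 T).2.2.1) hAP.2.1 0 h (Φ := Ph u m n') (Ph_cont u m n')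
    (fun t => (Ph_bd hu m n' t).1) (C := 3) (fun t => (Ph_bd hu m n' t).2) ha (fun N p q hN hp hq => ?_) G
  · simp_rw [zero_add] at h1
    exact h1
  · obtain ⟨h3, h4⟩ := mixed_all hδ hδL hR0 hAP hk hD hRk h0 (h := h) (fun j => by rw [zero_add]; exact hh j) hN hp hq
    exact mix_phi h3 h4 u hm hn' hmn

include hδ hδL hn hR0 hAP hk hD hRk in
/-- **the twisted law of the ratios** -/
theorem ap_tw (h0 : (0:ℝ) ∈ S) {n : ℕ} (h : Fin n → ℝ) (hh : ∀ j, h j ∈ S) (G : BoundedContinuousFunction (Fin n → ℂ) ℝ)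
    {m n' : ℕ} (hm : m ≠ 0) (hn' : n' ≠ 0) (hmn : m.Coprime n') :
    Tendsto (fun T => (((2 * δ T) ^ (k ^ 2) / T : ℝ) : ℂ) * ∫ t in D T, ((za (δ T) 0 t ^ (2 * k) *
      G (fun j => zc (δ T) (h j) t / zc (δ T) 0 t) : ℝ) : ℂ) * tws m n' t) atTop
      (𝓝 (((∫ ω, G (fun j => Complex.exp (lgv k h ω j)) ∂PG) * TwL k m n' : ℝ) : ℂ)) := by
  obtain ⟨g, hg⟩ : ∃ g : ℝ → ℝ → ℝ, ∀ T t, g T t = za (δ T) 0 t ^ (2 * k) * G (fun j => zc (δ T) (h j) t / zc (δ T) 0 t) :=
    ⟨_, fun _ _ => rfl⟩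
  obtain ⟨e, he⟩ : ∃ e : ℝ, e = ∫ ω, G (fun j => Complex.exp (lgv k h ω j)) ∂PG := ⟨_, rfl⟩
  have h1 := ap_phi hδ hδL hn hR0 hAP hk hD hRk h0 h hh G (u := 1) (by simp) (by simp) hm hn' hmn
  have h2 := ap_phi hδ hδL hn hR0 hAP hk hD hRk h0 h hh G (u := -Complex.I) (by simp) (by simp) hm hn' hmn
  have h3 := ap_MH hδ hδL hn hR0 hAP hk hD hRk 0 h0 n h (fun j => by rw [zero_add]; exact hh j) G
  simp_rw [zero_add] at h3
  rw [← he] at h1 h2 h3 ⊢
  simp_rw [← hg] at h3 ⊢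
  have hgi : ∀ T, IntegrableOn (g T) (D T) := by
    intro T
    have hd2 := (hn T).2
    have cz : ∀ u, Continuous (zc (δ T) u) := zc_cont hd2
    have ca : Continuous fun t => za (δ T) 0 t ^ (2 * k) := (za_cont hd2 0).rpow_const fun t => Or.inr (by positivity)
    have mr : Measurable fun t => fun j => zc (δ T) (h j) t / zc (δ T) 0 t :=
      measurable_pi_lambda _ fun j => (cz (h j)).measurable.div (cz 0).measurable
    have ia : IntegrableOn (fun t => za (δ T) 0 t ^ (2 * k)) (D T) :=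
      (ca.continuousOn.integrableOn_compact isCompact_Icc).mono_set (adm_D hAP hD T).2
    have eg : g T = fun t => za (δ T) 0 t ^ (2 * k) * G (fun j => zc (δ T) (h j) t / zc (δ T) 0 t) := funext (hg T)
    rw [eg]
    exact ia.mul_bdd (c := ‖G‖) (G.continuous.measurable.comp mr).aestronglyMeasurable
      (Eventually.of_forall fun t => G.norm_coe_le_norm _)
  have hcb : ∀ {f : ℝ → ℝ} (T : ℝ), Continuous f → (∀ t, |f t| ≤ 1) → IntegrableOn (fun t => g T t * f t) (D T) := by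
    intro f T hf hb
    exact (hgi T).mul_bdd (c := 1) hf.aestronglyMeasurable (Eventually.of_forall fun t => by rw [Real.norm_eq_abs]; exact hb t)
  have cre : Continuous fun t => (tws m n' t).re := Complex.continuous_re.comp (tws_cont m n')
  have cim : Continuous fun t => (tws m n' t).im := Complex.continuous_im.comp (tws_cont m n')
  have bre : ∀ t, |(tws m n' t).re| ≤ 1 := fun t => (Complex.abs_re_le_norm _).trans (tws_norm m n' t).le
  have bim : ∀ t, |(tws m n' t).im| ≤ 1 := fun t => (Complex.abs_im_le_norm _).trans (tws_norm m n' t).le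
  -- the real part
  have k1 : Tendsto (fun T => (2 * δ T) ^ (k ^ 2) / T * ∫ t in D T, g T t * (tws m n' t).re) atTop (𝓝 (TwL k m n' * e)) := by
    have h4 := h1.sub (h3.const_mul 2)
    have e1 : (2 * aF k + (1:ℂ).re * TwL k m n') * e - 2 * (aF k * e) = TwL k m n' * e := by
      rw [Complex.one_re]
      ring
    rw [e1] at h4
    refine h4.congr fun T => ?_
    have e2 : ∫ t in D T, za (δ T) 0 t ^ (2 * k) * (Ph 1 m n' t * G (fun j => zc (δ T) (h j) t / zc (δ T) 0 t)) =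
        2 * (∫ t in D T, g T t) + ∫ t in D T, g T t * (tws m n' t).re := by
      rw [← integral_const_mul, ← integral_add ((hgi T).const_mul 2) (hcb T cre bre)]
      refine integral_congr_ae (Eventually.of_forall fun t => ?_)
      beta_reduce
      rw [hg]
      unfold Ph
      rw [one_mul]
      ring
    rw [e2]
    ring
  have k2 : Tendsto (fun T => (2 * δ T) ^ (k ^ 2) / T * ∫ t in D T, g T t * (tws m n' t).im) atTop (𝓝 0) := by
    have h4 := h2.sub (h3.const_mul 2)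
    have e1 : (2 * aF k + (-Complex.I).re * TwL k m n') * e - 2 * (aF k * e) = 0 := by
      rw [Complex.neg_re, Complex.I_re]
      ring
    rw [e1] at h4
    refine h4.congr fun T => ?_
    have e2 : ∫ t in D T, za (δ T) 0 t ^ (2 * k) * (Ph (-Complex.I) m n' t * G (fun j => zc (δ T) (h j) t / zc (δ T) 0 t)) =
        2 * (∫ t in D T, g T t) + ∫ t in D T, g T t * (tws m n' t).im := by
      rw [← integral_const_mul, ← integral_add ((hgi T).const_mul 2) (hcb T cim bim)]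
      refine integral_congr_ae (Eventually.of_forall fun t => ?_)
      beta_reduce
      rw [hg]
      unfold Ph
      have e3 : (-Complex.I * tws m n' t).re = (tws m n' t).im := by simp
      rw [e3]
      ring
    rw [e2]
    ring
  have k3 := ((Complex.continuous_ofReal.tendsto _).comp k1).add (((Complex.continuous_ofReal.tendsto _).comp k2).mul_const Complex.I)
  have e5 : ((TwL k m n' * e : ℝ) : ℂ) + ((0 : ℝ) : ℂ) * Complex.I = ((e * TwL k m n' : ℝ) : ℂ) := by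
    push_cast
    ring
  rw [e5] at k3
  refine k3.congr fun T => ?_
  have e6 : ∫ t in D T, ((g T t : ℝ) : ℂ) * tws m n' t = ((∫ t in D T, g T t * (tws m n' t).re : ℝ) : ℂ) +
      ((∫ t in D T, g T t * (tws m n' t).im : ℝ) : ℂ) * Complex.I := by
    rw [← integral_complex_ofReal, ← integral_complex_ofReal, ← integral_mul_const,
      ← integral_add (hcb T cre bre).ofReal ((hcb T cim bim).ofReal.mul_const _)]
    refine integral_congr_ae (Eventually.of_forall fun t => ?_)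
    beta_reduce
    conv_lhs => rw [← Complex.re_add_im (tws m n' t)]
    push_cast
    ring
  rw [e6]
  simp only [Function.comp]
  push_cast
  ring

end main

end Pool.Agent.X107.MU
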