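import Pool.Agent.X107.MU.MU32
import Pool.Agent.Y753.SHR.Star
import Pool.Agent.Y901.SHR.Diag

/-! # Homogeneous functions of the shifted values over the sets given by the values right of the line -/

set_option autoImplicit false
set_option linter.unusedSectionVars false

namespace Pool.Agent.X107.MU

open MeasureTheory ProbabilityTheory Filter Topology
open Pool.Agent.X110.NA (tws tws_norm tws_cont)
open Pool.Agent.Y753.SHR
open Pool.Agent.H306R2 (aF aF_pos)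
open Pool.Agent.X111.JD (zc zc_norm zc_cont)
open Pool.Agent.X111.FL
open Pool.Agent.X111.HO

/-- systems which agree for large `T` -/
lemma Sys.congr {s : ℝ} {Z0 : ℝ → ℝ → ℝ → ℝ → ℝ → ℕ} {Z Z' : ℝ → ℝ → ℝ} {D D' : ℝ → Set ℝ} {c c' : ℝ → ℝ}
    (h : Sys s Z0 Z D c) (hZ : ∀ᶠ T in atTop, Z T = Z' T) (hD : ∀ᶠ T in atTop, D T = D' T) (hc : ∀ᶠ T in atTop, c T = c' T)
    (hn : ∀ T t, 0 ≤ Z' T t) (hm : ∀ T, MeasurableSet (D' T)) : Sys s Z0 Z' D' c' := by
  refine ⟨?_, hn, ?_, hm, ?_, ?_⟩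
  · filter_upwards [h.c0, hc] with T h1 h2
    rw [← h2]; exact h1
  · filter_upwards [h.Zi, hZ, hD] with T h1 h2 h3
    rw [← h2, ← h3]; exact h1
  · intro m p hp hinj F hF
    refine (h.law m p hp hinj F hF).congr' ?_
    filter_upwards [hZ, hD, hc] with T h1 h2 h3
    rw [h1, h2, h3]
  · intro a b B lam ε h1 h2 h3 h4 h5 h6 z hz
    filter_upwards [h.tail a b B lam ε h1 h2 h3 h4 h5 h6 z hz, hZ, hD, hc] with T k1 k2 k3 k4
    rw [← k2, ← k3, ← k4]; exact k1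

lemma za_zero (δ t : ℝ) : za δ 0 t = ‖riemannZeta (1 / 2 + δ + (t : ℂ) * Complex.I)‖ := by
  unfold za
  simp

lemma RK_mem {K : Set ℝ} {k : ℝ} (hk : k ∈ K) {n N : ℕ} {p : Fin n → ℕ} {i : Fin (n + 1)} (h : 0 < kv k N p i) :
    kv k N p i ∈ RK K := ⟨h, k, hk, n, N, p, i, rfl⟩

lemma RK_self {K : Set ℝ} {k : ℝ} (hk : k ∈ K) (hk0 : 0 < k) : k ∈ RK K := by
  refine ⟨hk0, k, hk, 0, 1, fun _ => 0, 0, ?_⟩
  unfold kv
  simp

/-- **homogeneous functions of the shifted values over the universality sets** -/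
theorem exU : ∃ Z0 : ℝ → ℝ → ℝ → ℝ → ℝ → ℝ → ℕ,
    ∀ (δ : ℝ → ℝ), Tendsto δ atTop (𝓝 0) → Tendsto (fun T : ℝ => δ T * Real.log T) atTop atTop →
    ∀ (c : ℝ), 0 ≤ c → ∀ (S K0 : Set ℝ), S.Countable → (0 : ℝ) ∈ S → K0.Countable → (∀ k ∈ K0, 0 < k) →
    ∃ E : ℝ → Set ℝ, (∀ T, MeasurableSet (E T) ∧ E T ⊆ Set.Icc 0 T ∧ ∀ t ∈ E T, ∃ a ∈ S, (δ T) ^ (-(2 + c)) < za (δ T) a t) ∧
      Tendsto (fun T => (volume (E T)).toReal / (T * (δ T) ^ (4 + 4 * c))) atTop (𝓝 0) ∧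
      ∀ k ∈ K0, ∀ D : ℝ → Set ℝ, Adm c k E D →
        Sys k (Z0 k) (fun T t => ‖riemannZeta (1 / 2 + δ T + (t : ℂ) * Complex.I)‖ ^ (2 * k)) D
          (fun T => (2 * δ T) ^ (k ^ 2) / T) ∧
        ∀ (K : Set ℂ) (A : Set (ℂ → ℂ)), IsCompact K → (∀ z ∈ K, 1 / 2 < z.re ∧ z.re < 1) → ∀ ε : ℝ,
          ContinuousAt (DL k (Z0 k) K A) ε → ∀ (n : ℕ) (a : Fin n → ℝ), (∀ j, a j ∈ S) → ∀ F : (Fin n → ℂ) → ℝ, Continuous F →
          (∀ (z : ℂ) (v : Fin n → ℂ), F (fun j => z * v j) = ‖z‖ ^ (2 * k) * F v) →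
          Tendsto (fun T => (2 * δ T) ^ (k ^ 2) / T * ∫ t in D T ∩ {t | Zt K A ε t}, F (fun j => zc (δ T) (a j) t)) atTop
            (𝓝 (DL k (Z0 k) K A ε * ∫ ω, F (fun j => fi k ω (Complex.I * a j)) ∂PG)) := by
  classical
  obtain ⟨Z0, hZ0⟩ := exists_Z0
  refine ⟨fun s a b B lam ε => Z0 s a b B lam (ε / 2), fun δ hδ hδL c hc S K0 hS h0 hK0 hKp => ?_⟩
  obtain ⟨δ', hδ'⟩ : ∃ δ' : ℝ → ℝ, δ' = fun T => if 0 < δ T ∧ δ T < 1 / 2 then δ T else 1 / 4 := ⟨_, rfl⟩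
  have hn : ∀ T, 0 < δ' T ∧ δ' T < 1 / 2 := by
    intro T
    rw [hδ']
    dsimp only
    split_ifs with h
    · exact h
    · norm_num
  have he : ∀ᶠ T in atTop, δ T = δ' T := by
    filter_upwards [pos_path hδL, hδ.eventually (gt_mem_nhds (show (0:ℝ) < 1 / 2 by norm_num))] with T h1 h2
    rw [hδ']
    dsimp only
    rw [if_pos ⟨h1, h2⟩]
  have hd1 := hδ.congr' he
  have hd2 : Tendsto (fun T : ℝ => δ' T * Real.log T) atTop atTop := hδL.congr' (he.mono fun T hT => by rw [hT])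
  have hR0 : ∀ r ∈ RK K0, 0 < r := fun r hr => hr.1
  obtain ⟨E, w, hAP, hvol⟩ := exists_AP Pool.Agent.Y901.SHR.done Pool.Agent.Y753.SHR.star hd1 hd2 hc (S := S) (R := RK K0) hS
    (RK_countable hK0) hR0
  refine ⟨fun T => if δ T = δ' T then E T else ∅, fun T => ?_, ?_, fun k hk D hD => ?_⟩
  · dsimp only
    split_ifs with h
    · exact ⟨(hAP.1 T).1, (hAP.1 T).2.1, fun t ht => by rw [h]; exact (hAP.1 T).2.2.2 t ht⟩
    · exact ⟨MeasurableSet.empty, Set.empty_subset _, fun t ht => ht.elim⟩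
  · refine hvol.congr' ?_
    filter_upwards [he] with T hT
    rw [if_pos hT, hT]
  -- the domains for the other path
  obtain ⟨D', hD', hDe⟩ : ∃ D' : ℝ → Set ℝ, Adm c k E D' ∧ ∀ᶠ T in atTop, D' T = D T := by
    rcases hD with h | h
    · refine ⟨fun T => Set.Icc 0 T \ E T, Or.inl ⟨h.1, fun T => rfl⟩, ?_⟩
      filter_upwards [he] with T hT
      rw [h.2 T]
      beta_reduce
      rw [if_pos hT]
    · refine ⟨fun T => Set.Icc 0 T, Or.inr ⟨h.1, fun T => rfl⟩, ?_⟩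
      filter_upwards with T
      rw [h.2 T]
  have hDm : ∀ T, MeasurableSet (D T) := by
    intro T
    rcases hD with h | h
    · rw [h.2 T]
      have h3 : MeasurableSet (if δ T = δ' T then E T else (∅ : Set ℝ)) := by
        by_cases h4 : δ T = δ' T
        · rw [if_pos h4]; exact (hAP.1 T).1
        · rw [if_neg h4]; exact MeasurableSet.empty
      exact measurableSet_Icc.diff h3
    · rw [h.2 T]
      exact measurableSet_Icc
  have hk0 := hKp k hk
  have hS1 : Sys k (fun a b B lam ε => Z0 k a b B lam (ε / 2))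
      (fun T t => ‖riemannZeta (1 / 2 + δ' T + (t : ℂ) * Complex.I)‖ ^ (2 * k)) D' (fun T => (2 * δ' T) ^ (k ^ 2) / T) := by
    have h1 := ap_sys hZ0 hd1 hd2 h0 hR0 hAP (RK_self hk hk0)
    rcases hD' with h | h
    · have e : D' = fun T => Set.Icc 0 T \ E T := funext h.2
      rw [e]
      exact h1.1 h.1
    · have e : D' = fun T => Set.Icc 0 T := funext h.2
      rw [e]
      exact h1.2 h.1
  refine ⟨hS1.congr ?_ hDe ?_ (fun T t => by positivity) hDm, ?_⟩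
  · filter_upwards [he] with T hT
    rw [hT]
  · filter_upwards [he] with T hT
    rw [hT]
  intro K A hK hKs ε hε n a ha F hF hom
  have hRk : ∀ (n N : ℕ) (p : Fin n → ℕ) (i : Fin (n + 1)), 0 < kv k N p i → kv k N p i ∈ RK K0 := fun n N p i h => RK_mem hk h
  have hMH := ap_MH hd1 hd2 hn hR0 hAP hk0 hD' hRk
  have hα : ∀ G : BoundedContinuousFunction (Fin n → ℂ) ℝ, Tendsto (fun T => (2 * δ' T) ^ (k ^ 2) / T *
      ∫ t in D' T ∩ {t | Zt K A ε t}, za (δ' T) 0 t ^ (2 * k) * G (fun j => zc (δ' T) (a j) t / zc (δ' T) 0 t)) atTop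
      (𝓝 (DL k (fun a b B lam ε => Z0 k a b B lam (ε / 2)) K A ε * ∫ ω, G (fun j => Complex.exp (lgv k a ω j)) ∂PG)) := by
    intro G
    obtain ⟨g, hg⟩ : ∃ g : ℝ → ℝ → ℝ, ∀ T t, g T t = G (fun j => zc (δ' T) (a j) t / zc (δ' T) 0 t) := ⟨_, fun _ _ => rfl⟩
    have hmG : |∫ ω, G (fun j => Complex.exp (lgv k a ω j)) ∂PG| ≤ ‖G‖ := by
      rw [← Real.norm_eq_abs]
      have h1 := norm_integral_le_of_norm_le_const (μ := PG) (f := fun ω => G (fun j => Complex.exp (lgv k a ω j))) (C := ‖G‖)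
        (Eventually.of_forall fun ω => G.norm_coe_le_norm _)
      simpa using h1
    have htw : ∀ (G : BoundedContinuousFunction (Fin n → ℂ) ℝ) (m n' : ℕ), m ≠ 0 → n' ≠ 0 → m.Coprime n' →
        Tendsto (fun T => (((2 * δ' T) ^ (k ^ 2) / T : ℝ) : ℂ) * ∫ t in D' T,
          ((‖riemannZeta (1 / 2 + δ' T + (t : ℂ) * Complex.I)‖ ^ (2 * k) *
            G (fun j => zc (δ' T) (a j) t / zc (δ' T) 0 t) : ℝ) : ℂ) * tws m n' t) atTop
        (𝓝 (((∫ ω, G (fun j => Complex.exp (lgv k a ω j)) ∂PG) * TwL k m n' : ℝ) : ℂ)) := by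
      intro G m n' hm hn' hmn
      have h2 := ap_tw hd1 hd2 hn hR0 hAP hk0 hD' hRk h0 a ha G hm hn' hmn
      simp_rw [za_zero] at h2
      exact h2
    have h2 := factor_law hk0 hK hKs A hS1 (G := g) (M := ‖G‖) (m := ∫ ω, G (fun j => Complex.exp (lgv k a ω j)) ∂PG)
      (fun T t => ?_) hmG ?_ ?_ ?_ hε
    · rw [mul_comm (DL _ _ _ _ _)]
      refine h2.congr fun T => ?_
      simp_rw [hg, za_zero]
    · rw [hg, ← Real.norm_eq_abs]
      exact G.norm_coe_le_norm _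
    · refine Eventually.of_forall fun T => ?_
      have cz : ∀ u, Continuous (zc (δ' T) u) := zc_cont (hn T).2
      have mr : Measurable fun t => fun j => zc (δ' T) (a j) t / zc (δ' T) 0 t :=
        measurable_pi_lambda _ fun j => (cz (a j)).measurable.div (cz 0).measurable
      have eg : g T = fun t => G (fun j => zc (δ' T) (a j) t / zc (δ' T) 0 t) := funext (hg T)
      rw [eg]
      exact (G.continuous.measurable.comp mr).aestronglyMeasurable
    · intro m n' hm hn' hmn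
      have h3 := htw (BoundedContinuousFunction.const _ 1) m n' hm hn' hmn
      simpa using h3
    · intro m n' hm hn' hmn
      have h3 := htw G m n' hm hn' hmn
      refine h3.congr fun T => ?_
      simp_rw [hg]
  have hfin := homogS hk0 hd1 hd2 (D := D') (D' := fun T => D' T ∩ {t | Zt K A ε t}) (fun T => (adm_D hAP hD' T).2)
    (fun T => Set.inter_subset_left) hMH h0 a ha hα hF hom
  simp_rw [fi_line]
  refine hfin.congr' ?_
  filter_upwards [he, hDe] with T h1 h2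
  rw [h1, h2]

end Pool.Agent.X107.MU
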