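import Pool.Agent.X107.MU.MU18
import Pool.Agent.Helper240.ZU.A1

/-! # A Poisson inequality for `ζ - D_N` in a half-plane -/

set_option autoImplicit false

namespace Pool.Agent.X107.MU

open Complex Filter Topology MeasureTheory Set
open Pool.Agent.H306R2 (Zt_differentiableAt Zt_norm_le zeta_eq_pos)
open ZU

/-- `(s - 1)(ζ(s) - D_N(s))` -/
noncomputable def RL (N : ℕ) (s : ℂ) : ℂ := Pool.Agent.H306R2.Zt s - (s - 1) * DN N s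

/-- `ζ - D_N` -/
noncomputable def zD (N : ℕ) (s : ℂ) : ℂ := riemannZeta s - DN N s

lemma DN_differentiable (N : ℕ) : Differentiable ℂ (DN N) := by
  unfold DN
  refine Differentiable.fun_sum fun n hn => ?_
  have hn0 : (n : ℂ) ≠ 0 := by
    have := (Finset.mem_Icc.1 hn).1
    exact_mod_cast (by omega : n ≠ 0)
  exact fun s => (differentiableAt_id.neg).const_cpow (Or.inl hn0)

lemma RL_eq {N : ℕ} {s : ℂ} (hs : 0 < s.re) (h1 : s ≠ 1) : RL N s = (s - 1) * zD N s := by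
  unfold RL zD
  rw [← zeta_eq_pos hs h1]
  ring

lemma frac_le {N : ℕ} (hN : 1 ≤ N) {s : ℂ} (hs : 0 < s.re) :
    ‖∫ u in Ioi (N : ℝ), ((Int.fract u : ℝ) : ℂ) * (u : ℂ) ^ (-s - 1)‖ ≤ (N : ℝ) ^ (-s.re) / s.re := by
  have hN0 : (0 : ℝ) < N := by exact_mod_cast hN
  have h1 : ∫ u in Ioi (N : ℝ), u ^ (-s.re - 1) = (N : ℝ) ^ (-s.re) / s.re := by
    rw [integral_Ioi_rpow_of_lt (by linarith) hN0]
    rw [show -s.re - 1 + 1 = -s.re by ring, div_neg, neg_div, neg_neg]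
  rw [← h1]
  refine norm_integral_le_of_norm_le (integrableOn_Ioi_rpow_of_lt (by linarith) hN0) ?_
  refine (ae_restrict_iff' measurableSet_Ioi).2 (Eventually.of_forall fun u hu => ?_)
  have hu0 : 0 < u := hN0.trans hu
  rw [norm_mul, Complex.norm_real, Real.norm_of_nonneg (Int.fract_nonneg u), Complex.norm_cpow_eq_rpow_re_of_pos hu0]
  have e : (-s - 1).re = -s.re - 1 := by simp
  rw [e]
  exact mul_le_of_le_one_left (by positivity) (Int.fract_lt_one u).le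

lemma RL_bound {N : ℕ} (hN : 1 ≤ N) {s : ℂ} (hs : 1 / 2 ≤ s.re) :
    ‖RL N s‖ * (N : ℝ) ^ s.re ≤ (N + 2) * (1 + ‖s‖) ^ 2 := by
  have hN0 : (0 : ℝ) < N := by exact_mod_cast hN
  have hs0 : 0 < s.re := by linarith
  have hn := norm_nonneg s
  by_cases h1 : s = 1
  · subst h1
    have e : RL N 1 = 1 := by unfold RL; rw [Pool.Agent.H306R2.Zt_one]; ring
    rw [e]
    simp
    nlinarith
  have e1 : RL N s = (N : ℂ) ^ (1 - s) - (s - 1) * (s * ∫ u in Ioi (N : ℝ), ((Int.fract u : ℝ) : ℂ) * (u : ℂ) ^ (-s - 1)) := by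
    rw [RL_eq hs0 h1]
    unfold zD
    rw [ZU.zeta_formula N hN s hs0 h1]
    have : s - 1 ≠ 0 := sub_ne_zero.2 h1
    field_simp
    ring
  have h2 := frac_le hN hs0
  have h3 : ‖(N : ℂ) ^ (1 - s)‖ = (N : ℝ) ^ (1 - s.re) := by
    rw [Complex.norm_natCast_cpow_of_pos hN]
    simp
  have h4 : ‖s - 1‖ ≤ 1 + ‖s‖ := by
    have := norm_sub_le s 1
    rw [norm_one] at this
    linarith
  have h5 : (N : ℝ) ^ (-s.re) / s.re ≤ 2 * (N : ℝ) ^ (-s.re) := by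
    rw [div_le_iff₀ hs0]
    have : 0 ≤ (N : ℝ) ^ (-s.re) := by positivity
    nlinarith
  have h6 : ‖RL N s‖ ≤ (N : ℝ) ^ (1 - s.re) + (1 + ‖s‖) * (‖s‖ * (2 * (N : ℝ) ^ (-s.re))) := by
    rw [e1]
    refine (norm_sub_le _ _).trans ?_
    rw [h3, norm_mul, norm_mul]
    refine add_le_add_right ?_ _
    refine mul_le_mul h4 ?_ (by positivity) (by positivity)
    exact mul_le_mul_of_nonneg_left (h2.trans h5) hn
  have h7 : 0 ≤ (N : ℝ) ^ s.re := by positivity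
  have e2 : (N : ℝ) ^ (1 - s.re) * (N : ℝ) ^ s.re = N := by
    rw [← Real.rpow_add hN0]; simp
  have e3 : (N : ℝ) ^ (-s.re) * (N : ℝ) ^ s.re = 1 := by
    rw [← Real.rpow_add hN0]; simp
  have h8 := mul_le_mul_of_nonneg_right h6 h7
  have h9 : ((N : ℝ) ^ (1 - s.re) + (1 + ‖s‖) * (‖s‖ * (2 * (N : ℝ) ^ (-s.re)))) * (N : ℝ) ^ s.re =
      N + (1 + ‖s‖) * ‖s‖ * 2 := by
    rw [add_mul, e2]
    calc _ = (N : ℝ) + (1 + ‖s‖) * ‖s‖ * 2 * ((N : ℝ) ^ (-s.re) * (N : ℝ) ^ s.re) := by ring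
      _ = _ := by rw [e3, mul_one]
  rw [h9] at h8
  refine h8.trans ?_
  nlinarith [mul_nonneg hN0.le hn, mul_nonneg hN0.le (mul_nonneg hn hn)]

lemma RL_diff {N : ℕ} {s : ℂ} (hs : 0 < s.re) : DifferentiableAt ℂ (RL N) s := by
  unfold RL
  have h1 := Zt_differentiableAt hs
  have h2 := (DN_differentiable N) s
  fun_prop

/-- the auxiliary function -/
noncomputable def Hr (N : ℕ) (M : ℕ) (s0 w : ℂ) : ℂ :=
  RL N (s0 + w) / (s0 + w + 1) * (N : ℂ) ^ w * ((1 + w / ((1 : ℝ) : ℂ)) ^ M)⁻¹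

lemma Hr_diff {N : ℕ} (hN : 1 ≤ N) (M : ℕ) {s0 : ℂ} (hs0 : 1 / 2 ≤ s0.re) {w : ℂ} (hw : 0 ≤ w.re) :
    DifferentiableAt ℂ (Hr N M s0) w := by
  unfold Hr
  have hN0 : (N : ℂ) ≠ 0 := by exact_mod_cast (by omega : N ≠ 0)
  have h1 : 0 < (s0 + w).re := by rw [Complex.add_re]; linarith
  have h2 : s0 + w + 1 ≠ 0 := by
    intro h
    have := congrArg Complex.re h
    rw [Complex.add_re, Complex.one_re, Complex.zero_re] at this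
    linarith
  have h3 : (1 + w / ((1 : ℝ) : ℂ)) ^ M ≠ 0 := pow_ne_zero _ (one_add_ne one_pos hw)
  have h4 : DifferentiableAt ℂ (fun w => RL N (s0 + w)) w :=
    DifferentiableAt.comp w (f := fun w : ℂ => s0 + w) (RL_diff h1) (by fun_prop)
  have h5 : DifferentiableAt ℂ (fun w : ℂ => (N : ℂ) ^ w) w := differentiableAt_id.const_cpow (Or.inl hN0)
  exact ((h4.div (by fun_prop) h2).mul h5).mul (DifferentiableAt.inv (by fun_prop) h3)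

lemma Hr_bound {N : ℕ} (hN : 1 ≤ N) {M : ℕ} (hM : 3 ≤ M) {s0 : ℂ} (hs0 : 1 / 2 ≤ s0.re) :
    ∃ C : ℝ, ∀ w : ℂ, 0 ≤ w.re → ‖Hr N M s0 w‖ ≤ C / (1 + ‖w‖) := by
  refine ⟨(N + 2) * (1 + ‖s0‖) ^ 2 * 2 ^ M, fun w hw => ?_⟩
  unfold Hr
  have hN1 : (1 : ℝ) ≤ N := by exact_mod_cast hN
  have h1 : 1 / 2 ≤ (s0 + w).re := by rw [Complex.add_re]; linarith
  have h2 := RL_bound hN h1
  have h3 := one_le_norm_add (s := s0 + w) (by linarith)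
  have h4 := norm_one_add one_pos le_rfl hw
  have hw0 := norm_nonneg w
  have hs00 := norm_nonneg s0
  have h5 : 1 + ‖s0 + w‖ ≤ (1 + ‖s0‖) * (1 + ‖w‖) := by
    have := norm_add_le s0 w
    nlinarith
  have h6 : ((1 + ‖w‖) / 2) ^ M ≤ ‖1 + w / ((1 : ℝ) : ℂ)‖ ^ M := pow_le_pow_left₀ (by positivity) h4 M
  have h7 : ‖(N : ℂ) ^ w‖ = (N : ℝ) ^ w.re := Complex.norm_natCast_cpow_of_pos hN w
  rw [norm_mul, norm_mul, norm_div, norm_inv, norm_pow, h7]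
  have h8 : ‖RL N (s0 + w)‖ / ‖s0 + w + 1‖ * (N : ℝ) ^ w.re ≤ (N + 2) * ((1 + ‖s0‖) * (1 + ‖w‖)) ^ 2 := by
    calc _ ≤ ‖RL N (s0 + w)‖ * (N : ℝ) ^ (s0 + w).re := by
          refine mul_le_mul (div_le_self (norm_nonneg _) h3) ?_ (by positivity) (norm_nonneg _)
          exact Real.rpow_le_rpow_of_exponent_le hN1 (by rw [Complex.add_re]; linarith)
      _ ≤ (N + 2) * (1 + ‖s0 + w‖) ^ 2 := h2
      _ ≤ _ := by gcongr
  have h9 : (‖1 + w / ((1 : ℝ) : ℂ)‖ ^ M)⁻¹ ≤ (((1 + ‖w‖) / 2) ^ M)⁻¹ := inv_anti₀ (by positivity) h6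
  calc _ ≤ (N + 2) * ((1 + ‖s0‖) * (1 + ‖w‖)) ^ 2 * (((1 + ‖w‖) / 2) ^ M)⁻¹ :=
        mul_le_mul h8 h9 (by positivity) (by positivity)
    _ = (N + 2) * (1 + ‖s0‖) ^ 2 * 2 ^ M * ((1 + ‖w‖) ^ 2 / (1 + ‖w‖) ^ M) := by
        rw [div_pow, inv_div]
        ring
    _ ≤ (N + 2) * (1 + ‖s0‖) ^ 2 * 2 ^ M * (1 / (1 + ‖w‖)) := by
        refine mul_le_mul_of_nonneg_left ?_ (by positivity)
        rw [div_le_div_iff₀ (by positivity) (by positivity), one_mul, ← pow_succ]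
        exact pow_le_pow_right₀ (by linarith) hM
    _ = _ := by ring

/-- on the boundary -/
lemma Hr_bd {N : ℕ} (hN : 1 ≤ N) (t u : ℝ) :
    ‖Hr N 6 ((1 / 2 : ℂ) + t * I) (u * I)‖ ^ 4 ≤ ‖zD N (1 / 2 + ((t + u : ℝ) : ℂ) * I)‖ ^ 4 * ((1 + u ^ 2) ^ 12)⁻¹ := by
  have e : (1 / 2 : ℂ) + t * I + u * I = (1 / 2 : ℂ) + ((t + u : ℝ) : ℂ) * I := by push_cast; ring
  unfold Hr
  rw [e]
  have hre : ((1 / 2 : ℂ) + ((t + u : ℝ) : ℂ) * I).re = 1 / 2 := by simp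
  obtain ⟨s, hs⟩ : ∃ s, s = (1 / 2 : ℂ) + ((t + u : ℝ) : ℂ) * I := ⟨_, rfl⟩
  rw [← hs] at hre ⊢
  have hs1 : s ≠ 1 := by
    rintro h
    rw [h, Complex.one_re] at hre
    norm_num at hre
  rw [RL_eq (by rw [hre]; norm_num) hs1]
  have h3 : ‖s - 1‖ ≤ ‖s + 1‖ := by
    have h4 : ‖s - 1‖ ^ 2 ≤ ‖s + 1‖ ^ 2 := by
      rw [← Complex.normSq_eq_norm_sq, ← Complex.normSq_eq_norm_sq, Complex.normSq_apply, Complex.normSq_apply]
      simp only [Complex.sub_re, Complex.sub_im, Complex.add_re, Complex.add_im, Complex.one_re, Complex.one_im]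
      nlinarith
    exact norm_one_add.le_of_sq_le_sq h4 (norm_nonneg _)
  have h5 := one_le_norm_add (s := s) (by rw [hre]; norm_num)
  have h7 : ‖(N : ℂ) ^ ((u : ℂ) * I)‖ = 1 := by
    rw [Complex.norm_natCast_cpow_of_pos hN]
    simp
  have h8 : ‖(s - 1) * zD N s‖ / ‖s + 1‖ ≤ ‖zD N s‖ := by
    rw [norm_mul, div_le_iff₀ (by linarith), mul_comm]
    exact mul_le_mul_of_nonneg_left h3 (norm_nonneg _)
  have h9 : ‖1 + ((u : ℂ) * I) / ((1 : ℝ) : ℂ)‖ ^ 2 = 1 + u ^ 2 := by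
    rw [← Complex.normSq_eq_norm_sq, Complex.normSq_apply]
    simp
    ring
  rw [norm_mul, norm_mul, norm_div, norm_inv, norm_pow, h7, mul_one, mul_pow]
  refine mul_le_mul (pow_le_pow_left₀ (by positivity) h8 4) (le_of_eq ?_) (by positivity) (by positivity)
  rw [inv_pow, ← h9]
  ring

lemma zD_half {N : ℕ} (hN : 1 ≤ N) (v : ℝ) : ‖zD N (1 / 2 + (v : ℂ) * I)‖ ≤ 2 * (N + 2) * (2 + |v|) ^ 2 := by
  have hN1 : (1 : ℝ) ≤ N := by exact_mod_cast hN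
  obtain ⟨s, hs⟩ : ∃ s, s = (1 / 2 : ℂ) + (v : ℂ) * I := ⟨_, rfl⟩
  have hre : s.re = 1 / 2 := by rw [hs]; simp
  rw [← hs]
  have hs1 : s ≠ 1 := by
    rintro h
    rw [h, Complex.one_re] at hre
    norm_num at hre
  have h1 := RL_bound hN (s := s) (by rw [hre])
  rw [RL_eq (by rw [hre]; norm_num) hs1, norm_mul] at h1
  have h2 : 1 / 2 ≤ ‖s - 1‖ := by
    have := Complex.abs_re_le_norm (s - 1)
    rw [Complex.sub_re, Complex.one_re, hre] at this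
    norm_num at this
    linarith
  have h3 : 1 ≤ (N : ℝ) ^ s.re := Real.one_le_rpow hN1 (by rw [hre]; norm_num)
  have h4 : 1 + ‖s‖ ≤ 2 + |v| := by
    have : ‖s‖ ≤ ‖(1 / 2 : ℂ)‖ + ‖(v : ℂ) * I‖ := by rw [hs]; exact norm_add_le _ _
    rw [norm_mul, Complex.norm_I, mul_one, Complex.norm_real, Real.norm_eq_abs] at this
    norm_num at this
    linarith
  have h5 : 1 / 2 * ‖zD N s‖ ≤ ‖s - 1‖ * ‖zD N s‖ * (N : ℝ) ^ s.re := by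
    calc 1 / 2 * ‖zD N s‖ ≤ ‖s - 1‖ * ‖zD N s‖ := mul_le_mul_of_nonneg_right h2 (norm_nonneg _)
      _ ≤ _ := le_mul_of_one_le_right (by positivity) h3
  have h6 : (N + 2 : ℝ) * (1 + ‖s‖) ^ 2 ≤ (N + 2) * (2 + |v|) ^ 2 := by gcongr
  linarith

lemma zD_gr {N : ℕ} (hN : 1 ≤ N) (t u : ℝ) : ‖zD N (1 / 2 + ((t + u : ℝ) : ℂ) * I)‖ ^ 4 * ((1 + u ^ 2) ^ 12)⁻¹ ≤
    16 * (2 * (N + 2)) ^ 4 * (2 + |t|) ^ 8 * ((1 + u ^ 2) ^ 8)⁻¹ := by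
  have h1 := zD_half hN (t + u)
  have hu : |u| ^ 2 = u ^ 2 := sq_abs u
  have h2 : 2 + |t + u| ≤ (2 + |t|) * (1 + |u|) := by
    have := abs_add_le t u
    nlinarith [abs_nonneg t, abs_nonneg u]
  have h3 : (1 + |u|) ^ 2 ≤ 2 * (1 + u ^ 2) := by nlinarith [sq_nonneg (1 - |u|)]
  have h4 : (1 + |u|) ^ 8 ≤ 16 * (1 + u ^ 2) ^ 4 := by
    calc (1 + |u|) ^ 8 = ((1 + |u|) ^ 2) ^ 4 := by ring
      _ ≤ (2 * (1 + u ^ 2)) ^ 4 := by gcongr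
      _ = _ := by ring
  have h5 : ‖zD N (1 / 2 + ((t + u : ℝ) : ℂ) * I)‖ ^ 4 ≤ 16 * (2 * (N + 2)) ^ 4 * (2 + |t|) ^ 8 * (1 + u ^ 2) ^ 4 := by
    calc _ ≤ (2 * (N + 2) * (2 + |t + u|) ^ 2) ^ 4 := pow_le_pow_left₀ (norm_nonneg _) h1 4
      _ ≤ (2 * (N + 2) * ((2 + |t|) * (1 + |u|)) ^ 2) ^ 4 := by gcongr
      _ = (2 * (N + 2)) ^ 4 * (2 + |t|) ^ 8 * (1 + |u|) ^ 8 := by ring
      _ ≤ (2 * (N + 2)) ^ 4 * (2 + |t|) ^ 8 * (16 * (1 + u ^ 2) ^ 4) := by gcongr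
      _ = _ := by ring
  calc _ ≤ 16 * (2 * (N + 2)) ^ 4 * (2 + |t|) ^ 8 * (1 + u ^ 2) ^ 4 * ((1 + u ^ 2) ^ 12)⁻¹ := by gcongr
    _ = _ := by
      have : 0 < 1 + u ^ 2 := by positivity
      field_simp

lemma zD_cont (N : ℕ) {σ : ℝ} (hσ : σ < 1) : Continuous fun v : ℝ => zD N ((σ : ℂ) + (v : ℂ) * I) := by
  unfold zD
  refine Continuous.sub ?_ ((DN_differentiable N).continuous.comp (by fun_prop))
  rw [continuous_iff_continuousAt]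
  intro v
  exact ContinuousAt.comp (f := fun v : ℝ => (σ : ℂ) + (v : ℂ) * I)
    (differentiableAt_riemannZeta (line_ne hσ v)).continuousAt (by fun_prop)

lemma zD_cont_half (N : ℕ) : Continuous fun v : ℝ => ‖zD N (1 / 2 + (v : ℂ) * I)‖ ^ 4 := by
  have := zD_cont N (σ := 1 / 2) (by norm_num)
  have e : (((1 / 2 : ℝ)) : ℂ) = 1 / 2 := by push_cast; rfl
  rw [e] at this
  exact this.norm.pow 4

lemma zD_int {N : ℕ} (hN : 1 ≤ N) {d : ℝ} (hd : 0 < d) (t : ℝ) :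
    Integrable fun u : ℝ => ‖zD N (1 / 2 + ((t + u : ℝ) : ℂ) * I)‖ ^ 4 * ((1 + u ^ 2) ^ 12)⁻¹ * Pk d u := by
  have hc : Continuous fun u : ℝ => ‖zD N (1 / 2 + ((t + u : ℝ) : ℂ) * I)‖ ^ 4 * ((1 + u ^ 2) ^ 12)⁻¹ * Pk d u := by
    refine (((zD_cont_half N).comp (by fun_prop : Continuous fun u : ℝ => t + u)).mul ?_).mul (Pk_cont hd)
    refine Continuous.inv₀ (by fun_prop) fun u => ?_
    positivity
  refine Integrable.mono' ((Pk_integrable hd).const_mul (16 * (2 * ((N : ℝ) + 2)) ^ 4 * (2 + |t|) ^ 8)) hc.aestronglyMeasurable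
    (Eventually.of_forall fun u => ?_)
  have hk := Pk_nonneg hd u
  rw [Real.norm_of_nonneg (by positivity)]
  refine mul_le_mul_of_nonneg_right ((zD_gr hN t u).trans ?_) hk
  refine mul_le_of_le_one_right (by positivity) (inv_le_one_of_one_le₀ (one_le_pow₀ ?_))
  nlinarith [sq_nonneg u]

/-- **The pointwise inequality.** -/
theorem zD_point {N : ℕ} (hN : 1 ≤ N) {d t : ℝ} (hd : 0 < d) (hd2 : d < 1 / 2) (ht : 1 ≤ |t|) :
    ‖zD N (((1 / 2 + d : ℝ) : ℂ) + t * I)‖ ^ 4 * ((N : ℝ) ^ d) ^ 4 ≤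
      192 ^ 4 * ∫ u : ℝ, ‖zD N (1 / 2 + ((t + u : ℝ) : ℂ) * I)‖ ^ 4 * ((1 + u ^ 2) ^ 12)⁻¹ * Pk d u := by
  have hN1 : (1 : ℝ) ≤ N := by exact_mod_cast hN
  have hs0 : 1 / 2 ≤ ((1 / 2 : ℂ) + t * I).re := by simp
  obtain ⟨C, hC⟩ := Hr_bound hN (show 3 ≤ 6 by norm_num) hs0
  have h2 := hardy_p (p := 4) (by norm_num) hd (H := Hr N 6 ((1 / 2 : ℂ) + t * I)) (fun z hz => Hr_diff hN 6 hs0 hz) hC
  have e4 : ∀ x : ℝ, x ^ (4 : ℝ) = x ^ 4 := fun x => by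
    rw [show (4 : ℝ) = ((4 : ℕ) : ℝ) by norm_num, Real.rpow_natCast]
  simp_rw [e4] at h2
  have e : (1 / 2 : ℂ) + t * I + (d : ℂ) = ((1 / 2 + d : ℝ) : ℂ) + t * I := by push_cast; ring
  obtain ⟨s, hs⟩ : ∃ s, s = ((1 / 2 + d : ℝ) : ℂ) + t * I := ⟨_, rfl⟩
  have hre : s.re = 1 / 2 + d := by rw [hs]; simp
  have him : s.im = t := by rw [hs]; simp
  have hs1 : s ≠ 1 := by
    rintro h
    rw [h, Complex.one_re] at hre
    linarith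
  have h3 : ‖Hr N 6 ((1 / 2 : ℂ) + t * I) d‖ = ‖s - 1‖ * ‖zD N s‖ / ‖s + 1‖ * (N : ℝ) ^ d * ((1 + d) ^ 6)⁻¹ := by
    unfold Hr
    rw [e, ← hs, RL_eq (by rw [hre]; linarith) hs1, norm_mul, norm_mul, norm_div, norm_inv, norm_pow, norm_mul,
      Complex.norm_natCast_cpow_of_pos hN]
    have e5 : ‖(1 : ℂ) + (d : ℂ) / ((1 : ℝ) : ℂ)‖ = 1 + d := by
      have : (1 : ℂ) + (d : ℂ) / ((1 : ℝ) : ℂ) = ((1 + d : ℝ) : ℂ) := by push_cast; ring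
      rw [this, Complex.norm_real, Real.norm_of_nonneg (by linarith)]
    rw [e5, Complex.ofReal_re]
  have h4 : 1 ≤ ‖s - 1‖ := by
    have := Complex.abs_im_le_norm (s - 1)
    rw [Complex.sub_im, Complex.one_im, sub_zero, him] at this
    linarith
  have h5 : ‖s + 1‖ ≤ 3 * ‖s - 1‖ := by
    have : s + 1 = (s - 1) + 2 := by ring
    rw [this]
    refine (norm_add_le _ _).trans ?_
    rw [Complex.norm_ofNat]
    linarith
  have h6 := one_le_norm_add (s := s) (by rw [hre]; linarith)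
  have h7 : ‖zD N s‖ * (N : ℝ) ^ d ≤ 192 * ‖Hr N 6 ((1 / 2 : ℂ) + t * I) d‖ := by
    rw [h3]
    have h8 : 1 / 3 ≤ ‖s - 1‖ / ‖s + 1‖ := by
      rw [div_le_div_iff₀ (by norm_num) (by linarith)]
      linarith
    have h9 : 1 / 64 ≤ ((1 + d) ^ 6)⁻¹ := by
      rw [one_div]
      refine inv_anti₀ (by positivity) ?_
      calc (1 + d) ^ 6 ≤ 2 ^ 6 := pow_le_pow_left₀ (by linarith) (by linarith) 6
        _ = 64 := by norm_num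
    have h10 : 0 ≤ ‖zD N s‖ * (N : ℝ) ^ d := by positivity
    have h11 : 1 / 3 * (1 / 64) ≤ ‖s - 1‖ / ‖s + 1‖ * ((1 + d) ^ 6)⁻¹ :=
      mul_le_mul h8 h9 (by norm_num) (by positivity)
    calc ‖zD N s‖ * (N : ℝ) ^ d = 192 * ((1 / 3 * (1 / 64)) * (‖zD N s‖ * (N : ℝ) ^ d)) := by ring
      _ ≤ 192 * ((‖s - 1‖ / ‖s + 1‖ * ((1 + d) ^ 6)⁻¹) * (‖zD N s‖ * (N : ℝ) ^ d)) := by gcongr
      _ = _ := by ring
  have hpi := Real.pi_gt_three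
  have hint : 0 ≤ ∫ t_1 : ℝ, ‖Hr N 6 ((1 / 2 : ℂ) + t * I) (t_1 * I)‖ ^ 4 * (d / (d ^ 2 + t_1 ^ 2)) :=
    integral_nonneg fun u => by positivity
  have h8 : ‖Hr N 6 ((1 / 2 : ℂ) + t * I) d‖ ^ 4 ≤
      ∫ u : ℝ, ‖zD N (1 / 2 + ((t + u : ℝ) : ℂ) * I)‖ ^ 4 * ((1 + u ^ 2) ^ 12)⁻¹ * Pk d u := by
    have h9 : (1 / Real.pi) * ∫ t_1 : ℝ, ‖Hr N 6 ((1 / 2 : ℂ) + t * I) (t_1 * I)‖ ^ 4 * (d / (d ^ 2 + t_1 ^ 2)) ≤
        ∫ t_1 : ℝ, ‖Hr N 6 ((1 / 2 : ℂ) + t * I) (t_1 * I)‖ ^ 4 * (d / (d ^ 2 + t_1 ^ 2)) := by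
      refine mul_le_of_le_one_left hint ?_
      rw [div_le_one (by linarith)]
      linarith
    refine h2.trans (h9.trans ?_)
    refine integral_mono_of_nonneg (Eventually.of_forall fun u => by positivity) (zD_int hN hd t)
      (Eventually.of_forall fun u => ?_)
    exact mul_le_mul_of_nonneg_right (Hr_bd hN t u) (Pk_nonneg hd u)
  calc ‖zD N (((1 / 2 + d : ℝ) : ℂ) + t * I)‖ ^ 4 * ((N : ℝ) ^ d) ^ 4 = (‖zD N s‖ * (N : ℝ) ^ d) ^ 4 := by rw [← hs]; ring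
    _ ≤ (192 * ‖Hr N 6 ((1 / 2 : ℂ) + t * I) d‖) ^ 4 := pow_le_pow_left₀ (by positivity) h7 4
    _ = 192 ^ 4 * ‖Hr N 6 ((1 / 2 : ℂ) + t * I) d‖ ^ 4 := by ring
    _ ≤ _ := mul_le_mul_of_nonneg_left h8 (by norm_num)

end Pool.Agent.X107.MU
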