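import Pool.Agent.X107.MU.MU34

/-! # The integrated inequality for `ζ - D_N` -/

set_option autoImplicit false

namespace Pool.Agent.X107.MU

open Complex Filter Topology MeasureTheory Set
open ZU

/-- a constant -/
noncomputable def K35 : ℝ := 16 * 6 ^ 4 * 3 ^ 8

lemma zD_inner {N : ℕ} (hN : 1 ≤ N) {X G : ℝ} (hX : 1 ≤ X)
    (hG : ∫ v in Icc (-(2 * X)) (2 * X), ‖zD N (1 / 2 + (v : ℂ) * I)‖ ^ 4 ≤ G) (u : ℝ) :
    ∫ t in Icc 1 X, ‖zD N (1 / 2 + ((t + u : ℝ) : ℂ) * I)‖ ^ 4 * ((1 + u ^ 2) ^ 12)⁻¹ ≤ G + K35 * (N ^ 4 / X ^ 7) := by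
  have hN1 : (1 : ℝ) ≤ N := by exact_mod_cast hN
  have hX0 : 0 < X := by linarith
  obtain ⟨g, hg⟩ : ∃ g : ℝ → ℝ, g = fun v : ℝ => ‖zD N (1 / 2 + (v : ℂ) * I)‖ ^ 4 := ⟨_, rfl⟩
  have hgc : Continuous g := by rw [hg]; exact zD_cont_half N
  have hg0 : ∀ v, 0 ≤ g v := fun v => by rw [hg]; positivity
  have hge : ∀ t, ‖zD N (1 / 2 + ((t + u : ℝ) : ℂ) * I)‖ ^ 4 = g (t + u) := fun t => by rw [hg]
  have hG0 : 0 ≤ G := le_trans (integral_nonneg fun v => by positivity) hG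
  have hgs : Continuous fun t => g (t + u) := hgc.comp (by fun_prop)
  have hK : 0 ≤ K35 * (N ^ 4 / X ^ 7) := by unfold K35; positivity
  have hiu : 1 ≤ (1 + u ^ 2) ^ 12 := one_le_pow₀ (by nlinarith [sq_nonneg u])
  rcases le_or_gt |u| X with hu | hu
  · have h1 : ∫ t in Icc 1 X, ‖zD N (1 / 2 + ((t + u : ℝ) : ℂ) * I)‖ ^ 4 * ((1 + u ^ 2) ^ 12)⁻¹ ≤ ∫ t in Icc 1 X, g (t + u) := by
      refine setIntegral_mono_on ?_ (hgs.continuousOn.integrableOn_compact isCompact_Icc) measurableSet_Icc fun t _ => ?_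
      · simp_rw [hge]
        exact (hgs.mul continuous_const).continuousOn.integrableOn_compact isCompact_Icc
      · rw [hge]
        exact mul_le_of_le_one_right (hg0 _) (inv_le_one_of_one_le₀ hiu)
    have h2 : ∫ t in Icc 1 X, g (t + u) ≤ ∫ v in Icc (-(2 * X)) (2 * X), g v := by
      have e : ∫ t, (Icc (-(2 * X)) (2 * X)).indicator g (t + u) = ∫ v in Icc (-(2 * X)) (2 * X), g v := by
        rw [integral_add_right_eq_self ((Icc (-(2 * X)) (2 * X)).indicator g) u, integral_indicator measurableSet_Icc]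
      rw [← e, ← integral_indicator measurableSet_Icc]
      refine integral_mono_of_nonneg (Eventually.of_forall fun t => indicator_nonneg (fun x _ => hg0 _) t)
        (((hgc.continuousOn.integrableOn_compact isCompact_Icc).integrable_indicator measurableSet_Icc).comp_add_right u)
        (Eventually.of_forall fun t => ?_)
      show (Icc 1 X).indicator (fun t => g (t + u)) t ≤ (Icc (-(2 * X)) (2 * X)).indicator g (t + u)
      by_cases ht : t ∈ Icc 1 X
      · have h3 := abs_le.1 hu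
        have h4 : t + u ∈ Icc (-(2 * X)) (2 * X) := ⟨by linarith [ht.1, h3.1], by linarith [ht.2, h3.2]⟩
        rw [indicator_of_mem ht, indicator_of_mem h4]
      · rw [indicator_of_notMem ht]
        exact indicator_nonneg (fun x _ => hg0 _) _
    have h3 : ∫ v in Icc (-(2 * X)) (2 * X), g v ≤ G := by rw [hg]; exact hG
    linarith
  · have hb : ∀ t ∈ Icc 1 X, ‖zD N (1 / 2 + ((t + u : ℝ) : ℂ) * I)‖ ^ 4 * ((1 + u ^ 2) ^ 12)⁻¹ ≤ K35 * (N ^ 4 / X ^ 8) := by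
      intro t ht
      refine (zD_gr hN t u).trans ?_
      have h1 : 2 + |t| ≤ 3 * X := by
        rw [abs_of_nonneg (by linarith [ht.1])]
        linarith [ht.2]
      have h2 : (X ^ 16) ≤ (1 + u ^ 2) ^ 8 := by
        calc X ^ 16 = (X ^ 2) ^ 8 := by ring
          _ ≤ (1 + u ^ 2) ^ 8 := by
            refine pow_le_pow_left₀ (by positivity) ?_ 8
            have : X ^ 2 ≤ |u| ^ 2 := pow_le_pow_left₀ hX0.le hu.le 2
            rw [sq_abs] at this
            linarith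
      have h3 : ((1 + u ^ 2) ^ 8)⁻¹ ≤ (X ^ 16)⁻¹ := inv_anti₀ (by positivity) h2
      have h4 : 2 * ((N : ℝ) + 2) ≤ 6 * N := by linarith
      calc _ ≤ 16 * (6 * (N : ℝ)) ^ 4 * (3 * X) ^ 8 * (X ^ 16)⁻¹ := by
            gcongr
        _ = K35 * (N ^ 4 / X ^ 8) := by
            unfold K35
            field_simp
    have h1 : ∫ t in Icc 1 X, ‖zD N (1 / 2 + ((t + u : ℝ) : ℂ) * I)‖ ^ 4 * ((1 + u ^ 2) ^ 12)⁻¹ ≤
        ∫ _t in Icc 1 X, K35 * ((N : ℝ) ^ 4 / X ^ 8) := by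
      refine setIntegral_mono_on ?_ (integrableOn_const (by rw [Real.volume_Icc]; exact ENNReal.ofReal_ne_top)) measurableSet_Icc hb
      simp_rw [hge]
      exact (hgs.mul continuous_const).continuousOn.integrableOn_compact isCompact_Icc
    rw [setIntegral_const, smul_eq_mul] at h1
    have h2 : (volume : Measure ℝ).real (Icc 1 X) ≤ X := by
      rw [Measure.real, Real.volume_Icc, ENNReal.toReal_ofReal (by linarith)]
      linarith
    have h3 : (volume : Measure ℝ).real (Icc 1 X) * (K35 * ((N : ℝ) ^ 4 / X ^ 8)) ≤ X * (K35 * (N ^ 4 / X ^ 8)) :=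
      mul_le_mul_of_nonneg_right h2 (by unfold K35; positivity)
    have h4 : X * (K35 * ((N : ℝ) ^ 4 / X ^ 8)) = K35 * (N ^ 4 / X ^ 7) := by
      field_simp
    linarith

theorem zD_mean {N : ℕ} (hN : 1 ≤ N) {d X G : ℝ} (hd : 0 < d) (hd2 : d < 1 / 2) (hX : 1 ≤ X)
    (hG : ∫ v in Icc (-(2 * X)) (2 * X), ‖zD N (1 / 2 + (v : ℂ) * I)‖ ^ 4 ≤ G) :
    (∫ t in Icc 1 X, ‖zD N (((1 / 2 + d : ℝ) : ℂ) + t * I)‖ ^ 4) * ((N : ℝ) ^ d) ^ 4 ≤
      192 ^ 4 * (4 * (G + K35 * (N ^ 4 / X ^ 7))) := by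
  have hX0 : 0 < X := by linarith
  obtain ⟨h, hh⟩ : ∃ h : ℝ → ℝ → ℝ, h = fun t u =>
    ‖zD N (1 / 2 + ((t + u : ℝ) : ℂ) * I)‖ ^ 4 * ((1 + u ^ 2) ^ 12)⁻¹ * Pk d u := ⟨_, rfl⟩
  have hc : Continuous (Function.uncurry h) := by
    have e : Function.uncurry h = fun q : ℝ × ℝ => ‖zD N (1 / 2 + ((q.1 + q.2 : ℝ) : ℂ) * I)‖ ^ 4 * ((1 + q.2 ^ 2) ^ 12)⁻¹ * Pk d q.2 := by
      rw [hh]; rfl
    rw [e]
    refine (((zD_cont_half N).comp (by fun_prop : Continuous fun q : ℝ × ℝ => q.1 + q.2)).mul ?_).mul ((Pk_cont hd).comp continuous_snd)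
    refine Continuous.inv₀ (by fun_prop) fun q => ?_
    positivity
  have hprod : Integrable (Function.uncurry h) ((volume.restrict (Icc 1 X)).prod volume) := by
    have i1 : Integrable (fun t : ℝ => 16 * (2 * ((N : ℝ) + 2)) ^ 4 * (2 + |t|) ^ 8) (volume.restrict (Icc 1 X)) :=
      (by fun_prop : Continuous fun t : ℝ => 16 * (2 * ((N : ℝ) + 2)) ^ 4 * (2 + |t|) ^ 8).continuousOn.integrableOn_compact isCompact_Icc
    refine Integrable.mono' (i1.mul_prod (Pk_integrable hd)) hc.aestronglyMeasurable (Eventually.of_forall fun q => ?_)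
    have hk := Pk_nonneg hd q.2
    rw [hh]
    show ‖‖zD N (1 / 2 + ((q.1 + q.2 : ℝ) : ℂ) * I)‖ ^ 4 * ((1 + q.2 ^ 2) ^ 12)⁻¹ * Pk d q.2‖ ≤ _
    rw [Real.norm_of_nonneg (by positivity)]
    refine mul_le_mul_of_nonneg_right ((zD_gr hN q.1 q.2).trans ?_) hk
    refine mul_le_of_le_one_right (by positivity) (inv_le_one_of_one_le₀ (one_le_pow₀ ?_))
    nlinarith [sq_nonneg q.2]
  have h1 : (∫ t in Icc 1 X, ‖zD N (((1 / 2 + d : ℝ) : ℂ) + t * I)‖ ^ 4) * ((N : ℝ) ^ d) ^ 4 ≤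
      192 ^ 4 * ∫ t in Icc 1 X, ∫ u, h t u := by
    rw [← integral_mul_const, ← integral_const_mul]
    refine setIntegral_mono_on ?_ (hprod.integral_prod_left.const_mul _) measurableSet_Icc fun t ht => ?_
    · exact (((zD_cont N (σ := 1 / 2 + d) (by linarith)).norm.pow 4).mul continuous_const).continuousOn.integrableOn_compact isCompact_Icc
    · have := zD_point hN hd hd2 (t := t) (by rw [abs_of_nonneg (by linarith [ht.1])]; exact ht.1)
      rw [hh]
      exact this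
  have h2 : ∫ t in Icc 1 X, ∫ u, h t u = ∫ u, ∫ t in Icc 1 X, h t u := integral_integral_swap hprod
  have h3 : ∫ u, ∫ t in Icc 1 X, h t u ≤ ∫ u, (G + K35 * (N ^ 4 / X ^ 7)) * Pk d u := by
    refine integral_mono_of_nonneg (Eventually.of_forall fun u => integral_nonneg fun t => ?_) ((Pk_integrable hd).const_mul _)
      (Eventually.of_forall fun u => ?_)
    · have hk := Pk_nonneg hd u
      rw [hh]
      show 0 ≤ ‖zD N (1 / 2 + ((t + u : ℝ) : ℂ) * I)‖ ^ 4 * ((1 + u ^ 2) ^ 12)⁻¹ * Pk d u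
      positivity
    · show ∫ t in Icc 1 X, h t u ≤ (G + K35 * (N ^ 4 / X ^ 7)) * Pk d u
      rw [hh]
      simp only
      rw [integral_mul_const]
      exact mul_le_mul_of_nonneg_right (zD_inner hN hX hG u) (Pk_nonneg hd u)
  rw [integral_const_mul, Pk_integral hd] at h3
  have hK : 0 ≤ K35 * ((N : ℝ) ^ 4 / X ^ 7) := by unfold K35; positivity
  have hG0 : 0 ≤ G := le_trans (integral_nonneg fun v => by positivity) hG
  have h4 : (G + K35 * ((N : ℝ) ^ 4 / X ^ 7)) * Real.pi ≤ 4 * (G + K35 * (N ^ 4 / X ^ 7)) := by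
    rw [mul_comm]
    exact mul_le_mul_of_nonneg_right Real.pi_le_four (by linarith)
  rw [h2] at h1
  refine h1.trans (mul_le_mul_of_nonneg_left (h3.trans h4) (by norm_num))

end Pool.Agent.X107.MU
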