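import Pool.Agent.X107.MU.MU35
import Pool.Agent.TH158.FM.Main
import Pool.Agent.TH928.GS.MV
import Pool.Agent.H510R2.Div

/-! # The fourth moment of `ζ - D_N` on the critical line -/

set_option autoImplicit false

namespace Pool.Agent.X107.MU

open Complex Filter Topology MeasureTheory Set
open ZU

/-- the number of factorisations with both factors at most `N` -/
def bN (N m : ℕ) : ℕ := ((Finset.Icc 1 N ×ˢ Finset.Icc 1 N).filter fun q => q.1 * q.2 = m).card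

lemma bN_le (N : ℕ) {m : ℕ} (hm : 1 ≤ m) : bN N m ≤ m.divisors.card := by
  unfold bN
  refine Finset.card_le_card_of_injOn (fun q => q.1) ?_ ?_
  · intro q hq
    have h1 := (Finset.mem_filter.1 hq).2
    rw [Finset.mem_coe, Nat.mem_divisors]
    exact ⟨⟨q.2, h1.symm⟩, by omega⟩
  · intro q hq q' hq' h
    have h1 := (Finset.mem_filter.1 hq).2
    have h2 := (Finset.mem_filter.1 hq').2
    have h3 := (Finset.mem_Icc.1 (Finset.mem_product.1 (Finset.mem_filter.1 hq).1).1).1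
    simp only at h
    refine Prod.ext h ?_
    rw [← h2, ← h] at h1
    exact Nat.eq_of_mul_eq_mul_left h3 h1

lemma DN_sq (N : ℕ) (s : ℂ) : DN N s ^ 2 = ∑ m ∈ Finset.Icc 1 (N * N), (bN N m : ℂ) * (m : ℂ) ^ (-s) := by
  unfold DN
  rw [sq, Finset.sum_mul_sum, ← Finset.sum_product']
  have h1 : ∀ q ∈ Finset.Icc 1 N ×ˢ Finset.Icc 1 N, q.1 * q.2 ∈ Finset.Icc 1 (N * N) := by
    intro q hq
    rw [Finset.mem_product, Finset.mem_Icc, Finset.mem_Icc] at hq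
    rw [Finset.mem_Icc]
    exact ⟨Nat.mul_pos hq.1.1 hq.2.1, Nat.mul_le_mul hq.1.2 hq.2.2⟩
  rw [← Finset.sum_fiberwise_of_maps_to h1]
  refine Finset.sum_congr rfl fun m _ => ?_
  have h2 : ∀ q ∈ (Finset.Icc 1 N ×ˢ Finset.Icc 1 N).filter (fun q => q.1 * q.2 = m),
      (q.1 : ℂ) ^ (-s) * (q.2 : ℂ) ^ (-s) = (m : ℂ) ^ (-s) := by
    intro q hq
    rw [← (Finset.mem_filter.1 hq).2, Nat.cast_mul, Complex.natCast_mul_natCast_cpow]
  rw [Finset.sum_congr rfl h2, Finset.sum_const, nsmul_eq_mul]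
  rfl

lemma DN_four {ε : ℝ} (hε : 0 < ε) : ∃ C : ℝ, 0 < C ∧ ∀ (X : ℝ) (N : ℕ), 1 ≤ X → 1 ≤ N → (N : ℝ) ^ 2 ≤ X →
    ∫ v in (0 : ℝ)..(2 * X), ‖DN N (1 / 2 + (v : ℂ) * I)‖ ^ 4 ≤ C * X ^ (1 + 4 * ε) := by
  obtain ⟨C1, hC1, hmv⟩ := Pool.Agent.TH928.GS.t_MV
  obtain ⟨C2, hC2, hdiv⟩ := Pool.Agent.H510R2.divisor_bound ε hε
  have hsum : Summable fun n : ℕ => (n : ℝ) ^ (-(1 + 2 * ε)) := by
    rw [Real.summable_nat_rpow]
    linarith
  obtain ⟨S, hS⟩ : ∃ S, S = ∑' n : ℕ, (n : ℝ) ^ (-(1 + 2 * ε)) := ⟨_, rfl⟩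
  have hS0 : 0 ≤ S := by rw [hS]; exact tsum_nonneg fun n => by positivity
  refine ⟨C1 * (2 * (C2 ^ 2 * S)) + 1, by positivity, fun X N hX hN hNX => ?_⟩
  have hX0 : 0 < X := by linarith
  have hNN : ((N * N : ℕ) : ℝ) ≤ X := by push_cast; rw [← sq]; exact hNX
  have h1 := hmv X (N * N) (fun m => (bN N m : ℂ) * (m : ℂ) ^ (-(1 / 2 : ℂ))) hX (by nlinarith)
  have h2 : ∀ v : ℝ, ‖∑ m ∈ Finset.Icc 1 (N * N), (bN N m : ℂ) * (m : ℂ) ^ (-(1 / 2 : ℂ)) * (m : ℂ) ^ (-(I * (v : ℂ)))‖ ^ 2 =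
      ‖DN N (1 / 2 + (v : ℂ) * I)‖ ^ 4 := by
    intro v
    have e : ‖DN N (1 / 2 + (v : ℂ) * I)‖ ^ 4 = ‖DN N (1 / 2 + (v : ℂ) * I) ^ 2‖ ^ 2 := by
      rw [norm_pow]; ring
    rw [e, DN_sq]
    congr 2
    refine Finset.sum_congr rfl fun m hm => ?_
    have hm0 : (m : ℂ) ≠ 0 := by
      have := (Finset.mem_Icc.1 hm).1
      exact_mod_cast (by omega : m ≠ 0)
    rw [mul_assoc, ← Complex.cpow_add _ _ hm0]
    congr 2
    ring
  simp_rw [h2] at h1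
  refine h1.trans ?_
  have h3 : ∑ n ∈ Finset.Icc 1 (N * N), (X + n) * ‖(bN N n : ℂ) * (n : ℂ) ^ (-(1 / 2 : ℂ))‖ ^ 2 ≤
      2 * (C2 ^ 2 * S) * X ^ (1 + 4 * ε) := by
    have h4 : ∀ n ∈ Finset.Icc 1 (N * N), (X + n) * ‖(bN N n : ℂ) * (n : ℂ) ^ (-(1 / 2 : ℂ))‖ ^ 2 ≤
        2 * C2 ^ 2 * X ^ (1 + 4 * ε) * (n : ℝ) ^ (-(1 + 2 * ε)) := by
      intro n hn
      obtain ⟨hn1, hn2⟩ := Finset.mem_Icc.1 hn
      have hn1' : (1 : ℝ) ≤ n := by exact_mod_cast hn1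
      have hn0 : (0 : ℝ) < n := by linarith
      have hnX : (n : ℝ) ≤ X := le_trans (by exact_mod_cast hn2) hNN
      have h5 : ‖(bN N n : ℂ) * (n : ℂ) ^ (-(1 / 2 : ℂ))‖ ^ 2 ≤ (C2 * (n : ℝ) ^ ε) ^ 2 * (n : ℝ) ^ (-1 : ℝ) := by
        rw [norm_mul, mul_pow, Complex.norm_natCast, Complex.norm_natCast_cpow_of_pos hn1]
        have e : (((n : ℝ) ^ ((-(1 / 2 : ℂ)).re)) ^ 2) = (n : ℝ) ^ (-1 : ℝ) := by
          rw [← Real.rpow_natCast, ← Real.rpow_mul hn0.le]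
          congr 1
          simp
        rw [e]
        refine mul_le_mul_of_nonneg_right ?_ (by positivity)
        refine pow_le_pow_left₀ (Nat.cast_nonneg _) ?_ 2
        refine le_trans ?_ (hdiv n hn1)
        exact_mod_cast bN_le N hn1
      have h6 : (C2 * (n : ℝ) ^ ε) ^ 2 * (n : ℝ) ^ (-1 : ℝ) = C2 ^ 2 * ((n : ℝ) ^ (4 * ε) * (n : ℝ) ^ (-(1 + 2 * ε))) := by
        rw [mul_pow, ← Real.rpow_natCast ((n : ℝ) ^ ε) 2, ← Real.rpow_mul hn0.le, mul_assoc, ← Real.rpow_add hn0, ← Real.rpow_add hn0]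
        congr 2
        push_cast
        ring
      have h7 : (n : ℝ) ^ (4 * ε) ≤ X ^ (4 * ε) := Real.rpow_le_rpow hn0.le hnX (by positivity)
      have h8 : X ^ (1 + 4 * ε) = X * X ^ (4 * ε) := by rw [Real.rpow_add hX0, Real.rpow_one]
      have hp : 0 ≤ (n : ℝ) ^ (-(1 + 2 * ε)) := by positivity
      calc (X + n) * ‖(bN N n : ℂ) * (n : ℂ) ^ (-(1 / 2 : ℂ))‖ ^ 2 ≤ (2 * X) * (C2 ^ 2 * ((n : ℝ) ^ (4 * ε) * (n : ℝ) ^ (-(1 + 2 * ε)))) := by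
            refine mul_le_mul (by linarith) (h5.trans (le_of_eq h6)) (by positivity) (by positivity)
        _ ≤ (2 * X) * (C2 ^ 2 * (X ^ (4 * ε) * (n : ℝ) ^ (-(1 + 2 * ε)))) := by gcongr
        _ = _ := by rw [h8]; ring
    refine (Finset.sum_le_sum h4).trans ?_
    rw [← Finset.mul_sum]
    have h5 : ∑ n ∈ Finset.Icc 1 (N * N), (n : ℝ) ^ (-(1 + 2 * ε)) ≤ S := by
      rw [hS]
      exact hsum.sum_le_tsum _ fun n _ => by positivity
    calc _ ≤ 2 * C2 ^ 2 * X ^ (1 + 4 * ε) * S := mul_le_mul_of_nonneg_left h5 (by positivity)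
      _ = _ := by ring
  have h4 := mul_le_mul_of_nonneg_left h3 hC1.le
  have h5 : 0 ≤ X ^ (1 + 4 * ε) := by positivity
  nlinarith

lemma zD_conj (N : ℕ) (v : ℝ) : ‖zD N (1 / 2 + ((-v : ℝ) : ℂ) * I)‖ = ‖zD N (1 / 2 + (v : ℂ) * I)‖ := by
  have h1 : (1 / 2 : ℂ) + ((-v : ℝ) : ℂ) * I = (starRingEnd ℂ) (1 / 2 + (v : ℂ) * I) := by
    apply Complex.ext <;> simp
  have h2 : ∀ s : ℂ, zD N ((starRingEnd ℂ) s) = (starRingEnd ℂ) (zD N s) := by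
    intro s
    unfold zD DN
    rw [map_sub, map_sum, riemannZeta_conj]
    congr 1
    refine Finset.sum_congr rfl fun n hn => ?_
    rw [← map_neg, Complex.cpow_conj _ _ (by rw [Complex.natCast_arg]; exact Real.pi_ne_zero.symm), Complex.conj_natCast]
  rw [h1, h2, RCLike.norm_conj]

lemma log_pow_ev {ε : ℝ} (hε : 0 < ε) : ∀ᶠ X : ℝ in atTop, Real.log (2 * X) ^ 4 ≤ X ^ ε := by
  have h1 := ((isLittleO_log_rpow_atTop (r := ε / 8) (by positivity)).bound (show (0 : ℝ) < 1 by norm_num))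
  have h2 : Tendsto (fun X : ℝ => 2 * X) atTop atTop := tendsto_id.const_mul_atTop (by norm_num)
  filter_upwards [h2.eventually h1, eventually_ge_atTop (1 : ℝ), eventually_ge_atTop (2 : ℝ)] with X hX hX1 hX2
  have hX0 : 0 < X := by linarith
  have hl : 0 ≤ Real.log (2 * X) := Real.log_nonneg (by linarith)
  rw [one_mul, Real.norm_of_nonneg hl, Real.norm_of_nonneg (by positivity)] at hX
  have h3 : (2 * X) ^ (ε / 8) ≤ X ^ (ε / 4) := by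
    have : (2 * X) ≤ X ^ (2 : ℝ) := by
      rw [Real.rpow_two]
      nlinarith
    calc (2 * X) ^ (ε / 8) ≤ (X ^ (2 : ℝ)) ^ (ε / 8) := Real.rpow_le_rpow (by positivity) this (by positivity)
      _ = X ^ (ε / 4) := by rw [← Real.rpow_mul hX0.le]; congr 1; ring
  calc Real.log (2 * X) ^ 4 ≤ (X ^ (ε / 4)) ^ 4 := pow_le_pow_left₀ hl (hX.trans h3) 4
    _ = X ^ ε := by
      rw [← Real.rpow_natCast, ← Real.rpow_mul hX0.le]
      congr 1
      push_cast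
      ring

lemma zeta_four {ε : ℝ} (hε : 0 < ε) : ∀ᶠ X : ℝ in atTop,
    ∫ v in (0 : ℝ)..(2 * X), ‖riemannZeta (1 / 2 + (v : ℂ) * I)‖ ^ 4 ≤ 2 * X ^ (1 + ε) := by
  filter_upwards [log_pow_ev hε, eventually_ge_atTop (1000 : ℝ)] with X hX hX1
  have hX0 : 0 < X := by linarith
  have h1 := Pool.Agent.TH158.FM.fourth_all (2 * X) (by linarith)
  have e : ∀ v : ℝ, Pool.Agent.TH158.FM.pt (1 / 2) v = 1 / 2 + (v : ℂ) * I := fun v => by
    unfold Pool.Agent.TH158.FM.pt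
    push_cast
    ring
  simp_rw [e] at h1
  refine h1.trans ?_
  rw [Real.rpow_add hX0, Real.rpow_one]
  have h2 : X * Real.log (2 * X) ^ 4 ≤ X * X ^ ε := mul_le_mul_of_nonneg_left hX hX0.le
  have h3 : 0 ≤ X * X ^ ε := by positivity
  linarith

lemma zeta_half_cont : Continuous fun v : ℝ => ‖riemannZeta (1 / 2 + (v : ℂ) * I)‖ ^ 4 := by
  have h : Continuous fun v : ℝ => riemannZeta (((1 / 2 : ℝ) : ℂ) + (v : ℂ) * I) := by
    rw [continuous_iff_continuousAt]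
    intro v
    exact ContinuousAt.comp (f := fun v : ℝ => (((1 / 2 : ℝ) : ℂ)) + (v : ℂ) * I)
      (differentiableAt_riemannZeta (line_ne (by norm_num) v)).continuousAt (by fun_prop)
  have e : (((1 / 2 : ℝ)) : ℂ) = 1 / 2 := by push_cast; rfl
  rw [e] at h
  exact h.norm.pow 4

lemma four_add (a b : ℂ) : ‖a - b‖ ^ 4 ≤ 8 * (‖a‖ ^ 4 + ‖b‖ ^ 4) := by
  have h1 := norm_sub_le a b
  have h2 := pow_le_pow_left₀ (norm_nonneg _) h1 4
  have ha := norm_nonneg a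
  have hb := norm_nonneg b
  refine h2.trans ?_
  have h3 : (‖a‖ + ‖b‖) ^ 2 ≤ 2 * (‖a‖ ^ 2 + ‖b‖ ^ 2) := by nlinarith [sq_nonneg (‖a‖ - ‖b‖)]
  calc (‖a‖ + ‖b‖) ^ 4 = ((‖a‖ + ‖b‖) ^ 2) ^ 2 := by ring
    _ ≤ (2 * (‖a‖ ^ 2 + ‖b‖ ^ 2)) ^ 2 := pow_le_pow_left₀ (by positivity) h3 2
    _ ≤ _ := by nlinarith [sq_nonneg (‖a‖ ^ 2 - ‖b‖ ^ 2)]

/-- the fourth moment on the critical line -/
theorem zD_four {ε : ℝ} (hε : 0 < ε) : ∀ᶠ X : ℝ in atTop, ∀ N : ℕ, 1 ≤ N → (N : ℝ) ^ 2 ≤ X →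
    ∫ v in Icc (-(2 * X)) (2 * X), ‖zD N (1 / 2 + (v : ℂ) * I)‖ ^ 4 ≤ X ^ (1 + ε) := by
  obtain ⟨C, hC, hD⟩ := DN_four (show 0 < ε / 8 by positivity)
  have h0 := (tendsto_rpow_atTop (show 0 < ε / 2 by positivity)).eventually_ge_atTop (16 * (2 + C))
  filter_upwards [zeta_four (show 0 < ε / 2 by positivity), h0, eventually_ge_atTop (1 : ℝ)] with X h1 h2 hX N hN hNX
  have hX0 : 0 < X := by linarith
  obtain ⟨g, hg⟩ : ∃ g : ℝ → ℝ, g = fun v : ℝ => ‖zD N (1 / 2 + (v : ℂ) * I)‖ ^ 4 := ⟨_, rfl⟩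
  have hgc : Continuous g := by rw [hg]; exact zD_cont_half N
  have hge : ∀ v, g (-v) = g v := fun v => by
    rw [hg]
    simp only
    rw [zD_conj]
  have e1 : ∫ v in Icc (-(2 * X)) (2 * X), g v = 2 * ∫ v in (0 : ℝ)..(2 * X), g v := by
    rw [integral_Icc_eq_integral_Ioc, ← intervalIntegral.integral_of_le (by linarith),
      ← intervalIntegral.integral_add_adjacent_intervals (hgc.intervalIntegrable (-(2 * X)) 0) (hgc.intervalIntegrable 0 (2 * X))]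
    have e2 : ∫ v in (-(2 * X))..0, g v = ∫ v in (0 : ℝ)..(2 * X), g v := by
      have h3 := intervalIntegral.integral_comp_neg (a := 0) (b := 2 * X) g
      rw [neg_zero] at h3
      rw [← h3]
      simp_rw [hge]
    rw [e2]
    ring
  have e3 : ∫ v in Icc (-(2 * X)) (2 * X), ‖zD N (1 / 2 + (v : ℂ) * I)‖ ^ 4 = ∫ v in Icc (-(2 * X)) (2 * X), g v := by rw [hg]
  rw [e3, e1]
  have hDc : Continuous fun v : ℝ => ‖DN N (1 / 2 + (v : ℂ) * I)‖ ^ 4 :=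
    ((DN_differentiable N).continuous.comp (by fun_prop)).norm.pow 4
  have h3 : ∫ v in (0 : ℝ)..(2 * X), g v ≤ 8 * ((∫ v in (0 : ℝ)..(2 * X), ‖riemannZeta (1 / 2 + (v : ℂ) * I)‖ ^ 4) +
      ∫ v in (0 : ℝ)..(2 * X), ‖DN N (1 / 2 + (v : ℂ) * I)‖ ^ 4) := by
    rw [← intervalIntegral.integral_add (zeta_half_cont.intervalIntegrable _ _) (hDc.intervalIntegrable _ _),
      ← intervalIntegral.integral_const_mul]
    refine intervalIntegral.integral_mono_on (by linarith) (hgc.intervalIntegrable _ _)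
      (((zeta_half_cont.add hDc).const_mul _).intervalIntegrable _ _) fun v _ => ?_
    rw [hg]
    exact four_add _ _
  have h4 := hD X N hX hN hNX
  have e4 : (1 : ℝ) + 4 * (ε / 8) = 1 + ε / 2 := by ring
  rw [e4] at h4
  have h5 : X ^ (1 + ε) = X ^ (1 + ε / 2) * X ^ (ε / 2) := by
    rw [← Real.rpow_add hX0]; congr 1; ring
  rw [h5]
  have h6 : 0 ≤ X ^ (1 + ε / 2) := by positivity
  have h7 := mul_le_mul_of_nonneg_left h2 h6
  nlinarith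

end Pool.Agent.X107.MU
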