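import Pool.Agent.X107.MU.MU6
import Pool.Agent.Helper240.ZU.D
import Pool.Agent.Helper240.ZU.E1b

/-! # From mean squares at a point to suprema over compact sets -/

set_option autoImplicit false

open Complex Filter Topology Set MeasureTheory

namespace Pool.Agent.X107.MU

open ZU
open Pool.Agent.Y755 (DD DD_ge_one)

lemma EM_diff (z : ℕ) : Differentiable ℂ (EM z (fun _ => 1)) := by
  unfold EM
  refine Differentiable.fun_finsetProd fun p hp => ?_
  have hp0 : (p : ℂ) ≠ 0 := by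
    have := (Finset.mem_Icc.1 (Finset.mem_filter.1 hp).1).1
    exact_mod_cast (by omega : p ≠ 0)
  have h1 : Differentiable ℂ fun s : ℂ => (p : ℂ) ^ (-s) := fun s =>
    (differentiableAt_id.neg).const_cpow (Or.inl hp0)
  exact (h1.const_mul 1).const_sub 1

lemma GZ_diffAt (z : ℕ) {s : ℂ} (hs : s.re < 1) : DifferentiableAt ℂ (GZ z) s := by
  have hs1 : s ≠ 1 := by rintro rfl; simp at hs
  unfold GZ
  exact ((differentiableAt_riemannZeta hs1).mul (EM_diff z s)).sub_const 1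

lemma GZ_contOn (z : ℕ) {a b : ℝ} (hb : b < 1) : ContinuousOn (GZ z) {w : ℂ | a ≤ w.re ∧ w.re ≤ b} :=
  fun w hw => (GZ_diffAt z (lt_of_le_of_lt hw.2 hb)).continuousAt.continuousWithinAt

/-- local mean squares -/
noncomputable def JG (a b B : ℝ) (z : ℕ) (t : ℝ) : ℝ := ∫ w in rect a b B, ‖GZ z (w + t * I)‖ ^ 2

lemma JG_nonneg (a b B : ℝ) (z : ℕ) (t : ℝ) : 0 ≤ JG a b B z t := integral_nonneg fun _ => by positivity

lemma JG_cont {a b B : ℝ} (hab : a ≤ b) (hb : b < 1) (hB : 0 < B) (z : ℕ) : Continuous (JG a b B z) :=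
  (fubini_bound a b B hab hB (GZ z) (GZ_contOn z hb) (fun _ => 0) continuous_const 0 le_rfl 0
    (fun s _ => by simp)).1

/-- the weighted mean of the local mean squares -/
theorem JG_mean {s : ℝ} (hs : 0 < s) {a b B : ℝ} (ha : 1 / 2 < a) (hab : a ≤ b) (hb : b < 1) (hB : 0 < B) {ε : ℝ}
    (hε : 0 < ε) : ∃ z0 : ℕ, ∀ z ≥ z0, ∀ (N : ℝ → ℕ) (δ : ℝ → ℝ),
      (∀ η : ℝ, 0 < η → ∀ᶠ T : ℝ in atTop, (N T : ℝ) ≤ T ^ η) → (∀ᶠ T : ℝ in atTop, 0 < δ T) → ∀ᶠ T : ℝ in atTop,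
        ∫ t in (0 : ℝ)..T, ‖Pd s (δ T) (N T) t‖ ^ 2 * JG a b B z t ≤ ε * T * DD s (δ T) := by
  obtain ⟨V0, hV0⟩ : ∃ V0, V0 = (b - a) * (2 * B) + 1 := ⟨_, rfl⟩
  have hV0p : 0 < V0 := by
    have : 0 ≤ (b - a) * (2 * B) := mul_nonneg (by linarith) (by linarith)
    linarith
  obtain ⟨z0, hz0⟩ := ms_main hs ha hab hb hB (show 0 < ε / V0 by positivity)
  refine ⟨z0, fun z hz N δ hN hδ => ?_⟩
  filter_upwards [hz0 z hz N δ hN hδ, hδ, eventually_ge_atTop (1 : ℝ)] with T h1 h2 h3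
  have hT0 : 0 ≤ T := by linarith
  have hDD : 0 ≤ DD s (δ T) := by have := DD_ge_one hs h2; linarith
  have hfb := (fubini_bound a b B hab hB (GZ z) (GZ_contOn z hb) (fun t => ‖Pd s (δ T) (N T) t‖ ^ 2)
    ((Pd_cont s (δ T) (N T)).norm.pow 2) T hT0 (ε / V0 * T * DD s (δ T)) h1).2
  refine hfb.trans ?_
  have h4 : (b - a) * (2 * B) ≤ V0 := by linarith
  calc (b - a) * (2 * B) * (ε / V0 * T * DD s (δ T)) ≤ V0 * (ε / V0 * T * DD s (δ T)) := by gcongr
    _ = ε * T * DD s (δ T) := by field_simp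

/-- the exceptional ordinates -/
def BadG (z : ℕ) (K : Set ℂ) (η t : ℝ) : Prop := ∃ w ∈ K, η ≤ ‖GZ z (w + t * I)‖

lemma in_rect {K : Set ℂ} (hK : IsCompact K) (hKs : ∀ z ∈ K, 1 / 2 < z.re ∧ z.re < 1) :
    ∃ a b B : ℝ, 1 / 2 < a ∧ a ≤ b ∧ b < 1 ∧ 0 < B ∧ K ⊆ rect a b B := by
  rcases K.eq_empty_or_nonempty with h | h
  · exact ⟨3 / 4, 3 / 4, 1, by norm_num, le_rfl, by norm_num, one_pos, by
      rw [h]; exact Set.empty_subset _⟩
  · obtain ⟨z1, hz1, hmin⟩ := hK.exists_isMinOn h Complex.continuous_re.continuousOn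
    obtain ⟨z2, hz2, hmax⟩ := hK.exists_isMaxOn h Complex.continuous_re.continuousOn
    obtain ⟨C, hC⟩ := hK.exists_bound_of_continuousOn (f := fun z : ℂ => z.im)
      Complex.continuous_im.continuousOn
    refine ⟨z1.re, z2.re, max C 1, (hKs z1 hz1).1, hmin hz2, (hKs z2 hz2).2,
      lt_max_of_lt_right one_pos, ?_⟩
    intro z hz
    exact ⟨hmin hz, hmax hz, (hC z hz).trans (le_max_left _ _)⟩

/-- at an exceptional ordinate the local mean squares are large -/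
lemma badG_large {K : Set ℂ} (hK : IsCompact K) (hKs : ∀ z ∈ K, 1 / 2 < z.re ∧ z.re < 1) :
    ∃ a b B C : ℝ, 1 / 2 < a ∧ a ≤ b ∧ b < 1 ∧ 0 < B ∧ 0 < C ∧
      ∀ (N : ℕ) (η t u : ℝ), 0 ≤ η → BadG N K η t → |t - u| ≤ 1 → η ^ 2 ≤ C * JG a b B N u := by
  obtain ⟨a, b, B, h1, h2, h3, h4, hsub⟩ := in_rect hK hKs
  obtain ⟨C, hC, hs⟩ := sup_le_area a b ((1 / 2 + a) / 2) ((b + 1) / 2) (B + 1) (B + 2)
    (by linarith) h2 (by linarith) (by linarith) (by linarith)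
  refine ⟨(1 / 2 + a) / 2, (b + 1) / 2, B + 2, C, by linarith, by linarith, by linarith,
    by linarith, hC, fun N η t u hη hbad htu => ?_⟩
  obtain ⟨z, hz, hz2⟩ := hbad
  have hzr := hsub hz
  have e1 : z + t * I = (z + ((t - u : ℝ) : ℂ) * I) + u * I := by push_cast; ring
  have hz' : z + ((t - u : ℝ) : ℂ) * I ∈ rect a b (B + 1) := by
    refine ⟨by simpa using hzr.1, by simpa using hzr.2.1, ?_⟩
    have : (z + ((t - u : ℝ) : ℂ) * I).im = z.im + (t - u) := by simp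
    rw [this]
    exact (abs_add_le _ _).trans (add_le_add hzr.2.2 htu)
  have h5 := hs (fun w => GZ N (w + u * I)) {w : ℂ | w.re < 1}
    (isOpen_lt Complex.continuous_re continuous_const) (by
      intro w hw
      have := hw.2.1
      show w.re < 1
      linarith) (by
      intro w hw
      have hw' : (w + u * I).re < 1 := by simpa using hw
      have h6 : DifferentiableAt ℂ (fun w : ℂ => GZ N (w + u * I)) w :=
        DifferentiableAt.comp (g := GZ N) (f := fun w : ℂ => w + u * I) w (GZ_diffAt N hw')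
          (by fun_prop)
      exact h6.differentiableWithinAt) _ hz'
  have h7 : η ^ 2 ≤ ‖GZ N (z + t * I)‖ ^ 2 := pow_le_pow_left₀ hη hz2 2
  rw [e1] at h7
  exact h7.trans h5

end Pool.Agent.X107.MU
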