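import Pool.Agent.X107.MU.MU36
import Pool.Agent.X107.MU.MU7

/-! # The mean square of `ζ - D_L` with the weight `|ζ|²` on the critical line -/

set_option autoImplicit false

namespace Pool.Agent.X107.MU

open Complex Filter Topology MeasureTheory Set
open ZU

lemma zeta_cpt {σ1 σ2 B : ℝ} (h3 : σ2 < 1) : ∃ C : ℝ, 0 ≤ C ∧ ∀ σ τ : ℝ, σ1 ≤ σ → σ ≤ σ2 → |τ| ≤ B →
    ‖riemannZeta ((σ : ℂ) + (τ : ℂ) * I)‖ ≤ C := by
  have hc : ContinuousOn (fun q : ℝ × ℝ => riemannZeta ((q.1 : ℂ) + (q.2 : ℂ) * I)) (Icc σ1 σ2 ×ˢ Icc (-B) B) := by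
    intro q hq
    have h4 : q.1 < 1 := lt_of_le_of_lt hq.1.2 h3
    refine ContinuousAt.continuousWithinAt ?_
    exact ContinuousAt.comp (f := fun q : ℝ × ℝ => (q.1 : ℂ) + (q.2 : ℂ) * I)
      (differentiableAt_riemannZeta (line_ne h4 q.2)).continuousAt (by fun_prop)
  obtain ⟨C, hC⟩ := (isCompact_Icc.prod isCompact_Icc).exists_bound_of_continuousOn hc
  refine ⟨max C 0, le_max_right _ _, fun σ τ a b c => ?_⟩
  exact (hC (σ, τ) ⟨⟨a, b⟩, abs_le.1 c⟩).trans (le_max_left _ _)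

lemma DN_le {N : ℕ} {s : ℂ} (hs : 0 ≤ s.re) : ‖DN N s‖ ≤ N := by
  unfold DN
  refine (norm_sum_le _ _).trans ?_
  calc ∑ n ∈ Finset.Icc 1 N, ‖(n : ℂ) ^ (-s)‖ ≤ ∑ _n ∈ Finset.Icc 1 N, (1 : ℝ) := by
        refine Finset.sum_le_sum fun n hn => ?_
        have hn1 := (Finset.mem_Icc.1 hn).1
        rw [Complex.norm_natCast_cpow_of_pos hn1]
        exact Real.rpow_le_one_of_one_le_of_nonpos (by exact_mod_cast hn1) (by simpa using hs)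
    _ = N := by simp

lemma amgm {x y l : ℝ} (hl : 0 < l) : x ^ 2 * y ^ 2 ≤ l * x ^ 4 + l⁻¹ * y ^ 4 := by
  have h1 : 0 ≤ l * (x ^ 2 - l⁻¹ * y ^ 2) ^ 2 := by positivity
  have h2 : l * (x ^ 2 - l⁻¹ * y ^ 2) ^ 2 = l * x ^ 4 + l⁻¹ * y ^ 4 - 2 * (x ^ 2 * y ^ 2) := by
    field_simp
    ring
  rw [h2] at h1
  have h3 : 0 ≤ x ^ 2 * y ^ 2 := by positivity
  linarith

lemma ev_le {a b C : ℝ} (hab : a < b) : ∀ᶠ T : ℝ in atTop, C * T ^ a ≤ T ^ b := by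
  filter_upwards [(tendsto_rpow_atTop (show 0 < b - a by linarith)).eventually_ge_atTop C, eventually_gt_atTop (0 : ℝ)] with T h1 h2
  have h3 : T ^ b = T ^ (b - a) * T ^ a := by rw [← Real.rpow_add h2]; congr 1; ring
  rw [h3]
  exact mul_le_mul_of_nonneg_right h1 (by positivity)

theorem zD_four_off {σ1 σ2 B θ : ℝ} (h1 : 1 / 2 < σ1) (h2 : σ1 ≤ σ2) (h3 : σ2 < 1) (hB : 0 < B) (hθ : 0 < θ) (hθ1 : θ ≤ 1 / 8) :
    ∀ᶠ T : ℝ in atTop, ∀ w ∈ rect σ1 σ2 B,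
      ∫ t in (0 : ℝ)..(8 * T), ‖zD ⌊T ^ θ⌋₊ (w + t * I)‖ ^ 4 ≤ T ^ (1 - 2 * (θ * (σ1 - 1 / 2))) := by
  obtain ⟨ε, hε⟩ : ∃ ε, ε = θ * (σ1 - 1 / 2) := ⟨_, rfl⟩
  have hd1 : 0 < σ1 - 1 / 2 := by linarith
  have hε0 : 0 < ε := by rw [hε]; positivity
  have hε1 : ε ≤ 1 / 16 := by
    rw [hε]
    calc θ * (σ1 - 1 / 2) ≤ 1 / 8 * (1 / 2) := mul_le_mul hθ1 (by linarith) hd1.le (by norm_num)
      _ = 1 / 16 := by norm_num
  rw [← hε]
  obtain ⟨C, hC0, hC⟩ := zeta_cpt (σ1 := σ1) (B := B + 1) h3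
  have hK : 0 ≤ K35 := by unfold K35; positivity
  obtain ⟨C3, hC3⟩ : ∃ C3 : ℝ, C3 = 16 * (192 ^ 4 * (4 * (1 + K35))) * 81 + (B + 1) * (C + 1) ^ 4 := ⟨_, rfl⟩
  have hX : Tendsto (fun T : ℝ => 8 * T + B + 1) atTop atTop := by
    have : Tendsto (fun T : ℝ => 8 * T) atTop atTop := tendsto_id.const_mul_atTop (by norm_num)
    exact tendsto_atTop_add_const_right _ _ (tendsto_atTop_add_const_right _ _ this)
  have hev := ev_le (a := 1 - 3 * ε) (b := 1 - 2 * ε) (C := C3) (by linarith)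
  filter_upwards [hX.eventually (zD_four hε0), hev, eventually_ge_atTop (1 : ℝ), eventually_ge_atTop (B + 1),
    (tendsto_rpow_atTop hθ).eventually_ge_atTop 1] with T g1 g2 hT1 hTB g3 w hw
  have hT0 : 0 < T := by linarith
  obtain ⟨N, hN⟩ : ∃ N, N = ⌊T ^ θ⌋₊ := ⟨_, rfl⟩
  obtain ⟨X, hXd⟩ : ∃ X, X = 8 * T + B + 1 := ⟨_, rfl⟩
  rw [← hXd] at g1
  rw [← hN]
  have hN1 : 1 ≤ N := by rw [hN]; exact Nat.le_floor (by push_cast; exact g3)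
  have hNr : (1 : ℝ) ≤ N := by exact_mod_cast hN1
  have hNle : (N : ℝ) ≤ T ^ θ := by rw [hN]; exact Nat.floor_le (by positivity)
  have hNge : T ^ θ / 2 ≤ N := by
    have h5 := Nat.lt_floor_add_one (T ^ θ)
    rw [← hN] at h5
    linarith
  have hX1 : 1 ≤ X := by rw [hXd]; linarith
  have hX0 : 0 < X := by linarith
  have hX9 : X ≤ 9 * T := by rw [hXd]; linarith
  have hTX : T ≤ X := by rw [hXd]; linarith
  have hN4 : (N : ℝ) ^ 4 ≤ T ^ (1 - 3 * ε) := by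
    calc (N : ℝ) ^ 4 ≤ (T ^ θ) ^ 4 := pow_le_pow_left₀ (by linarith) hNle 4
      _ = T ^ (θ * 4) := by rw [← Real.rpow_natCast, ← Real.rpow_mul hT0.le]; norm_num
      _ ≤ _ := Real.rpow_le_rpow_of_exponent_le hT1 (by linarith)
  have hN4T : (N : ℝ) ^ 4 ≤ T := hN4.trans (by
    calc T ^ (1 - 3 * ε) ≤ T ^ (1 : ℝ) := Real.rpow_le_rpow_of_exponent_le hT1 (by linarith)
      _ = T := Real.rpow_one T)
  have hN2 : (N : ℝ) ^ 2 ≤ X := by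
    have : (N : ℝ) ^ 2 ≤ N ^ 4 := pow_le_pow_right₀ hNr (by norm_num)
    linarith
  obtain ⟨σ, hσ⟩ : ∃ σ, σ = w.re := ⟨_, rfl⟩
  obtain ⟨d, hd⟩ : ∃ d, d = σ - 1 / 2 := ⟨_, rfl⟩
  obtain ⟨hw1, hw2, hw3⟩ := hw
  rw [← hσ] at hw1 hw2
  have hdpos : 0 < d := by rw [hd]; linarith
  have hd2 : d < 1 / 2 := by rw [hd]; linarith
  have hdσ : 1 / 2 + d = σ := by rw [hd]; ring
  -- the large part
  have k1 := zD_mean hN1 hdpos hd2 hX1 (g1 N hN1 hN2)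
  rw [hdσ] at k1
  have k2 : K35 * ((N : ℝ) ^ 4 / X ^ 7) ≤ K35 * X ^ (1 + ε) := by
    refine mul_le_mul_of_nonneg_left ?_ hK
    have : (N : ℝ) ^ 4 / X ^ 7 ≤ 1 := by
      rw [div_le_one (by positivity)]
      calc (N : ℝ) ^ 4 ≤ X := hN4T.trans hTX
        _ = X ^ 1 := (pow_one X).symm
        _ ≤ X ^ 7 := pow_le_pow_right₀ hX1 (by norm_num)
    exact this.trans (Real.one_le_rpow hX1 (by linarith))
  have k3 : T ^ (4 * ε) / 16 ≤ ((N : ℝ) ^ d) ^ 4 := by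
    have q1 : T ^ ε / 2 ≤ (N : ℝ) ^ d := by
      have q2 : (N : ℝ) ^ (σ1 - 1 / 2) ≤ (N : ℝ) ^ d := Real.rpow_le_rpow_of_exponent_le hNr (by rw [hd]; linarith)
      refine le_trans ?_ q2
      have q3 : (T ^ θ / 2) ^ (σ1 - 1 / 2) ≤ (N : ℝ) ^ (σ1 - 1 / 2) := Real.rpow_le_rpow (by positivity) hNge hd1.le
      refine le_trans ?_ q3
      rw [Real.div_rpow (by positivity) (by norm_num), ← Real.rpow_mul hT0.le, ← hε]
      refine div_le_div_of_nonneg_left (by positivity) (by positivity) ?_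
      calc (2 : ℝ) ^ (σ1 - 1 / 2) ≤ 2 ^ (1 : ℝ) := Real.rpow_le_rpow_of_exponent_le (by norm_num) (by linarith)
        _ = 2 := Real.rpow_one 2
    have q4 := pow_le_pow_left₀ (by positivity) q1 4
    refine le_trans (le_of_eq ?_) q4
    rw [div_pow, ← Real.rpow_natCast (T ^ ε) 4, ← Real.rpow_mul hT0.le]
    norm_num
    ring_nf
  obtain ⟨J, hJ⟩ : ∃ J, J = ∫ t in Icc 1 X, ‖zD N ((σ : ℂ) + t * I)‖ ^ 4 := ⟨_, rfl⟩
  have hJ0 : 0 ≤ J := by rw [hJ]; exact integral_nonneg fun t => by positivity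
  rw [← hJ] at k1
  have hX81 : X ^ (1 + ε) ≤ 81 * T ^ (1 + ε) := by
    calc X ^ (1 + ε) ≤ (9 * T) ^ (1 + ε) := Real.rpow_le_rpow hX0.le hX9 (by linarith)
      _ = 9 ^ (1 + ε) * T ^ (1 + ε) := Real.mul_rpow (by norm_num) hT0.le
      _ ≤ 81 * T ^ (1 + ε) := by
          refine mul_le_mul_of_nonneg_right ?_ (by positivity)
          calc (9 : ℝ) ^ (1 + ε) ≤ 9 ^ (2 : ℝ) := Real.rpow_le_rpow_of_exponent_le (by norm_num) (by linarith)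
            _ = 81 := by norm_num
  have k4 : J ≤ 16 * (192 ^ 4 * (4 * (1 + K35))) * 81 * T ^ (1 - 3 * ε) := by
    have q1 : J * (T ^ (4 * ε) / 16) ≤ 192 ^ 4 * (4 * ((1 + K35) * (81 * T ^ (1 + ε)))) := by
      calc J * (T ^ (4 * ε) / 16) ≤ J * ((N : ℝ) ^ d) ^ 4 := mul_le_mul_of_nonneg_left k3 hJ0
        _ ≤ 192 ^ 4 * (4 * (X ^ (1 + ε) + K35 * (N ^ 4 / X ^ 7))) := k1
        _ ≤ 192 ^ 4 * (4 * (X ^ (1 + ε) + K35 * X ^ (1 + ε))) := by gcongr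
        _ = 192 ^ 4 * (4 * ((1 + K35) * X ^ (1 + ε))) := by ring
        _ ≤ _ := by gcongr
    have q2 : T ^ (1 + ε) = T ^ (1 - 3 * ε) * T ^ (4 * ε) := by rw [← Real.rpow_add hT0]; congr 1; ring
    have q3 : 0 < T ^ (4 * ε) := by positivity
    rw [q2] at q1
    have q4 : J * T ^ (4 * ε) ≤ (16 * (192 ^ 4 * (4 * (1 + K35))) * 81 * T ^ (1 - 3 * ε)) * T ^ (4 * ε) := by
      nlinarith
    exact le_of_mul_le_mul_right q4 q3
  -- the small part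
  have hzc : Continuous fun τ : ℝ => ‖zD N ((σ : ℂ) + (τ : ℂ) * I)‖ ^ 4 := (zD_cont N (by linarith)).norm.pow 4
  have k5 : ∫ τ in (-B)..1, ‖zD N ((σ : ℂ) + (τ : ℂ) * I)‖ ^ 4 ≤ (B + 1) * (C + 1) ^ 4 * T ^ (1 - 3 * ε) := by
    have q1 : ∫ τ in (-B)..1, ‖zD N ((σ : ℂ) + (τ : ℂ) * I)‖ ^ 4 ≤ ∫ _τ in (-B)..(1 : ℝ), (C + 1) ^ 4 * T ^ (1 - 3 * ε) := by
      refine intervalIntegral.integral_mono_on (by linarith) (hzc.intervalIntegrable _ _) (by simp) fun τ hτ => ?_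
      have q2 : ‖zD N ((σ : ℂ) + (τ : ℂ) * I)‖ ≤ (C + 1) * N := by
        unfold zD
        refine (norm_sub_le _ _).trans ?_
        have q3 := hC σ τ hw1 hw2 (abs_le.2 ⟨by linarith [hτ.1], by linarith [hτ.2]⟩)
        have q4 : ‖DN N ((σ : ℂ) + (τ : ℂ) * I)‖ ≤ N := DN_le (by simp; linarith)
        nlinarith
      calc ‖zD N ((σ : ℂ) + (τ : ℂ) * I)‖ ^ 4 ≤ ((C + 1) * N) ^ 4 := pow_le_pow_left₀ (norm_nonneg _) q2 4
        _ = (C + 1) ^ 4 * N ^ 4 := by ring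
        _ ≤ _ := by gcongr
    refine q1.trans (le_of_eq ?_)
    rw [intervalIntegral.integral_const, smul_eq_mul]
    ring
  have k6 : ∫ t in (0 : ℝ)..(8 * T), ‖zD N (w + t * I)‖ ^ 4 ≤
      (∫ τ in (-B)..1, ‖zD N ((σ : ℂ) + (τ : ℂ) * I)‖ ^ 4) + J := by
    have e1 : ∀ t : ℝ, ‖zD N (w + t * I)‖ ^ 4 = (fun τ : ℝ => ‖zD N ((σ : ℂ) + (τ : ℂ) * I)‖ ^ 4) (t + w.im) := by
      intro t
      simp only
      congr 3
      apply Complex.ext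
      · simp [hσ]
      · simp
        ring
    simp_rw [e1]
    rw [intervalIntegral.integral_comp_add_right (fun τ : ℝ => ‖zD N ((σ : ℂ) + (τ : ℂ) * I)‖ ^ 4) w.im]
    have hv := abs_le.1 hw3
    have q1 : ∫ τ in (0 + w.im)..(8 * T + w.im), ‖zD N ((σ : ℂ) + (τ : ℂ) * I)‖ ^ 4 ≤ ∫ τ in (-B)..X, ‖zD N ((σ : ℂ) + (τ : ℂ) * I)‖ ^ 4 := by
      refine intervalIntegral.integral_mono_interval (by linarith [hv.1]) (by linarith) (by rw [hXd]; linarith [hv.2])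
        (Eventually.of_forall fun t => ?_) (hzc.intervalIntegrable _ _)
      show 0 ≤ ‖zD N ((σ : ℂ) + (t : ℂ) * I)‖ ^ 4
      positivity
    have q2 : ∫ τ in (-B)..X, ‖zD N ((σ : ℂ) + (τ : ℂ) * I)‖ ^ 4 =
        (∫ τ in (-B)..1, ‖zD N ((σ : ℂ) + (τ : ℂ) * I)‖ ^ 4) + J := by
      rw [← intervalIntegral.integral_add_adjacent_intervals (hzc.intervalIntegrable (-B) 1) (hzc.intervalIntegrable 1 X), hJ,
        integral_Icc_eq_integral_Ioc, intervalIntegral.integral_of_le hX1]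
    exact q1.trans (le_of_eq q2)
  refine k6.trans ((add_le_add k5 k4).trans (le_trans (le_of_eq ?_) g2))
  rw [hC3]
  ring

/-- **The weighted mean square.** -/
theorem cross_small {σ1 σ2 B θ : ℝ} (h1 : 1 / 2 < σ1) (h2 : σ1 ≤ σ2) (h3 : σ2 < 1) (hB : 0 < B) (hθ : 0 < θ) (hθ1 : θ ≤ 1 / 8) :
    ∃ η : ℝ, 0 < η ∧ ∀ᶠ T : ℝ in atTop, ∀ w ∈ rect σ1 σ2 B,
      ∫ t in (0 : ℝ)..(8 * T), ‖riemannZeta (1 / 2 + (t : ℂ) * I)‖ ^ 2 * ‖zD ⌊T ^ θ⌋₊ (w + t * I)‖ ^ 2 ≤ T ^ (1 - η) := by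
  obtain ⟨ε, hε⟩ : ∃ ε, ε = θ * (σ1 - 1 / 2) := ⟨_, rfl⟩
  have hd1 : 0 < σ1 - 1 / 2 := by linarith
  have hε0 : 0 < ε := by rw [hε]; positivity
  have hε1 : ε ≤ 1 / 16 := by
    rw [hε]
    calc θ * (σ1 - 1 / 2) ≤ 1 / 8 * (1 / 2) := mul_le_mul hθ1 (by linarith) hd1.le (by norm_num)
      _ = 1 / 16 := by norm_num
  have ho := zD_four_off h1 h2 h3 hB hθ hθ1
  rw [← hε] at ho
  have hX : Tendsto (fun T : ℝ => 4 * T) atTop atTop := tendsto_id.const_mul_atTop (by norm_num)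
  refine ⟨ε / 4, by positivity, ?_⟩
  filter_upwards [ho, hX.eventually (zeta_four (show 0 < ε / 2 by positivity)), eventually_ge_atTop (1 : ℝ),
    ev_le (a := 1 - ε / 2) (b := 1 - ε / 4) (C := 33) (by linarith)] with T g1 g2 hT1 g3 w hw
  have hT0 : 0 < T := by linarith
  have g4 := g1 w hw
  have hw2 : w.re < 1 := lt_of_le_of_lt hw.2.1 h3
  obtain ⟨N, hN⟩ : ∃ N, N = ⌊T ^ θ⌋₊ := ⟨_, rfl⟩
  rw [← hN] at g4 ⊢
  have hl : 0 < T ^ (-ε) := by positivity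
  have hzc : Continuous fun t : ℝ => ‖riemannZeta (1 / 2 + (t : ℂ) * I)‖ ^ 4 := zeta_half_cont
  have hz2 : Continuous fun t : ℝ => ‖riemannZeta (1 / 2 + (t : ℂ) * I)‖ ^ 2 := by
    have e : (fun t : ℝ => ‖riemannZeta (1 / 2 + (t : ℂ) * I)‖ ^ 2) = fun t : ℝ => √(‖riemannZeta (1 / 2 + (t : ℂ) * I)‖ ^ 4) := by
      funext t
      rw [show ‖riemannZeta (1 / 2 + (t : ℂ) * I)‖ ^ 4 = (‖riemannZeta (1 / 2 + (t : ℂ) * I)‖ ^ 2) ^ 2 by ring,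
        Real.sqrt_sq (by positivity)]
    rw [e]
    exact hzc.sqrt
  have hDc : Continuous fun t : ℝ => ‖zD N (w + t * I)‖ := by
    have e1 : ∀ t : ℝ, ‖zD N (w + t * I)‖ = (fun τ : ℝ => ‖zD N ((w.re : ℂ) + (τ : ℂ) * I)‖) (t + w.im) := by
      intro t
      simp only
      congr 2
      apply Complex.ext
      · simp
      · simp
        ring
    have e2 : (fun t : ℝ => ‖zD N (w + t * I)‖) = fun t => (fun τ : ℝ => ‖zD N ((w.re : ℂ) + (τ : ℂ) * I)‖) (t + w.im) := funext e1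
    rw [e2]
    exact (zD_cont N hw2).norm.comp (by fun_prop : Continuous fun t : ℝ => t + w.im)
  have k1 : ∫ t in (0 : ℝ)..(8 * T), ‖riemannZeta (1 / 2 + (t : ℂ) * I)‖ ^ 2 * ‖zD N (w + t * I)‖ ^ 2 ≤
      T ^ (-ε) * (∫ t in (0 : ℝ)..(8 * T), ‖riemannZeta (1 / 2 + (t : ℂ) * I)‖ ^ 4) +
      (T ^ (-ε))⁻¹ * ∫ t in (0 : ℝ)..(8 * T), ‖zD N (w + t * I)‖ ^ 4 := by
    have i1 : Continuous fun t : ℝ => T ^ (-ε) * ‖riemannZeta (1 / 2 + (t : ℂ) * I)‖ ^ 4 := hzc.const_mul _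
    have i2 : Continuous fun t : ℝ => (T ^ (-ε))⁻¹ * ‖zD N (w + t * I)‖ ^ 4 := (hDc.pow 4).const_mul _
    rw [← intervalIntegral.integral_const_mul, ← intervalIntegral.integral_const_mul, ← intervalIntegral.integral_add
      (i1.intervalIntegrable _ _) (i2.intervalIntegrable _ _)]
    refine intervalIntegral.integral_mono_on (by linarith) ((hz2.mul (hDc.pow 2)).intervalIntegrable _ _)
      ((i1.add i2).intervalIntegrable _ _) fun t _ => ?_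
    exact amgm hl
  have k2 : ∫ t in (0 : ℝ)..(8 * T), ‖riemannZeta (1 / 2 + (t : ℂ) * I)‖ ^ 4 ≤ 32 * T ^ (1 + ε / 2) := by
    rw [show 8 * T = 2 * (4 * T) by ring]
    refine g2.trans ?_
    rw [Real.mul_rpow (by norm_num) hT0.le]
    have : (4 : ℝ) ^ (1 + ε / 2) ≤ 16 := by
      calc (4 : ℝ) ^ (1 + ε / 2) ≤ 4 ^ (2 : ℝ) := Real.rpow_le_rpow_of_exponent_le (by norm_num) (by linarith)
        _ = 16 := by norm_num
    have h0 : 0 ≤ T ^ (1 + ε / 2) := by positivity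
    nlinarith
  have k3 : T ^ (-ε) * (32 * T ^ (1 + ε / 2)) = 32 * T ^ (1 - ε / 2) := by
    rw [mul_left_comm, ← Real.rpow_add hT0]
    congr 2
    ring
  have k4 : (T ^ (-ε))⁻¹ * T ^ (1 - 2 * ε) ≤ T ^ (1 - ε / 2) := by
    rw [← Real.rpow_neg hT0.le, ← Real.rpow_add hT0]
    exact Real.rpow_le_rpow_of_exponent_le hT1 (by linarith)
  refine k1.trans ?_
  have k5 := mul_le_mul_of_nonneg_left k2 hl.le
  have k6 := mul_le_mul_of_nonneg_left g4 (inv_nonneg.2 hl.le)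
  rw [k3] at k5
  linarith [k6.trans k4]

end Pool.Agent.X107.MU
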