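import Pool.Agent.X107.MU.MU6
import Pool.Agent.TH806.TwB

/-! # The twisted second moment of rough polynomials -/

set_option autoImplicit false

namespace Pool.Agent.X107.MU

open Complex Filter Topology MeasureTheory Set
open ZU
open Pool.Agent.H306R2.SM (om cl Yf)
open Pool.Agent.H262R4.TM (Rng Ck)
open Pool.Agent.W184.NZ (wz)

/-- the weights of the gcd sum -/
noncomputable def gs (l : ℝ) (x : ℕ × ℕ) : ℝ := ((x.1 : ℝ) * x.2) ^ (-l) / (Nat.lcm x.1 x.2 : ℝ)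

lemma gs_nonneg (l : ℝ) (x : ℕ × ℕ) : 0 ≤ gs l x := by unfold gs; positivity

lemma gs_summable {l : ℝ} (hl : 0 < l) : Summable (gs l) := by
  have s1 : Summable fun n : ℕ => (n : ℝ) ^ (-(1 + 2 * l)) := by rw [Real.summable_nat_rpow]; linarith
  have s2 : Summable fun n : ℕ => (n : ℝ) ^ (-(1 + l)) := by rw [Real.summable_nat_rpow]; linarith
  have n1 : ∀ n : ℕ, 0 ≤ (n : ℝ) ^ (-(1 + 2 * l)) := fun n => by positivity
  have n2 : ∀ n : ℕ, 0 ≤ (n : ℝ) ^ (-(1 + l)) := fun n => by positivity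
  have s3 : Summable fun y : ℕ × ℕ => (y.1 : ℝ) ^ (-(1 + l)) * (y.2 : ℝ) ^ (-(1 + l)) :=
    s2.mul_of_nonneg s2 n2 n2
  have s4 : Summable fun y : ℕ × (ℕ × ℕ) => (y.1 : ℝ) ^ (-(1 + 2 * l)) * ((y.2.1 : ℝ) ^ (-(1 + l)) * (y.2.2 : ℝ) ^ (-(1 + l))) :=
    s1.mul_of_nonneg s3 n1 (fun y => mul_nonneg (n2 _) (n2 _))
  obtain ⟨i, hi⟩ : ∃ i : ℕ × ℕ → ℕ × (ℕ × ℕ), i = fun x => (Nat.gcd x.1 x.2, (x.1 / Nat.gcd x.1 x.2, x.2 / Nat.gcd x.1 x.2)) := ⟨_, rfl⟩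
  have hinj : Function.Injective i := by
    intro x y h
    rw [hi] at h
    simp only [Prod.mk.injEq] at h
    obtain ⟨h1, h2, h3⟩ := h
    have a1 := Nat.div_mul_cancel (Nat.gcd_dvd_left x.1 x.2)
    have a2 := Nat.div_mul_cancel (Nat.gcd_dvd_right x.1 x.2)
    have b1 := Nat.div_mul_cancel (Nat.gcd_dvd_left y.1 y.2)
    have b2 := Nat.div_mul_cancel (Nat.gcd_dvd_right y.1 y.2)
    refine Prod.ext ?_ ?_
    · rw [← a1, ← b1, h2, h1]
    · rw [← a2, ← b2, h3, h1]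
  refine Summable.of_nonneg_of_le (gs_nonneg l) (fun x => ?_) (s4.comp_injective hinj)
  obtain ⟨h, k⟩ := x
  rw [hi]
  simp only [Function.comp]
  unfold gs
  simp only
  by_cases hh : h = 0
  · subst hh
    rw [Nat.lcm_zero_left, Nat.cast_zero, div_zero]
    positivity
  by_cases hk : k = 0
  · subst hk
    rw [Nat.lcm_zero_right, Nat.cast_zero, div_zero]
    positivity
  obtain ⟨g, hg⟩ : ∃ g, g = Nat.gcd h k := ⟨_, rfl⟩
  obtain ⟨a, ha⟩ : ∃ a, a = h / g := ⟨_, rfl⟩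
  obtain ⟨b, hb⟩ : ∃ b, b = k / g := ⟨_, rfl⟩
  have hgp : 0 < g := by rw [hg]; exact Nat.gcd_pos_of_pos_left _ (Nat.pos_of_ne_zero hh)
  have e1 : h = g * a := by rw [ha, hg]; exact (Nat.mul_div_cancel' (Nat.gcd_dvd_left h k)).symm
  have e2 : k = g * b := by rw [hb, hg]; exact (Nat.mul_div_cancel' (Nat.gcd_dvd_right h k)).symm
  have hap : 0 < a := Nat.pos_of_ne_zero fun h0 => hh (by rw [e1, h0, mul_zero])
  have hbp : 0 < b := Nat.pos_of_ne_zero fun h0 => hk (by rw [e2, h0, mul_zero])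
  rw [← hg, ← ha, ← hb]
  have e3 : (Nat.lcm h k : ℝ) = g * a * b := by
    have h1 : g * Nat.lcm h k = g * (g * a * b) := by
      rw [hg]
      rw [Nat.gcd_mul_lcm]
      rw [← hg]
      conv_lhs => rw [e1, e2]
      ring
    have h2 := Nat.eq_of_mul_eq_mul_left hgp h1
    rw [h2]
    push_cast
    ring
  have g0 : (0 : ℝ) < g := by exact_mod_cast hgp
  have a0 : (0 : ℝ) < a := by exact_mod_cast hap
  have b0 : (0 : ℝ) < b := by exact_mod_cast hbp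
  rw [e3, e1, e2]
  push_cast
  refine le_of_eq ?_
  have e4 : ((g : ℝ) * a * (g * b)) ^ (-l) = (g : ℝ) ^ (-(2 * l)) * ((a : ℝ) ^ (-l) * (b : ℝ) ^ (-l)) := by
    rw [show (g : ℝ) * a * (g * b) = g * g * (a * b) by ring, Real.mul_rpow (by positivity) (by positivity),
      Real.mul_rpow g0.le g0.le, Real.mul_rpow a0.le b0.le, ← Real.rpow_add g0]
    congr 2
    ring
  have e5 : ∀ {x : ℝ} (_ : 0 < x) (r : ℝ), x ^ (-(1 + r)) = x ^ (-r) / x := by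
    intro x hx r
    rw [show -(1 + r) = -r - 1 by ring, Real.rpow_sub_one hx.ne']
  rw [e4, e5 g0, e5 a0, e5 b0]
  field_simp

/-- the tails of the gcd sum -/
lemma gs_tail {l ε : ℝ} (hl : 0 < l) (hε : 0 < ε) : ∃ z0 : ℕ, ∀ Bs : Finset ℕ, (∀ b ∈ Bs, z0 < b) →
    ∑ h ∈ Bs, ∑ k ∈ Bs, gs l (h, k) ≤ ε := by
  obtain ⟨s, hs⟩ := summable_iff_vanishing_norm.1 (gs_summable hl) ε hε
  refine ⟨s.sup Prod.fst, fun Bs hB => ?_⟩
  have h1 : Disjoint (Bs ×ˢ Bs) s := by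
    rw [Finset.disjoint_left]
    intro x hx hxs
    have h2 := hB x.1 (Finset.mem_product.1 hx).1
    have h3 : x.1 ≤ s.sup Prod.fst := Finset.le_sup (f := Prod.fst) hxs
    omega
  have h2 := hs _ h1
  rw [Finset.sum_product] at h2
  exact (le_abs_self _).trans h2.le

lemma log_term {T : ℝ} (hT : 1 ≤ T) (hL : 4 ≤ Real.log T) {κ : ℕ} (hκ : 1 ≤ κ) {h k : ℕ} (hh : 1 ≤ h) (hk : 1 ≤ k)
    (hhT : (h : ℝ) ≤ T ^ (1 / 4 : ℝ)) (hkT : (k : ℝ) ≤ T ^ (1 / 4 : ℝ)) :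
    |Real.log (Yf κ T * (Nat.gcd h k : ℝ) ^ 2 / ((h : ℝ) * k)) + Ck κ| ≤ 2 * Real.log T := by
  have hT0 : 0 < T := by linarith
  have hκ0 : (0 : ℝ) < κ := by exact_mod_cast hκ
  have hY : 0 < Yf κ T := by unfold Yf; positivity
  have h0 : (0 : ℝ) < h := by exact_mod_cast hh
  have k0 : (0 : ℝ) < k := by exact_mod_cast hk
  have h1 : (1 : ℝ) ≤ h := by exact_mod_cast hh
  have k1 : (1 : ℝ) ≤ k := by exact_mod_cast hk
  have g1 : (1 : ℝ) ≤ Nat.gcd h k := by exact_mod_cast Nat.gcd_pos_of_pos_left _ hh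
  have gh : (Nat.gcd h k : ℝ) ≤ h := by exact_mod_cast Nat.le_of_dvd hh (Nat.gcd_dvd_left h k)
  have gk : (Nat.gcd h k : ℝ) ≤ k := by exact_mod_cast Nat.le_of_dvd hk (Nat.gcd_dvd_right h k)
  have e : Yf κ T * (Nat.gcd h k : ℝ) ^ 2 / ((h : ℝ) * k) = Yf κ T * ((Nat.gcd h k : ℝ) ^ 2 / ((h : ℝ) * k)) := by ring
  have hp : 0 < (Nat.gcd h k : ℝ) ^ 2 / ((h : ℝ) * k) := by positivity
  rw [e, Real.log_mul hY.ne' hp.ne']
  have h2 : Real.log ((Nat.gcd h k : ℝ) ^ 2 / ((h : ℝ) * k)) ≤ 0 := by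
    refine Real.log_nonpos hp.le ?_
    rw [div_le_one (by positivity), sq]
    exact mul_le_mul gh gk (by linarith) (by linarith)
  have h3 : -(1 / 2 * Real.log T) ≤ Real.log ((Nat.gcd h k : ℝ) ^ 2 / ((h : ℝ) * k)) := by
    have h4 : Real.log (((h : ℝ) * k)⁻¹) ≤ Real.log ((Nat.gcd h k : ℝ) ^ 2 / ((h : ℝ) * k)) := by
      refine Real.log_le_log (by positivity) ?_
      rw [inv_eq_one_div]
      refine div_le_div_of_nonneg_right ?_ (by positivity)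
      exact one_le_pow₀ g1
    refine le_trans ?_ h4
    rw [Real.log_inv, Real.log_mul h0.ne' k0.ne']
    have h5 : ∀ x : ℝ, 0 < x → x ≤ T ^ (1 / 4 : ℝ) → Real.log x ≤ 1 / 4 * Real.log T := by
      intro x hx hx2
      have := Real.log_le_log hx hx2
      rwa [Real.log_rpow hT0] at this
    linarith [h5 h h0 hhT, h5 k k0 hkT]
  have h4 := abs_le.1 (Pool.Agent.TH806.yf_bound hκ hT0)
  rw [abs_le]
  constructor <;> linarith [h4.1, h4.2]

theorem Q_bound : ∀ᶠ T : ℝ in atTop, ∀ κ : ℕ, Rng T κ → ∀ N : ℕ, (N : ℝ) ≤ T ^ (1 / 4 : ℝ) → ∀ (Bs : Finset ℕ) (c : ℕ → ℂ) (w : ℂ)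
    (K l S : ℝ), (∀ b ∈ Bs, 1 ≤ b ∧ b ≤ N) → 0 < K → (∀ b, ‖c b‖ ≤ K) → 0 < l → 1 / 2 + l ≤ w.re →
    ∑ h ∈ Bs, ∑ k ∈ Bs, gs l (h, k) ≤ S →
    ∫ t in Ioi (0 : ℝ), wz κ T t * ‖Qd Bs c w t‖ ^ 2 ≤ K ^ 2 * (2 * Real.log T * S + 1) := by
  obtain ⟨η, hη, hTS⟩ := Pool.Agent.H262R4.TM.f_TSM2 (1 / 4) (by norm_num)
  filter_upwards [hTS, eventually_ge_atTop (1 : ℝ), Real.tendsto_log_atTop.eventually_ge_atTop 4] with T hT hT1 hL κ hκ N hN
    Bs c w K l S hB hK hc hl hw hS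
  have hT0 : 0 < T := by linarith
  have hκ1 : 1 ≤ κ := by
    have := hκ.1
    have h2 : (1 : ℝ) ≤ κ := by nlinarith
    exact_mod_cast h2
  obtain ⟨a, ha⟩ : ∃ a : ℕ → ℂ, a = fun n => if n ∈ Bs then c n / K * (n : ℂ) ^ (1 / 2 - w) else 0 := ⟨_, rfl⟩
  have han : ∀ n ∈ Bs, ‖a n‖ ≤ (n : ℝ) ^ (-l) := by
    intro n hn
    have hn1 := (hB n hn).1
    have hn1' : (1 : ℝ) ≤ n := by exact_mod_cast hn1
    rw [ha]
    simp only
    rw [if_pos hn, norm_mul, norm_div, Complex.norm_real, Real.norm_of_nonneg hK.le, Complex.norm_natCast_cpow_of_pos hn1]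
    have h1 : ‖c n‖ / K ≤ 1 := by rw [div_le_one hK]; exact hc n
    have h2 : (n : ℝ) ^ ((1 / 2 - w : ℂ).re) ≤ (n : ℝ) ^ (-l) := by
      refine Real.rpow_le_rpow_of_exponent_le hn1' ?_
      simp
      linarith
    calc ‖c n‖ / K * (n : ℝ) ^ ((1 / 2 - w : ℂ).re) ≤ 1 * (n : ℝ) ^ (-l) := mul_le_mul h1 h2 (by positivity) zero_le_one
      _ = _ := one_mul _
  have ha0 : ∀ n, n ∉ Bs → a n = 0 := fun n hn => by rw [ha]; simp only; rw [if_neg hn]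
  have ha1 : ∀ n, ‖a n‖ ≤ 1 := by
    intro n
    by_cases hn : n ∈ Bs
    · refine (han n hn).trans ?_
      exact Real.rpow_le_one_of_one_le_of_nonpos (by exact_mod_cast (hB n hn).1) (by linarith)
    · rw [ha0 n hn, norm_zero]
      exact zero_le_one
  have hsub : Bs ⊆ Finset.Icc 1 N := fun b hb => Finset.mem_Icc.2 (hB b hb)
  have h1 := hT κ hκ N hN a ha1
  have e1 : ∀ t : ℝ, om κ (κ / T) t * ‖riemannZeta (cl t)‖ ^ 2 * ‖∑ n ∈ Finset.Icc 1 N, a n * (n : ℂ) ^ (-(cl t))‖ ^ 2 =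
      (K ^ 2)⁻¹ * (wz κ T t * ‖Qd Bs c w t‖ ^ 2) := by
    intro t
    have e2 : ∑ n ∈ Finset.Icc 1 N, a n * (n : ℂ) ^ (-(cl t)) = (K : ℂ)⁻¹ * Qd Bs c w t := by
      rw [← Finset.sum_subset hsub fun n _ hn => by rw [ha0 n hn, zero_mul]]
      unfold Qd
      rw [Finset.mul_sum]
      refine Finset.sum_congr rfl fun n hn => ?_
      have hn0 : (n : ℂ) ≠ 0 := by
        have := (hB n hn).1
        exact_mod_cast (by omega : n ≠ 0)
      rw [ha]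
      simp only
      rw [if_pos hn, mul_assoc, ← Complex.cpow_add _ _ hn0]
      have e3 : (1 / 2 - w) + -(cl t) = -(w + (t : ℂ) * I) := by
        unfold cl
        ring
      rw [e3]
      ring
    rw [e2, norm_mul, norm_inv, Complex.norm_real, Real.norm_of_nonneg hK.le]
    unfold Pool.Agent.W184.NZ.wz
    rw [mul_pow, inv_pow]
    ring
  simp_rw [e1] at h1
  rw [integral_const_mul] at h1
  obtain ⟨J, hJ⟩ : ∃ J, J = ∫ t in Ioi (0 : ℝ), wz κ T t * ‖Qd Bs c w t‖ ^ 2 := ⟨_, rfl⟩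
  rw [← hJ] at h1 ⊢
  obtain ⟨Mt, hMt⟩ : ∃ Mt : ℂ, Mt = ∑ h ∈ Finset.Icc 1 N, ∑ l ∈ Finset.Icc 1 N, a h * (starRingEnd ℂ) (a l) *
        ((1 / (Nat.lcm h l : ℝ) * (Real.log (Yf κ T * (Nat.gcd h l : ℝ) ^ 2 / ((h : ℝ) * l)) + Ck κ) : ℝ) : ℂ) := ⟨_, rfl⟩
  rw [← hMt] at h1
  have h2 : ‖Mt‖ ≤ 2 * Real.log T * S := by
    have h3 : ‖Mt‖ ≤ ∑ h ∈ Bs, ∑ k ∈ Bs, 2 * Real.log T * gs l (h, k) := by
      rw [hMt, ← Finset.sum_subset hsub fun n _ hn => by simp [ha0 n hn]]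
      refine (norm_sum_le _ _).trans (Finset.sum_le_sum fun h hh => ?_)
      rw [← Finset.sum_subset hsub fun n _ hn => by simp [ha0 n hn]]
      refine (norm_sum_le _ _).trans (Finset.sum_le_sum fun k hk => ?_)
      obtain ⟨p1, p2⟩ := hB h hh
      obtain ⟨p3, p4⟩ := hB k hk
      have p0 : (0 : ℝ) < h := by exact_mod_cast p1
      have q0 : (0 : ℝ) < k := by exact_mod_cast p3
      have h4 := log_term hT1 hL hκ1 p1 p3 (le_trans (by exact_mod_cast p2) hN) (le_trans (by exact_mod_cast p4) hN)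
      rw [norm_mul, norm_mul, RCLike.norm_conj, Complex.norm_real, Real.norm_eq_abs, abs_mul]
      have e5 : gs l (h, k) = ((h : ℝ) ^ (-l) * (k : ℝ) ^ (-l)) * |1 / (Nat.lcm h k : ℝ)| := by
        unfold gs
        simp only
        rw [Real.mul_rpow p0.le q0.le, abs_of_nonneg (by positivity)]
        ring
      rw [e5]
      calc ‖a h‖ * ‖a k‖ * (|1 / (Nat.lcm h k : ℝ)| * |Real.log (Yf κ T * (Nat.gcd h k : ℝ) ^ 2 / ((h : ℝ) * k)) + Ck κ|) ≤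
          ((h : ℝ) ^ (-l) * (k : ℝ) ^ (-l)) * (|1 / (Nat.lcm h k : ℝ)| * (2 * Real.log T)) := by
            refine mul_le_mul ?_ ?_ (by positivity) (by positivity)
            · exact mul_le_mul (han h hh) (han k hk) (norm_nonneg _) (by positivity)
            · exact mul_le_mul_of_nonneg_left h4 (abs_nonneg _)
        _ = _ := by ring
    refine h3.trans ?_
    simp_rw [← Finset.mul_sum]
    exact mul_le_mul_of_nonneg_left hS (by linarith)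
  have h3 : ‖(((K ^ 2)⁻¹ * J : ℝ) : ℂ)‖ ≤ 2 * Real.log T * S + 1 := by
    have h4 : T ^ (-η) ≤ 1 := Real.rpow_le_one_of_one_le_of_nonpos hT1 (by linarith)
    have h5 := norm_add_le ((((K ^ 2)⁻¹ * J : ℝ) : ℂ) - Mt) Mt
    rw [sub_add_cancel] at h5
    linarith
  rw [Complex.norm_real, Real.norm_eq_abs] at h3
  have h4 := (le_abs_self _).trans h3
  rw [inv_mul_le_iff₀ (by positivity)] at h4
  exact h4

end Pool.Agent.X107.MU
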