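import Pool.Agent.X107.MU.MU37
import Pool.Agent.X107.MU.MU38
import Pool.Agent.TH806.Om

/-! # The mean of the local mean squares in the windows, with the weight `|ζ|²` -/

set_option autoImplicit false

namespace Pool.Agent.X107.MU

open Complex Filter Topology MeasureTheory Set
open ZU ZU.J_c3a
open Pool.Agent.H306R2.SM (om cl Yf)
open Pool.Agent.H262R4.TM (Rng Ck)
open Pool.Agent.W184.NZ (wz wz_int wz_nonneg)

lemma om_le_self (k : ℕ) {δ t : ℝ} (hδ : 0 ≤ δ) (ht : 0 ≤ t) : om k δ t ≤ δ := by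
  unfold Pool.Agent.H306R2.SM.om
  have h1 : (δ * t) ^ k / (k.factorial : ℝ) ≤ Real.exp (δ * t) := Real.pow_div_factorial_le_exp (δ * t) (mul_nonneg hδ ht) k
  have h2 : δ ^ (k + 1) * t ^ k * Real.exp (-(δ * t)) / (k.factorial : ℝ) =
      δ * ((δ * t) ^ k / (k.factorial : ℝ) * Real.exp (-(δ * t))) := by
    rw [mul_pow]; ring
  rw [h2]
  have h3 : (δ * t) ^ k / (k.factorial : ℝ) * Real.exp (-(δ * t)) ≤ 1 := by
    calc _ ≤ Real.exp (δ * t) * Real.exp (-(δ * t)) := mul_le_mul_of_nonneg_right h1 (Real.exp_pos _).le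
      _ = 1 := by rw [← Real.exp_add, add_neg_cancel, Real.exp_zero]
  exact mul_le_of_le_one_right hδ h3

lemma wz_cont (k : ℕ) (Y : ℝ) : Continuous (wz k Y) := by
  unfold Pool.Agent.W184.NZ.wz
  exact (Pool.Agent.H262R4.TM.TTW.om_cont k _).mul (Pool.Agent.H262R4.TM.TTW.zeta_cont.norm.pow 2)

lemma Qd_bdd (Bs : Finset ℕ) (hB : ∀ b ∈ Bs, 1 ≤ b) (c : ℕ → ℂ) (w : ℂ) (t : ℝ) :
    ‖Qd Bs c w t‖ ≤ ∑ b ∈ Bs, ‖c b‖ * (b : ℝ) ^ (-w.re) := by
  unfold Qd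
  refine (norm_sum_le _ _).trans (Finset.sum_le_sum fun b hb => ?_)
  rw [norm_mul, Complex.norm_natCast_cpow_of_pos (hB b hb)]
  simp

lemma Qd_part {k : ℕ} {Y : ℝ} (hY : 0 < Y) (hk : 1 ≤ k) (Bs : Finset ℕ) (hB : ∀ b ∈ Bs, 1 ≤ b) (c : ℕ → ℂ) (w : ℂ) {X : ℝ} (hX : 0 ≤ X) :
    ∫ t in (0 : ℝ)..X, wz k Y t * ‖Qd Bs c w t‖ ^ 2 ≤ ∫ t in Ioi (0 : ℝ), wz k Y t * ‖Qd Bs c w t‖ ^ 2 := by
  have hk0 : (0 : ℝ) < k := by exact_mod_cast hk
  have hi := wz_int k (Y := Y) (by positivity) (f := fun t => ‖Qd Bs c w t‖ ^ 2)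
    (C := (∑ b ∈ Bs, ‖c b‖ * (b : ℝ) ^ (-w.re)) ^ 2) ((Qd_cont Bs hB c w).norm.pow 2) (fun t => by
      rw [abs_of_nonneg (by positivity)]
      exact pow_le_pow_left₀ (norm_nonneg _) (Qd_bdd Bs hB c w t) 2)
  rw [intervalIntegral.integral_of_le hX]
  refine setIntegral_mono_set hi ?_ (LE.le.eventuallyLE fun t ht => ht.1)
  refine (ae_restrict_iff' measurableSet_Ioi).2 (Eventually.of_forall fun t ht => ?_)
  exact mul_nonneg (wz_nonneg k hY (le_of_lt ht)) (by positivity)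

lemma log_sq_ev {η : ℝ} (hη : 0 < η) (C : ℝ) : ∀ᶠ T : ℝ in atTop, C * (Real.log T ^ 2 * T ^ (-η)) ≤ 1 := by
  have h1 := ((isLittleO_log_rpow_atTop (r := η / 4) (by positivity)).bound (show (0 : ℝ) < 1 by norm_num))
  have h2 := (tendsto_rpow_atTop (show 0 < η / 2 by positivity)).eventually_ge_atTop |C|
  filter_upwards [h1, h2, eventually_ge_atTop (1 : ℝ)] with T hT hC hT1
  have hT0 : 0 < T := by linarith
  have hl : 0 ≤ Real.log T := Real.log_nonneg hT1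
  rw [one_mul, Real.norm_of_nonneg hl, Real.norm_of_nonneg (by positivity)] at hT
  have h3 : Real.log T ^ 2 ≤ T ^ (η / 2) := by
    calc Real.log T ^ 2 ≤ (T ^ (η / 4)) ^ 2 := pow_le_pow_left₀ hl hT 2
      _ = T ^ (η / 2) := by rw [← Real.rpow_natCast, ← Real.rpow_mul hT0.le]; congr 1; push_cast; ring
  calc C * (Real.log T ^ 2 * T ^ (-η)) ≤ |C| * (Real.log T ^ 2 * T ^ (-η)) :=
        mul_le_mul_of_nonneg_right (le_abs_self C) (by positivity)
    _ ≤ T ^ (η / 2) * (T ^ (η / 2) * T ^ (-η)) := by gcongr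
    _ = 1 := by
      rw [← Real.rpow_add hT0, ← Real.rpow_add hT0]
      rw [show η / 2 + (η / 2 + -η) = 0 by ring, Real.rpow_zero]

theorem JG_win {a b B : ℝ} (ha : 1 / 2 < a) (hab : a ≤ b) (hb : b < 1) (hB : 0 < B) {ε : ℝ} (hε : 0 < ε) :
    ∃ z0 : ℕ, ∀ z ≥ z0, ∀ᶠ T : ℝ in atTop, ∀ κ : ℕ, Rng T κ →
      ∫ t in (0 : ℝ)..(8 * T), wz κ T t * JG a b B z t ≤ ε * Real.log T := by
  obtain ⟨V0, hV0⟩ : ∃ V0, V0 = (b - a) * (2 * B) + 1 := ⟨_, rfl⟩
  have hV0p : 0 < V0 := by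
    have : 0 ≤ (b - a) * (2 * B) := mul_nonneg (by linarith) (by linarith)
    linarith
  obtain ⟨l, hl⟩ : ∃ l, l = a - 1 / 2 := ⟨_, rfl⟩
  have hl0 : 0 < l := by linarith
  obtain ⟨ε1, hε1⟩ : ∃ ε1, ε1 = ε / V0 / 24 := ⟨_, rfl⟩
  have hε1p : 0 < ε1 := by rw [hε1]; positivity
  obtain ⟨z1, hz1⟩ := gs_tail hl0 hε1p
  refine ⟨z1, fun z hz => ?_⟩
  have hCz := Cz_ge z
  have hCz0 : 0 < Cz z := by linarith
  obtain ⟨z2, hz2⟩ := gs_tail hl0 (show 0 < ε1 / Cz z ^ 2 by positivity)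
  obtain ⟨η, hη, hcs⟩ := cross_small ha hab hb hB (show (0 : ℝ) < 1 / 8 by norm_num) le_rfl
  obtain ⟨P, hP⟩ : ∃ P : ℕ, P = ∏ p ∈ pr z, p := ⟨_, rfl⟩
  have hP1 : 1 ≤ P := by rw [hP]; exact pr_pos (Finset.Subset.refl _)
  have hP1' : (1 : ℝ) ≤ P := by exact_mod_cast hP1
  have f4 : ∀ᶠ T : ℝ in atTop, (P : ℝ) ≤ T ^ (1 / 8 : ℝ) := (tendsto_rpow_atTop (by norm_num)).eventually_ge_atTop _
  have f5 : ∀ᶠ T : ℝ in atTop, (z2 : ℝ) + 1 ≤ T ^ (1 / 8 : ℝ) := (tendsto_rpow_atTop (by norm_num)).eventually_ge_atTop _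
  filter_upwards [Q_bound, hcs, f4, f5, log_sq_ev hη (4 * Cz z ^ 2), eventually_ge_atTop (1 : ℝ),
    Real.tendsto_log_atTop.eventually_ge_atTop (max 4 ((3 * (3 + Cz z ^ 2)) / (12 * ε1)))] with T g1 g2 g4 g5 g6 hT1 hL κ hκ
  have hT0 : 0 < T := by linarith
  have hL4 : 4 ≤ Real.log T := (le_max_left _ _).trans hL
  have hL5 : 3 * (3 + Cz z ^ 2) ≤ 12 * ε1 * Real.log T := by
    have := (le_max_right _ _).trans hL
    rw [div_le_iff₀ (by positivity)] at this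
    linarith
  have hκ1 : 1 ≤ κ := by
    have := hκ.1
    have h2 : (1 : ℝ) ≤ κ := by nlinarith
    exact_mod_cast h2
  have hκ0 : (0 : ℝ) < κ := by exact_mod_cast hκ1
  have h8T : (0 : ℝ) ≤ 8 * T := by linarith
  obtain ⟨L, hLdef⟩ : ∃ L, L = ⌊T ^ (1 / 8 : ℝ)⌋₊ := ⟨_, rfl⟩
  rw [← hLdef] at g2
  have hTk : 0 < T ^ (1 / 8 : ℝ) := Real.rpow_pos_of_pos hT0 _
  have hLle : (L : ℝ) ≤ T ^ (1 / 8 : ℝ) := by rw [hLdef]; exact Nat.floor_le hTk.le
  have hLz : z2 + 1 ≤ L := by rw [hLdef]; exact Nat.le_floor (by push_cast; exact g5)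
  have hL1 : 1 ≤ L := by omega
  have hLP : ((L * P : ℕ) : ℝ) ≤ T ^ (1 / 4 : ℝ) := by
    push_cast
    calc (L : ℝ) * P ≤ T ^ (1 / 8 : ℝ) * T ^ (1 / 8 : ℝ) := mul_le_mul hLle g4 (by positivity) (by positivity)
      _ = T ^ (1 / 4 : ℝ) := by rw [← Real.rpow_add hT0]; norm_num
  have key : ∀ w ∈ rect a b B, ∫ t in (0 : ℝ)..(8 * T), wz κ T t * ‖GZ z (w + t * I)‖ ^ 2 ≤ ε / V0 * Real.log T := by
    intro w hw
    obtain ⟨hw1, hw2, hw3⟩ := hw
    have hwre : 0 < w.re := by linarith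
    have hw1' : w.re < 1 := by linarith
    have c0 : Continuous fun t : ℝ => wz κ T t * ‖zD L (w + t * I)‖ ^ 2 := by
      have cl : Continuous (fun t : ℝ => w + (t : ℂ) * I) := by fun_prop
      exact (wz_cont κ T).mul (((ZU.J_c3.rough_mv_zeta_cont w hw1').sub ((ZU.J_c3.rough_mv_DN_cont L).comp cl)).norm.pow 2)
    have c1 : Continuous fun t : ℝ => wz κ T t * ‖Qd (S1 z L) (fun _ => 1) w t‖ ^ 2 :=
      (wz_cont κ T).mul ((Qd_cont (S1 z L) S1_pos (fun _ => 1) w).norm.pow 2)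
    have c2 : Continuous fun t : ℝ => wz κ T t * ‖Qd (Finset.Icc (L + 1) (L * P)) (cf z L) w t‖ ^ 2 :=
      (wz_cont κ T).mul ((Qd_cont _ Ic_pos (cf z L) w).norm.pow 2)
    have cG : Continuous fun t : ℝ => wz κ T t * ‖GZ z (w + t * I)‖ ^ 2 := (wz_cont κ T).mul ((GZ_cont z hw1').norm.pow 2)
    have m1 : Continuous fun t : ℝ => 3 * Cz z ^ 2 * (wz κ T t * ‖zD L (w + t * I)‖ ^ 2) := c0.const_mul _
    have m2 : Continuous fun t : ℝ => 3 * (wz κ T t * ‖Qd (S1 z L) (fun _ => 1) w t‖ ^ 2) := c1.const_mul _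
    have m3 : Continuous fun t : ℝ => 3 * (wz κ T t * ‖Qd (Finset.Icc (L + 1) (L * P)) (cf z L) w t‖ ^ 2) := c2.const_mul _
    have m12 : Continuous fun t : ℝ => 3 * Cz z ^ 2 * (wz κ T t * ‖zD L (w + t * I)‖ ^ 2) +
        3 * (wz κ T t * ‖Qd (S1 z L) (fun _ => 1) w t‖ ^ 2) := m1.add m2
    have s1 : ∫ t in (0 : ℝ)..(8 * T), wz κ T t * ‖GZ z (w + t * I)‖ ^ 2 ≤
        3 * Cz z ^ 2 * (∫ t in (0 : ℝ)..(8 * T), wz κ T t * ‖zD L (w + t * I)‖ ^ 2) +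
        3 * (∫ t in (0 : ℝ)..(8 * T), wz κ T t * ‖Qd (S1 z L) (fun _ => 1) w t‖ ^ 2) +
        3 * (∫ t in (0 : ℝ)..(8 * T), wz κ T t * ‖Qd (Finset.Icc (L + 1) (L * P)) (cf z L) w t‖ ^ 2) := by
      rw [← intervalIntegral.integral_const_mul, ← intervalIntegral.integral_const_mul, ← intervalIntegral.integral_const_mul,
        ← intervalIntegral.integral_add (m1.intervalIntegrable _ _) (m2.intervalIntegrable _ _),
        ← intervalIntegral.integral_add (m12.intervalIntegrable _ _) (m3.intervalIntegrable _ _)]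
      refine intervalIntegral.integral_mono_on h8T (cG.intervalIntegrable _ _) ((m12.add m3).intervalIntegrable _ _)
        fun t ht => ?_
      have q1 := GZ_sq z L hL1 w hwre t
      rw [← hP] at q1
      have q2 := wz_nonneg κ hT0 ht.1
      have q3 := mul_le_mul_of_nonneg_left q1 q2
      refine q3.trans (le_of_eq ?_)
      unfold zD
      ring
    have s2 : ∫ t in (0 : ℝ)..(8 * T), wz κ T t * ‖zD L (w + t * I)‖ ^ 2 ≤ κ / T * T ^ (1 - η) := by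
      have q1 := g2 w ⟨hw1, hw2, hw3⟩
      refine le_trans ?_ (mul_le_mul_of_nonneg_left q1 (by positivity))
      rw [← intervalIntegral.integral_const_mul]
      have q2 : Continuous fun t : ℝ => κ / T * (‖riemannZeta (1 / 2 + (t : ℂ) * I)‖ ^ 2 * ‖zD L (w + t * I)‖ ^ 2) := by
        have cl : Continuous (fun t : ℝ => w + (t : ℂ) * I) := by fun_prop
        exact ((Pool.Agent.H262R4.TM.TTW.zeta_cont.norm.pow 2).mul
          (((ZU.J_c3.rough_mv_zeta_cont w hw1').sub ((ZU.J_c3.rough_mv_DN_cont L).comp cl)).norm.pow 2)).const_mul _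
      refine intervalIntegral.integral_mono_on h8T (c0.intervalIntegrable _ _) (q2.intervalIntegrable _ _) fun t ht => ?_
      have q3 := om_le_self κ (δ := κ / T) (by positivity) ht.1
      unfold Pool.Agent.W184.NZ.wz cl
      rw [mul_assoc]
      exact mul_le_mul_of_nonneg_right q3 (by positivity)
    have s2' : κ / T * T ^ (1 - η) ≤ 4 * (Real.log T ^ 2 * T ^ (-η)) := by
      have e : κ / T * T ^ (1 - η) = κ * T ^ (-η) := by
        rw [show (1 : ℝ) - η = 1 + -η by ring, Real.rpow_add hT0, Real.rpow_one]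
        field_simp
      rw [e]
      have := hκ.2
      have h0 : 0 ≤ T ^ (-η) := by positivity
      nlinarith
    have s3 : ∫ t in (0 : ℝ)..(8 * T), wz κ T t * ‖Qd (S1 z L) (fun _ => 1) w t‖ ^ 2 ≤ 2 * Real.log T * ε1 + 1 := by
      refine (Qd_part hT0 hκ1 _ S1_pos _ w h8T).trans ?_
      have q1 := g1 κ hκ (L * P) hLP (S1 z L) (fun _ => 1) w 1 l ε1 (fun b hb => ⟨S1_pos b hb, by
          unfold S1 at hb
          rw [Finset.mem_filter, Finset.mem_Icc] at hb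
          exact hb.1.2.trans (Nat.le_mul_of_pos_right L hP1)⟩) one_pos (fun b => by simp) hl0 (by rw [hl]; linarith)
        (hz1 _ fun b hb => lt_of_le_of_lt hz (S1_gt hb))
      simpa using q1
    have s4 : ∫ t in (0 : ℝ)..(8 * T), wz κ T t * ‖Qd (Finset.Icc (L + 1) (L * P)) (cf z L) w t‖ ^ 2 ≤
        2 * Real.log T * ε1 + Cz z ^ 2 := by
      refine (Qd_part hT0 hκ1 _ Ic_pos _ w h8T).trans ?_
      have q1 := g1 κ hκ (L * P) hLP (Finset.Icc (L + 1) (L * P)) (cf z L) w (Cz z) l (ε1 / Cz z ^ 2)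
        (fun b hb => ⟨Ic_pos b hb, (Finset.mem_Icc.1 hb).2⟩) hCz0 (fun b => cf_norm z L b) hl0 (by rw [hl]; linarith)
        (hz2 _ fun b hb => by
          have := (Finset.mem_Icc.1 hb).1
          omega)
      refine q1.trans (le_of_eq ?_)
      field_simp
    have s5 : 3 * Cz z ^ 2 * (∫ t in (0 : ℝ)..(8 * T), wz κ T t * ‖zD L (w + t * I)‖ ^ 2) ≤ 3 := by
      have q1 := mul_le_mul_of_nonneg_left (s2.trans s2') (show 0 ≤ 3 * Cz z ^ 2 by positivity)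
      refine q1.trans ?_
      have : 3 * Cz z ^ 2 * (4 * (Real.log T ^ 2 * T ^ (-η))) = 3 * (4 * Cz z ^ 2 * (Real.log T ^ 2 * T ^ (-η))) := by ring
      rw [this]
      linarith
    have e1 : ε / V0 = 24 * ε1 := by rw [hε1]; ring
    rw [e1]
    refine s1.trans ?_
    nlinarith
  have hfb := (fubini_bound a b B hab hB (GZ z) (GZ_contOn z hb) (wz κ T) (wz_cont κ T) (8 * T) h8T (ε / V0 * Real.log T) key).2
  refine hfb.trans ?_
  have h4 : (b - a) * (2 * B) ≤ V0 := by linarith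
  have h5 : 0 ≤ ε / V0 * Real.log T := by positivity
  calc (b - a) * (2 * B) * (ε / V0 * Real.log T) ≤ V0 * (ε / V0 * Real.log T) := mul_le_mul_of_nonneg_right h4 h5
    _ = ε * Real.log T := by field_simp

end Pool.Agent.X107.MU
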