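import Pool.Agent.X107.MU.MU3
import Pool.Agent.Helper240.ZU.A4
import Pool.Agent.Helper240.ZU.C3

/-! # Mean squares with the weight of a short Dirichlet polynomial -/

set_option autoImplicit false

open Complex Filter Topology Set MeasureTheory

namespace Pool.Agent.X107.MU

open ZU Pool.Agent.Y755
open Pool.Agent.H306R2 (dv dv_nonneg)

/-- the Dirichlet polynomial of `ζ^s` -/
noncomputable def Pd (s δ : ℝ) (N : ℕ) (t : ℝ) : ℂ :=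
  ∑ a ∈ Finset.Icc 1 N, ((dv s a : ℝ) : ℂ) * (a : ℂ) ^ (-(1 / 2 + (δ : ℂ) + t * I))

/-- the error of the partial Euler product -/
noncomputable def GZ (z : ℕ) (w : ℂ) : ℂ := riemannZeta w * EM z (fun _ => 1) w - 1

/-- a Dirichlet polynomial at height `t` -/
noncomputable def Qd (Bs : Finset ℕ) (c : ℕ → ℂ) (w : ℂ) (t : ℝ) : ℂ := ∑ b ∈ Bs, c b * (b : ℂ) ^ (-(w + t * I))

lemma cpow_cont {n : ℕ} (hn : 1 ≤ n) (w : ℂ) : Continuous fun t : ℝ => (n : ℂ) ^ (-(w + t * I)) := by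
  have hn0 : (n : ℂ) ≠ 0 := by exact_mod_cast (by omega : n ≠ 0)
  exact Continuous.const_cpow (by fun_prop) (Or.inl hn0)

lemma Pd_cont (s δ : ℝ) (N : ℕ) : Continuous (Pd s δ N) := by
  unfold Pd
  refine continuous_finsetSum _ fun a ha => continuous_const.mul ?_
  exact cpow_cont (Finset.mem_Icc.1 ha).1 _

lemma Qd_cont (Bs : Finset ℕ) (hB : ∀ b ∈ Bs, 1 ≤ b) (c : ℕ → ℂ) (w : ℂ) : Continuous (Qd Bs c w) := by
  unfold Qd
  exact continuous_finsetSum _ fun b hb => continuous_const.mul (cpow_cont (hB b hb) w)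

lemma norm_cpow {n : ℕ} (hn : 1 ≤ n) (w : ℂ) : ‖(n : ℂ) ^ (-w)‖ = (n : ℝ) ^ (-w.re) := by
  rw [Complex.norm_natCast_cpow_of_pos hn, Complex.neg_re]

lemma term_norm {s : ℝ} (hs : 0 ≤ s) (δ : ℝ) {a : ℕ} (ha : 1 ≤ a) :
    ‖((dv s a : ℝ) : ℂ) * (a : ℂ) ^ (-(1 / 2 + (δ : ℂ)))‖ = gg s δ a := by
  rw [norm_mul, Complex.norm_real, Real.norm_of_nonneg (dv_nonneg hs a), norm_cpow ha]
  unfold gg
  congr 2
  simp

lemma gg_sum_sq {s δ : ℝ} (hs : 0 < s) (hδ : 0 < δ) (N : ℕ) :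
    (∑ a ∈ Finset.Icc 1 N, gg s δ a) ^ 2 ≤ N * DD s δ := by
  refine (sq_sum_le_card_mul_sum_sq).trans ?_
  rw [Nat.card_Icc, Nat.add_sub_cancel]
  refine mul_le_mul_of_nonneg_left ?_ (Nat.cast_nonneg N)
  have h1 : ∑ a ∈ Finset.Icc 1 N, gg s δ a ^ 2 = ∑ a ∈ Finset.Icc 1 N, g2 s δ a :=
    Finset.sum_congr rfl fun a ha => gg_sq s δ (Finset.mem_Icc.1 ha).1
  rw [h1]
  exact (g2_summable hs hδ).sum_le_tsum _ fun n _ => g2_nonneg _ _ _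

lemma split_t {n : ℕ} (hn : 1 ≤ n) (w : ℂ) (t : ℝ) :
    (n : ℂ) ^ (-(w + t * I)) = (n : ℂ) ^ (-w) * (n : ℂ) ^ (-(t * I)) := by
  rw [← Complex.cpow_add _ _ (by exact_mod_cast (by omega : n ≠ 0))]
  congr 1
  ring

lemma Pd_sq_le {s δ : ℝ} (hs : 0 < s) (hδ : 0 < δ) (N : ℕ) (t : ℝ) : ‖Pd s δ N t‖ ^ 2 ≤ N * DD s δ := by
  refine le_trans (pow_le_pow_left₀ (norm_nonneg _) ?_ 2) (gg_sum_sq hs hδ N)
  unfold Pd
  refine (norm_sum_le _ _).trans (Finset.sum_le_sum fun a ha => ?_)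
  have ha1 := (Finset.mem_Icc.1 ha).1
  rw [split_t ha1, ← mul_assoc, norm_mul, term_norm hs.le δ ha1]
  have : ‖(a : ℂ) ^ (-(t * I))‖ = 1 := by rw [norm_cpow ha1]; simp
  rw [this, mul_one]

/-- **mean square of a product** -/
theorem prod_gauss {s δ : ℝ} (hs : 0 < s) (hδ : 0 < δ) (N : ℕ) (Bs : Finset ℕ) (M : ℕ) (hB : ∀ b ∈ Bs, 1 ≤ b ∧ b ≤ M)
    (c : ℕ → ℂ) (K : ℝ) (hc : ∀ b, ‖c b‖ ≤ K) (w : ℂ) (hw : 0 ≤ w.re) (T : ℝ) (hT : 0 < T) :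
    ∫ t in (0 : ℝ)..T, ‖Pd s δ N t‖ ^ 2 * ‖Qd Bs c w t‖ ^ 2 ≤
      Real.exp 1 * (√Real.pi * T * (dia (Finset.Icc 1 N ×ˢ Bs) (fun q => q.1 * q.2)
        (fun q => gg s δ q.1 * (‖c q.2‖ * (q.2 : ℝ) ^ (-w.re))) +
        (N * DD s δ * (K * M) ^ 2) * Real.exp (-(T ^ 2 / (4 * ((N * M : ℕ) : ℝ) ^ 2))))) := by
  classical
  obtain ⟨x, hx⟩ : ∃ x : ℕ × ℕ → ℂ, ∀ q, x q = (((dv s q.1 : ℝ) : ℂ) * (q.1 : ℂ) ^ (-(1 / 2 + (δ : ℂ)))) *
    (c q.2 * (q.2 : ℂ) ^ (-w)) := ⟨_, fun _ => rfl⟩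
  have hmem : ∀ q ∈ Finset.Icc 1 N ×ˢ Bs, (1 ≤ q.1 ∧ q.1 ≤ N) ∧ (1 ≤ q.2 ∧ q.2 ≤ M) := by
    intro q hq
    rw [Finset.mem_product, Finset.mem_Icc] at hq
    exact ⟨hq.1, hB _ hq.2⟩
  have hprod : ∀ t : ℝ, Pd s δ N t * Qd Bs c w t =
      ∑ q ∈ Finset.Icc 1 N ×ˢ Bs, x q * (((q.1 * q.2 : ℕ) : ℕ) : ℂ) ^ (-(t * I)) := by
    intro t
    unfold Pd Qd
    rw [Finset.sum_mul_sum, ← Finset.sum_product']
    refine Finset.sum_congr rfl fun q hq => ?_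
    obtain ⟨⟨h1, -⟩, h2, -⟩ := hmem q hq
    rw [hx, split_t h1, split_t h2, Nat.cast_mul, Complex.natCast_mul_natCast_cpow]
    ring
  have hxn : ∀ q ∈ Finset.Icc 1 N ×ˢ Bs, ‖x q‖ = gg s δ q.1 * (‖c q.2‖ * (q.2 : ℝ) ^ (-w.re)) := by
    intro q hq
    obtain ⟨⟨h1, -⟩, h2, -⟩ := hmem q hq
    rw [hx, norm_mul, term_norm hs.le δ h1, norm_mul, norm_cpow h2]
  obtain ⟨i1, b1⟩ := gauss_fin (Finset.Icc 1 N ×ˢ Bs) (fun q : ℕ × ℕ => q.1 * q.2) (N * M) (fun q hq => by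
    obtain ⟨⟨h1, h1'⟩, h2, h2'⟩ := hmem q hq
    exact ⟨Nat.mul_pos h1 h2, Nat.mul_le_mul h1' h2'⟩) x T hT
  have hle : ∫ t in (0 : ℝ)..T, ‖Pd s δ N t‖ ^ 2 * ‖Qd Bs c w t‖ ^ 2 ≤
      Real.exp 1 * ∫ t : ℝ, Real.exp (-(t / T) ^ 2) *
        ‖∑ q ∈ Finset.Icc 1 N ×ˢ Bs, x q * (((fun q : ℕ × ℕ => q.1 * q.2) q : ℕ) : ℂ) ^ (-(t * I))‖ ^ 2 := by
    rw [intervalIntegral.integral_of_le hT.le, ← integral_const_mul]
    refine (setIntegral_mono_on ?_ (i1.const_mul _).integrableOn measurableSet_Ioc fun t ht => ?_).trans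
      (setIntegral_le_integral (i1.const_mul _) (Eventually.of_forall fun t => by positivity))
    · have h1 : Continuous fun t : ℝ => ‖Pd s δ N t‖ ^ 2 * ‖Qd Bs c w t‖ ^ 2 :=
        ((Pd_cont s δ N).norm.pow 2).mul ((Qd_cont Bs (fun b hb => (hB b hb).1) c w).norm.pow 2)
      exact (h1.continuousOn.integrableOn_compact isCompact_Icc).mono_set Ioc_subset_Icc_self
    · have e1 : ‖Pd s δ N t‖ ^ 2 * ‖Qd Bs c w t‖ ^ 2 = ‖∑ q ∈ Finset.Icc 1 N ×ˢ Bs,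
          x q * (((fun q : ℕ × ℕ => q.1 * q.2) q : ℕ) : ℂ) ^ (-(t * I))‖ ^ 2 := by
        rw [← mul_pow, ← norm_mul, hprod]
      rw [e1, ← mul_assoc]
      refine le_mul_of_one_le_left (by positivity) ?_
      rw [← Real.exp_add]
      apply Real.one_le_exp
      have h6 : (t / T) ^ 2 ≤ 1 := by
        have h7 : 0 ≤ t / T := div_nonneg ht.1.le hT.le
        have h8 : t / T ≤ 1 := (div_le_one hT).2 ht.2
        nlinarith
      linarith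
  refine hle.trans (mul_le_mul_of_nonneg_left (b1.trans ?_) (Real.exp_pos 1).le)
  refine mul_le_mul_of_nonneg_left ?_ (by positivity)
  have hd : dia (Finset.Icc 1 N ×ˢ Bs) (fun q : ℕ × ℕ => q.1 * q.2) (fun q => ‖x q‖) =
      dia (Finset.Icc 1 N ×ˢ Bs) (fun q => q.1 * q.2) (fun q => gg s δ q.1 * (‖c q.2‖ * (q.2 : ℝ) ^ (-w.re))) := by
    unfold dia
    refine Finset.sum_congr rfl fun q hq => Finset.sum_congr rfl fun r hr => ?_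
    simp only
    rw [hxn q hq, hxn r hr]
  rw [hd]
  refine add_le_add le_rfl (mul_le_mul_of_nonneg_right ?_ (Real.exp_pos _).le)
  have hK : 0 ≤ K := (norm_nonneg _).trans (hc 0)
  have h1 : ∑ q ∈ Finset.Icc 1 N ×ˢ Bs, ‖x q‖ ≤ (∑ a ∈ Finset.Icc 1 N, gg s δ a) * (K * M) := by
    rw [Finset.sum_congr rfl hxn, Finset.sum_product]
    rw [Finset.sum_mul]
    refine Finset.sum_le_sum fun a ha => ?_
    simp only
    rw [← Finset.mul_sum]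
    refine mul_le_mul_of_nonneg_left ?_ (gg_nonneg hs.le δ a)
    have h2 : ∀ b ∈ Bs, ‖c b‖ * (b : ℝ) ^ (-w.re) ≤ K := by
      intro b hb
      have hb1 : (1 : ℝ) ≤ b := by exact_mod_cast (hB b hb).1
      have h3 : (b : ℝ) ^ (-w.re) ≤ 1 := Real.rpow_le_one_of_one_le_of_nonpos hb1 (by linarith)
      calc ‖c b‖ * (b : ℝ) ^ (-w.re) ≤ K * 1 := mul_le_mul (hc b) h3 (by positivity) hK
        _ = K := mul_one K
    refine (Finset.sum_le_sum h2).trans ?_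
    rw [Finset.sum_const, nsmul_eq_mul, mul_comm]
    refine mul_le_mul_of_nonneg_left ?_ hK
    have h4 : Bs ⊆ Finset.Icc 1 M := fun b hb => Finset.mem_Icc.2 (hB b hb)
    have h5 := Finset.card_le_card h4
    rw [Nat.card_Icc, Nat.add_sub_cancel] at h5
    exact_mod_cast h5
  have h2 : (∑ q ∈ Finset.Icc 1 N ×ˢ Bs, ‖x q‖) ^ 2 ≤ ((∑ a ∈ Finset.Icc 1 N, gg s δ a) * (K * M)) ^ 2 :=
    pow_le_pow_left₀ (Finset.sum_nonneg fun _ _ => norm_nonneg _) h1 2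
  refine h2.trans ?_
  rw [mul_pow]
  exact mul_le_mul_of_nonneg_right (gg_sum_sq hs hδ N) (sq_nonneg _)

end Pool.Agent.X107.MU
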