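import Pool.Agent.X107.MU.MU38
import Pool.Agent.X110.NA5

/-! # The twisted second moment of one frequency in the windows -/

set_option autoImplicit false

namespace Pool.Agent.X107.MU

open Complex Filter Topology MeasureTheory Set
open Pool.Agent.H306R2.SM (om cl Yf)
open Pool.Agent.H262R4.TM (Rng Ck)
open Pool.Agent.W184.NZ (wz wz_int wz_nonneg mono_moment Zm Mn mh wl w1)
open Pool.Agent.X110.NA (tws tws_norm tws_cont)

lemma win_one : ∀ᶠ T : ℝ in atTop, ∀ κ : ℕ, Rng T κ → |(∫ t in Ioi (0 : ℝ), wz κ T t) - Real.log T| ≤ 4 := by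
  obtain ⟨η, hη, hm⟩ := mono_moment
  filter_upwards [hm, eventually_ge_atTop (1:ℝ), Real.tendsto_log_atTop.eventually_ge_atTop 4] with T hT hT1 hL κ hκ
  have hT0 : 0 < T := by linarith
  have hκ1 : 1 ≤ κ := by
    have := hκ.1
    have h2 : (1:ℝ) ≤ κ := by nlinarith
    exact_mod_cast h2
  have h1 := hT κ hκ (1, 1) one_ne_zero one_ne_zero (by simpa using Real.one_le_rpow hT1 (by norm_num))
    (by simpa using Real.one_le_rpow hT1 (by norm_num))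
  have e1 : Zm κ T (1, 1) = ∫ t in Ioi (0:ℝ), wz κ T t := by
    unfold Pool.Agent.W184.NZ.Zm
    refine integral_congr_ae (Eventually.of_forall fun t => ?_)
    have : mh t (1, 1) = 1 := map_one (mh t)
    simp only [this, Complex.one_re, mul_one]
  have e2 : Mn κ T (1, 1) = Real.log (Yf κ T) + Ck κ := by
    unfold Pool.Agent.W184.NZ.Mn Pool.Agent.W184.NZ.wl Pool.Agent.W184.NZ.w1
    simp
  rw [e1, e2] at h1
  have h2 := Pool.Agent.TH806.yf_bound hκ1 hT0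
  have h3 : T ^ (-η) ≤ 1 := Real.rpow_le_one_of_one_le_of_nonpos hT1 (by linarith)
  have h4 := abs_le.mp h1
  have h5 := abs_le.mp h2
  rw [abs_le]
  constructor <;> linarith [h4.1, h4.2, h5.1, h5.2]

lemma tws_sq {m n : ℕ} (hm : m ≠ 0) (hn : n ≠ 0) {φ : ℂ} (hφ : ‖φ‖ = 1) (t : ℝ) :
    ‖(starRingEnd ℂ) φ * (√(m : ℝ) : ℂ) * (m : ℂ) ^ (-(cl t)) + (√(n : ℝ) : ℂ) * (n : ℂ) ^ (-(cl t))‖ ^ 2 =
      2 * (1 + (φ * tws m n t).re) := by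
  have e : ∀ j : ℕ, j ≠ 0 → (√(j : ℝ) : ℂ) * (j : ℂ) ^ (-(cl t)) = Complex.exp (((-(t * Real.log j) : ℝ) : ℂ) * I) := by
    intro j hj
    have hj0 : (j : ℂ) ≠ 0 := by exact_mod_cast hj
    have hj1 : (0 : ℝ) < j := by exact_mod_cast Nat.pos_of_ne_zero hj
    have h1 : (√(j : ℝ) : ℂ) = Complex.exp ((1 / 2 : ℂ) * Real.log j) := by
      rw [Real.sqrt_eq_rpow, Real.rpow_def_of_pos hj1, Complex.ofReal_exp]
      congr 1
      push_cast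
      ring
    rw [h1, Complex.cpow_def_of_ne_zero hj0, ← Complex.exp_add, ← Complex.ofReal_natCast, ← Complex.ofReal_log hj1.le]
    congr 1
    unfold Pool.Agent.H306R2.SM.cl
    push_cast
    ring
  rw [mul_assoc, e m hm, e n hn]
  obtain ⟨x, hx⟩ : ∃ x : ℂ, x = Complex.exp (((-(t * Real.log m) : ℝ) : ℂ) * I) := ⟨_, rfl⟩
  obtain ⟨y, hy⟩ : ∃ y : ℂ, y = Complex.exp (((-(t * Real.log n) : ℝ) : ℂ) * I) := ⟨_, rfl⟩
  have hxn : ‖x‖ = 1 := by rw [hx]; exact Complex.norm_exp_ofReal_mul_I _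
  have hyn : ‖y‖ = 1 := by rw [hy]; exact Complex.norm_exp_ofReal_mul_I _
  have hm1 : (0 : ℝ) < m := by exact_mod_cast Nat.pos_of_ne_zero hm
  have hn1 : (0 : ℝ) < n := by exact_mod_cast Nat.pos_of_ne_zero hn
  have htw : tws m n t = (starRingEnd ℂ) x * y := by
    rw [hx, hy, ← Complex.exp_conj, ← Complex.exp_add]
    unfold Pool.Agent.X110.NA.tws
    rw [Real.log_div hm1.ne' hn1.ne']
    congr 1
    rw [map_mul, Complex.conj_ofReal, Complex.conj_I]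
    push_cast
    ring
  rw [← hx, ← hy, htw]
  have h1 : ‖(starRingEnd ℂ) φ * x + y‖ ^ 2 = ‖(starRingEnd ℂ) φ * x‖ ^ 2 + ‖y‖ ^ 2 +
      2 * ((starRingEnd ℂ) φ * x * (starRingEnd ℂ) y).re := by
    rw [← Complex.normSq_eq_norm_sq, ← Complex.normSq_eq_norm_sq, ← Complex.normSq_eq_norm_sq, Complex.normSq_add]
  rw [h1, norm_mul, RCLike.norm_conj, hφ, hxn, hyn]
  have h2 : ((starRingEnd ℂ) φ * x * (starRingEnd ℂ) y).re = (φ * ((starRingEnd ℂ) x * y)).re := by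
    rw [← Complex.conj_re (φ * ((starRingEnd ℂ) x * y))]
    congr 1
    rw [map_mul, map_mul, Complex.conj_conj]
    ring
  rw [h2]
  ring

/-- **The windows.** -/
theorem win_tw {m n : ℕ} (hm : m ≠ 0) (hn : n ≠ 0) (hmn : m.Coprime n) {φ : ℂ} (hφ : ‖φ‖ = 1) {ε : ℝ} (hε : 0 < ε) :
    ∀ᶠ T : ℝ in atTop, ∀ κ : ℕ, Rng T κ → |(∫ t in Ioi (0 : ℝ), wz κ T t * (1 + (φ * tws m n t).re)) -
      (1 + φ.re * ((m : ℝ) * n) ^ (-(1 / 2 : ℝ))) * Real.log T| ≤ ε * Real.log T := by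
  have hφre : |φ.re| ≤ 1 := by rw [← hφ]; exact Complex.abs_re_le_norm φ
  by_cases hmn1 : m = n
  · subst hmn1
    have h1 : m = 1 := (Nat.coprime_self m).1 hmn
    subst h1
    filter_upwards [win_one, Real.tendsto_log_atTop.eventually_ge_atTop (8 / ε)] with T hT hL κ hκ
    have e1 : ∀ t : ℝ, tws 1 1 t = 1 := fun t => by
      unfold Pool.Agent.X110.NA.tws
      simp
    simp_rw [e1, mul_one]
    rw [integral_mul_const]
    have h2 := hT κ hκ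
    have e2 : (((1 : ℕ) : ℝ) * ((1 : ℕ) : ℝ)) ^ (-(1 / 2 : ℝ)) = 1 := by simp
    rw [e2, mul_one, mul_comm (∫ t in Ioi (0 : ℝ), wz κ T t), ← mul_sub, abs_mul]
    rw [div_le_iff₀ hε] at hL
    have h3 : |1 + φ.re| ≤ 2 := by
      have := abs_add_le 1 φ.re
      rw [abs_one] at this
      linarith
    calc |1 + φ.re| * |(∫ t in Ioi (0 : ℝ), wz κ T t) - Real.log T| ≤ 2 * 4 := mul_le_mul h3 h2 (abs_nonneg _) (by norm_num)
      _ ≤ _ := by linarith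
  obtain ⟨η, hη, hTS⟩ := Pool.Agent.H262R4.TM.f_TSM2 (1 / 4) (by norm_num)
  obtain ⟨N, hN⟩ : ∃ N, N = max m n := ⟨_, rfl⟩
  have hm1 : 1 ≤ m := Nat.pos_of_ne_zero hm
  have hn1 : 1 ≤ n := Nat.pos_of_ne_zero hn
  have hm1' : (1 : ℝ) ≤ m := by exact_mod_cast hm1
  have hn1' : (1 : ℝ) ≤ n := by exact_mod_cast hn1
  have hm0 : (0 : ℝ) < m := by linarith
  have hn0 : (0 : ℝ) < n := by linarith
  obtain ⟨R, hR⟩ : ∃ R : ℝ, R = m + n := ⟨_, rfl⟩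
  have hR0 : 0 < R := by rw [hR]; positivity
  have hmR : √(m : ℝ) ≤ R := by
    rw [Real.sqrt_le_left hR0.le, hR]
    nlinarith
  have hnR : √(n : ℝ) ≤ R := by
    rw [Real.sqrt_le_left hR0.le, hR]
    nlinarith
  obtain ⟨K0, hK0⟩ : ∃ K0 : ℝ, K0 = 4 + Real.log ((m : ℝ) * n) + R ^ 2 := ⟨_, rfl⟩
  filter_upwards [hTS, eventually_ge_atTop (1 : ℝ), Real.tendsto_log_atTop.eventually_ge_atTop 4,
    (tendsto_rpow_atTop (show (0 : ℝ) < 1 / 4 by norm_num)).eventually_ge_atTop (N : ℝ),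
    Real.tendsto_log_atTop.eventually_ge_atTop (K0 / ε)] with T hT hT1 hL hNT hL2 κ hκ
  have hT0 : 0 < T := by linarith
  have hκ1 : 1 ≤ κ := by
    have := hκ.1
    have h2 : (1 : ℝ) ≤ κ := by nlinarith
    exact_mod_cast h2
  have hκ0 : (0 : ℝ) < κ := by exact_mod_cast hκ1
  have hY : 0 < Yf κ T := by unfold Pool.Agent.H306R2.SM.Yf; positivity
  obtain ⟨α, hα⟩ : ∃ α : ℂ, α = (starRingEnd ℂ) φ := ⟨_, rfl⟩
  have hαn : ‖α‖ = 1 := by rw [hα, RCLike.norm_conj, hφ]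
  obtain ⟨a, ha⟩ : ∃ a : ℕ → ℂ, a = fun j => (R : ℂ)⁻¹ * ((if j = m then α * (√(m : ℝ) : ℂ) else 0) +
    (if j = n then (√(n : ℝ) : ℂ) else 0)) := ⟨_, rfl⟩
  have ha1 : ∀ j, ‖a j‖ ≤ 1 := by
    intro j
    rw [ha]
    simp only
    rw [norm_mul, norm_inv, Complex.norm_real, Real.norm_of_nonneg hR0.le, inv_mul_le_iff₀ hR0, mul_one]
    by_cases h1 : j = m
    · have h2 : j ≠ n := fun h => hmn1 (h1.symm.trans h)
      rw [if_pos h1, if_neg h2, add_zero, norm_mul, hαn, one_mul, Complex.norm_real, Real.norm_of_nonneg (Real.sqrt_nonneg _)]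
      exact hmR
    · rw [if_neg h1, zero_add]
      split_ifs
      · rw [Complex.norm_real, Real.norm_of_nonneg (Real.sqrt_nonneg _)]
        exact hnR
      · rw [norm_zero]
        exact hR0.le
  have hmN : m ∈ Finset.Icc 1 N := Finset.mem_Icc.2 ⟨hm1, by rw [hN]; exact le_max_left _ _⟩
  have hnN : n ∈ Finset.Icc 1 N := Finset.mem_Icc.2 ⟨hn1, by rw [hN]; exact le_max_right _ _⟩
  have key : ∀ F : ℕ → ℂ, ∑ j ∈ Finset.Icc 1 N, a j * F j =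
      (R : ℂ)⁻¹ * (α * (√(m : ℝ) : ℂ) * F m + (√(n : ℝ) : ℂ) * F n) := by
    intro F
    have e1 : ∀ j ∈ Finset.Icc 1 N, a j * F j = (R : ℂ)⁻¹ * ((if j = m then α * (√(m : ℝ) : ℂ) * F j else 0) +
        (if j = n then (√(n : ℝ) : ℂ) * F j else 0)) := by
      intro j _
      rw [ha]
      simp only
      rw [mul_assoc, add_mul, ite_mul, ite_mul, zero_mul]
    rw [Finset.sum_congr rfl e1, ← Finset.mul_sum, Finset.sum_add_distrib, Finset.sum_ite_eq', Finset.sum_ite_eq', if_pos hmN, if_pos hnN]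
  have keyc : ∀ F : ℕ → ℂ, ∑ j ∈ Finset.Icc 1 N, (starRingEnd ℂ) (a j) * F j =
      (R : ℂ)⁻¹ * (φ * (√(m : ℝ) : ℂ) * F m + (√(n : ℝ) : ℂ) * F n) := by
    intro F
    have e1 : ∀ j ∈ Finset.Icc 1 N, (starRingEnd ℂ) (a j) * F j = (R : ℂ)⁻¹ * ((if j = m then φ * (√(m : ℝ) : ℂ) * F j else 0) +
        (if j = n then (√(n : ℝ) : ℂ) * F j else 0)) := by
      intro j _
      rw [ha]
      simp only
      rw [map_mul, map_add, apply_ite (starRingEnd ℂ), apply_ite (starRingEnd ℂ), map_zero, map_inv₀, map_mul, hα, Complex.conj_conj,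
        Complex.conj_ofReal, Complex.conj_ofReal, Complex.conj_ofReal, mul_assoc, add_mul, ite_mul, ite_mul, zero_mul]
    rw [Finset.sum_congr rfl e1, ← Finset.mul_sum, Finset.sum_add_distrib, Finset.sum_ite_eq', Finset.sum_ite_eq', if_pos hmN, if_pos hnN]
  have h1 := hT κ hκ N hNT a ha1
  obtain ⟨ℓ, hℓ⟩ : ∃ ℓ, ℓ = Real.log (Yf κ T) + Ck κ := ⟨_, rfl⟩
  have hℓb := Pool.Agent.TH806.yf_bound hκ1 hT0
  rw [← hℓ] at hℓb
  -- the main terms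
  obtain ⟨Mt, hMt⟩ : ∃ Mt : ℕ → ℕ → ℝ, Mt = fun h l => 1 / (Nat.lcm h l : ℝ) *
    (Real.log (Yf κ T * (Nat.gcd h l : ℝ) ^ 2 / ((h : ℝ) * l)) + Ck κ) := ⟨_, rfl⟩
  have hdiag : ∀ j : ℕ, j ≠ 0 → Mt j j = ℓ / j := by
    intro j hj
    have hj0 : (j : ℝ) ≠ 0 := by exact_mod_cast hj
    rw [hMt, hℓ]
    simp only
    rw [Nat.lcm_self, Nat.gcd_self, show Yf κ T * (j : ℝ) ^ 2 / ((j : ℝ) * j) = Yf κ T by field_simp]
    ring
  have hoff : ∀ i j : ℕ, i ≠ 0 → j ≠ 0 → i.Coprime j → Mt i j = (ℓ - Real.log ((i : ℝ) * j)) / ((i : ℝ) * j) := by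
    intro i j hi hj hij
    have hi0 : (0 : ℝ) < i := by exact_mod_cast Nat.pos_of_ne_zero hi
    have hj0 : (0 : ℝ) < j := by exact_mod_cast Nat.pos_of_ne_zero hj
    rw [hMt, hℓ]
    simp only
    rw [hij.lcm_eq_mul, hij.gcd_eq_one, Nat.cast_one, one_pow, mul_one, Real.log_div hY.ne' (by positivity)]
    push_cast
    ring
  have e4 : ∑ h ∈ Finset.Icc 1 N, ∑ l ∈ Finset.Icc 1 N, a h * (starRingEnd ℂ) (a l) * ((Mt h l : ℝ) : ℂ) =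
      (R : ℂ)⁻¹ * (α * (√(m : ℝ) : ℂ) * ((R : ℂ)⁻¹ * (φ * (√(m : ℝ) : ℂ) * (Mt m m : ℂ) + (√(n : ℝ) : ℂ) * (Mt m n : ℂ))) +
        (√(n : ℝ) : ℂ) * ((R : ℂ)⁻¹ * (φ * (√(m : ℝ) : ℂ) * (Mt n m : ℂ) + (√(n : ℝ) : ℂ) * (Mt n n : ℂ)))) := by
    rw [← key fun h => (R : ℂ)⁻¹ * (φ * (√(m : ℝ) : ℂ) * (Mt h m : ℂ) + (√(n : ℝ) : ℂ) * (Mt h n : ℂ))]
    refine Finset.sum_congr rfl fun h _ => ?_
    rw [← keyc fun l => (Mt h l : ℂ), Finset.mul_sum]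
    refine Finset.sum_congr rfl fun l _ => ?_
    ring
  have e5 : ∑ h ∈ Finset.Icc 1 N, ∑ l ∈ Finset.Icc 1 N, a h * (starRingEnd ℂ) (a l) *
        ((1 / (Nat.lcm h l : ℝ) * (Real.log (Yf κ T * (Nat.gcd h l : ℝ) ^ 2 / ((h : ℝ) * l)) + Ck κ) : ℝ) : ℂ) =
      ((2 / R ^ 2 * (ℓ + φ.re * ((m : ℝ) * n) ^ (-(1 / 2 : ℝ)) * (ℓ - Real.log ((m : ℝ) * n))) : ℝ) : ℂ) := by
    have e6 : ∀ h l : ℕ, ((1 / (Nat.lcm h l : ℝ) * (Real.log (Yf κ T * (Nat.gcd h l : ℝ) ^ 2 / ((h : ℝ) * l)) + Ck κ) : ℝ) : ℂ) =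
        ((Mt h l : ℝ) : ℂ) := fun h l => by rw [hMt]
    simp_rw [e6]
    rw [e4, hdiag m hm, hdiag n hn, hoff m n hm hn hmn, hoff n m hn hm hmn.symm]
    have q1 : (√(m : ℝ) : ℂ) * (√(m : ℝ) : ℂ) = (m : ℂ) := by
      rw [← Complex.ofReal_mul, Real.mul_self_sqrt hm0.le]; push_cast; rfl
    have q2 : (√(n : ℝ) : ℂ) * (√(n : ℝ) : ℂ) = (n : ℂ) := by
      rw [← Complex.ofReal_mul, Real.mul_self_sqrt hn0.le]; push_cast; rfl
    have q3 : α * φ = 1 := by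
      rw [hα, mul_comm, Complex.mul_conj, Complex.normSq_eq_norm_sq, hφ]; simp
    have q4 : α + φ = ((2 * φ.re : ℝ) : ℂ) := by
      rw [hα, add_comm, Complex.add_conj]
    have q5 : ((m : ℝ) * n) ^ (-(1 / 2 : ℝ)) = √(m : ℝ) * √(n : ℝ) / ((m : ℝ) * n) := by
      rw [Real.rpow_neg (by positivity), ← Real.sqrt_eq_rpow, Real.sqrt_mul hm0.le]
      have s1 : √(m : ℝ) ≠ 0 := (Real.sqrt_pos.2 hm0).ne'
      have s2 : √(n : ℝ) ≠ 0 := (Real.sqrt_pos.2 hn0).ne'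
      rw [inv_eq_one_div, div_eq_div_iff (by positivity) (by positivity)]
      nlinarith [Real.mul_self_sqrt hm0.le, Real.mul_self_sqrt hn0.le]
    have hmc : (m : ℂ) ≠ 0 := by exact_mod_cast hm
    have hnc : (n : ℂ) ≠ 0 := by exact_mod_cast hn
    have hRc : (R : ℂ) ≠ 0 := by exact_mod_cast hR0.ne'
    rw [q5, mul_comm (n : ℝ) (m : ℝ)]
    obtain ⟨D, hD⟩ : ∃ D : ℝ, D = ℓ - Real.log ((m : ℝ) * n) := ⟨_, rfl⟩
    rw [← hD]
    push_cast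
    obtain ⟨sm, hsm⟩ : ∃ sm : ℂ, sm = (√(m : ℝ) : ℂ) := ⟨_, rfl⟩
    obtain ⟨sn, hsn⟩ : ∃ sn : ℂ, sn = (√(n : ℝ) : ℂ) := ⟨_, rfl⟩
    rw [← hsm] at q1 ⊢
    rw [← hsn] at q2 ⊢
    calc (R : ℂ)⁻¹ * (α * sm * ((R : ℂ)⁻¹ * (φ * sm * ((ℓ : ℂ) / m) + sn * ((D : ℂ) / (m * n)))) +
          sn * ((R : ℂ)⁻¹ * (φ * sm * ((D : ℂ) / (m * n)) + sn * ((ℓ : ℂ) / n))))
        = (R : ℂ)⁻¹ * (R : ℂ)⁻¹ * ((α * φ) * (sm * sm) * ((ℓ : ℂ) / m) + (α + φ) * (sm * sn) * ((D : ℂ) / (m * n)) + (sn * sn) * ((ℓ : ℂ) / n)) := by ring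
      _ = (R : ℂ)⁻¹ * (R : ℂ)⁻¹ * ((m : ℂ) * ((ℓ : ℂ) / m) + (2 * φ.re : ℝ) * (sm * sn) * ((D : ℂ) / (m * n)) + (n : ℂ) * ((ℓ : ℂ) / n)) := by
          rw [q1, q2, q3, q4, one_mul]
      _ = _ := by
          push_cast
          field_simp
          ring
  rw [e5] at h1
  have e6 : ∀ t : ℝ, om κ (κ / T) t * ‖riemannZeta (cl t)‖ ^ 2 * ‖∑ j ∈ Finset.Icc 1 N, a j * (j : ℂ) ^ (-(cl t))‖ ^ 2 =
      2 / R ^ 2 * (wz κ T t * (1 + (φ * tws m n t).re)) := by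
    intro t
    rw [key fun j => (j : ℂ) ^ (-(cl t)), norm_mul, norm_inv, Complex.norm_real, Real.norm_of_nonneg hR0.le, mul_pow, hα, tws_sq hm hn hφ]
    unfold Pool.Agent.W184.NZ.wz
    field_simp
  simp_rw [e6] at h1
  rw [integral_const_mul, ← Complex.ofReal_sub, Complex.norm_real, Real.norm_eq_abs, ← mul_sub, abs_mul,
    abs_of_pos (show 0 < 2 / R ^ 2 by positivity)] at h1
  obtain ⟨J, hJ⟩ : ∃ J, J = ∫ t in Ioi (0 : ℝ), wz κ T t * (1 + (φ * tws m n t).re) := ⟨_, rfl⟩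
  rw [← hJ] at h1 ⊢
  have h3 : T ^ (-η) ≤ 1 := Real.rpow_le_one_of_one_le_of_nonpos hT1 (by linarith)
  have hρ0 : 0 ≤ ((m : ℝ) * n) ^ (-(1 / 2 : ℝ)) := by positivity
  have hρ1 : ((m : ℝ) * n) ^ (-(1 / 2 : ℝ)) ≤ 1 := Real.rpow_le_one_of_one_le_of_nonpos (by nlinarith) (by norm_num)
  obtain ⟨ρ, hρ⟩ : ∃ ρ, ρ = φ.re * ((m : ℝ) * n) ^ (-(1 / 2 : ℝ)) := ⟨_, rfl⟩
  have hρb : |ρ| ≤ 1 := by
    rw [hρ, abs_mul, abs_of_nonneg hρ0]
    calc |φ.re| * ((m : ℝ) * n) ^ (-(1 / 2 : ℝ)) ≤ 1 * 1 := mul_le_mul hφre hρ1 hρ0 zero_le_one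
      _ = 1 := one_mul 1
  rw [← hρ] at h1 ⊢
  have hlog0 : 0 ≤ Real.log ((m : ℝ) * n) := Real.log_nonneg (by nlinarith)
  have h4 : |J - (ℓ + ρ * (ℓ - Real.log ((m : ℝ) * n)))| ≤ R ^ 2 := by
    have h5 := h1.trans h3
    rw [div_mul_eq_mul_div, div_le_one (by positivity)] at h5
    have := abs_nonneg (J - (ℓ + ρ * (ℓ - Real.log ((m : ℝ) * n))))
    linarith
  have h5 : |(ℓ + ρ * (ℓ - Real.log ((m : ℝ) * n))) - (1 + ρ) * Real.log T| ≤ 4 + Real.log ((m : ℝ) * n) := by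
    have e7 : (ℓ + ρ * (ℓ - Real.log ((m : ℝ) * n))) - (1 + ρ) * Real.log T =
        (ℓ - Real.log T) + (ρ * (ℓ - Real.log T) + (-ρ) * Real.log ((m : ℝ) * n)) := by ring
    rw [e7]
    refine (abs_add_le _ _).trans ?_
    have q1 := abs_add_le (ρ * (ℓ - Real.log T)) ((-ρ) * Real.log ((m : ℝ) * n))
    rw [abs_mul, abs_mul, abs_neg, abs_of_nonneg hlog0] at q1
    have q2 : |ρ| * |ℓ - Real.log T| ≤ 1 * 2 := mul_le_mul hρb hℓb (abs_nonneg _) zero_le_one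
    have q3 : |ρ| * Real.log ((m : ℝ) * n) ≤ 1 * Real.log ((m : ℝ) * n) := mul_le_mul_of_nonneg_right hρb hlog0
    linarith
  have h6 : |J - (1 + ρ) * Real.log T| ≤ K0 := by
    have := abs_sub_le J (ℓ + ρ * (ℓ - Real.log ((m : ℝ) * n))) ((1 + ρ) * Real.log T)
    rw [hK0]
    linarith
  rw [div_le_iff₀ hε] at hL2
  linarith

end Pool.Agent.X107.MU
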