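import Pool.Agent.X107.MU.MU39
import Pool.Agent.X107.MU.MU40
import Pool.Agent.X107.MU.MU26
import Pool.Agent.TH806.Tau

/-! # From the windows to the interval `[0, T]` -/

set_option autoImplicit false

namespace Pool.Agent.X107.MU

open Complex Filter Topology MeasureTheory Set
open ZU
open Pool.Agent.H306R2.SM (om cl Yf)
open Pool.Agent.H262R4.TM (Rng Ck)
open Pool.Agent.W184.NZ (wz wz_int wz_nonneg)
open Pool.Agent.X110.NA (tws tws_norm tws_cont Lf)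
open Pool.Agent.H306R2 (aF aF_pos)

lemma sharp_low {g : ℝ → ℝ} (hg : Continuous g) (hg0 : ∀ t, 0 ≤ g t) (hgb : ∃ C : ℝ, ∃ A : ℕ, ∀ t : ℝ, 0 ≤ t → g t ≤ C * (1 + t) ^ A)
    {L : ℝ} (h : ∀ ε : ℝ, 0 < ε → ∀ᶠ T : ℝ in atTop, ∀ κ : ℕ, Rng T κ →
      (L - ε) * Real.log T ≤ ∫ t in Ioi (0 : ℝ), om κ (κ / T) t * g t) {ε : ℝ} (hε : 0 < ε) :
    ∀ᶠ T : ℝ in atTop, (L - ε) * (T * Real.log T) ≤ ∫ t in Icc 0 T, g t := by
  rcases le_or_gt (L - ε) 0 with h0 | h0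
  · filter_upwards [eventually_ge_atTop (1 : ℝ)] with T hT
    have h1 : 0 ≤ T * Real.log T := mul_nonneg (by linarith) (Real.log_nonneg hT)
    have h2 : 0 ≤ ∫ t in Icc 0 T, g t := integral_nonneg hg0
    nlinarith
  · have h1 := Pool.Agent.H965R2.SMT1.window_gamma g hg hg0 hgb (L - ε / 2) (by linarith) 1 (by
      filter_upwards [h (ε / 2) (by positivity)] with T hT k hk1 hk2
      rw [pow_one]
      exact hT k ⟨hk1, hk2⟩) (L - ε) (by linarith)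
    filter_upwards [h1, eventually_ge_atTop (0 : ℝ)] with T hT hT0
    rw [pow_one, intervalIntegral.integral_of_le hT0, ← integral_Icc_eq_integral_Ioc] at hT
    linarith

/-- the square of zeta on the critical line -/
noncomputable def Zq (t : ℝ) : ℝ := ‖riemannZeta (1 / 2 + (t : ℂ) * I)‖ ^ 2

lemma Zq_nonneg (t : ℝ) : 0 ≤ Zq t := by unfold Zq; positivity

lemma Zq_cont : Continuous Zq := Pool.Agent.H262R4.TM.TTW.zeta_cont.norm.pow 2

lemma Zq_le {t : ℝ} (ht : 0 ≤ t) : Zq t ≤ 576 * (1 + t) ^ 4 := Pool.Agent.H262R4.TM.TTW.z2_bound ht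

lemma wz_Zq (κ : ℕ) (T t : ℝ) : wz κ T t = om κ (κ / T) t * Zq t := rfl

lemma Zq_mean {ε : ℝ} (hε : 0 < ε) : ∀ᶠ T : ℝ in atTop, |(∫ t in Icc 0 T, Zq t) - T * Real.log T| ≤ ε * (T * Real.log T) := by
  obtain ⟨δ, hδ, hδ1, h⟩ := Pool.Agent.TH806.mom_T hε
  filter_upwards [h, eventually_ge_atTop (0 : ℝ)] with T hT hT0
  have h1 := hT 2 (by rw [sub_self, abs_zero]; exact hδ.le)
  have e1 : (2 : ℝ) ^ 2 / 4 = 1 := by norm_num
  have e2 : ∀ t : ℝ, Pool.Agent.TH806.Xz t ^ (2 : ℝ) = Zq t := fun t => by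
    rw [Real.rpow_two]; rfl
  rw [e1, Real.rpow_one] at h1
  simp_rw [e2] at h1
  rw [intervalIntegral.integral_of_le hT0, ← integral_Icc_eq_integral_Ioc] at h1
  exact h1

lemma fac_bd {g : ℝ → ℝ} (hg1 : ∀ t, |g t| ≤ 1) (t : ℝ) : 0 ≤ 1 + g t ∧ 1 + g t ≤ 2 ∧ 0 ≤ 1 - g t ∧ 1 - g t ≤ 2 := by
  have := abs_le.1 (hg1 t)
  refine ⟨by linarith, by linarith, by linarith, by linarith⟩

/-- the limit over `[0, T]` from the windows -/
theorem sharp_lim {g : ℝ → ℝ} (hg : Continuous g) (hg1 : ∀ t, |g t| ≤ 1) {ρ : ℝ}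
    (hp : ∀ ε : ℝ, 0 < ε → ∀ᶠ T : ℝ in atTop, ∀ κ : ℕ, Rng T κ → (1 + ρ - ε) * Real.log T ≤ ∫ t in Ioi (0 : ℝ), wz κ T t * (1 + g t))
    (hm : ∀ ε : ℝ, 0 < ε → ∀ᶠ T : ℝ in atTop, ∀ κ : ℕ, Rng T κ → (1 - ρ - ε) * Real.log T ≤ ∫ t in Ioi (0 : ℝ), wz κ T t * (1 - g t)) :
    Tendsto (fun T : ℝ => 1 / (T * Real.log T) * ∫ t in Icc 0 T, Zq t * g t) atTop (𝓝 ρ) := by
  have bd : ∀ {f : ℝ → ℝ}, (∀ t, 0 ≤ f t ∧ f t ≤ 2) → ∃ C : ℝ, ∃ A : ℕ, ∀ t : ℝ, 0 ≤ t → Zq t * f t ≤ C * (1 + t) ^ A := by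
    intro f hf
    refine ⟨1152, 4, fun t ht => ?_⟩
    calc Zq t * f t ≤ (576 * (1 + t) ^ 4) * 2 := mul_le_mul (Zq_le ht) (hf t).2 (hf t).1 (by positivity)
      _ = _ := by ring
  have l1 := fun ε (hε : 0 < ε) => sharp_low (g := fun t => Zq t * (1 + g t)) (Zq_cont.mul (continuous_const.add hg))
    (fun t => mul_nonneg (Zq_nonneg t) (fac_bd hg1 t).1) (bd fun t => ⟨(fac_bd hg1 t).1, (fac_bd hg1 t).2.1⟩) (L := 1 + ρ)
    (fun ε' hε' => by
      filter_upwards [hp ε' hε'] with T hT κ hκ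
      refine (hT κ hκ).trans (le_of_eq ?_)
      simp_rw [wz_Zq, mul_assoc]) (ε := ε) hε
  have l2 := fun ε (hε : 0 < ε) => sharp_low (g := fun t => Zq t * (1 - g t)) (Zq_cont.mul (continuous_const.sub hg))
    (fun t => mul_nonneg (Zq_nonneg t) (fac_bd hg1 t).2.2.1) (bd fun t => ⟨(fac_bd hg1 t).2.2.1, (fac_bd hg1 t).2.2.2⟩) (L := 1 - ρ)
    (fun ε' hε' => by
      filter_upwards [hm ε' hε'] with T hT κ hκ
      refine (hT κ hκ).trans (le_of_eq ?_)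
      simp_rw [wz_Zq, mul_assoc]) (ε := ε) hε
  rw [Metric.tendsto_nhds]
  intro ε hε
  filter_upwards [l1 (ε / 4) (by positivity), l2 (ε / 4) (by positivity), Zq_mean (show 0 < ε / 4 by positivity),
    eventually_gt_atTop (1 : ℝ)] with T h1 h2 h3 hT1
  have hTL : 0 < T * Real.log T := mul_pos (by linarith) (Real.log_pos hT1)
  have i1 : IntegrableOn Zq (Icc 0 T) := Zq_cont.continuousOn.integrableOn_compact isCompact_Icc
  have i2 : IntegrableOn (fun t => Zq t * g t) (Icc 0 T) := (Zq_cont.mul hg).continuousOn.integrableOn_compact isCompact_Icc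
  have e1 : ∫ t in Icc 0 T, Zq t * (1 + g t) = (∫ t in Icc 0 T, Zq t) + ∫ t in Icc 0 T, Zq t * g t := by
    rw [← integral_add i1 i2]
    refine integral_congr_ae (Eventually.of_forall fun t => ?_)
    show Zq t * (1 + g t) = Zq t + Zq t * g t
    ring
  have e2 : ∫ t in Icc 0 T, Zq t * (1 - g t) = (∫ t in Icc 0 T, Zq t) - ∫ t in Icc 0 T, Zq t * g t := by
    rw [← integral_sub i1 i2]
    refine integral_congr_ae (Eventually.of_forall fun t => ?_)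
    show Zq t * (1 - g t) = Zq t - Zq t * g t
    ring
  rw [e1] at h1
  rw [e2] at h2
  have h4 := abs_le.1 h3
  obtain ⟨B, hB⟩ : ∃ B, B = ∫ t in Icc 0 T, Zq t * g t := ⟨_, rfl⟩
  rw [← hB] at h1 h2 ⊢
  rw [Real.dist_eq, one_div, ← div_eq_inv_mul]
  have h5 : |B - ρ * (T * Real.log T)| ≤ ε / 2 * (T * Real.log T) := by
    rw [abs_le]
    constructor <;> nlinarith [h4.1, h4.2]
  have e3 : B / (T * Real.log T) - ρ = (B - ρ * (T * Real.log T)) / (T * Real.log T) := by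
    rw [sub_div, mul_div_assoc, div_self hTL.ne', mul_one]
  rw [e3, abs_div, abs_of_pos hTL, div_lt_iff₀ hTL]
  nlinarith

lemma win_tw_low {m n : ℕ} (hm : m ≠ 0) (hn : n ≠ 0) (hmn : m.Coprime n) {φ : ℂ} (hφ : ‖φ‖ = 1) {ε : ℝ} (hε : 0 < ε) :
    ∀ᶠ T : ℝ in atTop, ∀ κ : ℕ, Rng T κ → (1 + φ.re * ((m : ℝ) * n) ^ (-(1 / 2 : ℝ)) - ε) * Real.log T ≤
      ∫ t in Ioi (0 : ℝ), wz κ T t * (1 + (φ * tws m n t).re) := by
  filter_upwards [win_tw hm hn hmn hφ hε] with T hT κ hκ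
  have := (abs_le.1 (hT κ hκ)).1
  linarith

lemma tws_re_cont (m n : ℕ) (φ : ℂ) : Continuous fun t => (φ * tws m n t).re :=
  Complex.continuous_re.comp (continuous_const.mul (tws_cont m n))

lemma tws_re_le (m n : ℕ) {φ : ℂ} (hφ : ‖φ‖ = 1) (t : ℝ) : |(φ * tws m n t).re| ≤ 1 := by
  refine (Complex.abs_re_le_norm _).trans ?_
  rw [norm_mul, hφ, tws_norm, one_mul]

/-- the real part of the twisted means over `[0, T]` -/
lemma sharp_tw {m n : ℕ} (hm : m ≠ 0) (hn : n ≠ 0) (hmn : m.Coprime n) {φ : ℂ} (hφ : ‖φ‖ = 1) :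
    Tendsto (fun T : ℝ => 1 / (T * Real.log T) * ∫ t in Icc 0 T, Zq t * (φ * tws m n t).re) atTop
      (𝓝 (φ.re * ((m : ℝ) * n) ^ (-(1 / 2 : ℝ)))) := by
  refine sharp_lim (tws_re_cont m n φ) (tws_re_le m n hφ) (fun ε hε => win_tw_low hm hn hmn hφ hε) fun ε hε => ?_
  filter_upwards [win_tw_low hm hn hmn (φ := -φ) (by rw [norm_neg]; exact hφ) hε] with T hT κ hκ
  have h1 := hT κ hκ
  have e : ∀ t, 1 + (-φ * tws m n t).re = 1 - (φ * tws m n t).re := fun t => by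
    rw [neg_mul, Complex.neg_re]; ring
  simp_rw [e] at h1
  rw [Complex.neg_re] at h1
  refine le_trans (le_of_eq ?_) h1
  ring

lemma lc_one (m : ℕ) : Pool.Agent.H306R2.lc 1 m = 1 := by
  unfold Pool.Agent.H306R2.lc
  refine Finset.prod_eq_one fun i _ => ?_
  rw [add_comm, div_self]
  positivity

lemma aF_one : aF 1 = 1 := by
  unfold Pool.Agent.H306R2.aF
  have h : ∀ p : Nat.Primes, ((1 - 1 / (p : ℝ)) ^ ((1 : ℝ) ^ 2) * ∑' m : ℕ, Pool.Agent.H306R2.lc 1 m ^ 2 * (1 / (p : ℝ)) ^ m) = 1 := by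
    intro p
    have hp : (1 : ℝ) < p := by exact_mod_cast p.2.one_lt
    have h1 : (1 : ℝ) / p < 1 := by rw [div_lt_one (by linarith)]; exact hp
    simp_rw [lc_one, one_pow, one_mul]
    rw [Real.rpow_one, tsum_geometric_of_lt_one (by positivity) h1, mul_inv_cancel₀]
    linarith
  simp_rw [h]
  exact tprod_one

lemma Lf_one {p a b : ℕ} : Lf 1 0 p a b = Lf 1 0 p 0 0 := by
  unfold Pool.Agent.X110.NA.Lf
  simp_rw [lc_one]

lemma tw_one {m n : ℕ} : ((m : ℝ) * n) ^ (-(1 / 2 : ℝ)) * (aF 1 * ∏ q ∈ (m * n).primeFactors,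
    (Lf 1 0 q (m.factorization q) (n.factorization q) / Lf 1 0 q 0 0)) = ((m : ℝ) * n) ^ (-(1 / 2 : ℝ)) := by
  rw [aF_one, one_mul, Finset.prod_eq_one, mul_one]
  intro q hq
  rw [Lf_one, div_self]
  exact (Pool.Agent.X110.NA.Lf_pos one_pos le_rfl (Nat.prime_of_mem_primeFactors hq) 0 0).ne'

/-- a complex twisted mean from its real parts -/
lemma tw_cplx {D : ℝ → Set ℝ} {Z : ℝ → ℝ → ℝ} {c : ℝ → ℝ} {m n : ℕ} {ρ : ℝ} (hi : ∀ᶠ T in atTop, IntegrableOn (Z T) (D T))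
    (h1 : Tendsto (fun T => c T * ∫ t in D T, Z T t * ((1 : ℂ) * tws m n t).re) atTop (𝓝 ρ))
    (h2 : Tendsto (fun T => c T * ∫ t in D T, Z T t * ((-I) * tws m n t).re) atTop (𝓝 0)) :
    Tendsto (fun T => (c T : ℂ) * ∫ t in D T, ((Z T t : ℝ) : ℂ) * tws m n t) atTop (𝓝 (ρ : ℂ)) := by
  have h3 : Tendsto (fun T => ((c T * ∫ t in D T, Z T t * ((1 : ℂ) * tws m n t).re : ℝ) : ℂ) +
      ((c T * ∫ t in D T, Z T t * ((-I) * tws m n t).re : ℝ) : ℂ) * I) atTop (𝓝 ((ρ : ℂ) + ((0 : ℝ) : ℂ) * I)) :=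
    ((Complex.continuous_ofReal.tendsto ρ).comp h1).add (((Complex.continuous_ofReal.tendsto 0).comp h2).mul_const I)
  rw [Complex.ofReal_zero, zero_mul, add_zero] at h3
  refine h3.congr' ?_
  filter_upwards [hi] with T hT
  have i1 : IntegrableOn (fun t => ((Z T t : ℝ) : ℂ) * tws m n t) (D T) :=
    (hT.ofReal).mul_bdd (c := 1) (tws_cont m n).aestronglyMeasurable (Eventually.of_forall fun t => (tws_norm m n t).le)
  have e1 : (∫ t in D T, ((Z T t : ℝ) : ℂ) * tws m n t).re = ∫ t in D T, Z T t * ((1 : ℂ) * tws m n t).re := by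
    have := Complex.reCLM.integral_comp_comm i1
    simp only [Complex.reCLM_apply] at this
    rw [← this]
    refine integral_congr_ae (Eventually.of_forall fun t => ?_)
    show (((Z T t : ℝ) : ℂ) * tws m n t).re = Z T t * ((1 : ℂ) * tws m n t).re
    rw [Complex.re_ofReal_mul, one_mul]
  have e2 : (∫ t in D T, ((Z T t : ℝ) : ℂ) * tws m n t).im = ∫ t in D T, Z T t * ((-I) * tws m n t).re := by
    have := Complex.imCLM.integral_comp_comm i1
    simp only [Complex.imCLM_apply] at this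
    rw [← this]
    refine integral_congr_ae (Eventually.of_forall fun t => ?_)
    show (((Z T t : ℝ) : ℂ) * tws m n t).im = Z T t * ((-I) * tws m n t).re
    rw [Complex.im_ofReal_mul]
    congr 1
    simp
  rw [← e1, ← e2]
  conv_rhs => rw [← Complex.re_add_im (∫ t in D T, ((Z T t : ℝ) : ℂ) * tws m n t)]
  push_cast
  ring

end Pool.Agent.X107.MU
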