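import Pool.Agent.X107.MU.MU41

/-! # The second moment on the critical line as a system of weights -/

set_option autoImplicit false

namespace Pool.Agent.X107.MU

open Complex Filter Topology MeasureTheory Set
open ZU
open Pool.Agent.H306R2.SM (om cl Yf)
open Pool.Agent.H262R4.TM (Rng Ck)
open Pool.Agent.W184.NZ (wz wz_int wz_nonneg)
open Pool.Agent.X110.NA (tws tws_norm tws_cont Lf)
open Pool.Agent.H306R2 (aF aF_pos)

/-- the choice of the number of primes -/
lemma exists_Z1 : ∃ Z1 : ℝ → ℝ → ℝ → ℝ → ℝ → ℕ, ∀ a b B lam ε : ℝ, 1 / 2 < a → a ≤ b → b < 1 →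
    0 < B → 0 < lam → 0 < ε → ∀ z ≥ Z1 a b B lam ε, ∀ᶠ T : ℝ in atTop, ∀ κ : ℕ, Rng T κ →
      ∫ t in (0 : ℝ)..(8 * T), wz κ T t * JG a b B z t ≤ (lam * ε / 4) * Real.log T := by
  have h : ∀ a b B lam ε : ℝ, ∃ z0 : ℕ, 1 / 2 < a → a ≤ b → b < 1 →
    0 < B → 0 < lam → 0 < ε → ∀ z ≥ z0, ∀ᶠ T : ℝ in atTop, ∀ κ : ℕ, Rng T κ →
      ∫ t in (0 : ℝ)..(8 * T), wz κ T t * JG a b B z t ≤ (lam * ε / 4) * Real.log T := by
    intro a b B lam ε
    by_cases hh : 1 / 2 < a ∧ a ≤ b ∧ b < 1 ∧ 0 < B ∧ 0 < lam ∧ 0 < ε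
    · obtain ⟨h2, h3, h4, h5, h6, h7⟩ := hh
      obtain ⟨z0, hz0⟩ := JG_win h2 h3 h4 h5 (show 0 < lam * ε / 4 by positivity)
      exact ⟨z0, fun _ _ _ _ _ _ => hz0⟩
    · exact ⟨0, fun h1 h2 h3 h4 h5 h6 => absurd ⟨h1, h2, h3, h4, h5, h6⟩ hh⟩
  choose Z1 hZ1 using h
  exact ⟨Z1, hZ1⟩

/-- the cut-off local mean square -/
noncomputable def gJ (a b B lam : ℝ) (z : ℕ) (t : ℝ) : ℝ := min 1 (JG a b B z t / lam)

section

variable {a b B lam : ℝ} {z : ℕ}

lemma gJ_nonneg (hlam : 0 < lam) (t : ℝ) : 0 ≤ gJ a b B lam z t :=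
  le_min zero_le_one (div_nonneg (JG_nonneg a b B z t) hlam.le)

lemma gJ_le (t : ℝ) : gJ a b B lam z t ≤ 1 := min_le_left _ _

lemma gJ_cont (hab : a ≤ b) (hb : b < 1) (hB : 0 < B) : Continuous (gJ a b B lam z) :=
  continuous_const.min ((JG_cont hab hb hB z).div_const _)

lemma gJ_one (hlam : 0 < lam) {t : ℝ} (ht : lam ≤ JG a b B z t) : gJ a b B lam z t = 1 := by
  unfold gJ
  rw [min_eq_left]
  rwa [one_le_div hlam]

end

/-- the windows -/
lemma gJ_win {Z1 : ℝ → ℝ → ℝ → ℝ → ℝ → ℕ} (hZ1 : ∀ a b B lam ε : ℝ, 1 / 2 < a → a ≤ b → b < 1 →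
    0 < B → 0 < lam → 0 < ε → ∀ z ≥ Z1 a b B lam ε, ∀ᶠ T : ℝ in atTop, ∀ κ : ℕ, Rng T κ →
      ∫ t in (0 : ℝ)..(8 * T), wz κ T t * JG a b B z t ≤ (lam * ε / 4) * Real.log T)
    {a b B lam ε : ℝ} (h1 : 1 / 2 < a) (h2 : a ≤ b) (h3 : b < 1) (h4 : 0 < B) (h5 : 0 < lam) (h6 : 0 < ε) {z : ℕ}
    (hz : z ≥ Z1 a b B lam ε) : ∀ᶠ T : ℝ in atTop, ∀ κ : ℕ, Rng T κ →
      ∫ t in Ioi (0 : ℝ), wz κ T t * gJ a b B lam z t ≤ (ε / 2) * Real.log T := by
  filter_upwards [hZ1 a b B lam ε h1 h2 h3 h4 h5 h6 z hz, Pool.Agent.TH806.tail_le 4, eventually_ge_atTop (1 : ℝ),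
    Real.tendsto_log_atTop.eventually_ge_atTop (1152 / (ε / 4))] with T hT htl hT1 hL κ hκ
  have hT0 : 0 < T := by linarith
  have hgc := gJ_cont (lam := lam) (z := z) h2 h3 h4
  have hJc := JG_cont h2 h3 h4 z
  obtain ⟨-, q1, -⟩ := htl κ hκ 576 (fun t => Zq t * gJ a b B lam z t) (by norm_num) (Zq_cont.mul hgc)
    (fun t => mul_nonneg (Zq_nonneg t) (gJ_nonneg h5 t)) (fun t ht => by
      calc Zq t * gJ a b B lam z t ≤ Zq t * 1 := mul_le_mul_of_nonneg_left (gJ_le t) (Zq_nonneg t)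
        _ ≤ _ := by rw [mul_one]; exact Zq_le ht)
  have e1 : ∀ t, om κ (κ / T) t * (Zq t * gJ a b B lam z t) = wz κ T t * gJ a b B lam z t := fun t => by
    rw [wz_Zq, mul_assoc]
  simp_rw [e1] at q1
  have q2 : ∫ t in Ioc (T / 8) (8 * T), wz κ T t * gJ a b B lam z t ≤ lam⁻¹ * ∫ t in (0 : ℝ)..(8 * T), wz κ T t * JG a b B z t := by
    rw [← intervalIntegral.integral_const_mul, intervalIntegral.integral_of_le (by linarith)]
    have i1 : Continuous fun t => lam⁻¹ * (wz κ T t * JG a b B z t) := ((wz_cont κ T).mul hJc).const_mul _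
    have i2 : Continuous fun t => wz κ T t * gJ a b B lam z t := (wz_cont κ T).mul hgc
    have j1 : IntegrableOn (fun t => lam⁻¹ * (wz κ T t * JG a b B z t)) (Ioc 0 (8 * T)) :=
      (i1.continuousOn.integrableOn_compact (isCompact_Icc (a := (0:ℝ)) (b := 8 * T))).mono_set Ioc_subset_Icc_self
    have hsub : Ioc (T / 8) (8 * T) ⊆ Ioc 0 (8 * T) := Ioc_subset_Ioc_left (by positivity)
    refine (setIntegral_mono_on ((i2.continuousOn.integrableOn_compact (isCompact_Icc (a := T / 8) (b := 8 * T))).mono_set Ioc_subset_Icc_self)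
      (j1.mono_set hsub) measurableSet_Ioc fun t ht => ?_).trans (setIntegral_mono_set j1 ?_ (LE.le.eventuallyLE hsub))
    · have ht0 : 0 ≤ t := (hsub ht).1.le
      have k1 := wz_nonneg κ hT0 ht0
      have k2 : gJ a b B lam z t ≤ lam⁻¹ * JG a b B z t := by
        refine (min_le_right _ _).trans (le_of_eq ?_)
        rw [div_eq_inv_mul]
      calc wz κ T t * gJ a b B lam z t ≤ wz κ T t * (lam⁻¹ * JG a b B z t) := mul_le_mul_of_nonneg_left k2 k1
        _ = _ := by ring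
    · refine (ae_restrict_iff' measurableSet_Ioc).2 (Eventually.of_forall fun t ht => ?_)
      exact mul_nonneg (by positivity) (mul_nonneg (wz_nonneg κ hT0 ht.1.le) (JG_nonneg a b B z t))
  have q3 := mul_le_mul_of_nonneg_left (hT κ hκ) (inv_nonneg.2 h5.le)
  have q4 : lam⁻¹ * (lam * ε / 4 * Real.log T) = ε / 4 * Real.log T := by field_simp
  have q5 : T ^ (-10 : ℝ) ≤ 1 := Real.rpow_le_one_of_one_le_of_nonpos hT1 (by norm_num)
  rw [div_le_iff₀ (by positivity)] at hL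
  linarith

/-- the system on the interval `[0, T]` -/
theorem sys_line {Z1 : ℝ → ℝ → ℝ → ℝ → ℝ → ℕ} (hZ1 : ∀ a b B lam ε : ℝ, 1 / 2 < a → a ≤ b → b < 1 →
    0 < B → 0 < lam → 0 < ε → ∀ z ≥ Z1 a b B lam ε, ∀ᶠ T : ℝ in atTop, ∀ κ : ℕ, Rng T κ →
      ∫ t in (0 : ℝ)..(8 * T), wz κ T t * JG a b B z t ≤ (lam * ε / 4) * Real.log T) :
    Sys 1 Z1 (fun _ t => Zq t) (fun T => Icc 0 T) (fun T => 1 / (T * Real.log T)) := by
  have hc0 : ∀ᶠ T : ℝ in atTop, 0 ≤ 1 / (T * Real.log T) := by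
    filter_upwards [eventually_ge_atTop (1 : ℝ)] with T hT
    have := Real.log_nonneg hT
    positivity
  have hZi : ∀ T : ℝ, IntegrableOn Zq (Icc 0 T) := fun T => Zq_cont.continuousOn.integrableOn_compact isCompact_Icc
  refine ⟨hc0, fun _ t => Zq_nonneg t, Eventually.of_forall hZi, fun T => measurableSet_Icc, ?_, ?_⟩
  · intro m p hp hinj F hF
    refine Pool.Agent.X110.NA.tilt_of_twist one_pos (aF_pos one_pos).le p hp hinj _ (fun T => Icc 0 T) (fun T => 1 / (T * Real.log T)) hc0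
      (fun _ t => Zq_nonneg t) (Eventually.of_forall hZi) ?_ F hF
    intro m n hm hn hmn
    rw [tw_one]
    have h1 := sharp_tw hm hn hmn (φ := 1) (by simp)
    have h2 := sharp_tw hm hn hmn (φ := -I) (by simp)
    rw [Complex.one_re, one_mul] at h1
    rw [Complex.neg_re, Complex.I_re, neg_zero, zero_mul] at h2
    exact tw_cplx (D := fun T => Icc 0 T) (Z := fun _ t => Zq t) (c := fun T => 1 / (T * Real.log T)) (Eventually.of_forall hZi) h1 h2
  · intro a b B lam ε h1 h2 h3 h4 h5 h6 z hz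
    have hgc := gJ_cont (lam := lam) (z := z) h2 h3 h4
    have hw := gJ_win hZ1 h1 h2 h3 h4 h5 h6 hz
    have hl := fun ε' (hε' : 0 < ε') => sharp_low (g := fun t => Zq t * (1 - gJ a b B lam z t)) (Zq_cont.mul (continuous_const.sub hgc))
      (fun t => mul_nonneg (Zq_nonneg t) (by linarith [gJ_le (a := a) (b := b) (B := B) (lam := lam) (z := z) t]))
      ⟨576, 4, fun t ht => by
        calc Zq t * (1 - gJ a b B lam z t) ≤ Zq t * 1 :=
              mul_le_mul_of_nonneg_left (by linarith [gJ_nonneg (a := a) (b := b) (B := B) (z := z) h5 t]) (Zq_nonneg t)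
          _ ≤ _ := by rw [mul_one]; exact Zq_le ht⟩ (L := 1 - ε / 2) (fun ε' hε' => by
        filter_upwards [hw, win_one, eventually_ge_atTop (1 : ℝ), Real.tendsto_log_atTop.eventually_ge_atTop (max 4 (4 / ε'))]
          with T g1 g2 hT1 hL κ hκ
        have hT0 : 0 < T := by linarith
        have hL4 : 4 ≤ Real.log T := (le_max_left _ _).trans hL
        have hL5 := (le_max_right _ _).trans hL
        have hκ0 : (0 : ℝ) < κ := by
          have := hκ.1
          nlinarith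
        have hi1 : IntegrableOn (fun t => wz κ T t) (Ioi 0) := by
          have := wz_int κ (Y := T) (by positivity) (f := fun _ => 1) (C := 1) continuous_const (fun t => by simp)
          simpa using this
        have hi2 : IntegrableOn (fun t => wz κ T t * gJ a b B lam z t) (Ioi 0) :=
          wz_int κ (Y := T) (by positivity) (C := 1) hgc (fun t => by
            rw [abs_of_nonneg (gJ_nonneg h5 t)]
            exact gJ_le t)
        have e1 : ∫ t in Ioi (0 : ℝ), om κ (κ / T) t * (Zq t * (1 - gJ a b B lam z t)) =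
            (∫ t in Ioi (0 : ℝ), wz κ T t) - ∫ t in Ioi (0 : ℝ), wz κ T t * gJ a b B lam z t := by
          rw [← integral_sub hi1 hi2]
          refine integral_congr_ae (Eventually.of_forall fun t => ?_)
          show om κ (κ / T) t * (Zq t * (1 - gJ a b B lam z t)) = wz κ T t - wz κ T t * gJ a b B lam z t
          rw [wz_Zq]
          ring
        rw [e1]
        have g3 := g1 κ hκ
        have g4 := (abs_le.1 (g2 κ hκ)).1
        rw [div_le_iff₀ hε'] at hL5
        linarith) (ε := ε') hε'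
    filter_upwards [hl (ε / 4) (by positivity), Zq_mean (show 0 < ε / 4 by positivity), eventually_gt_atTop (1 : ℝ)] with T g1 g2 hT1
    have hTL : 0 < T * Real.log T := mul_pos (by linarith) (Real.log_pos hT1)
    have i2 : IntegrableOn (fun t => Zq t * gJ a b B lam z t) (Icc 0 T) := (Zq_cont.mul hgc).continuousOn.integrableOn_compact isCompact_Icc
    have e2 : ∫ t in Icc 0 T, Zq t * (1 - gJ a b B lam z t) = (∫ t in Icc 0 T, Zq t) - ∫ t in Icc 0 T, Zq t * gJ a b B lam z t := by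
      rw [← integral_sub (hZi T) i2]
      refine integral_congr_ae (Eventually.of_forall fun t => ?_)
      show Zq t * (1 - gJ a b B lam z t) = Zq t - Zq t * gJ a b B lam z t
      ring
    rw [e2] at g1
    have g3 := (abs_le.1 g2).2
    have hJm : MeasurableSet {t : ℝ | lam ≤ JG a b B z t} := (isClosed_le continuous_const (JG_cont h2 h3 h4 z)).measurableSet
    have g4 : ∫ t in Icc 0 T ∩ {t | lam ≤ JG a b B z t}, Zq t ≤ ∫ t in Icc 0 T, Zq t * gJ a b B lam z t := by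
      have k1 : ∫ t in Icc 0 T ∩ {t | lam ≤ JG a b B z t}, Zq t = ∫ t in Icc 0 T ∩ {t | lam ≤ JG a b B z t}, Zq t * gJ a b B lam z t := by
        refine setIntegral_congr_fun (measurableSet_Icc.inter hJm) fun t ht => ?_
        rw [gJ_one h5 ht.2, mul_one]
      rw [k1]
      exact setIntegral_mono_set i2 (Eventually.of_forall fun t => mul_nonneg (Zq_nonneg t) (gJ_nonneg h5 t))
        (LE.le.eventuallyLE inter_subset_left)
    rw [one_div, inv_mul_le_iff₀ hTL]
    nlinarith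

/-- the systems in the windows -/
theorem sys_win {Z1 : ℝ → ℝ → ℝ → ℝ → ℝ → ℕ} (hZ1 : ∀ a b B lam ε : ℝ, 1 / 2 < a → a ≤ b → b < 1 →
    0 < B → 0 < lam → 0 < ε → ∀ z ≥ Z1 a b B lam ε, ∀ᶠ T : ℝ in atTop, ∀ κ : ℕ, Rng T κ →
      ∫ t in (0 : ℝ)..(8 * T), wz κ T t * JG a b B z t ≤ (lam * ε / 4) * Real.log T)
    {κ : ℝ → ℕ} (hκ : ∀ᶠ T in atTop, Rng T (κ T)) :
    Sys 1 Z1 (fun T t => |wz (κ T) T t|) (fun _ => Ioi 0) (fun T => 1 / Real.log T) := by
  have hc0 : ∀ᶠ T : ℝ in atTop, 0 ≤ 1 / Real.log T := by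
    filter_upwards [eventually_ge_atTop (1 : ℝ)] with T hT
    have := Real.log_nonneg hT
    positivity
  have hκ0 : ∀ᶠ T in atTop, (0 : ℝ) < κ T ∧ 0 < T ∧ 4 ≤ Real.log T := by
    filter_upwards [hκ, Real.tendsto_log_atTop.eventually_ge_atTop 4, eventually_gt_atTop (0 : ℝ)] with T h1 h2 h3
    refine ⟨?_, h3, h2⟩
    have := h1.1
    nlinarith
  have hint : ∀ᶠ T in atTop, ∀ {f : ℝ → ℝ} {C : ℝ}, Continuous f → (∀ t, |f t| ≤ C) →
      IntegrableOn (fun t => wz (κ T) T t * f t) (Ioi 0) ∧ IntegrableOn (fun t => |wz (κ T) T t| * f t) (Ioi 0) ∧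
      ∫ t in Ioi (0 : ℝ), |wz (κ T) T t| * f t = ∫ t in Ioi (0 : ℝ), wz (κ T) T t * f t := by
    filter_upwards [hκ0] with T hT f C hf hC
    obtain ⟨a1, a2, -⟩ := hT
    have i1 := wz_int (κ T) (Y := T) (by positivity) hf hC
    have e : ∀ t ∈ Ioi (0 : ℝ), wz (κ T) T t * f t = |wz (κ T) T t| * f t := fun t ht => by
      rw [abs_of_nonneg (wz_nonneg (κ T) a2 (le_of_lt ht))]
    exact ⟨i1, i1.congr_fun e measurableSet_Ioi, (setIntegral_congr_fun measurableSet_Ioi e).symm⟩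
  have hZi : ∀ᶠ T in atTop, IntegrableOn (fun t => |wz (κ T) T t|) (Ioi 0) := by
    filter_upwards [hint] with T hT
    have := (hT (f := fun _ => 1) (C := 1) continuous_const (fun t => by simp)).2.1
    simpa using this
  have hone : Tendsto (fun T => 1 / Real.log T * ∫ t in Ioi (0 : ℝ), wz (κ T) T t) atTop (𝓝 1) := by
    rw [Metric.tendsto_nhds]
    intro ε hε
    filter_upwards [win_one, hκ, Real.tendsto_log_atTop.eventually_gt_atTop (max 4 (4 / ε))] with T h1 h2 h3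
    have hL4 : 4 < Real.log T := lt_of_le_of_lt (le_max_left _ _) h3
    have hL0 : 0 < Real.log T := by linarith
    have hL5 := lt_of_le_of_lt (le_max_right _ _) h3
    have h4 := h1 (κ T) h2
    rw [Real.dist_eq, one_div, ← div_eq_inv_mul]
    have e : (∫ t in Ioi (0 : ℝ), wz (κ T) T t) / Real.log T - 1 = ((∫ t in Ioi (0 : ℝ), wz (κ T) T t) - Real.log T) / Real.log T := by
      rw [sub_div, div_self hL0.ne']
    rw [e, abs_div, abs_of_pos hL0, div_lt_iff₀ hL0]
    rw [div_lt_iff₀ hε] at hL5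
    linarith
  have htw : ∀ {m n : ℕ} (_ : m ≠ 0) (_ : n ≠ 0) (_ : m.Coprime n) {φ : ℂ} (_ : ‖φ‖ = 1),
      Tendsto (fun T => 1 / Real.log T * ∫ t in Ioi (0 : ℝ), |wz (κ T) T t| * (φ * tws m n t).re) atTop
        (𝓝 (φ.re * ((m : ℝ) * n) ^ (-(1 / 2 : ℝ)))) := by
    intro m n hm hn hmn φ hφ
    have h1 : Tendsto (fun T => 1 / Real.log T * ∫ t in Ioi (0 : ℝ), wz (κ T) T t * (1 + (φ * tws m n t).re)) atTop
        (𝓝 (1 + φ.re * ((m : ℝ) * n) ^ (-(1 / 2 : ℝ)))) := by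
      rw [Metric.tendsto_nhds]
      intro ε hε
      filter_upwards [win_tw hm hn hmn hφ (show 0 < ε / 2 by positivity), hκ, Real.tendsto_log_atTop.eventually_gt_atTop 0] with T h1 h2 hL0
      have h4 := h1 (κ T) h2
      rw [Real.dist_eq, one_div, ← div_eq_inv_mul]
      obtain ⟨J, hJ⟩ : ∃ J, J = ∫ t in Ioi (0 : ℝ), wz (κ T) T t * (1 + (φ * tws m n t).re) := ⟨_, rfl⟩
      rw [← hJ] at h4 ⊢
      have e : J / Real.log T - (1 + φ.re * ((m : ℝ) * n) ^ (-(1 / 2 : ℝ))) =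
          (J - (1 + φ.re * ((m : ℝ) * n) ^ (-(1 / 2 : ℝ))) * Real.log T) / Real.log T := by
        rw [sub_div, mul_div_assoc, div_self hL0.ne', mul_one]
      rw [e, abs_div, abs_of_pos hL0, div_lt_iff₀ hL0]
      refine lt_of_le_of_lt h4 ?_
      exact mul_lt_mul_of_pos_right (by linarith) hL0
    have h2 := h1.sub hone
    rw [add_sub_cancel_left] at h2
    refine h2.congr' ?_
    filter_upwards [hint] with T hT
    obtain ⟨a1, -, a3⟩ := hT (tws_re_cont m n φ) (tws_re_le m n hφ)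
    have a4 := (hT (f := fun _ => 1) (C := 1) continuous_const (fun t => by simp)).1
    simp_rw [mul_one] at a4
    rw [a3, ← mul_sub]
    congr 1
    rw [sub_eq_iff_eq_add, ← integral_add a1 a4]
    refine integral_congr_ae (Eventually.of_forall fun t => ?_)
    show wz (κ T) T t * (1 + (φ * tws m n t).re) = wz (κ T) T t * (φ * tws m n t).re + wz (κ T) T t
    ring
  refine ⟨hc0, fun _ t => abs_nonneg _, hZi, fun T => measurableSet_Ioi, ?_, ?_⟩
  · intro m p hp hinj F hF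
    refine Pool.Agent.X110.NA.tilt_of_twist one_pos (aF_pos one_pos).le p hp hinj _ (fun _ => Ioi 0) (fun T => 1 / Real.log T) hc0
      (fun _ t => abs_nonneg _) hZi ?_ F hF
    intro m n hm hn hmn
    rw [tw_one]
    have h1 := htw hm hn hmn (φ := 1) (by simp)
    have h2 := htw hm hn hmn (φ := -I) (by simp)
    rw [Complex.one_re, one_mul] at h1
    rw [Complex.neg_re, Complex.I_re, neg_zero, zero_mul] at h2
    exact tw_cplx (D := fun _ => Ioi 0) (Z := fun T t => |wz (κ T) T t|) (c := fun T => 1 / Real.log T) hZi h1 h2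
  · intro a b B lam ε h1 h2 h3 h4 h5 h6 z hz
    have hgc := gJ_cont (lam := lam) (z := z) h2 h3 h4
    filter_upwards [gJ_win hZ1 h1 h2 h3 h4 h5 h6 hz, hκ, hint, Real.tendsto_log_atTop.eventually_gt_atTop 0] with T g1 g2 g3 hL0
    obtain ⟨a1, a2, a3⟩ := g3 (f := gJ a b B lam z) (C := 1) hgc (fun t => by
      rw [abs_of_nonneg (gJ_nonneg h5 t)]
      exact gJ_le t)
    have hJm : MeasurableSet {t : ℝ | lam ≤ JG a b B z t} := (isClosed_le continuous_const (JG_cont h2 h3 h4 z)).measurableSet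
    have g4 : ∫ t in Ioi (0 : ℝ) ∩ {t | lam ≤ JG a b B z t}, |wz (κ T) T t| ≤ ∫ t in Ioi (0 : ℝ), |wz (κ T) T t| * gJ a b B lam z t := by
      have k1 : ∫ t in Ioi (0 : ℝ) ∩ {t | lam ≤ JG a b B z t}, |wz (κ T) T t| =
          ∫ t in Ioi (0 : ℝ) ∩ {t | lam ≤ JG a b B z t}, |wz (κ T) T t| * gJ a b B lam z t := by
        refine setIntegral_congr_fun (measurableSet_Ioi.inter hJm) fun t ht => ?_
        rw [gJ_one h5 ht.2, mul_one]
      rw [k1]
      exact setIntegral_mono_set a2 (Eventually.of_forall fun t => mul_nonneg (abs_nonneg _) (gJ_nonneg h5 t))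
        (LE.le.eventuallyLE inter_subset_left)
    have g5 := g1 (κ T) g2
    rw [one_div, inv_mul_le_iff₀ hL0]
    rw [a3] at g4
    nlinarith

end Pool.Agent.X107.MU
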