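import Pool.Agent.X107.MU.MU42

/-! # The second moment over the sets of ordinates -/

set_option autoImplicit false

namespace Pool.Agent.X107.MU

open Complex Filter Topology MeasureTheory Set
open Pool.Agent.H306R2.SM (om cl Yf)
open Pool.Agent.H262R4.TM (Rng Ck)
open Pool.Agent.W184.NZ (wz wz_int wz_nonneg)

/-- more primes -/
lemma Sys.more {s : ℝ} {Z0 Z0' : ℝ → ℝ → ℝ → ℝ → ℝ → ℕ} {Z : ℝ → ℝ → ℝ} {D : ℝ → Set ℝ} {c : ℝ → ℝ}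
    (h : Sys s Z0 Z D c) (hZ : ∀ a b B lam ε, Z0 a b B lam ε ≤ Z0' a b B lam ε) : Sys s Z0' Z D c :=
  ⟨h.c0, h.Zn, h.Zi, h.Dm, h.law, fun a b B lam ε h1 h2 h3 h4 h5 h6 z hz =>
    h.tail a b B lam ε h1 h2 h3 h4 h5 h6 z ((hZ a b B lam ε).trans hz)⟩

/-- all the systems of order one, with the same number of primes -/
theorem sys_all : ∃ Z0 : ℝ → ℝ → ℝ → ℝ → ℝ → ℕ,
    Sys 1 Z0 (fun _ t => Zq t) (fun T => Icc 0 T) (fun T => 1 / (T * Real.log T)) ∧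
    (∀ κ : ℝ → ℕ, (∀ᶠ T in atTop, Rng T (κ T)) → Sys 1 Z0 (fun T t => |wz (κ T) T t|) (fun _ => Ioi 0) (fun T => 1 / Real.log T)) ∧
    ∀ δ : ℝ → ℝ, Tendsto δ atTop (𝓝 0) → Tendsto (fun T : ℝ => δ T * Real.log T) atTop atTop →
      Sys 1 Z0 (fun T t => ‖riemannZeta (1 / 2 + δ T + (t : ℂ) * I)‖ ^ (2 * (1 : ℝ))) (fun T => Icc 0 T)
        (fun T => (2 * δ T) ^ ((1 : ℝ) ^ 2) / T) := by
  obtain ⟨Z1, hZ1⟩ := exists_Z1
  obtain ⟨Z2, hZ2⟩ := sys_path Pool.Agent.Y901.SHR.done Pool.Agent.Y753.SHR.star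
  refine ⟨fun a b B lam ε => max (Z1 a b B lam ε) (Z2 1 a b B lam ε), (sys_line hZ1).more fun _ _ _ _ _ => le_max_left _ _,
    fun κ hκ => (sys_win hZ1 hκ).more fun _ _ _ _ _ => le_max_left _ _, fun δ hδ hδL => ?_⟩
  obtain ⟨E, -, -, hE⟩ := hZ2 δ hδ hδL 0 le_rfl {1} (countable_singleton 1) (fun r hr => by
    rw [mem_singleton_iff] at hr
    rw [hr]
    exact one_pos)
  exact ((hE 1 (mem_singleton 1)).2 (by norm_num)).more fun _ _ _ _ _ => le_max_right _ _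

end Pool.Agent.X107.MU
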