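import Pool.Agent.X107.MU.MU4

/-! # The mean square of `ζ - D_L` with `L = T^κ` is a power of `T` below `1` -/

set_option autoImplicit false

open Complex Filter Topology Set MeasureTheory

namespace Pool.Agent.X107.MU

open ZU

lemma ev_exp (q r ε : ℝ) (hr : 0 < r) (hε : 0 < ε) :
    ∀ᶠ T : ℝ in atTop, T ^ q * Real.exp (-(1 / 4) * T ^ r) ≤ ε := by
  have h1 := (tendsto_rpow_mul_exp_neg_mul_atTop_nhds_zero (q / r) (1 / 4) (by norm_num)).comp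
    (tendsto_rpow_atTop hr)
  filter_upwards [h1.eventually (gt_mem_nhds hε), eventually_gt_atTop (0 : ℝ)] with T hT hT0
  simp only [Function.comp] at hT
  rw [← Real.rpow_mul hT0.le, mul_div_cancel₀ q hr.ne'] at hT
  exact hT.le

/-- the off-diagonal factor is small -/
lemma exp_le_of {X T a : ℝ} (hX : 0 < X) (hT : 1 ≤ T) (hXT : X ≤ T ^ a) :
    Real.exp (-(T ^ 2 / (4 * X ^ 2))) ≤ Real.exp (-(1 / 4) * T ^ (2 - 2 * a)) := by
  have hT0 : 0 < T := by linarith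
  apply Real.exp_le_exp.2
  have q2 : X ^ 2 ≤ T ^ (2 * a) := by
    have h5 : T ^ (2 * a) = (T ^ a) ^ 2 := by
      rw [← Real.rpow_natCast (T ^ a) 2, ← Real.rpow_mul hT0.le]
      congr 1
      push_cast
      ring
    rw [h5]
    exact pow_le_pow_left₀ hX.le hXT 2
  have q3 : (1 / 4) * T ^ (2 - 2 * a) ≤ T ^ 2 / (4 * X ^ 2) := by
    rw [Real.rpow_sub hT0, Real.rpow_two]
    have h6 : T ^ 2 / T ^ (2 * a) ≤ T ^ 2 / X ^ 2 :=
      div_le_div_of_nonneg_left (by positivity) (by positivity) q2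
    calc (1 / 4) * (T ^ 2 / T ^ (2 * a)) ≤ (1 / 4) * (T ^ 2 / X ^ 2) := by linarith
      _ = T ^ 2 / (4 * X ^ 2) := by field_simp
  linarith

theorem zl_bound {σ1 σ2 : ℝ} (h1 : 1 / 2 < σ1) (h2 : σ1 ≤ σ2) (h3 : σ2 < 1) {B : ℝ} (hB : 0 < B) {κ : ℝ}
    (hκa : 1 / (2 * σ1) < κ) (hκb : κ < 1) :
    ∃ p : ℝ, 0 ≤ p ∧ p < 1 ∧ ∃ K : ℝ, 0 ≤ K ∧ ∀ᶠ T : ℝ in atTop, ∀ σ ∈ Icc σ1 σ2,
      ∫ t in (-B)..(T + B), ‖riemannZeta ((σ : ℂ) + t * I) - DN ⌊T ^ κ⌋₊ ((σ : ℂ) + t * I)‖ ^ 2 ≤ K * T ^ p := by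
  have hσ1 : 0 < σ1 := by linarith
  have hκ0 : 0 < κ := lt_trans (by positivity) hκa
  have hκ1 : 1 < 2 * κ * σ1 := by
    have := (div_lt_iff₀ (by positivity : 0 < 2 * σ1)).1 hκa
    linarith
  have hpi := Real.pi_pos
  have h1σ2 : 0 < 1 - σ2 := by linarith
  obtain ⟨p, hp0, hp1, hpa, hpb⟩ : ∃ p : ℝ, 0 ≤ p ∧ p < 1 ∧ κ * (2 - 2 * σ1) ≤ p ∧ 2 - 2 * κ * σ1 ≤ p := by
    refine ⟨max 0 (max (κ * (2 - 2 * σ1)) (2 - 2 * κ * σ1)), le_max_left _ _, ?_,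
      (le_max_left _ _).trans (le_max_right _ _), (le_max_right _ _).trans (le_max_right _ _)⟩
    refine max_lt one_pos (max_lt (by nlinarith) (by linarith))
  refine ⟨p, hp0, hp1, 1 + 3 * Real.pi / (1 - σ2) ^ 2 + 120 * Real.pi * Real.exp 4, by positivity, ?_⟩
  have hC1p : 0 < 3 * Real.exp 4 * √Real.pi := by positivity
  have e3 := ev_exp 3 (2 - 2 * κ) (1 / (3 * Real.exp 4 * √Real.pi)) (by linarith) (by positivity)
  have e4 : ∀ᶠ T : ℝ in atTop, (1 : ℝ) ≤ T ^ κ := (tendsto_rpow_atTop hκ0).eventually_ge_atTop _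
  filter_upwards [e3, e4, eventually_ge_atTop (1 : ℝ), eventually_ge_atTop B] with T g3 g4 hT1' hBT σ hσ
  have hT0 : 0 < T := by linarith
  obtain ⟨L, hLdef⟩ : ∃ L, L = ⌊T ^ κ⌋₊ := ⟨_, rfl⟩
  rw [← hLdef]
  have hTk : 0 < T ^ κ := Real.rpow_pos_of_pos hT0 _
  have hLle : (L : ℝ) ≤ T ^ κ := by rw [hLdef]; exact Nat.floor_le hTk.le
  have hLN : 1 ≤ L := by rw [hLdef]; exact Nat.le_floor (by push_cast; exact g4)
  have hL1 : (1 : ℝ) ≤ (L : ℝ) := by exact_mod_cast hLN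
  have hLge : T ^ κ / 2 ≤ L := by
    have h5 := Nat.lt_floor_add_one (T ^ κ)
    rw [← hLdef] at h5
    linarith
  have hL0 : (0 : ℝ) < L := by linarith
  obtain ⟨hσa, hσb⟩ := hσ
  have hmain := ZU.J_a4.zm_bound σ1 σ2 σ B T L L le_rfl hLN h1 ⟨hσa, hσb⟩ h3 hB hT1' hBT
  refine hmain.trans ?_
  rw [Finset.Ioc_self, Finset.sum_empty, zero_add]
  have hTp : 1 ≤ T ^ p := Real.one_le_rpow hT1' hp0
  have s2 : 3 * Real.exp 4 * (√Real.pi * T * ((L : ℝ) ^ 2 * Real.exp (-(T ^ 2 / (4 * (L : ℝ) ^ 2))))) ≤ T ^ p := by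
    refine le_trans ?_ hTp
    have q1 : T * (L : ℝ) ^ 2 ≤ T ^ (3 : ℝ) := by
      have : (L : ℝ) ≤ T := hLle.trans (by
        calc T ^ κ ≤ T ^ (1 : ℝ) := Real.rpow_le_rpow_of_exponent_le hT1' hκb.le
          _ = T := Real.rpow_one T)
      have h5 : T ^ (3 : ℝ) = T * T ^ 2 := by
        rw [show (3 : ℝ) = ((3 : ℕ) : ℝ) by norm_num, Real.rpow_natCast]
        ring
      rw [h5]
      exact mul_le_mul_of_nonneg_left (pow_le_pow_left₀ hL0.le this 2) hT0.le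
    have q4 := exp_le_of hL0 hT1' hLle
    have q5 : (T * (L : ℝ) ^ 2) * Real.exp (-(T ^ 2 / (4 * (L : ℝ) ^ 2))) ≤
        T ^ (3 : ℝ) * Real.exp (-(1 / 4) * T ^ (2 - 2 * κ)) :=
      mul_le_mul q1 q4 (Real.exp_nonneg _) (by positivity)
    have q6 := mul_le_mul_of_nonneg_left (q5.trans g3) hC1p.le
    rw [mul_one_div_cancel hC1p.ne'] at q6
    refine le_trans (le_of_eq ?_) q6
    ring
  have s3 : 3 * (((L : ℝ) ^ (1 - σ)) ^ 2 / (1 - σ2) ^ 2) * Real.pi ≤ 3 * Real.pi / (1 - σ2) ^ 2 * T ^ p := by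
    have q1 : ((L : ℝ) ^ (1 - σ)) ^ 2 ≤ T ^ p := by
      have h5 : ((L : ℝ) ^ (1 - σ)) ^ 2 = (L : ℝ) ^ (2 - 2 * σ) := by
        rw [← Real.rpow_natCast ((L : ℝ) ^ (1 - σ)) 2, ← Real.rpow_mul hL0.le]
        congr 1
        push_cast
        ring
      rw [h5]
      calc (L : ℝ) ^ (2 - 2 * σ) ≤ (L : ℝ) ^ (2 - 2 * σ1) :=
            Real.rpow_le_rpow_of_exponent_le hL1 (by linarith)
        _ ≤ (T ^ κ) ^ (2 - 2 * σ1) := Real.rpow_le_rpow hL0.le hLle (by linarith)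
        _ = T ^ (κ * (2 - 2 * σ1)) := (Real.rpow_mul hT0.le _ _).symm
        _ ≤ T ^ p := Real.rpow_le_rpow_of_exponent_le hT1' hpa
    calc 3 * (((L : ℝ) ^ (1 - σ)) ^ 2 / (1 - σ2) ^ 2) * Real.pi
        = 3 * Real.pi / (1 - σ2) ^ 2 * ((L : ℝ) ^ (1 - σ)) ^ 2 := by ring
      _ ≤ 3 * Real.pi / (1 - σ2) ^ 2 * T ^ p := by gcongr
  have s4 : 3 * Real.exp 4 * (1 + 4 * T ^ 2) * (2 * Real.pi * ((L : ℝ) ^ (-(2 * σ)) / (2 * σ))) ≤
      120 * Real.pi * Real.exp 4 * T ^ p := by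
    have q1 : (L : ℝ) ^ (-(2 * σ)) / (2 * σ) ≤ (L : ℝ) ^ (-(2 * σ1)) := by
      have h5 : (L : ℝ) ^ (-(2 * σ)) ≤ (L : ℝ) ^ (-(2 * σ1)) :=
        Real.rpow_le_rpow_of_exponent_le hL1 (by linarith)
      have h6 : 1 ≤ 2 * σ := by linarith
      exact (div_le_self (by positivity) h6).trans h5
    have q2 : (L : ℝ) ^ (-(2 * σ1)) ≤ 4 * T ^ (-(2 * κ * σ1)) := by
      have h5 : (L : ℝ) ^ (-(2 * σ1)) ≤ (T ^ κ / 2) ^ (-(2 * σ1)) :=
        Real.rpow_le_rpow_of_nonpos (by positivity) hLge (by linarith)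
      have h6 : (T ^ κ / 2) ^ (-(2 * σ1)) = T ^ (-(2 * κ * σ1)) * 2 ^ (2 * σ1) := by
        rw [Real.div_rpow hTk.le (by norm_num), ← Real.rpow_mul hT0.le, Real.rpow_neg (by norm_num : (0 : ℝ) ≤ 2), div_inv_eq_mul]
        congr 2
        ring
      have h7 : (2 : ℝ) ^ (2 * σ1) ≤ 4 := by
        calc (2 : ℝ) ^ (2 * σ1) ≤ (2 : ℝ) ^ (2 : ℝ) := Real.rpow_le_rpow_of_exponent_le (by norm_num) (by linarith)
          _ = 4 := by norm_num
      rw [h6] at h5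
      have h8 : 0 ≤ T ^ (-(2 * κ * σ1)) := by positivity
      nlinarith
    have q3 : 1 + 4 * T ^ 2 ≤ 5 * T ^ 2 := by nlinarith
    have q4 : T ^ (2 - 2 * κ * σ1) = T ^ 2 * T ^ (-(2 * κ * σ1)) := by
      rw [← Real.rpow_two, ← Real.rpow_add hT0]
      congr 1
    have q5 : T ^ (2 - 2 * κ * σ1) ≤ T ^ p := Real.rpow_le_rpow_of_exponent_le hT1' hpb
    calc 3 * Real.exp 4 * (1 + 4 * T ^ 2) * (2 * Real.pi * ((L : ℝ) ^ (-(2 * σ)) / (2 * σ)))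
        ≤ 3 * Real.exp 4 * (5 * T ^ 2) * (2 * Real.pi * (4 * T ^ (-(2 * κ * σ1)))) := by
          have r2 := q1.trans q2
          have r3 : 0 ≤ (L : ℝ) ^ (-(2 * σ)) / (2 * σ) :=
            div_nonneg (Real.rpow_nonneg hL0.le _) (by linarith)
          exact mul_le_mul (mul_le_mul_of_nonneg_left q3 (by positivity))
            (mul_le_mul_of_nonneg_left r2 (by positivity)) (mul_nonneg (by positivity) r3)
            (by positivity)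
      _ = 120 * Real.pi * Real.exp 4 * T ^ (2 - 2 * κ * σ1) := by
          rw [q4]; ring
      _ ≤ _ := mul_le_mul_of_nonneg_left q5 (by positivity)
  calc _ ≤ T ^ p + 3 * Real.pi / (1 - σ2) ^ 2 * T ^ p + 120 * Real.pi * Real.exp 4 * T ^ p := by
        exact add_le_add (add_le_add s2 s3) s4
    _ = _ := by ring

lemma zeta_shift_cont {σ : ℝ} (hσ : σ < 1) (L : ℕ) :
    Continuous fun t : ℝ => riemannZeta ((σ : ℂ) + t * I) - DN L ((σ : ℂ) + t * I) := by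
  have h1 := ZU.J_c3.rough_mv_zeta_cont (σ : ℂ) (by simpa using hσ)
  have h2 : Continuous fun t : ℝ => DN L ((σ : ℂ) + (t : ℂ) * I) :=
    (ZU.J_c3.rough_mv_DN_cont L).comp (by fun_prop)
  exact h1.sub h2

lemma shift_int {σ1 σ2 B : ℝ} (h3 : σ2 < 1) (T : ℝ) (hT : 0 ≤ T) (L : ℕ) {K : ℝ}
    (hK : ∀ σ ∈ Icc σ1 σ2, ∫ t in (-B)..(T + B), ‖riemannZeta ((σ : ℂ) + t * I) - DN L ((σ : ℂ) + t * I)‖ ^ 2 ≤ K)
    {w : ℂ} (hw : w ∈ rect σ1 σ2 B) :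
    ∫ t in (0 : ℝ)..T, ‖riemannZeta (w + t * I) - DN L (w + t * I)‖ ^ 2 ≤ K := by
  obtain ⟨hs1, hs2, hs3⟩ := hw
  refine le_trans ?_ (hK w.re ⟨hs1, hs2⟩)
  have e2 : ∀ t : ℝ, w + (t : ℂ) * I = (w.re : ℂ) + ((w.im + t : ℝ) : ℂ) * I := by
    intro t
    conv_lhs => rw [← Complex.re_add_im w]
    push_cast
    ring
  have e3 : ∫ t in (0 : ℝ)..T, ‖riemannZeta (w + t * I) - DN L (w + t * I)‖ ^ 2 =
      ∫ t in (0 : ℝ)..T, (fun r : ℝ => ‖riemannZeta ((w.re : ℂ) + r * I) -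
        DN L ((w.re : ℂ) + r * I)‖ ^ 2) (w.im + t) := by
    apply intervalIntegral.integral_congr
    intro t _
    simp only
    rw [e2 t]
  have e4 := intervalIntegral.integral_comp_add_left (a := 0) (b := T)
    (fun r : ℝ => ‖riemannZeta ((w.re : ℂ) + r * I) - DN L ((w.re : ℂ) + r * I)‖ ^ 2) w.im
  rw [e3]
  refine le_trans (le_of_eq e4) ?_
  have hy := abs_le.1 hs3
  have hc := zeta_shift_cont (σ := w.re) (by linarith) L
  apply intervalIntegral.integral_mono_interval (by linarith [hy.1]) (by linarith)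
    (by linarith [hy.2])
  · exact Filter.Eventually.of_forall (fun t => by positivity)
  · exact (hc.norm.pow 2).intervalIntegrable _ _

end Pool.Agent.X107.MU
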