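import Pool.Agent.X107.MU.MU5

/-! # The mean square of `ζ E_z - 1` with the weight of a short Dirichlet polynomial is small -/

set_option autoImplicit false

open Complex Filter Topology Set MeasureTheory

namespace Pool.Agent.X107.MU

open ZU ZU.J_c3a Pool.Agent.Y755

/-- the constant bounding the partial Euler product -/
noncomputable def Cz (z : ℕ) : ℝ := 2 ^ (pr z).card

lemma Cz_ge (z : ℕ) : 1 ≤ Cz z := one_le_pow₀ (by norm_num)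

lemma GZ_sq (z L : ℕ) (hL : 1 ≤ L) (w : ℂ) (hw : 0 < w.re) (t : ℝ) :
    ‖GZ z (w + t * I)‖ ^ 2 ≤ 3 * (Cz z ^ 2 * ‖riemannZeta (w + t * I) - DN L (w + t * I)‖ ^ 2 +
      ‖Qd (S1 z L) (fun _ => 1) w t‖ ^ 2 + ‖Qd (Finset.Icc (L + 1) (L * ∏ p ∈ pr z, p)) (cf z L) w t‖ ^ 2) := by
  have h1 := split_eq z L hL (w + t * I)
  have hE := ZU.J_c3.rough_mv_EM_le z (w + t * I) (by simpa using hw)
  have h2 : GZ z (w + t * I) = (riemannZeta (w + t * I) - DN L (w + t * I)) * EM z (fun _ => 1) (w + t * I) +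
      Qd (S1 z L) (fun _ => 1) w t + Qd (Finset.Icc (L + 1) (L * ∏ p ∈ pr z, p)) (cf z L) w t := by
    unfold GZ Qd
    simp only [one_mul]
    linear_combination h1
  rw [h2]
  obtain ⟨a, ha⟩ : ∃ a, a = (riemannZeta (w + t * I) - DN L (w + t * I)) * EM z (fun _ => 1) (w + t * I) := ⟨_, rfl⟩
  have h3 : ‖a‖ ^ 2 ≤ Cz z ^ 2 * ‖riemannZeta (w + t * I) - DN L (w + t * I)‖ ^ 2 := by
    rw [ha, norm_mul, mul_pow, mul_comm]
    exact mul_le_mul_of_nonneg_right (pow_le_pow_left₀ (norm_nonneg _) hE 2) (by positivity)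
  rw [← ha]
  generalize Qd (S1 z L) (fun _ => 1) w t = b
  generalize Qd (Finset.Icc (L + 1) (L * ∏ p ∈ pr z, p)) (cf z L) w t = c
  have h4 : ‖a + b + c‖ ≤ ‖a‖ + ‖b‖ + ‖c‖ := (norm_add_le _ _).trans (add_le_add_left (norm_add_le _ _) _)
  have h5 := pow_le_pow_left₀ (norm_nonneg _) h4 2
  nlinarith [sq_nonneg (‖a‖ - ‖b‖), sq_nonneg (‖b‖ - ‖c‖), sq_nonneg (‖a‖ - ‖c‖)]

lemma GZ_cont (z : ℕ) {w : ℂ} (hw : w.re < 1) : Continuous fun t : ℝ => GZ z (w + t * I) := by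
  unfold GZ
  have cz := ZU.J_c3.rough_mv_zeta_cont w hw
  have cl : Continuous (fun t : ℝ => w + (t : ℂ) * I) := by fun_prop
  have ce : Continuous (fun t : ℝ => EM z (fun _ => 1) (w + (t : ℂ) * I)) :=
    (ZU.J_c3.rough_mv_EM_cont z).comp cl
  exact (cz.mul ce).sub continuous_const

lemma S1_pos {z L : ℕ} : ∀ b ∈ S1 z L, 1 ≤ b := fun b hb => by
  have := S1_gt hb
  omega

lemma Ic_pos {L M : ℕ} : ∀ b ∈ Finset.Icc (L + 1) M, 1 ≤ b := fun b hb => by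
  have := (Finset.mem_Icc.1 hb).1
  omega

theorem ms_split {s δ : ℝ} (hs : 0 < s) (hδ : 0 < δ) (N z L : ℕ) (hL : 1 ≤ L) (w : ℂ) (h0 : 0 < w.re) (h1 : w.re < 1)
    (T : ℝ) (hT : 0 ≤ T) :
    ∫ t in (0 : ℝ)..T, ‖Pd s δ N t‖ ^ 2 * ‖GZ z (w + t * I)‖ ^ 2 ≤
      3 * (Cz z ^ 2 * (N * DD s δ)) * (∫ t in (0 : ℝ)..T, ‖riemannZeta (w + t * I) - DN L (w + t * I)‖ ^ 2) +
      3 * (∫ t in (0 : ℝ)..T, ‖Pd s δ N t‖ ^ 2 * ‖Qd (S1 z L) (fun _ => 1) w t‖ ^ 2) +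
      3 * (∫ t in (0 : ℝ)..T, ‖Pd s δ N t‖ ^ 2 *
        ‖Qd (Finset.Icc (L + 1) (L * ∏ p ∈ pr z, p)) (cf z L) w t‖ ^ 2) := by
  have cP := (Pd_cont s δ N).norm.pow 2
  have cl : Continuous (fun t : ℝ => w + (t : ℂ) * I) := by fun_prop
  have c0 : Continuous fun t : ℝ => ‖riemannZeta (w + t * I) - DN L (w + t * I)‖ ^ 2 :=
    ((ZU.J_c3.rough_mv_zeta_cont w h1).sub ((ZU.J_c3.rough_mv_DN_cont L).comp cl)).norm.pow 2
  have c1 : Continuous fun t : ℝ => ‖Pd s δ N t‖ ^ 2 * ‖Qd (S1 z L) (fun _ => 1) w t‖ ^ 2 :=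
    cP.mul ((Qd_cont (S1 z L) S1_pos (fun _ => 1) w).norm.pow 2)
  have c2 : Continuous fun t : ℝ => ‖Pd s δ N t‖ ^ 2 *
      ‖Qd (Finset.Icc (L + 1) (L * ∏ p ∈ pr z, p)) (cf z L) w t‖ ^ 2 :=
    cP.mul ((Qd_cont (Finset.Icc (L + 1) (L * ∏ p ∈ pr z, p)) Ic_pos (cf z L) w).norm.pow 2)
  have cG : Continuous fun t : ℝ => ‖Pd s δ N t‖ ^ 2 * ‖GZ z (w + t * I)‖ ^ 2 :=
    cP.mul ((GZ_cont z h1).norm.pow 2)
  have c01 : Continuous fun t : ℝ => 3 * (Cz z ^ 2 * (N * DD s δ)) *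
      ‖riemannZeta (w + t * I) - DN L (w + t * I)‖ ^ 2 + 3 * (‖Pd s δ N t‖ ^ 2 * ‖Qd (S1 z L) (fun _ => 1) w t‖ ^ 2) :=
    (c0.const_mul _).add (c1.const_mul _)
  rw [← intervalIntegral.integral_const_mul, ← intervalIntegral.integral_const_mul,
    ← intervalIntegral.integral_const_mul, ← intervalIntegral.integral_add
      ((c0.const_mul _).intervalIntegrable _ _) ((c1.const_mul _).intervalIntegrable _ _),
    ← intervalIntegral.integral_add (c01.intervalIntegrable _ _)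
      ((c2.const_mul _).intervalIntegrable _ _)]
  refine intervalIntegral.integral_mono_on hT (cG.intervalIntegrable _ _)
    ((((c0.const_mul _).add (c1.const_mul _)).add (c2.const_mul _)).intervalIntegrable _ _) fun t _ => ?_
  have h2 := GZ_sq z L hL w h0 t
  have h3 := Pd_sq_le hs hδ N t
  have h4 := mul_le_mul_of_nonneg_left h2 (sq_nonneg ‖Pd s δ N t‖)
  have h5 := mul_le_mul_of_nonneg_right h3
    (show 0 ≤ Cz z ^ 2 * ‖riemannZeta (w + t * I) - DN L (w + t * I)‖ ^ 2 by positivity)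
  refine h4.trans ?_
  show _ ≤ 3 * (Cz z ^ 2 * (N * DD s δ)) * ‖riemannZeta (w + t * I) - DN L (w + t * I)‖ ^ 2 +
      3 * (‖Pd s δ N t‖ ^ 2 * ‖Qd (S1 z L) (fun _ => 1) w t‖ ^ 2) +
      3 * (‖Pd s δ N t‖ ^ 2 * ‖Qd (Finset.Icc (L + 1) (L * ∏ p ∈ pr z, p)) (cf z L) w t‖ ^ 2)
  nlinarith

theorem prod_ev {s : ℝ} (hs : 0 < s) {a : ℝ} (ha : a < 1) {K ε1 : ℝ} (hε1 : 0 < ε1) :
    ∀ᶠ T : ℝ in atTop, ∀ (N M : ℕ) (δ : ℝ), 0 < δ → (N : ℝ) * M ≤ T ^ a → ∀ (Bs : Finset ℕ) (c : ℕ → ℂ) (w : ℂ),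
      (∀ b ∈ Bs, 1 ≤ b ∧ b ≤ M) → (∀ b, ‖c b‖ ≤ K) → 0 ≤ w.re → ∀ D : ℝ,
      dia (Finset.Icc 1 N ×ˢ Bs) (fun q => q.1 * q.2) (fun q => gg s δ q.1 * (‖c q.2‖ * (q.2 : ℝ) ^ (-w.re))) ≤ D →
      ∫ t in (0 : ℝ)..T, ‖Pd s δ N t‖ ^ 2 * ‖Qd Bs c w t‖ ^ 2 ≤
        Real.exp 1 * √Real.pi * T * (D + ε1 * DD s δ) := by
  have e1 := ev_exp 2 (2 - 2 * a) (ε1 / (K ^ 2 + 1)) (by linarith) (by positivity)
  filter_upwards [e1, eventually_ge_atTop (1 : ℝ)] with T g1 hT1 N M δ hδ hNM Bs c w hB hc hw D hD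
  have hT0 : 0 < T := by linarith
  have hDD : 0 ≤ DD s δ := by have := DD_ge_one hs hδ; linarith
  refine (prod_gauss hs hδ N Bs M hB c K hc w hw T hT0).trans ?_
  suffices hsuf : (N * DD s δ * (K * M) ^ 2) * Real.exp (-(T ^ 2 / (4 * ((N * M : ℕ) : ℝ) ^ 2))) ≤ ε1 * DD s δ by
    have h0 := mul_le_mul_of_nonneg_left (add_le_add hD hsuf)
      (show 0 ≤ Real.exp 1 * √Real.pi * T by positivity)
    refine le_trans (le_of_eq ?_) h0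
    ring
  rcases Nat.eq_zero_or_pos N with hN | hN
  · rw [hN]
    simp only [Nat.cast_zero, zero_mul]
    positivity
  rcases Nat.eq_zero_or_pos M with hM | hM
  · rw [hM]
    simp only [Nat.cast_zero, mul_zero]
    norm_num
    positivity
  have hN1 : (1 : ℝ) ≤ N := by exact_mod_cast hN
  have hM1 : (1 : ℝ) ≤ M := by exact_mod_cast hM
  have hTa : T ^ a ≤ T := by
    calc T ^ a ≤ T ^ (1 : ℝ) := Real.rpow_le_rpow_of_exponent_le hT1 ha.le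
      _ = T := Real.rpow_one T
  have hMT : (M : ℝ) ≤ T := by nlinarith
  have h1 : (N : ℝ) * M ^ 2 ≤ T ^ (2 : ℝ) := by
    rw [Real.rpow_two]
    nlinarith
  have h2 : Real.exp (-(T ^ 2 / (4 * ((N * M : ℕ) : ℝ) ^ 2))) ≤ Real.exp (-(1 / 4) * T ^ (2 - 2 * a)) := by
    refine exp_le_of ?_ hT1 ?_
    · exact_mod_cast Nat.mul_pos hN hM
    · rw [Nat.cast_mul]
      exact hNM
  have h3 : ((N : ℝ) * M ^ 2) * Real.exp (-(T ^ 2 / (4 * ((N * M : ℕ) : ℝ) ^ 2))) ≤ ε1 / (K ^ 2 + 1) :=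
    (mul_le_mul h1 h2 (Real.exp_nonneg _) (by positivity)).trans g1
  have h4 : K ^ 2 * (((N : ℝ) * M ^ 2) * Real.exp (-(T ^ 2 / (4 * ((N * M : ℕ) : ℝ) ^ 2)))) ≤ ε1 := by
    refine (mul_le_mul_of_nonneg_left h3 (sq_nonneg K)).trans ?_
    rw [mul_div_assoc', div_le_iff₀ (by positivity)]
    nlinarith
  have h5 := mul_le_mul_of_nonneg_right h4 hDD
  refine le_trans (le_of_eq ?_) h5
  ring

theorem ms_main {s : ℝ} (hs : 0 < s) {σ1 σ2 : ℝ} (h1 : 1 / 2 < σ1) (h2 : σ1 ≤ σ2) (h3 : σ2 < 1) {B : ℝ} (hB : 0 < B)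
    {ε : ℝ} (hε : 0 < ε) :
    ∃ z0 : ℕ, ∀ z ≥ z0, ∀ (N : ℝ → ℕ) (δ : ℝ → ℝ), (∀ η : ℝ, 0 < η → ∀ᶠ T : ℝ in atTop, (N T : ℝ) ≤ T ^ η) →
      (∀ᶠ T : ℝ in atTop, 0 < δ T) → ∀ᶠ T : ℝ in atTop, ∀ w ∈ rect σ1 σ2 B,
        ∫ t in (0 : ℝ)..T, ‖Pd s (δ T) (N T) t‖ ^ 2 * ‖GZ z (w + t * I)‖ ^ 2 ≤ ε * T * DD s (δ T) := by
  have hσ1 : 0 < σ1 := by linarith
  obtain ⟨κ, hκa, hκb⟩ : ∃ κ, 1 / (2 * σ1) < κ ∧ κ < 1 :=
    exists_between (by rw [div_lt_one (by linarith)]; linarith)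
  have hκ0 : 0 < κ := lt_trans (by positivity) hκa
  obtain ⟨p, hp0, hp1, K, hK0, hzl⟩ := zl_bound h1 h2 h3 hB hκa hκb
  have hl : 0 < σ1 - 1 / 2 := by linarith
  obtain ⟨E0, hE0⟩ : ∃ E0, E0 = Real.exp 1 * √Real.pi := ⟨_, rfl⟩
  have hE0p : 0 < E0 := by rw [hE0]; have := Real.pi_pos; positivity
  obtain ⟨ε1, hε1⟩ : ∃ ε1, ε1 = ε / (24 * E0) := ⟨_, rfl⟩
  have hε1p : 0 < ε1 := by rw [hε1]; positivity
  obtain ⟨z0, hz0⟩ := dia_main hs hl hε1p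
  refine ⟨z0, fun z hz N δ hN hδ => ?_⟩
  have hCz := Cz_ge z
  obtain ⟨z1, hz1⟩ := dia_main hs hl (show 0 < ε1 / Cz z ^ 2 by positivity)
  obtain ⟨η, hη0, hη1, hη2⟩ : ∃ η > 0, p + η < 1 ∧ κ + 2 * η < 1 := by
    refine ⟨min ((1 - p) / 2) ((1 - κ) / 4), lt_min (by linarith) (by linarith), ?_, ?_⟩
    · have := min_le_left ((1 - p) / 2) ((1 - κ) / 4)
      linarith
    · have := min_le_right ((1 - p) / 2) ((1 - κ) / 4)
      linarith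
  obtain ⟨P, hP⟩ : ∃ P : ℕ, P = ∏ p ∈ pr z, p := ⟨_, rfl⟩
  have hP1 : 1 ≤ P := by rw [hP]; exact pr_pos (Finset.Subset.refl _)
  have hP1' : (1 : ℝ) ≤ P := by exact_mod_cast hP1
  have f1 := prod_ev hs hη2 (K := 1) hε1p
  have f2 := prod_ev hs hη2 (K := Cz z) hε1p
  have f3 := ZU.J_a4.zm_ev_rpow (3 * Cz z ^ 2 * K) (p + η) (ε / 2) hη1 (by positivity)
  have f4 : ∀ᶠ T : ℝ in atTop, (P : ℝ) ≤ T ^ η := (tendsto_rpow_atTop hη0).eventually_ge_atTop _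
  have f5 : ∀ᶠ T : ℝ in atTop, (z1 : ℝ) + 1 ≤ T ^ κ := (tendsto_rpow_atTop hκ0).eventually_ge_atTop _
  filter_upwards [f1, f2, f3, f4, f5, hzl, hN η hη0, hδ, eventually_ge_atTop (1 : ℝ)] with T g1 g2 g3 g4 g5 g6 g7 g8 hT1
    w hw
  have hT0 : 0 < T := by linarith
  obtain ⟨L, hLdef⟩ : ∃ L, L = ⌊T ^ κ⌋₊ := ⟨_, rfl⟩
  rw [← hLdef] at g6
  have hTk : 0 < T ^ κ := Real.rpow_pos_of_pos hT0 _
  have hLle : (L : ℝ) ≤ T ^ κ := by rw [hLdef]; exact Nat.floor_le hTk.le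
  have hLz : z1 + 1 ≤ L := by rw [hLdef]; exact Nat.le_floor (by push_cast; exact g5)
  have hL1 : 1 ≤ L := by omega
  have hDD : 0 ≤ DD s (δ T) := by have := DD_ge_one hs g8; linarith
  obtain ⟨hw1, hw2, hw3⟩ := hw
  have hwre : 0 < w.re := by linarith
  have hsp := ms_split hs g8 (N T) z L hL1 w hwre (by linarith) T hT0.le
  rw [← hP] at hsp
  have t1 := shift_int h3 T hT0.le L g6 (show w ∈ rect σ1 σ2 B from ⟨hw1, hw2, hw3⟩)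
  have hNL : (N T : ℝ) * (L * P : ℕ) ≤ T ^ (κ + 2 * η) := by
    rw [show κ + 2 * η = η + κ + η by ring, Real.rpow_add hT0, Real.rpow_add hT0]
    push_cast
    rw [← mul_assoc]
    exact mul_le_mul (mul_le_mul g7 hLle (Nat.cast_nonneg _) (by positivity)) g4 (Nat.cast_nonneg _) (by positivity)
  have hpw : ∀ b : ℕ, 1 ≤ b → (b : ℝ) ^ (-w.re) ≤ (b : ℝ) ^ (-(1 / 2 + (σ1 - 1 / 2))) := by
    intro b hb
    exact Real.rpow_le_rpow_of_exponent_le (by exact_mod_cast hb) (by linarith)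
  have t2 : ∫ t in (0 : ℝ)..T, ‖Pd s (δ T) (N T) t‖ ^ 2 * ‖Qd (S1 z L) (fun _ => 1) w t‖ ^ 2 ≤
      E0 * T * (ε1 * DD s (δ T) + ε1 * DD s (δ T)) := by
    rw [hE0]
    refine g1 (N T) (L * P) (δ T) g8 hNL (S1 z L) (fun _ => 1) w (fun b hb => ⟨S1_pos b hb, ?_⟩) (fun b => by simp)
      hwre.le _ ?_
    · unfold S1 at hb
      rw [Finset.mem_filter, Finset.mem_Icc] at hb
      exact hb.1.2.trans (Nat.le_mul_of_pos_right L hP1)
    · have h4 := hz0 (δ T) g8 (N T) (S1 z L) (fun b hb => lt_of_le_of_lt hz (S1_gt hb))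
        (fun b => ‖(1 : ℂ)‖ * (b : ℝ) ^ (-w.re)) 1 (fun b => by positivity) (fun b hb => by
          rw [norm_one, one_mul, one_mul]
          exact hpw b (S1_pos b hb))
      rw [one_pow, one_mul] at h4
      exact h4
  have t3 : ∫ t in (0 : ℝ)..T, ‖Pd s (δ T) (N T) t‖ ^ 2 * ‖Qd (Finset.Icc (L + 1) (L * P)) (cf z L) w t‖ ^ 2 ≤
      E0 * T * (ε1 * DD s (δ T) + ε1 * DD s (δ T)) := by
    rw [hE0]
    refine g2 (N T) (L * P) (δ T) g8 hNL (Finset.Icc (L + 1) (L * P)) (cf z L) w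
      (fun b hb => ⟨Ic_pos b hb, (Finset.mem_Icc.1 hb).2⟩) (fun b => cf_norm z L b) hwre.le _ ?_
    have h4 := hz1 (δ T) g8 (N T) (Finset.Icc (L + 1) (L * P)) (fun b hb => by
        have := (Finset.mem_Icc.1 hb).1
        omega)
      (fun b => ‖cf z L b‖ * (b : ℝ) ^ (-w.re)) (Cz z) (fun b => by positivity) (fun b hb => by
        exact mul_le_mul (cf_norm z L b) (hpw b (Ic_pos b hb)) (by positivity) (by linarith))
    refine h4.trans (le_of_eq ?_)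
    field_simp
  have t1' : 3 * (Cz z ^ 2 * (N T * DD s (δ T))) *
      (∫ t in (0 : ℝ)..T, ‖riemannZeta (w + t * I) - DN L (w + t * I)‖ ^ 2) ≤ ε / 2 * T * DD s (δ T) := by
    have h5 : 3 * (Cz z ^ 2 * (N T * DD s (δ T))) ≤ 3 * (Cz z ^ 2 * (T ^ η * DD s (δ T))) := by gcongr
    calc _ ≤ 3 * (Cz z ^ 2 * (T ^ η * DD s (δ T))) * (K * T ^ p) := by
          refine mul_le_mul h5 t1 ?_ (by positivity)
          exact intervalIntegral.integral_nonneg hT0.le fun t _ => by positivity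
      _ = (3 * Cz z ^ 2 * K * T ^ (p + η)) * DD s (δ T) := by rw [Real.rpow_add hT0]; ring
      _ ≤ _ := mul_le_mul_of_nonneg_right g3 hDD
  have hE1 : E0 * ε1 = ε / 24 := by rw [hε1]; field_simp
  have t4 : E0 * T * (ε1 * DD s (δ T) + ε1 * DD s (δ T)) = ε / 12 * T * DD s (δ T) := by
    have : E0 * T * (ε1 * DD s (δ T) + ε1 * DD s (δ T)) = 2 * (E0 * ε1) * T * DD s (δ T) := by ring
    rw [this, hE1]
    ring
  rw [t4] at t2 t3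
  refine hsp.trans ?_
  calc _ ≤ ε / 2 * T * DD s (δ T) + 3 * (ε / 12 * T * DD s (δ T)) + 3 * (ε / 12 * T * DD s (δ T)) :=
        add_le_add (add_le_add t1' (mul_le_mul_of_nonneg_left t2 (by norm_num)))
          (mul_le_mul_of_nonneg_left t3 (by norm_num))
    _ = _ := by ring

end Pool.Agent.X107.MU
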