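import Pool.Agent.X107.MU.MU7
import Pool.Agent.X110.NA6
import Pool.Agent.X110.NB2

/-! # The real moments near the line as a system of weights -/

set_option autoImplicit false

open Filter Topology MeasureTheory

namespace Pool.Agent.X107.MU

open Pool.Agent.X110.NA
open Pool.Agent.Y755 (DD DD_ge_one DD_asym)
open Pool.Agent.Y753.SH (S_DIAGR)
open Pool.Agent.Y753.NL (DN_Bd ip_DN_le)
open Pool.Agent.Y753.SHR
open Pool.Agent.H306R2 (dv dv_nonneg dv_one aF aF_pos)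

/-- a short length -/
noncomputable def N1 (δ : ℝ → ℝ) (T : ℝ) : ℕ := ⌊Real.exp (Real.log T / √(δ T * Real.log T))⌋₊

section len

variable {δ : ℝ → ℝ} (hδL : Tendsto (fun T : ℝ => δ T * Real.log T) atTop atTop)

include hδL in
lemma N1_pow {η : ℝ} (hη : 0 < η) : ∀ᶠ T : ℝ in atTop, (N1 δ T : ℝ) ≤ T ^ η := by
  filter_upwards [hδL.eventually_ge_atTop ((1 / η) ^ 2), eventually_gt_atTop (1 : ℝ)] with T h1 h2
  have hL : 0 < Real.log T := Real.log_pos h2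
  have h3 : 1 / η ≤ √(δ T * Real.log T) := Real.le_sqrt_of_sq_le h1
  have h4 : 0 < √(δ T * Real.log T) := lt_of_lt_of_le (by positivity) h3
  refine (Nat.floor_le (Real.exp_pos _).le).trans ?_
  rw [Real.rpow_def_of_pos (by linarith)]
  apply Real.exp_le_exp.2
  rw [div_le_iff₀ h4]
  have h5 : 1 ≤ η * √(δ T * Real.log T) := by
    have := mul_le_mul_of_nonneg_left h3 hη.le
    rwa [mul_one_div_cancel hη.ne'] at this
  nlinarith

include hδL in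
lemma N1_le : ∀ᶠ T : ℝ in atTop, (N1 δ T : ℝ) ≤ T := by
  filter_upwards [N1_pow hδL one_pos] with T hT
  rwa [Real.rpow_one] at hT

include hδL in
lemma N1_log (hδ : Tendsto δ atTop (𝓝 0)) : Tendsto (fun T => δ T * Real.log (N1 δ T)) atTop atTop := by
  have hpos := pos_path hδL
  have hlt : ∀ᶠ T in atTop, δ T < 1 := hδ.eventually (gt_mem_nhds (by norm_num))
  have h1 : Tendsto (fun T => √(δ T * Real.log T) - Real.log 2) atTop atTop :=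
    tendsto_atTop_add_const_right _ _ (Real.tendsto_sqrt_atTop.comp hδL)
  refine tendsto_atTop_mono' _ ?_ h1
  filter_upwards [hpos, hlt, hδL.eventually_ge_atTop 1, eventually_gt_atTop (Real.exp 1)] with T h2 h3 h4 h5
  have hL : 1 < Real.log T := by rwa [Real.lt_log_iff_exp_lt (by linarith [Real.exp_pos 1])]
  have hL0 : 0 < Real.log T := by linarith
  obtain ⟨x, hx⟩ : ∃ x, x = Real.log T / √(δ T * Real.log T) := ⟨_, rfl⟩
  have hs0 : 0 < √(δ T * Real.log T) := Real.sqrt_pos.2 (by linarith)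
  have hx0 : 0 < x := by rw [hx]; positivity
  have hxe : 1 < Real.exp x := Real.one_lt_exp_iff.2 hx0
  have h6 : Real.exp x / 2 ≤ (N1 δ T : ℝ) := by
    unfold N1
    rw [← hx]
    have h7 := Nat.lt_floor_add_one (Real.exp x)
    have h8 : (1 : ℝ) ≤ ⌊Real.exp x⌋₊ := by
      have : 1 ≤ ⌊Real.exp x⌋₊ := Nat.le_floor (by push_cast; exact hxe.le)
      exact_mod_cast this
    linarith
  have h9 : x - Real.log 2 ≤ Real.log (N1 δ T) := by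
    have := Real.log_le_log (by positivity) h6
    rwa [Real.log_div (Real.exp_pos x).ne' (by norm_num), Real.log_exp] at this
  have h10 : δ T * x = √(δ T * Real.log T) := by
    rw [hx, mul_div_assoc', div_eq_iff hs0.ne', Real.mul_self_sqrt (by linarith)]
  have h11 := mul_le_mul_of_nonneg_left h9 h2.le
  have h12 : δ T * Real.log 2 ≤ 1 * Real.log 2 :=
    mul_le_mul_of_nonneg_right h3.le (Real.log_pos (by norm_num)).le
  rw [mul_sub, h10] at h11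
  linarith

end len

/-- the polynomials are bounded in mean square -/
lemma pr_bound' {δ : ℝ → ℝ} (hδ0 : Tendsto δ atTop (𝓝 0)) (hpos : ∀ᶠ T in atTop, 0 < δ T) {s : ℝ} (hs : 0 < s)
    {N : ℝ → ℕ} (hN : ∀ᶠ T in atTop, (N T : ℝ) ≤ T) :
    ∃ B : ℝ, ∀ᶠ T in atTop, (2 * δ T) ^ (s ^ 2) / T *
      ∫ t in Set.Icc 0 T, ‖pr (δ T) (fun _ : Fin 1 => s) (fun _ => 0) (N T) t‖ ^ 2 ≤ B := by
  obtain ⟨C, hC, hmv⟩ := Pool.Agent.Y753.SH.mv_dom
  have hD := (DD_asym hs hpos hδ0).const_mul C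
  refine ⟨C * aF s + 1, ?_⟩
  filter_upwards [hpos, eventually_ge_atTop 1, hD.eventually (gt_mem_nhds (lt_add_one _)), hN] with T t1 t2 t3 t4
  have hT0 : 0 < T := by linarith
  have h1 := hmv (δ T) T (N T) _ _ t2 (Dr_Do (κ := fun _ : Fin 1 => s) (fun _ => hs.le) (fun j => (0:ℝ) * δ T) (N T)) (DN_Bd _ (N T)) t4
  have h2 : ∫ t in Set.Icc 0 T, ‖pr (δ T) (fun _ : Fin 1 => s) (fun _ => 0) (N T) t‖ ^ 2 ≤
      ∫ t in (0:ℝ)..(2 * T), ‖pr (δ T) (fun _ : Fin 1 => s) (fun _ => 0) (N T) t‖ ^ 2 := by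
    rw [intervalIntegral.integral_of_le (by linarith), ← integral_Icc_eq_integral_Ioc]
    refine setIntegral_mono_set (((pr_cont (δ T) (fun _ => hs.le) _ (N T)).norm.pow 2).continuousOn.integrableOn_compact isCompact_Icc)
      (Eventually.of_forall fun t => by positivity) (Eventually.of_forall fun t ht => ?_)
    have h3 : t ∈ Set.Icc 0 T := ht
    exact ⟨h3.1, by linarith [h3.2]⟩
  have h3 : ∑ _j : Fin 1, s = s := by simp
  rw [h3] at h1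
  have h4 : ∫ t in Set.Icc 0 T, ‖pr (δ T) (fun _ : Fin 1 => s) (fun _ => 0) (N T) t‖ ^ 2 ≤ C * (T * DD s (δ T)) := by
    refine h2.trans (h1.trans ?_)
    have := ip_DN_le hs t1 (N T)
    gcongr
  have h5 := mul_le_mul_of_nonneg_left h4 (by positivity : 0 ≤ (2 * δ T) ^ (s ^ 2) / T)
  refine h5.trans (le_trans (le_of_eq ?_) t3.le)
  field_simp

/-- weights for which the small primes have a limit law and the tails are small -/
structure Sys (s : ℝ) (Z0 : ℝ → ℝ → ℝ → ℝ → ℝ → ℕ) (Z : ℝ → ℝ → ℝ) (D : ℝ → Set ℝ) (c : ℝ → ℝ) : Prop where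
  c0 : ∀ᶠ T in atTop, 0 ≤ c T
  Zn : ∀ T t, 0 ≤ Z T t
  Zi : ∀ᶠ T in atTop, IntegrableOn (Z T) (D T)
  Dm : ∀ T, MeasurableSet (D T)
  law : ∀ (m : ℕ) (p : Fin m → ℕ), (∀ j, (p j).Prime) → Function.Injective p → ∀ F : (Fin m → ℂ) → ℂ,
    ContinuousOn F {z | ∀ j, ‖z j‖ = 1} →
    Tendsto (fun T => (c T : ℂ) * ∫ t in D T, ((Z T t : ℝ) : ℂ) * F fun j => ee (t * (Real.log (p j) / (2 * Real.pi)))) atTop
      (𝓝 (∫ x in Set.Icc (0 : Fin m → ℝ) 1, ((aF s * ∏ j, (Wp s (p j) (x j) / Lf s 0 (p j) 0 0) : ℝ) : ℂ) * F fun j => ee (x j)))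
  tail : ∀ a b B lam ε : ℝ, 1 / 2 < a → a ≤ b → b < 1 → 0 < B → 0 < lam → 0 < ε → ∀ z ≥ Z0 a b B lam ε,
    ∀ᶠ T in atTop, c T * ∫ t in D T ∩ {t | lam ≤ JG a b B z t}, Z T t ≤ ε

/-- the choice of the number of primes -/
lemma exists_Z0 : ∃ Z0 : ℝ → ℝ → ℝ → ℝ → ℝ → ℝ → ℕ, ∀ s a b B lam ε : ℝ, 0 < s → 1 / 2 < a → a ≤ b → b < 1 →
    0 < B → 0 < lam → 0 < ε → ∀ z ≥ Z0 s a b B lam ε, ∀ (N : ℝ → ℕ) (δ : ℝ → ℝ),
      (∀ η : ℝ, 0 < η → ∀ᶠ T : ℝ in atTop, (N T : ℝ) ≤ T ^ η) → (∀ᶠ T : ℝ in atTop, 0 < δ T) → ∀ᶠ T : ℝ in atTop,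
        ∫ t in (0 : ℝ)..T, ‖Pd s (δ T) (N T) t‖ ^ 2 * JG a b B z t ≤
          (lam * ε / (2 * (aF s + 1))) * T * DD s (δ T) := by
  have h : ∀ s a b B lam ε : ℝ, ∃ z0 : ℕ, 0 < s → 1 / 2 < a → a ≤ b → b < 1 →
    0 < B → 0 < lam → 0 < ε → ∀ z ≥ z0, ∀ (N : ℝ → ℕ) (δ : ℝ → ℝ),
      (∀ η : ℝ, 0 < η → ∀ᶠ T : ℝ in atTop, (N T : ℝ) ≤ T ^ η) → (∀ᶠ T : ℝ in atTop, 0 < δ T) → ∀ᶠ T : ℝ in atTop,
        ∫ t in (0 : ℝ)..T, ‖Pd s (δ T) (N T) t‖ ^ 2 * JG a b B z t ≤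
          (lam * ε / (2 * (aF s + 1))) * T * DD s (δ T) := by
    intro s a b B lam ε
    by_cases hh : 0 < s ∧ 1 / 2 < a ∧ a ≤ b ∧ b < 1 ∧ 0 < B ∧ 0 < lam ∧ 0 < ε
    · obtain ⟨h1, h2, h3, h4, h5, h6, h7⟩ := hh
      have ha := aF_pos h1
      obtain ⟨z0, hz0⟩ := JG_mean h1 h2 h3 h4 h5 (show 0 < lam * ε / (2 * (aF s + 1)) by positivity)
      exact ⟨z0, fun _ _ _ _ _ _ _ => hz0⟩
    · exact ⟨0, fun h1 h2 h3 h4 h5 h6 h7 => absurd ⟨h1, h2, h3, h4, h5, h6, h7⟩ hh⟩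
  choose Z0 hZ0 using h
  exact ⟨Z0, hZ0⟩

end Pool.Agent.X107.MU
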